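import Pool.Agent.Lib.MP_086785_gt.CB.Lin

/-! Project CB: the transpose of `S`, and identities for `vec`, `perp`, `ww`. -/

set_option autoImplicit false

namespace Pool.Agent.Lib.MP_086785_gt.CB

open Set Filter Topology Finset
open scoped ContDiff

theorem sum11 (f : Fin 11 → ℝ) :
    ∑ i, f i = f 0 + f 1 + f 2 + f 3 + f 4 + f 5 + f 6 + f 7 + f 8 + f 9 + f 10 := by
  rw [Fin.sum_univ_castSucc, Fin.sum_univ_castSucc, Fin.sum_univ_castSucc, Fin.sum_univ_eight]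
  rfl

theorem LT_adj (m : Fin 6 → ℝ) (s : Fin 3 → ℝ) (y : Fin 11 → ℝ) :
    dot (LT m s) y = dot s (LL y m) := by
  rw [dot, dot, sum11, Fin.sum_univ_three]
  simp [LT, LL]
  ring

theorem RR_adj (v : Fin 3 → ℝ) (s : Fin 3 → ℝ) (y : Fin 11 → ℝ) :
    dot (RR v s) y = dot s (S y v) := LT_adj _ _ _

theorem LT_add (m : Fin 6 → ℝ) (s s' : Fin 3 → ℝ) : LT m (s + s') = LT m s + LT m s' := by
  funext i
  fin_cases i <;> simp [LT] <;> ring

theorem LT_smul (c : ℝ) (m : Fin 6 → ℝ) (s : Fin 3 → ℝ) : LT m (c • s) = c • LT m s := by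
  funext i
  fin_cases i <;> simp [LT] <;> ring

/-- the first eigenvalue of `s ↦ S (RR v s) v` -/
def D1 (v : Fin 3 → ℝ) : ℝ := (v 0 ^ 2 + (v 1 ^ 2 + v 2 ^ 2)) * (v 0 ^ 4 + (v 1 ^ 2 + v 2 ^ 2) ^ 2)

/-- the second eigenvalue of `s ↦ S (RR v s) v` -/
def D3 (v : Fin 3 → ℝ) : ℝ :=
  (v 1 ^ 2 + v 2 ^ 2) * (v 0 ^ 4 + (v 1 ^ 2 + v 2 ^ 2) ^ 2) +
    v 0 ^ 2 * (v 0 ^ 2 - (v 1 ^ 2 + v 2 ^ 2)) ^ 2

theorem S_RR (v s : Fin 3 → ℝ) : S (RR v s) v = ![D1 v * s 0, D1 v * s 1, D3 v * s 2] := by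
  funext i
  fin_cases i
  · simp [S, RR, LL, LT, mono, D1] ; ring
  · simp [S, RR, LL, LT, mono, D1] ; ring
  · simp [S, RR, LL, LT, mono, D3] ; ring

theorem ww_vec (u a : Fin 2 → ℝ) (hu : dot u u = 1) : ww (vec u a) u = vec u (perp a) := by
  have h : u 0 * u 0 + u 1 * u 1 = 1 := by simpa [dot, Fin.sum_univ_succ] using hu
  funext i
  fin_cases i
  · simp [ww, vec, perp]
    linear_combination (- a 1) * h
  · simp [ww, vec, perp]
  · simp [ww, vec, perp]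

theorem ww_vv (x : XX) (hx : x ∈ Mt) : ww (vv x) x.2.1 = wv x := ww_vec _ _ hx.2.1

theorem dot_vec (u a b : Fin 2 → ℝ) (hu : dot u u = 1) : dot (vec u a) (vec u b) = dot a b := by
  have h : u 0 * u 0 + u 1 * u 1 = 1 := by simpa [dot, Fin.sum_univ_succ] using hu
  simp [dot, vec, Fin.sum_univ_succ]
  linear_combination (a 1 * b 1) * h

theorem dvec_perp (u a : Fin 2 → ℝ) (δ : Fin 2 → ℝ) (θ : ℝ) :
    dvec u a δ (θ • perp a) = θ • vec u (perp a) + ![0, a 1 * δ 0, a 1 * δ 1] := by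
  funext i
  fin_cases i <;> simp [dvec, vec, perp] <;> ring

theorem eq_smul_perp (a b : Fin 2 → ℝ) (ha : dot a a = 1) (hab : dot a b = 0) :
    b = dot (perp a) b • perp a := by
  have h : a 0 * a 0 + a 1 * a 1 = 1 := by simpa [dot, Fin.sum_univ_succ] using ha
  have h' : a 0 * b 0 + a 1 * b 1 = 0 := by simpa [dot, Fin.sum_univ_succ] using hab
  funext i
  fin_cases i
  · simp [dot, perp, Fin.sum_univ_succ]
    linear_combination (- b 0) * h + a 0 * h'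
  · simp [dot, perp, Fin.sum_univ_succ]
    linear_combination (- b 1) * h + a 1 * h'

end Pool.Agent.Lib.MP_086785_gt.CB
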