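import Pool.Agent.Lib.MP_086785_gt.CB.Stmts

/-! Project CB, ARC: reparametrisation of curves by the angle of the last component. -/

set_option autoImplicit false

namespace Pool.Agent.Lib.MP_086785_gt.CB

open Set Filter Topology Finset
open scoped ContDiff

namespace Arc

theorem decomp (a b : Fin 2 → ℝ) (ha : dot a a = 1) :
    b = dot a b • a + dot (perp a) b • perp a := by
  have h : a 0 * a 0 + a 1 * a 1 = 1 := by simpa [dot, Fin.sum_univ_succ] using ha
  funext i
  fin_cases i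
  · simp [dot, perp, Fin.sum_univ_succ]
    linear_combination (- b 0) * h
  · simp [dot, perp, Fin.sum_univ_succ]
    linear_combination (- b 1) * h

theorem sq_sum (a b : Fin 2 → ℝ) (ha : dot a a = 1) (hb : dot b b = 1) :
    dot a b ^ 2 + dot (perp a) b ^ 2 = 1 := by
  have h : a 0 * a 0 + a 1 * a 1 = 1 := by simpa [dot, Fin.sum_univ_succ] using ha
  have h' : b 0 * b 0 + b 1 * b 1 = 1 := by simpa [dot, Fin.sum_univ_succ] using hb
  simp [dot, perp, Fin.sum_univ_succ]
  linear_combination (b 0 * b 0 + b 1 * b 1) * h + h'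

theorem dot_perp (a : Fin 2 → ℝ) : dot (perp a) a = 0 := by
  simp [dot, perp, Fin.sum_univ_succ]
  ring

end Arc

open Arc in
theorem stArc (h1 : StGlo) (h2 : StRep) : StArc := by
  intro x X hx hX h0 hM hd
  set a := x.2.2 with ha
  have haa : dot a a = 1 := hx.2.2.1
  set g : ℝ → ℝ := fun t => dot (perp a) (X t).2.2 with hg
  set k : ℝ → ℝ := fun t => dot a (X t).2.2 with hk
  have hb : ContDiff ℝ ∞ (fun t => (X t).2.2) := contDiff_snd.comp (contDiff_snd.comp hX)
  have hbi : ∀ i : Fin 2, ContDiff ℝ ∞ (fun t => (X t).2.2 i) := fun i => contDiff_pi.1 hb i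
  have hgs : ContDiff ℝ ∞ g := by
    have : g = fun t => perp a 0 * (X t).2.2 0 + perp a 1 * (X t).2.2 1 := by
      funext t
      simp [hg, dot, Fin.sum_univ_two]
    rw [this]
    exact (contDiff_const.mul (hbi 0)).add (contDiff_const.mul (hbi 1))
  have hks : ContDiff ℝ ∞ k := by
    have : k = fun t => a 0 * (X t).2.2 0 + a 1 * (X t).2.2 1 := by
      funext t
      simp [hk, dot, Fin.sum_univ_two]
    rw [this]
    exact (contDiff_const.mul (hbi 0)).add (contDiff_const.mul (hbi 1))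
  have hg0 : g 0 = 0 := by
    simp only [hg, h0]
    exact dot_perp a
  have hk0 : k 0 = 1 := by
    simp only [hk, h0]
    exact haa
  -- derivative of g
  have hXd : HasDerivAt X (deriv X 0) 0 :=
    (hX.differentiable (by simp)).differentiableAt.hasDerivAt
  have hbd : HasDerivAt (fun t => (X t).2.2) (deriv X 0).2.2 0 := by
    have h3 : HasFDerivAt (fun z : XX => z.2.2)
        ((ContinuousLinearMap.snd ℝ (Fin 2 → ℝ) (Fin 2 → ℝ)).comp
          (ContinuousLinearMap.snd ℝ (Fin 11 → ℝ) ((Fin 2 → ℝ) × (Fin 2 → ℝ)))) (X 0) :=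
      ((ContinuousLinearMap.snd ℝ (Fin 2 → ℝ) (Fin 2 → ℝ)).comp
          (ContinuousLinearMap.snd ℝ (Fin 11 → ℝ) ((Fin 2 → ℝ) × (Fin 2 → ℝ)))).hasFDerivAt
    exact h3.comp_hasDerivAt 0 hXd
  have hbdi : ∀ i : Fin 2, HasDerivAt (fun t => (X t).2.2 i) ((deriv X 0).2.2 i) 0 :=
    fun i => (hasDerivAt_pi.1 hbd) i
  have hgd : HasDerivAt g (dot (perp a) (deriv X 0).2.2) 0 := by
    have h3 : g = fun t => perp a 0 * (X t).2.2 0 + perp a 1 * (X t).2.2 1 := by
      funext t
      simp [hg, dot, Fin.sum_univ_two]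
    have h4 : dot (perp a) (deriv X 0).2.2 =
        perp a 0 * (deriv X 0).2.2 0 + perp a 1 * (deriv X 0).2.2 1 := by
      simp [dot, Fin.sum_univ_two]
    rw [h3, h4]
    exact ((hbdi 0).const_mul _).add ((hbdi 1).const_mul _)
  set U : Set ℝ := {t | -1 < g t ∧ g t < 1} with hU
  have hUo : IsOpen U := (isOpen_lt continuous_const hgs.continuous).inter
    (isOpen_lt hgs.continuous continuous_const)
  have hU0 : U ∈ 𝓝 (0 : ℝ) := hUo.mem_nhds (by simp [hU, hg0])
  have hs0 : ContDiffOn ℝ ∞ (fun t => Real.arcsin (g t)) U := by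
    intro t ht
    have h3 : ContDiffAt ℝ ∞ Real.arcsin (g t) :=
      Real.contDiffAt_arcsin (ne_of_gt ht.1) (ne_of_lt ht.2)
    exact (h3.comp t hgs.contDiffAt).contDiffWithinAt
  obtain ⟨σ, hσ, hσe⟩ := h1 ℝ (fun t => Real.arcsin (g t)) U hU0 hs0
  have hσ0 : σ 0 = 0 := by
    rw [hσe.eq_of_nhds]
    simp [hg0]
  have hσd : deriv σ 0 ≠ 0 := by
    rw [hσe.deriv_eq]
    have h3 : HasDerivAt Real.arcsin (1 / √(1 - (g 0) ^ 2)) (g 0) :=
      Real.hasDerivAt_arcsin (by rw [hg0]; norm_num) (by rw [hg0]; norm_num)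
    have h4 := (h3.comp 0 hgd).deriv
    change deriv (fun t => Real.arcsin (g t)) 0 = _ at h4
    rw [h4, hg0]
    simpa using hd
  obtain ⟨τ, hτ, hτ0, hτe⟩ := h2 σ hσ hσ0 hσd
  refine ⟨τ, hτ, hτ0, ?_⟩
  have hτt : Tendsto τ (𝓝 0) (𝓝 0) := by
    have := hτ.continuous.tendsto 0
    rwa [hτ0] at this
  have hkt : Tendsto k (𝓝 0) (𝓝 1) := by
    have := hks.continuous.tendsto 0
    rwa [hk0] at this
  have hkpos : ∀ᶠ t in 𝓝 (0 : ℝ), 0 < k t := hkt.eventually (lt_mem_nhds one_pos)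
  have hcos : ∀ᶠ s in 𝓝 (0 : ℝ), 0 < Real.cos s := by
    have : Tendsto Real.cos (𝓝 0) (𝓝 1) := by
      have := Real.continuous_cos.tendsto 0
      rwa [Real.cos_zero] at this
    exact this.eventually (lt_mem_nhds one_pos)
  filter_upwards [hτe, hτt.eventually hσe, hτt.eventually hM, hτt.eventually hkpos, hcos,
    hτt.eventually hU0] with s e1 e2 e3 e4 e5 e6
  rw [e2] at e1
  have e7 : g (τ s) = Real.sin s :=
    (Real.sin_arcsin e6.1.le e6.2.le).symm.trans (congrArg Real.sin e1)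
  have e8 := sq_sum a (X (τ s)).2.2 haa e3.2.2.1
  have e9 : k (τ s) = Real.cos s := by
    have h5 : k (τ s) ^ 2 + g (τ s) ^ 2 = 1 := e8
    rw [e7] at h5
    have h6 := Real.sin_sq_add_cos_sq s
    have h7 : k (τ s) ^ 2 = Real.cos s ^ 2 := by linarith
    exact (pow_left_inj₀ e4.le e5.le two_ne_zero).1 h7
  have e10 := decomp a (X (τ s)).2.2 haa
  rw [e10]
  change k (τ s) • a + g (τ s) • perp a = _
  rw [e9, e7]

end Pool.Agent.Lib.MP_086785_gt.CB
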