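import Pool.Agent.Lib.MP_086785_gt.CB.Stmts

/-! Project CB: bootstrap of the jets. -/

set_option autoImplicit false

namespace Pool.Agent.Lib.MP_086785_gt.CB

open Set Filter Topology Finset
open scoped ContDiff

namespace Boot

/-- derivatives of a linear image -/
theorem clm {E F : Type*} [NormedAddCommGroup E] [NormedSpace ℝ E] [NormedAddCommGroup F]
    [NormedSpace ℝ F] (L : E →L[ℝ] F) {f : ℝ → E} (hf : ContDiff ℝ ∞ f) (n : ℕ) (x : ℝ) :
    iteratedDeriv n (fun s => L (f s)) x = L (iteratedDeriv n f x) := by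
  rw [iteratedDeriv_eq_iteratedFDeriv, iteratedDeriv_eq_iteratedFDeriv]
  have h := L.iteratedFDeriv_comp_left (f := f) (x := x) (i := n) (n := n)
    (hf.contDiffAt.of_le (by exact_mod_cast le_top)) le_rfl
  have h2 : (fun s => L (f s)) = L ∘ f := rfl
  rw [h2, h]
  rfl

/-- the circle through `a`, `b` -/
noncomputable def cs {E : Type*} [NormedAddCommGroup E] [NormedSpace ℝ E] (a b : E) (s : ℝ) : E :=
  Real.cos s • a + Real.sin s • b

theorem cs_deriv {E : Type*} [NormedAddCommGroup E] [NormedSpace ℝ E] (a b : E) :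
    deriv (cs a b) = cs b (-a) := by
  funext s
  have h1 : HasDerivAt (cs a b) ((-Real.sin s) • a + Real.cos s • b) s :=
    ((Real.hasDerivAt_cos s).smul_const a).add ((Real.hasDerivAt_sin s).smul_const b)
  rw [h1.deriv, cs, smul_neg, neg_smul, add_comm]

theorem cs_iter {E : Type*} [NormedAddCommGroup E] [NormedSpace ℝ E] (n : ℕ) :
    ∀ (a b : E), ‖a‖ ≤ 1 → ‖b‖ ≤ 1 → ‖iteratedDeriv n (cs a b) 0‖ ≤ 1 := by
  induction n with
  | zero =>
    intro a b ha hb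
    rw [iteratedDeriv_zero, cs, Real.cos_zero, Real.sin_zero, one_smul, zero_smul, add_zero]
    exact ha
  | succ n ih =>
    intro a b ha hb
    rw [iteratedDeriv_succ', cs_deriv]
    exact ih b (-a) hb (by rwa [norm_neg])

theorem norm_le_of_dot {n : ℕ} {a : Fin n → ℝ} (h : dot a a = 1) : ‖a‖ ≤ 1 := by
  rw [pi_norm_le_iff_of_nonneg zero_le_one]
  intro i
  rw [Real.norm_eq_abs, abs_le_one_iff_mul_self_le_one, ← h]
  exact Finset.single_le_sum (f := fun i => a i * a i) (fun j _ => mul_self_nonneg _)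
    (Finset.mem_univ i)

theorem norm_perp {a : Fin 2 → ℝ} (h : dot a a = 1) : ‖perp a‖ ≤ 1 := by
  apply norm_le_of_dot
  rw [← h]
  simp [dot, perp, Fin.sum_univ_succ]
  ring

theorem contDiff_phi : ContDiff ℝ ∞ phi := by
  unfold phi
  refine ContDiff.prodMk ?_ (ContDiff.prodMk ?_ ?_)
  · unfold op
    rw [contDiff_pi]
    intro i
    rw [contDiff_pi]
    intro j
    fun_prop
  · unfold op
    rw [contDiff_pi]
    intro i
    rw [contDiff_pi]
    intro j
    fun_prop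
  · unfold op
    rw [contDiff_pi]
    intro i
    rw [contDiff_pi]
    intro j
    have h : ∀ i : Fin 3, ContDiff ℝ ∞ fun x : XX => vv x i := by
      intro i
      fin_cases i <;> simp [vv, vec] <;> fun_prop
    exact (h i).mul (h j)

/-- the hypotheses -/
def Hy (δ : ℝ) (x : XX) (g : EE → FF) (X : ℝ → XX) : Prop :=
  0 < δ ∧ x ∈ Mt ∧ ContDiff ℝ ∞ g ∧ (∀ i ≤ 3, ‖iteratedFDeriv ℝ i g (phi x)‖ ≤ δ) ∧
    ContDiff ℝ ∞ X ∧ X 0 = x ∧ (∀ᶠ s in 𝓝 (0 : ℝ), X s ∈ Mt ∧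
      (X s).2.2 = Real.cos s • x.2.2 + Real.sin s • perp x.2.2) ∧
    ((fun s => f0 (phi (X s)) + g (phi (X s)) - (f0 (phi x) + g (phi x))) =O[𝓝 0]
      fun s : ℝ => s ^ 4)

theorem comp1 {X : ℝ → XX} (hX : ContDiff ℝ ∞ X) (n : ℕ) :
    iteratedDeriv n (fun s => (X s).1) 0 = (iteratedDeriv n X 0).1 :=
  clm (ContinuousLinearMap.fst ℝ _ _) hX n 0

theorem comp2 {X : ℝ → XX} (hX : ContDiff ℝ ∞ X) (n : ℕ) :
    iteratedDeriv n (fun s => (X s).2.1) 0 = (iteratedDeriv n X 0).2.1 :=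
  clm ((ContinuousLinearMap.fst ℝ (Fin 2 → ℝ) (Fin 2 → ℝ)).comp
    (ContinuousLinearMap.snd ℝ (Fin 11 → ℝ) ((Fin 2 → ℝ) × (Fin 2 → ℝ)))) hX n 0

theorem comp3 {X : ℝ → XX} (hX : ContDiff ℝ ∞ X) (n : ℕ) :
    iteratedDeriv n (fun s => (X s).2.2) 0 = (iteratedDeriv n X 0).2.2 :=
  clm ((ContinuousLinearMap.snd ℝ (Fin 2 → ℝ) (Fin 2 → ℝ)).comp
    (ContinuousLinearMap.snd ℝ (Fin 11 → ℝ) ((Fin 2 → ℝ) × (Fin 2 → ℝ)))) hX n 0

/-- the derivatives of the last component -/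
theorem last_le {δ : ℝ} {x : XX} {g : EE → FF} {X : ℝ → XX} (h : Hy δ x g X) (n : ℕ) :
    ‖(iteratedDeriv n X 0).2.2‖ ≤ 1 := by
  obtain ⟨-, hx, -, -, hX, -, hev, -⟩ := h
  rw [← comp3 hX]
  have h1 : (fun s => (X s).2.2) =ᶠ[𝓝 0] cs x.2.2 (perp x.2.2) := hev.mono fun s hs => hs.2
  rw [h1.iteratedDeriv_eq]
  exact cs_iter n _ _ (norm_le_of_dot hx.2.2.1) (norm_perp hx.2.2.1)

theorem norm_iter {δ : ℝ} {x : XX} {g : EE → FF} {X : ℝ → XX} (h : Hy δ x g X) (n : ℕ) {B : ℝ}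
    (h1 : ‖iteratedDeriv n (fun s => (X s).1) 0‖ ≤ B)
    (h2 : ‖iteratedDeriv n (fun s => (X s).2.1) 0‖ ≤ B) :
    ‖iteratedDeriv n X 0‖ ≤ max B 1 := by
  have hX := h.2.2.2.2.1
  rw [comp1 hX] at h1
  rw [comp2 hX] at h2
  rw [Prod.norm_def, Prod.norm_def]
  exact max_le (h1.trans (le_max_left _ _)) (max_le (h2.trans (le_max_left _ _))
    ((last_le h n).trans (le_max_right _ _)))

theorem step (h1 : StO4) (h2 : StJetComp) (h3 : StJetOp) (h4 : StJetPhi) (m : ℕ) (hm : m ≤ 3) :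
    ∃ C : ℝ, 1 ≤ C ∧ ∃ δ₀ : ℝ, 0 < δ₀ ∧ δ₀ ≤ 1 ∧ ∀ (δ : ℝ) (x : XX) (g : EE → FF) (X : ℝ → XX),
      Hy δ x g X → δ ≤ δ₀ → ∀ i, 1 ≤ i → i ≤ m →
        ‖iteratedDeriv i (fun s => (X s).1) 0‖ ≤ C * δ ∧
        ‖iteratedDeriv i (fun s => (X s).2.1) 0‖ ≤ C * δ := by
  induction m with
  | zero => exact ⟨1, le_rfl, 1, one_pos, le_rfl, fun δ x g X _ _ i hi hi' => by omega⟩
  | succ m ih =>
    obtain ⟨C, hC, δ₀, hδ₀, hδ₀1, hI⟩ := ih (by omega)
    obtain ⟨C1, hC1, hP⟩ := h4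
    obtain ⟨Ca, hCa, hOa⟩ := h3 11
    obtain ⟨Cb, hCb, hOb⟩ := h3 2
    set Cm := max Ca Cb with hCm
    have hCm0 : 0 < Cm := lt_max_of_lt_left hCa
    set B := max 1 (2 * C1) with hB
    have hB1 : 1 ≤ B := le_max_left _ _
    set C' := 2 * Cm * (6 * (B ^ 3 + 2 * C1) + C) with hC'
    have hC'0 : 0 ≤ C' := by positivity
    refine ⟨max C C', hC.trans (le_max_left _ _), min δ₀ (min C⁻¹ (12 * Cm * C1)⁻¹),
      lt_min hδ₀ (lt_min (by positivity) (by positivity)), (min_le_left _ _).trans hδ₀1, ?_⟩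
    intro δ x g X hy hδ i hi him
    have hδ1 : δ ≤ δ₀ := hδ.trans (min_le_left _ _)
    have hδ2 : δ ≤ C⁻¹ := hδ.trans ((min_le_right _ _).trans (min_le_left _ _))
    have hδ3 : δ ≤ (12 * Cm * C1)⁻¹ := hδ.trans ((min_le_right _ _).trans (min_le_right _ _))
    have hIi := hI δ x g X hy hδ1
    have hδ0 : 0 < δ := hy.1
    have hCδ : C * δ ≤ 1 := by
      calc C * δ ≤ C * C⁻¹ := by gcongr
        _ = 1 := mul_inv_cancel₀ (by positivity)
    rcases Nat.lt_or_ge i (m + 1) with hlt | hge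
    · obtain ⟨ha, hb⟩ := hIi i hi (by omega)
      have : C * δ ≤ max C C' * δ := by gcongr; exact le_max_left _ _
      exact ⟨ha.trans this, hb.trans this⟩
    obtain rfl : i = m + 1 := le_antisymm him hge
    set A := max ‖iteratedDeriv (m + 1) (fun s => (X s).1) 0‖
      ‖iteratedDeriv (m + 1) (fun s => (X s).2.1) 0‖ with hA
    have hA0 : 0 ≤ A := (norm_nonneg _).trans (le_max_left _ _)
    have hlow : ∀ i, 1 ≤ i → i < m + 1 → ‖iteratedDeriv i X 0‖ ≤ 1 := by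
      intro i hi1 hi2
      obtain ⟨ha, hb⟩ := hIi i hi1 (by omega)
      refine (norm_iter hy i ha hb).trans (max_le hCδ le_rfl)
    have htop : ‖iteratedDeriv (m + 1) X 0‖ ≤ 1 + A := by
      refine (norm_iter hy (m + 1) (le_max_left _ _) (le_max_right _ _)).trans
        (max_le (by linarith) (by linarith))
    obtain ⟨-, hx, hg, hgδ, hX, hX0, hev, hO⟩ := hy
    have hφ : ContDiff ℝ ∞ (fun s => phi (X s)) := contDiff_phi.comp hX
    have hφlow : ∀ i, 1 ≤ i → i < m + 1 → ‖iteratedDeriv i (fun s => phi (X s)) 0‖ ≤ B := by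
      intro i hi1 hi2
      refine (hP x X i hx hX hX0 hi1 (by omega) (fun j hj1 hj2 => hlow j hj1 (by omega))).trans ?_
      refine le_trans ?_ (le_max_right _ _)
      have := hlow i hi1 hi2
      nlinarith
    have hφtop : ‖iteratedDeriv (m + 1) (fun s => phi (X s)) 0‖ ≤ C1 * (2 + A) := by
      refine (hP x X (m + 1) hx hX hX0 (by omega) hm hlow).trans ?_
      nlinarith
    have hgφ : ‖iteratedDeriv (m + 1) (fun s => g (phi (X s))) 0‖ ≤
        6 * δ * (B ^ 3 + C1 * (2 + A)) := by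
      refine (h2 EE FF g (fun s => phi (X s)) (m + 1) δ B hg hφ (by omega) hm hB1 hδ0.le
        (by
          intro i hi
          simp only [hX0]
          exact hgδ i (by omega)) hφlow).trans ?_
      gcongr
    have hf0φ : ContDiff ℝ ∞ (fun s => f0 (phi (X s))) := f0.contDiff.comp hφ
    have hgφc : ContDiff ℝ ∞ (fun s => g (phi (X s))) := hg.comp hφ
    have hF := h1 FF (fun s => f0 (phi (X s)) + g (phi (X s)) - (f0 (phi x) + g (phi x)))
      ((hf0φ.add hgφc).sub contDiff_const) hO (m + 1) hm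
    have hsum : iteratedDeriv (m + 1) (fun s => f0 (phi (X s))) 0 =
        - iteratedDeriv (m + 1) (fun s => g (phi (X s))) 0 := by
      have e1 : iteratedDeriv (m + 1)
          (fun s => f0 (phi (X s)) + g (phi (X s)) - (f0 (phi x) + g (phi x))) 0 =
          iteratedDeriv (m + 1) (fun s => f0 (phi (X s))) 0 +
          iteratedDeriv (m + 1) (fun s => g (phi (X s))) 0 := by
        have ha : ContDiffAt ℝ ((m + 1 : ℕ) : WithTop ℕ∞) (fun s => f0 (phi (X s))) 0 :=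
          hf0φ.contDiffAt.of_le (by exact_mod_cast le_top)
        have hb : ContDiffAt ℝ ((m + 1 : ℕ) : WithTop ℕ∞) (fun s => g (phi (X s))) 0 :=
          hgφc.contDiffAt.of_le (by exact_mod_cast le_top)
        rw [iteratedDeriv_fun_sub (ha.add hb) contDiffAt_const, iteratedDeriv_fun_add ha hb,
          iteratedDeriv_const, if_neg (Nat.succ_ne_zero m), sub_zero]
      rw [e1] at hF
      exact eq_neg_of_add_eq_zero_left hF
    have hf0le : ‖iteratedDeriv (m + 1) (fun s => f0 (phi (X s))) 0‖ ≤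
        6 * δ * (B ^ 3 + C1 * (2 + A)) := by
      rw [hsum, norm_neg]
      exact hgφ
    have hopy : ‖iteratedDeriv (m + 1) (fun s => op (X s).1) 0‖ ≤
        6 * δ * (B ^ 3 + C1 * (2 + A)) := by
      have e1 : iteratedDeriv (m + 1) (fun s => op (X s).1) 0 =
          (iteratedDeriv (m + 1) (fun s => f0 (phi (X s))) 0).1 :=
        clm (ContinuousLinearMap.fst ℝ (Fin 11 → Fin 11 → ℝ) (Fin 2 → Fin 2 → ℝ)) hf0φ (m + 1) 0
      rw [e1]
      exact (norm_fst_le _).trans hf0le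
    have hopu : ‖iteratedDeriv (m + 1) (fun s => op (X s).2.1) 0‖ ≤
        6 * δ * (B ^ 3 + C1 * (2 + A)) := by
      have e1 : iteratedDeriv (m + 1) (fun s => op (X s).2.1) 0 =
          (iteratedDeriv (m + 1) (fun s => f0 (phi (X s))) 0).2 :=
        clm (ContinuousLinearMap.snd ℝ (Fin 11 → Fin 11 → ℝ) (Fin 2 → Fin 2 → ℝ)) hf0φ (m + 1) 0
      rw [e1]
      exact (norm_snd_le _).trans hf0le
    have hya : ‖iteratedDeriv (m + 1) (fun s => (X s).1) 0‖ ≤
        Cm * (6 * δ * (B ^ 3 + C1 * (2 + A)) + C * δ) := by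
      refine (hOa (fun s => (X s).1) (m + 1) (C * δ) (contDiff_fst.comp hX)
        (hev.mono fun s hs => hs.1.1) (by omega) hm (by positivity) hCδ
        (fun i h1 h2 => (hIi i h1 (by omega)).1)).trans ?_
      have := le_max_left Ca Cb
      gcongr
    have hyb : ‖iteratedDeriv (m + 1) (fun s => (X s).2.1) 0‖ ≤
        Cm * (6 * δ * (B ^ 3 + C1 * (2 + A)) + C * δ) := by
      refine (hOb (fun s => (X s).2.1) (m + 1) (C * δ)
        (contDiff_fst.comp (contDiff_snd.comp hX))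
        (hev.mono fun s hs => hs.1.2.1) (by omega) hm (by positivity) hCδ
        (fun i h1 h2 => (hIi i h1 (by omega)).2)).trans ?_
      have := le_max_right Ca Cb
      gcongr
    have hAle : A ≤ Cm * (6 * δ * (B ^ 3 + C1 * (2 + A)) + C * δ) := max_le hya hyb
    have h12 : 12 * Cm * C1 * δ ≤ 1 := by
      calc 12 * Cm * C1 * δ ≤ 12 * Cm * C1 * (12 * Cm * C1)⁻¹ := by gcongr
        _ = 1 := mul_inv_cancel₀ (by positivity)
    have hAf : A ≤ C' * δ := by
      have e : Cm * (6 * δ * (B ^ 3 + C1 * (2 + A)) + C * δ) =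
          C' * δ / 2 + (12 * Cm * C1 * δ) * A / 2 := by
        rw [hC']
        ring
      rw [e] at hAle
      have : (12 * Cm * C1 * δ) * A ≤ 1 * A := by gcongr
      linarith
    have hfin : A ≤ max C C' * δ := by
      refine hAf.trans ?_
      gcongr
      exact le_max_right _ _
    exact ⟨(le_max_left _ _).trans hfin, (le_max_right _ _).trans hfin⟩

end Boot

open Boot in
theorem stBoot (h1 : StO4) (h2 : StJetComp) (h3 : StJetOp) (h4 : StJetPhi) : StBoot := by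
  obtain ⟨C, hC, δ₀, hδ₀, -, hI⟩ := step h1 h2 h3 h4 3 le_rfl
  refine ⟨C, by linarith, δ₀, hδ₀, ?_⟩
  intro δ x g X hδ hδ0 hx hg hgδ hX hX0 hev hO i hi hi3
  exact hI δ x g X ⟨hδ, hx, hg, hgδ, hX, hX0, hev, hO⟩ hδ0 i hi hi3

end Pool.Agent.Lib.MP_086785_gt.CB
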