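import Pool.Agent.Lib.MP_086785_gt.CB.Stmts

/-! Project CB, module CLO: closeness of the data of a perturbation of `HF`. -/

set_option autoImplicit false

namespace Pool.Agent.Lib.MP_086785_gt.CB

open Set Filter Topology Finset
open scoped ContDiff

namespace Clo

theorem cl_add {i : ℕ} {a b : ℝ} {g g' : EE → FF} (h : Cl i a g) (h' : Cl i b g') :
    Cl i (a + b) (fun x => g x + g' x) := by
  refine ⟨h.1.add h'.1, fun z hz j hj => ?_⟩
  have h1 : iteratedFDeriv ℝ j (fun x => g x + g' x) z =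
      iteratedFDeriv ℝ j g z + iteratedFDeriv ℝ j g' z := by
    exact iteratedFDeriv_add_apply (h.1.contDiffAt.of_le (by exact_mod_cast le_top))
      (h'.1.contDiffAt.of_le (by exact_mod_cast le_top))
  rw [h1]
  exact (norm_add_le _ _).trans (add_le_add (h.2 z hz j hj) (h'.2 z hz j hj))

theorem cl_mono {i j : ℕ} {a b : ℝ} {g : EE → FF} (h : Cl i a g) (hij : j ≤ i) (hab : a ≤ b) :
    Cl j b g := ⟨h.1, fun z hz k hk => (h.2 z hz k (hk.trans hij)).trans hab⟩

end Clo

open Clo in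
theorem stClo (h1 : StHF) (h2 : StHFd) (h3 : StVfc) (h4 : StSlice) : StClo := by
  intro δ hδ
  obtain ⟨δ', hδ', hV⟩ := h3 (δ / 2) (half_pos hδ)
  refine ⟨min (δ / 2) δ', lt_min (half_pos hδ) hδ', δ / 2, half_pos hδ, ?_⟩
  intro β g g' ε hβ hβ0 hε hε1 hg hg' hgd H hH
  have cg : ContDiff ℝ ∞ (fun x => f0 x + g x) := f0.contDiff.add hg.1
  obtain ⟨_, e2, e3, _⟩ := h1 β (fun x => f0 x + g x) hβ cg
  have hHe : H = fun z => HF β (fun x => f0 x + g x) ε z + g' z := funext hH
  have cHF := e2 ε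
  have cH : ContDiff ℝ ∞ H := by rw [hHe]; exact cHF.add hg'
  have cin : ContDiff ℝ ∞ (fun p : EE => (p, (0 : Fin 2 → ℝ))) := contDiff_id.prodMk contDiff_const
  have cH0 : ContDiff ℝ ∞ (fun p => H (p, 0)) := cH.comp cin
  have cfd : ContDiff ℝ ∞ (fun z => fderiv ℝ H z) := cH.fderiv_right (m := ∞) (by simp)
  have cfdg : ContDiff ℝ ∞ (fun z => fderiv ℝ g' z) := hg'.fderiv_right (m := ∞) (by simp)
  have cHj : ∀ j : Fin 2, ContDiff ℝ ∞
      (fun p => ε⁻¹ • fderiv ℝ H (p, 0) (0, Pi.single j 1)) := by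
    intro j
    have k6 : ContDiff ℝ ∞ (fun p : EE => fderiv ℝ H (p, 0) (0, Pi.single j 1)) :=
      (cfd.comp cin).clm_apply contDiff_const
    exact k6.const_smul ε⁻¹
  obtain ⟨sl1, sl2⟩ := And.intro (fun i x => (h4 EE (Fin 2 → ℝ) FF g' hg').1 i x)
    (fun i x e => (h4 EE (Fin 2 → ℝ) FF g' hg').2 i x e)
  refine ⟨cH, cH0, cHj, ?_, ?_⟩
  · have k1 : (fun p => H (p, 0) - f0 p) = fun p => g p + g' (p, 0) := by
      funext p
      rw [hH, e3]
      abel
    rw [k1]
    have k2 : Cl 2 (δ / 2) (fun p => g' (p, 0)) := by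
      refine ⟨hg'.comp cin, fun z hz j hj => ?_⟩
      refine (sl1 j z).trans ((hgd z hz j hj).trans ?_)
      nlinarith
    have k3 := cl_add (cl_mono hg le_rfl (min_le_left _ _)) k2
    rwa [add_halves] at k3
  · intro j
    have k1 : (fun p => ε⁻¹ • fderiv ℝ H (p, 0) (0, Pi.single j 1) - VV j p) =
        fun p => (Vf j p (p.1 + (g p).1) - VV j p) +
          ε⁻¹ • fderiv ℝ g' (p, 0) (0, Pi.single j 1) := by
      funext p
      have k2 : fderiv ℝ H (p, 0) = fderiv ℝ (HF β (fun x => f0 x + g x) ε) (p, 0) +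
          fderiv ℝ g' (p, 0) := by
        rw [hHe]
        exact fderiv_fun_add (cHF.differentiable (by simp) _) (hg'.differentiable (by simp) _)
      have k3 := h2 β (fun x => f0 x + g x) ε hβ cg hβ0 p j
      rw [k2, _root_.add_apply, k3, smul_add, inv_smul_smul₀ hε.ne']
      have k4 : (f0 p + g p).1 = p.1 + (g p).1 := rfl
      rw [k4]
      abel
    rw [k1]
    have k5 : Cl 1 (δ / 2) (fun p => ε⁻¹ • fderiv ℝ g' (p, 0) (0, Pi.single j 1)) := by
      have k6 : ContDiff ℝ ∞ (fun p : EE => fderiv ℝ g' (p, 0) (0, Pi.single j 1)) :=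
        (cfdg.comp cin).clm_apply contDiff_const
      refine ⟨k6.const_smul ε⁻¹, fun z hz i hi => ?_⟩
      have k7 : iteratedFDeriv ℝ i (fun p : EE => ε⁻¹ • fderiv ℝ g' (p, 0) (0, Pi.single j 1)) z =
          ε⁻¹ • iteratedFDeriv ℝ i (fun p : EE => fderiv ℝ g' (p, 0) (0, Pi.single j 1)) z :=
        iteratedFDeriv_const_smul_apply (a := ε⁻¹) (x := z)
          (k6.contDiffAt.of_le (by exact_mod_cast le_top))
      rw [k7, norm_smul, norm_inv, Real.norm_of_nonneg hε.le]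
      have k8 := sl2 i z (Pi.single j 1)
      have k9 : ‖(Pi.single j 1 : Fin 2 → ℝ)‖ ≤ 1 := by
        refine (pi_norm_le_iff_of_nonneg zero_le_one).2 fun l => ?_
        by_cases hl : l = j
        · subst hl; simp
        · simp [hl]
      have k10 := hgd z hz (i + 1) (by omega)
      have k11 : ‖iteratedFDeriv ℝ i (fun p : EE => fderiv ℝ g' (p, 0) (0, Pi.single j 1)) z‖ ≤
          ε * (δ / 2) := by
        refine k8.trans ?_
        calc _ ≤ 1 * ‖iteratedFDeriv ℝ (i + 1) g' (z, 0)‖ :=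
              mul_le_mul_of_nonneg_right k9 (norm_nonneg _)
          _ ≤ _ := by rw [one_mul]; exact k10
      calc _ ≤ ε⁻¹ * (ε * (δ / 2)) := mul_le_mul_of_nonneg_left k11 (inv_nonneg.2 hε.le)
        _ = δ / 2 := inv_mul_cancel_left₀ hε.ne' _
    have k12 := hV g (cl_mono hg (by norm_num) (min_le_right _ _)) j
    have k13 := cl_add k12 k5
    rwa [add_halves] at k13

end Pool.Agent.Lib.MP_086785_gt.CB
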