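import Pool.Agent.Lib.MP_086785_gt.CB.Stmts

/-!
Project CB: one point is not cobordant to the empty set.
-/

set_option autoImplicit false

namespace Pool.Agent.Lib.MP_086785_gt.CB

open Set Filter Topology
open scoped ContDiff

namespace Cob

/-- an open embedding of the line onto an interval -/
theorem para (ε : ℝ) (hε : 0 < ε) : ∃ h : ℝ → ℝ, Continuous h ∧ Function.Injective h ∧
    IsOpenMap h ∧ (∀ s, h s ∈ Ioo (-ε) ε) ∧ (∀ s, 0 ≤ h s ↔ 0 ≤ s) ∧ h 0 = 0 := by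
  obtain ⟨h, hh⟩ : ∃ h : ℝ → ℝ, h = fun s => ε * (s / (1 + |s|)) := ⟨_, rfl⟩
  obtain ⟨k, hk⟩ : ∃ k : ℝ → ℝ, k = fun t => t / (ε - |t|) := ⟨_, rfl⟩
  have pos : ∀ s : ℝ, 0 < 1 + |s| := fun s => by positivity
  have habs : ∀ s, |h s| = ε * (|s| / (1 + |s|)) := by
    intro s
    rw [hh]
    show |ε * (s / (1 + |s|))| = _
    rw [abs_mul, abs_div, abs_of_pos hε, abs_of_pos (pos s)]
  have hlt : ∀ s, |h s| < ε := by
    intro s
    rw [habs]
    have h1 : |s| / (1 + |s|) < 1 := by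
      rw [div_lt_one (pos s)]
      linarith
    nlinarith
  have hkh : ∀ s, k (h s) = s := by
    intro s
    have h2 : ε - |h s| = ε / (1 + |s|) := by
      rw [habs]
      have := (pos s).ne'
      field_simp
      ring
    rw [hk]
    show h s / (ε - |h s|) = s
    rw [h2, hh]
    show ε * (s / (1 + |s|)) / (ε / (1 + |s|)) = s
    have := (pos s).ne'
    field_simp
  have hhk : ∀ t ∈ Ioo (-ε) ε, h (k t) = t := by
    intro t ht
    have h1 : 0 < ε - |t| := by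
      have := abs_lt.mpr ht
      linarith
    have h2 : |k t| = |t| / (ε - |t|) := by
      rw [hk]
      show |t / (ε - |t|)| = _
      rw [abs_div, abs_of_pos h1]
    have h3 : 1 + |k t| = ε / (ε - |t|) := by
      rw [h2]
      field_simp
      ring
    rw [hh]
    show ε * (k t / (1 + |k t|)) = t
    rw [h3, hk]
    show ε * (t / (ε - |t|) / (ε / (ε - |t|))) = t
    field_simp
  have hcont : Continuous h := by
    rw [hh]
    exact continuous_const.mul (continuous_id.div (continuous_const.add continuous_abs)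
      fun s => (pos s).ne')
  have kcont : ContinuousOn k (Ioo (-ε) ε) := by
    rw [hk]
    refine ContinuousOn.div continuousOn_id ?_ ?_
    · exact (continuous_const.sub continuous_abs).continuousOn
    · intro t ht
      have := abs_lt.mpr ht
      linarith
  have hmem : ∀ s, h s ∈ Ioo (-ε) ε := fun s => abs_lt.mp (hlt s)
  refine ⟨h, hcont, ?_, ?_, hmem, ?_, ?_⟩
  · intro a b hab
    rw [← hkh a, ← hkh b, hab]
  · intro S hS
    have h1 : h '' S = Ioo (-ε) ε ∩ k ⁻¹' S := by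
      ext t
      constructor
      · rintro ⟨s, hs, rfl⟩
        refine ⟨hmem s, ?_⟩
        rw [mem_preimage, hkh]
        exact hs
      · rintro ⟨h2, h3⟩
        exact ⟨k t, h3, hhk t h2⟩
    rw [h1]
    exact kcont.isOpen_inter_preimage isOpen_Ioo hS
  · intro s
    rw [hh]
    show 0 ≤ ε * (s / (1 + |s|)) ↔ 0 ≤ s
    rw [mul_nonneg_iff_of_pos_left hε, le_div_iff₀ (pos s), zero_mul]
  · rw [hh]
    simp

variable {E : Type} [NormedAddCommGroup E]

/-- a chart of the line -/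
structure Ch (W : Set (E × ℝ)) (w : E × ℝ) (ε : ℝ) (χ : ℝ → E × ℝ) : Prop where
  pos : 0 < ε
  at0 : χ 0 = w
  cont : ContinuousOn χ (Ioo (-ε) ε)
  inj : InjOn χ (Ioo (-ε) ε)
  op : ∀ V' ⊆ Ioo (-ε) ε, IsOpen V' → ∃ U : Set (E × ℝ), IsOpen U ∧
    χ '' V' ∩ {z | 0 ≤ z.2 ∧ z.2 ≤ 1} = W ∩ U

theorem Ch.shrink {W : Set (E × ℝ)} {w : E × ℝ} {ε ε' : ℝ} {χ : ℝ → E × ℝ} (h : Ch W w ε χ)
    (h0 : 0 < ε') (hle : ε' ≤ ε) : Ch W w ε' χ := by
  have hsub : Ioo (-ε') ε' ⊆ Ioo (-ε) ε := Ioo_subset_Ioo (by linarith) hle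
  exact ⟨h0, h.at0, h.cont.mono hsub, h.inj.mono hsub, fun V' hV' => h.op V' (hV'.trans hsub)⟩

theorem Ch.mem {W : Set (E × ℝ)} {w : E × ℝ} {ε : ℝ} {χ : ℝ → E × ℝ} (h : Ch W w ε χ)
    {t : ℝ} (ht : t ∈ Ioo (-ε) ε) (h0 : 0 ≤ (χ t).2) (h1 : (χ t).2 ≤ 1) : χ t ∈ W := by
  obtain ⟨U, _, hU⟩ := h.op _ subset_rfl isOpen_Ioo
  have h2 : χ t ∈ χ '' Ioo (-ε) ε ∩ {z | 0 ≤ z.2 ∧ z.2 ≤ 1} := ⟨⟨t, ht, rfl⟩, h0, h1⟩
  rw [hU] at h2
  exact h2.1

theorem Ch.neg {W : Set (E × ℝ)} {w : E × ℝ} {ε : ℝ} {χ : ℝ → E × ℝ} (h : Ch W w ε χ) :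
    Ch W w ε (fun t => χ (-t)) := by
  have hneg : ∀ t ∈ Ioo (-ε) ε, -t ∈ Ioo (-ε) ε := by
    intro t ht
    exact ⟨by linarith [ht.2], by linarith [ht.1]⟩
  refine ⟨h.pos, ?_, ?_, ?_, ?_⟩
  · show χ (-0) = w
    rw [neg_zero]
    exact h.at0
  · exact h.cont.comp continuous_neg.continuousOn hneg
  · intro a ha b hb hab
    have := h.inj (hneg a ha) (hneg b hb) hab
    exact neg_injective this
  · intro V' hV' hV'o
    have hsub : (fun t : ℝ => -t) ⁻¹' V' ⊆ Ioo (-ε) ε := by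
      intro t ht
      have h1 := hneg _ (hV' ht)
      rw [neg_neg] at h1
      exact h1
    obtain ⟨U, hU, hUe⟩ := h.op _ hsub (hV'o.preimage continuous_neg)
    refine ⟨U, hU, ?_⟩
    rw [← hUe]
    congr 1
    ext z
    constructor
    · rintro ⟨t, ht, rfl⟩
      refine ⟨-t, ?_, rfl⟩
      show - -t ∈ V'
      rw [neg_neg]
      exact ht
    · rintro ⟨t, ht, rfl⟩
      refine ⟨-t, ht, ?_⟩
      show χ (- -t) = χ t
      rw [neg_neg]

theorem line [NormedSpace ℝ E] {W : Set (E × ℝ)} (w : E × ℝ)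
    (ψ : (Fin (0 + 1) → ℝ) → E × ℝ) (V : Set (Fin (0 + 1) → ℝ)) (hV : IsOpen V)
    (hw : w ∈ ψ '' V) (hs : ContDiffOn ℝ ∞ ψ V) (hi : InjOn ψ V)
    (ht : ∀ x ∈ V, (ψ x).2 = 0 ∨ (ψ x).2 = 1 → fderiv ℝ (fun z => (ψ z).2) x ≠ 0)
    (hU : ∀ V' ⊆ V, IsOpen V' → ∃ U : Set (E × ℝ), IsOpen U ∧
      ψ '' V' ∩ {z | 0 ≤ z.2 ∧ z.2 ≤ 1} = W ∩ U) :
    ∃ (ε : ℝ) (χ : ℝ → E × ℝ) (g : ℝ), Ch W w ε χ ∧ HasDerivAt (fun t => (χ t).2) g 0 ∧
      (w.2 = 0 ∨ w.2 = 1 → g ≠ 0) := by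
  obtain ⟨x₀, hx₀, rfl⟩ := hw
  obtain ⟨L, hL⟩ : ∃ L : ℝ → Fin (0 + 1) → ℝ, L = fun t _ => x₀ 0 + t := ⟨_, rfl⟩
  have hL0 : L 0 = x₀ := by
    rw [hL]
    funext i
    have : i = 0 := Fin.fin_one_eq_zero i
    rw [this]
    simp
  have hLc : Continuous L := by
    rw [hL]
    fun_prop
  have hLi : Function.Injective L := by
    intro a b hab
    rw [hL] at hab
    have := congrFun hab 0
    simpa using this
  have hLo : IsOpenMap L := by
    intro S hS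
    have h1 : L '' S = (fun x : Fin (0 + 1) → ℝ => x 0 - x₀ 0) ⁻¹' S := by
      ext x
      constructor
      · rintro ⟨s, hs, rfl⟩
        rw [mem_preimage, hL]
        simpa using hs
      · intro hx
        refine ⟨_, hx, ?_⟩
        rw [hL]
        funext i
        have : i = 0 := Fin.fin_one_eq_zero i
        rw [this]
        simp
    rw [h1]
    exact hS.preimage (by fun_prop)
  have hLd : HasDerivAt L (fun _ => 1) 0 := by
    rw [hL, hasDerivAt_pi]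
    intro i
    exact (hasDerivAt_id (0 : ℝ)).const_add (x₀ 0)
  obtain ⟨ε, hε, hball⟩ := Metric.isOpen_iff.mp (hV.preimage hLc) 0 (by
    rw [mem_preimage, hL0]
    exact hx₀)
  have hsub : ∀ t ∈ Ioo (-ε) ε, L t ∈ V := by
    intro t ht
    have : t ∈ Metric.ball (0 : ℝ) ε := by
      rw [Metric.mem_ball, Real.dist_eq, sub_zero]
      exact abs_lt.mpr ht
    exact hball this
  have hd : DifferentiableAt ℝ (fun z => (ψ z).2) x₀ := by
    have h1 : DifferentiableAt ℝ ψ x₀ :=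
      (hs.contDiffAt (hV.mem_nhds hx₀)).differentiableAt (by simp)
    exact h1.snd
  refine ⟨ε, fun t => ψ (L t), fderiv ℝ (fun z => (ψ z).2) x₀ (fun _ => 1),
    ⟨hε, ?_, ?_, ?_, ?_⟩, ?_, ?_⟩
  · show ψ (L 0) = ψ x₀
    rw [hL0]
  · exact hs.continuousOn.comp hLc.continuousOn hsub
  · intro a ha b hb hab
    exact hLi (hi (hsub a ha) (hsub b hb) hab)
  · intro V' hV' hV'o
    obtain ⟨U, hUo, hUe⟩ := hU (L '' V') (by
      rintro _ ⟨t, ht, rfl⟩
      exact hsub t (hV' ht)) (hLo _ hV'o)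
    refine ⟨U, hUo, ?_⟩
    rw [← hUe, image_image]
  · have h1 : HasFDerivAt (fun z => (ψ z).2) (fderiv ℝ (fun z => (ψ z).2) x₀) (L 0) := by
      rw [hL0]
      exact hd.hasFDerivAt
    exact h1.comp_hasDerivAt (0 : ℝ) hLd
  · intro h1 h2
    apply ht x₀ hx₀ h1
    ext v
    have h3 : v = v 0 • (fun _ => (1 : ℝ)) := by
      funext i
      have : i = 0 := Fin.fin_one_eq_zero i
      rw [this]
      simp
    rw [h3, map_smul, h2]
    simp

theorem inter {W : Set (E × ℝ)} {w : E × ℝ} {ε : ℝ} {χ : ℝ → E × ℝ} (h : Ch W w ε χ)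
    (h0 : 0 < w.2) (h1 : w.2 < 1) (hw : w ∈ W) :
    ∃ c : ℝ → W, IsOpenEmbedding c ∧ (⟨w, hw⟩ : W) ∈ range c := by
  have hc : ContinuousAt χ 0 := h.cont.continuousAt (Ioo_mem_nhds (by linarith [h.pos]) h.pos)
  have hc2 : ContinuousAt (fun t => (χ t).2) 0 := continuous_snd.continuousAt.comp hc
  have hev : ∀ᶠ t in 𝓝 (0 : ℝ), 0 < (χ t).2 ∧ (χ t).2 < 1 := by
    have h2 : (fun t => (χ t).2) 0 ∈ Ioo (0 : ℝ) 1 := by
      show (χ 0).2 ∈ _
      rw [h.at0]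
      exact ⟨h0, h1⟩
    exact hc2.eventually (isOpen_Ioo.mem_nhds h2)
  obtain ⟨δ, hδ, hball⟩ := Metric.eventually_nhds_iff.mp hev
  obtain ⟨η, hη⟩ : ∃ η, η = min δ ε := ⟨_, rfl⟩
  have hη0 : 0 < η := by
    rw [hη]
    exact lt_min hδ h.pos
  have h' := h.shrink hη0 (by rw [hη]; exact min_le_right _ _)
  have hb : ∀ t ∈ Ioo (-η) η, 0 < (χ t).2 ∧ (χ t).2 < 1 := by
    intro t ht
    apply hball
    rw [Real.dist_eq, sub_zero]
    refine (abs_lt.mpr ht).trans_le ?_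
    rw [hη]
    exact min_le_left _ _
  obtain ⟨q, q1, q2, q3, q4, q5, q6⟩ := para η hη0
  have hmem : ∀ s, χ (q s) ∈ W := fun s => h'.mem (q4 s) (hb _ (q4 s)).1.le (hb _ (q4 s)).2.le
  refine ⟨fun s => ⟨χ (q s), hmem s⟩, ?_, 0, ?_⟩
  · refine IsOpenEmbedding.of_continuous_injective_isOpenMap ?_ ?_ ?_
    · refine Continuous.subtype_mk ?_ _
      exact h'.cont.comp_continuous q1 q4
    · intro a b hab
      exact q2 (h'.inj (q4 a) (q4 b) (congrArg Subtype.val hab))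
    · intro S hS
      obtain ⟨U, hU, hUe⟩ := h'.op (q '' S) (by
        rintro _ ⟨s, _, rfl⟩
        exact q4 s) (q3 S hS)
      have h2 : (fun s => (⟨χ (q s), hmem s⟩ : W)) '' S = Subtype.val ⁻¹' U := by
        ext z
        constructor
        · rintro ⟨s, hs, rfl⟩
          have h3 : χ (q s) ∈ χ '' (q '' S) ∩ {z | 0 ≤ z.2 ∧ z.2 ≤ 1} :=
            ⟨⟨q s, ⟨s, hs, rfl⟩, rfl⟩, (hb _ (q4 s)).1.le, (hb _ (q4 s)).2.le⟩
          rw [hUe] at h3
          exact h3.2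
        · intro hz
          have h3 : (z : E × ℝ) ∈ W ∩ U := ⟨z.2, hz⟩
          rw [← hUe] at h3
          obtain ⟨⟨_, ⟨s, hs, rfl⟩, h4⟩, _⟩ := h3
          exact ⟨s, hs, Subtype.ext h4⟩
      rw [h2]
      exact hU.preimage continuous_subtype_val
  · apply Subtype.ext
    show χ (q 0) = w
    rw [q6, h.at0]

theorem bdry {W : Set (E × ℝ)} {w : E × ℝ} {ε : ℝ} {χ : ℝ → E × ℝ} (h : Ch W w ε χ)
    (h1 : w.2 = 1) (g : ℝ) (hg : g < 0) (hd : HasDerivAt (fun t => (χ t).2) g 0) :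
    ∃ e : NNReal → W, IsOpenEmbedding e ∧ (e 0 : E × ℝ) = w := by
  have hc : ContinuousAt χ 0 := h.cont.continuousAt (Ioo_mem_nhds (by linarith [h.pos]) h.pos)
  have hc2 : ContinuousAt (fun t => (χ t).2) 0 := continuous_snd.continuousAt.comp hc
  have hev1 : ∀ᶠ t in 𝓝 (0 : ℝ), 0 < (χ t).2 := by
    have h2 : (fun t => (χ t).2) 0 ∈ Ioi (0 : ℝ) := by
      show 0 < (χ 0).2
      rw [h.at0, h1]
      exact one_pos
    exact hc2.eventually (isOpen_Ioi.mem_nhds h2)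
  have hev2 : ∀ᶠ t in 𝓝[≠] (0 : ℝ), slope (fun t => (χ t).2) 0 t < 0 :=
    (hasDerivAt_iff_tendsto_slope.mp hd).eventually (Iio_mem_nhds hg)
  rw [eventually_nhdsWithin_iff] at hev2
  obtain ⟨δ, hδ, hball⟩ := Metric.eventually_nhds_iff.mp (hev1.and hev2)
  obtain ⟨η, hη⟩ : ∃ η, η = min δ ε := ⟨_, rfl⟩
  have hη0 : 0 < η := by
    rw [hη]
    exact lt_min hδ h.pos
  have h' := h.shrink hη0 (by rw [hη]; exact min_le_right _ _)
  have hb : ∀ t ∈ Ioo (-η) η, 0 < (χ t).2 ∧ (0 ≤ t → (χ t).2 ≤ 1) ∧ (t < 0 → 1 < (χ t).2) := by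
    intro t ht
    have h2 : dist t 0 < δ := by
      rw [Real.dist_eq, sub_zero]
      refine (abs_lt.mpr ht).trans_le ?_
      rw [hη]
      exact min_le_left _ _
    obtain ⟨h3, h4⟩ := hball h2
    have h5 : (χ 0).2 = 1 := by rw [h.at0, h1]
    have hsl : t ≠ 0 → ((χ t).2 - 1) / t < 0 := by
      intro ht0
      have h6 := h4 ht0
      rw [slope_def_field] at h6
      simp only [sub_zero] at h6
      rw [h5] at h6
      exact h6
    refine ⟨h3, ?_, ?_⟩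
    · intro h6
      rcases h6.eq_or_lt with h7 | h7
      · rw [← h7, h5]
      · have h8 := hsl h7.ne'
        rw [div_neg_iff] at h8
        rcases h8 with h8 | h8
        · linarith [h8.2]
        · linarith [h8.1]
    · intro h7
      have h8 := hsl h7.ne
      rw [div_neg_iff] at h8
      rcases h8 with h8 | h8
      · linarith [h8.1]
      · linarith [h8.2]
  obtain ⟨q, q1, q2, q3, q4, q5, q6⟩ := para η hη0
  have hq : ∀ s : NNReal, 0 ≤ q s := fun s => (q5 s).mpr s.2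
  have hmem : ∀ s : NNReal, χ (q s) ∈ W := fun s =>
    h'.mem (q4 s) (hb _ (q4 s)).1.le ((hb _ (q4 s)).2.1 (hq s))
  refine ⟨fun s => ⟨χ (q s), hmem s⟩, ?_, ?_⟩
  · refine IsOpenEmbedding.of_continuous_injective_isOpenMap ?_ ?_ ?_
    · refine Continuous.subtype_mk ?_ _
      exact h'.cont.comp_continuous (q1.comp NNReal.continuous_coe) fun s => q4 s
    · intro a b hab
      exact NNReal.coe_injective (q2 (h'.inj (q4 a) (q4 b) (congrArg Subtype.val hab)))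
    · intro S hS
      obtain ⟨S', hS', rfl⟩ := isOpen_induced_iff.mp hS
      obtain ⟨U, hU, hUe⟩ := h'.op (q '' S') (by
        rintro _ ⟨s, _, rfl⟩
        exact q4 s) (q3 S' hS')
      have h2 : (fun s : NNReal => (⟨χ (q s), hmem s⟩ : W)) '' (Subtype.val ⁻¹' S') =
          Subtype.val ⁻¹' U := by
        ext z
        constructor
        · rintro ⟨s, hs, rfl⟩
          have h3 : χ (q s) ∈ χ '' (q '' S') ∩ {z | 0 ≤ z.2 ∧ z.2 ≤ 1} :=
            ⟨⟨q s, ⟨s, hs, rfl⟩, rfl⟩, (hb _ (q4 s)).1.le, (hb _ (q4 s)).2.1 (hq s)⟩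
          rw [hUe] at h3
          exact h3.2
        · intro hz
          have h3 : (z : E × ℝ) ∈ W ∩ U := ⟨z.2, hz⟩
          rw [← hUe] at h3
          obtain ⟨⟨_, ⟨s, hs, rfl⟩, h4⟩, h5⟩ := h3
          have h6 : 0 ≤ s := by
            by_contra h7
            have h8 : q s < 0 := by
              by_contra h9
              exact h7 ((q5 s).mp (not_lt.mp h9))
            have h9 := (hb _ (q4 s)).2.2 h8
            rw [h4] at h9
            exact absurd h5.2 (not_le.mpr h9)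
          exact ⟨⟨s, h6⟩, hs, Subtype.ext h4⟩
      rw [h2]
      exact hU.preimage continuous_subtype_val
  · show χ (q ((0 : NNReal) : ℝ)) = w
    rw [NNReal.coe_zero, q6, h.at0]

end Cob

/-- one point is not cobordant to the empty set -/
theorem stCob (h : StEnd) : StCob := by
  intro E _ _ M m hcob
  obtain ⟨W, hWc, hWM, hW0, hW1, hch⟩ := hcob
  have hmW : (m, (1 : ℝ)) ∈ W := (hW1 m).mpr rfl
  have hcs : CompactSpace W := isCompact_iff_compactSpace.mp hWc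
  obtain ⟨e, he, he0⟩ : ∃ e : NNReal → W, IsOpenEmbedding e ∧ (e 0 : E × ℝ) = (m, 1) := by
    obtain ⟨ψ, V, hV, hw, hs, hi, _, _, ht, hU⟩ := hch _ hmW
    obtain ⟨ε, χ, g, hC, hd, hg⟩ := Cob.line _ ψ V hV hw hs hi ht hU
    rcases lt_or_gt_of_ne (hg (Or.inr rfl)) with h1 | h1
    · exact Cob.bdry hC rfl g h1 hd
    · refine Cob.bdry hC.neg rfl (-g) (by linarith) ?_
      have h2 : HasDerivAt (fun t => (χ t).2) g (-(0 : ℝ)) := by
        rw [neg_zero]
        exact hd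
      have h3 := h2.comp (0 : ℝ) (hasDerivAt_neg (0 : ℝ))
      rw [mul_neg_one] at h3
      exact h3
  refine h W e he fun w hw => ?_
  obtain ⟨ψ, V, hV, hw', hs, hi, _, _, ht, hU⟩ := hch _ w.2
  obtain ⟨ε, χ, g, hC, hd, hg⟩ := Cob.line _ ψ V hV hw' hs hi ht hU
  obtain ⟨_, b0, b1⟩ := hWM _ w.2
  have c0 : (w : E × ℝ).2 ≠ 0 := by
    intro h0
    have h1 : ((w : E × ℝ).1, (0 : ℝ)) ∈ W := by
      rw [← h0]
      exact w.2
    exact (hW0 _).mp h1
  have c1 : (w : E × ℝ).2 ≠ 1 := by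
    intro h0
    have h1 : ((w : E × ℝ).1, (1 : ℝ)) ∈ W := by
      rw [← h0]
      exact w.2
    have h2 : (w : E × ℝ).1 = m := (hW1 _).mp h1
    apply hw
    apply Subtype.ext
    rw [he0, ← h2, ← h0]
  exact Cob.inter hC (lt_of_le_of_ne b0 c0.symm) (lt_of_le_of_ne b1 c1) w.2

end Pool.Agent.Lib.MP_086785_gt.CB
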