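import Pool.Agent.Lib.MP_086785_gt.CB.Stmts

/-!
Project CB, module Comp: compactness.
-/

set_option autoImplicit false

namespace Pool.Agent.Lib.MP_086785_gt.CB

open Set Filter Topology Finset
open scoped ContDiff

namespace Comp

theorem cont_vec {X : Type} [TopologicalSpace X] {u a : X → Fin 2 → ℝ} (hu : Continuous u)
    (ha : Continuous a) : Continuous fun x => vec (u x) (a x) := by
  have u0 := (continuous_apply (0 : Fin 2)).comp hu
  have u1 := (continuous_apply (1 : Fin 2)).comp hu
  have a0 := (continuous_apply (0 : Fin 2)).comp ha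
  have a1 := (continuous_apply (1 : Fin 2)).comp ha
  refine continuous_pi fun i => ?_
  fin_cases i
  · exact a0
  · exact a1.mul u0
  · exact a1.mul u1

theorem cont_perp {X : Type} [TopologicalSpace X] {a : X → Fin 2 → ℝ} (ha : Continuous a) :
    Continuous fun x => perp (a x) := by
  have a0 := (continuous_apply (0 : Fin 2)).comp ha
  have a1 := (continuous_apply (1 : Fin 2)).comp ha
  refine continuous_pi fun i => ?_
  fin_cases i
  · exact a1.neg
  · exact a0

theorem cont_ww {X : Type} [TopologicalSpace X] {v : X → Fin 3 → ℝ} {u : X → Fin 2 → ℝ}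
    (hv : Continuous v) (hu : Continuous u) : Continuous fun x => ww (v x) (u x) := by
  have u0 := (continuous_apply (0 : Fin 2)).comp hu
  have u1 := (continuous_apply (1 : Fin 2)).comp hu
  have v0 := (continuous_apply (0 : Fin 3)).comp hv
  have v1 := (continuous_apply (1 : Fin 3)).comp hv
  have v2 := (continuous_apply (2 : Fin 3)).comp hv
  refine continuous_pi fun i => ?_
  fin_cases i
  · exact ((u0.mul v1).add (u1.mul v2)).neg
  · exact v0.mul u0
  · exact v0.mul u1

theorem cont_mono {X : Type} [TopologicalSpace X] {v : X → Fin 3 → ℝ} (hv : Continuous v) :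
    Continuous fun x => mono (v x) := by
  have v0 := (continuous_apply (0 : Fin 3)).comp hv
  have v1 := (continuous_apply (1 : Fin 3)).comp hv
  have v2 := (continuous_apply (2 : Fin 3)).comp hv
  have q := (v1.pow 2).add (v2.pow 2)
  refine continuous_pi fun i => ?_
  fin_cases i
  · exact v0.pow 3
  · exact v1.mul (v0.pow 2)
  · exact v2.mul (v0.pow 2)
  · exact v0.mul q
  · exact v1.mul q
  · exact v2.mul q

theorem cont_mono1 {X : Type} [TopologicalSpace X] {v w : X → Fin 3 → ℝ} (hv : Continuous v)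
    (hw : Continuous w) : Continuous fun x => mono1 (v x) (w x) := by
  have v0 := (continuous_apply (0 : Fin 3)).comp hv
  have v1 := (continuous_apply (1 : Fin 3)).comp hv
  have v2 := (continuous_apply (2 : Fin 3)).comp hv
  have w0 := (continuous_apply (0 : Fin 3)).comp hw
  have w1 := (continuous_apply (1 : Fin 3)).comp hw
  have w2 := (continuous_apply (2 : Fin 3)).comp hw
  have q := (v1.pow 2).add (v2.pow 2)
  have q' := (continuous_const (y := (2 : ℝ))).mul ((v1.mul w1).add (v2.mul w2))
  refine continuous_pi fun i => ?_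
  fin_cases i
  · exact ((continuous_const (y := (3 : ℝ))).mul (v0.pow 2)).mul w0
  · exact (w1.mul (v0.pow 2)).add
      ((((continuous_const (y := (2 : ℝ))).mul v1).mul v0).mul w0)
  · exact (w2.mul (v0.pow 2)).add
      ((((continuous_const (y := (2 : ℝ))).mul v2).mul v0).mul w0)
  · exact (w0.mul q).add (v0.mul q')
  · exact (w1.mul q).add (v1.mul q')
  · exact (w2.mul q).add (v2.mul q')

theorem cont_LL {X : Type} [TopologicalSpace X] {y : X → Fin 11 → ℝ} {m : X → Fin 6 → ℝ}
    (hy : Continuous y) (hm : Continuous m) : Continuous fun x => LL (y x) (m x) := by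
  have Y : ∀ i : Fin 11, Continuous fun x => y x i := fun i => (continuous_apply i).comp hy
  have M : ∀ i : Fin 6, Continuous fun x => m x i := fun i => (continuous_apply i).comp hm
  refine continuous_pi fun i => ?_
  fin_cases i
  · exact ((((((Y 3).mul (M 0)).add ((Y 5).mul (M 1))).sub ((Y 6).mul (M 2))).add
      ((Y 7).mul (M 3))).add ((Y 9).mul (M 4))).sub ((Y 10).mul (M 5))
  · exact ((((((Y 4).mul (M 0)).add ((Y 5).mul (M 2))).add ((Y 6).mul (M 1))).add
      ((Y 8).mul (M 3))).add ((Y 9).mul (M 5))).add ((Y 10).mul (M 4))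
  · exact (((((Y 2).mul ((M 0).sub (M 3))).add ((Y 0).mul (M 1))).sub ((Y 1).mul (M 2))).add
      ((Y 0).mul (M 5))).add ((Y 1).mul (M 4))

theorem cont_S {X : Type} [TopologicalSpace X] {y : X → Fin 11 → ℝ} {v : X → Fin 3 → ℝ}
    (hy : Continuous y) (hv : Continuous v) : Continuous fun x => S (y x) (v x) :=
  cont_LL hy (cont_mono hv)

theorem cont_S1 {X : Type} [TopologicalSpace X] {y : X → Fin 11 → ℝ} {v w : X → Fin 3 → ℝ}
    (hy : Continuous y) (hv : Continuous v) (hw : Continuous w) :
    Continuous fun x => S1 (y x) (v x) (w x) :=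
  cont_LL hy (cont_mono1 hv hw)

theorem cont_sg1 {X : Type} [TopologicalSpace X] {y : X → Fin 11 → ℝ} {v : X → Fin 3 → ℝ}
    {u : X → Fin 2 → ℝ} (hy : Continuous y) (hv : Continuous v) (hu : Continuous u) :
    Continuous fun x => sg1 (y x) (v x) (u x) :=
  cont_S1 hy (cont_ww hv hu) hv

theorem cont_sg2 {X : Type} [TopologicalSpace X] {y : X → Fin 11 → ℝ} {v : X → Fin 3 → ℝ}
    {u : X → Fin 2 → ℝ} (hy : Continuous y) (hv : Continuous v) (hu : Continuous u) :
    Continuous fun x => sg2 (y x) (v x) (u x) := by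
  have hs := cont_S hy (cont_ww hv hu)
  have s0 : Continuous fun x => S (y x) (ww (v x) (u x)) 0 := (continuous_apply _).comp hs
  have s1 : Continuous fun x => S (y x) (ww (v x) (u x)) 1 := (continuous_apply _).comp hs
  have s2 : Continuous fun x => S (y x) (ww (v x) (u x)) 2 := (continuous_apply _).comp hs
  have u0 := (continuous_apply (0 : Fin 2)).comp hu
  have u1 := (continuous_apply (1 : Fin 2)).comp hu
  refine continuous_pi fun i => ?_
  fin_cases i
  · exact (u0.mul s0).sub (u1.mul s1)
  · exact (u1.mul s0).add (u0.mul s1)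
  · exact u0.mul s2

theorem cont_fst : Continuous fun x : XX => x.1 := continuous_fst
theorem cont_u : Continuous fun x : XX => x.2.1 := continuous_fst.comp continuous_snd
theorem cont_a : Continuous fun x : XX => x.2.2 := continuous_snd.comp continuous_snd

theorem cont_vv : Continuous vv := cont_vec cont_u cont_a

theorem cont_wv : Continuous wv := cont_vec cont_u (cont_perp cont_a)

theorem cont_sgj (j : Fin 2) : Continuous (sgj j) := by
  by_cases hj : j = 0
  · subst hj
    exact cont_sg1 cont_fst cont_vv cont_u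
  · have h1 : sgj j = fun x => sg2 x.1 (vv x) x.2.1 := by
      funext x
      exact if_neg hj
    rw [h1]
    exact cont_sg2 cont_fst cont_vv cont_u

theorem cont_op {X : Type} [TopologicalSpace X] {n : ℕ} {y : X → Fin n → ℝ} (hy : Continuous y) :
    Continuous fun x => op (y x) := by
  refine continuous_pi fun i => continuous_pi fun j => ?_
  exact ((continuous_apply i).comp hy).mul ((continuous_apply j).comp hy)

theorem cont_phi : Continuous phi :=
  (cont_op cont_fst).prodMk ((cont_op cont_u).prodMk (cont_op cont_vv))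

end Comp

theorem stComp (h1 : StZero) (h2 : StMt) : StComp := by
  intro U hU hx0
  let K : Set XX := Mt ∩ phi ⁻¹' Uᶜ
  have hK : IsCompact K := h2.1.inter_right (hU.isClosed_compl.preimage Comp.cont_phi)
  let f : XX → ℝ := fun x => max ‖S1 x.1 (vv x) (wv x)‖ (max ‖sgj 0 x‖ ‖sgj 1 x‖)
  have hf : Continuous f :=
    (Comp.cont_S1 Comp.cont_fst Comp.cont_vv Comp.cont_wv).norm.max
      ((Comp.cont_sgj 0).norm.max (Comp.cont_sgj 1).norm)
  rcases K.eq_empty_or_nonempty with he | hne
  · refine ⟨1, one_pos, fun x hx hxU => ?_⟩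
    have : x ∈ K := ⟨hx, hxU⟩
    rw [he] at this
    exact absurd this (Set.notMem_empty x)
  · obtain ⟨z, hz, hmin⟩ := hK.exists_isMinOn hne hf.continuousOn
    refine ⟨f z, ?_, fun x hx hxU => hmin ⟨hx, hxU⟩⟩
    by_contra hneg
    have hz0 : f z ≤ 0 := not_lt.1 hneg
    have e1 : ‖S1 z.1 (vv z) (wv z)‖ ≤ 0 := (le_max_left _ _).trans hz0
    have e2 : max ‖sgj 0 z‖ ‖sgj 1 z‖ ≤ 0 := (le_max_right _ _).trans hz0
    have e3 : ‖sgj 0 z‖ ≤ 0 := (le_max_left _ _).trans e2
    have e4 : ‖sgj 1 z‖ ≤ 0 := (le_max_right _ _).trans e2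
    have h3 := h1 z hz.1 (norm_le_zero_iff.1 e1) (by
      intro j
      fin_cases j
      · exact norm_le_zero_iff.1 e3
      · exact norm_le_zero_iff.1 e4)
    apply hz.2
    rw [h3]
    exact hx0

theorem stGlobU (h1 : StGlob) (h2 : StComp) : StGlobU := by
  intro U hU hx0
  obtain ⟨C, hC, δ₀, hδ₀, h⟩ := h1
  obtain ⟨c, hc, h3⟩ := h2 U hU hx0
  refine ⟨min δ₀ (c / (2 * C)), lt_min hδ₀ (by positivity), fun x A V hx hA hV hk => ?_⟩
  by_contra hxU
  have hδ : 0 ≤ min δ₀ (c / (2 * C)) := (lt_min hδ₀ (by positivity)).le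
  obtain ⟨e1, e2⟩ := h _ x A V hδ (min_le_left _ _) hx hA hV hk
  have e3 := h3 x hx hxU
  have e4 : C * min δ₀ (c / (2 * C)) ≤ c / 2 := by
    calc C * min δ₀ (c / (2 * C)) ≤ C * (c / (2 * C)) :=
          mul_le_mul_of_nonneg_left (min_le_right _ _) hC.le
      _ = c / 2 := by field_simp
  have e5 : max ‖S1 x.1 (vv x) (wv x)‖ (max ‖sgj 0 x‖ ‖sgj 1 x‖) ≤ c / 2 :=
    max_le (e1.trans e4) (max_le ((e2 0).trans e4) ((e2 1).trans e4))
  linarith

end Pool.Agent.Lib.MP_086785_gt.CB
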