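import Pool.Agent.Lib.MP_086785_gt.CB.Stmts

/-! Project CB, module DIMT: the dimension of the tangent space. -/

set_option autoImplicit false

namespace Pool.Agent.Lib.MP_086785_gt.CB

open Set Filter Topology Finset
open scoped ContDiff

namespace DimT

/-- the linear map with kernel the tangent space -/
def TL (x : XX) : XX →ₗ[ℝ] ℝ × ℝ × ℝ × (Fin 3 → ℝ) where
  toFun η := (dot x.1 η.1, dot x.2.1 η.2.1, dot x.2.2 η.2.2,
    S η.1 (vv x) + S1 x.1 (vv x) (dvec x.2.1 x.2.2 η.2.1 η.2.2))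
  map_add' η η' := by
    refine Prod.ext ?_ (Prod.ext ?_ (Prod.ext ?_ ?_))
    · exact dot_add_right _ _ _
    · exact dot_add_right _ _ _
    · exact dot_add_right _ _ _
    · change S (η.1 + η'.1) (vv x) + S1 x.1 (vv x) (dvec x.2.1 x.2.2 (η.2.1 + η'.2.1)
        (η.2.2 + η'.2.2)) = _
      rw [dvec_add, S_add, S1_add]
      change _ = (S η.1 (vv x) + S1 x.1 (vv x) (dvec x.2.1 x.2.2 η.2.1 η.2.2)) +
          (S η'.1 (vv x) + S1 x.1 (vv x) (dvec x.2.1 x.2.2 η'.2.1 η'.2.2))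
      abel
  map_smul' c η := by
    refine Prod.ext ?_ (Prod.ext ?_ (Prod.ext ?_ ?_))
    · exact dot_smul_right _ _ _
    · exact dot_smul_right _ _ _
    · exact dot_smul_right _ _ _
    · change S (c • η.1) (vv x) + S1 x.1 (vv x) (dvec x.2.1 x.2.2 (c • η.2.1) (c • η.2.2)) = _
      rw [dvec_smul, S_smul, S1_smul, ← smul_add]
      rfl

theorem ker_TL (x : XX) : LinearMap.ker (TL x) = TS x := by
  ext η
  rw [LinearMap.mem_ker, mem_TS]
  constructor
  · intro h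
    exact ⟨congrArg Prod.fst h, congrArg (fun z => z.2.1) h, congrArg (fun z => z.2.2.1) h,
      congrArg (fun z => z.2.2.2) h⟩
  · rintro ⟨h1, h2, h3, h4⟩
    exact Prod.ext h1 (Prod.ext h2 (Prod.ext h3 h4))

theorem range_TL (h : StDpos) (x : XX) (hx : x ∈ Mt) : LinearMap.range (TL x) = ⊤ := by
  obtain ⟨hy, hu, ha, hS⟩ := hx
  obtain ⟨-, h1, h3⟩ := h x ⟨hy, hu, ha, hS⟩
  rw [LinearMap.range_eq_top]
  rintro ⟨α, β, γ, s⟩
  obtain ⟨r, hr⟩ : ∃ r : Fin 3 → ℝ,
      r = s - S1 x.1 (vv x) (dvec x.2.1 x.2.2 (β • x.2.1) (γ • x.2.2)) := ⟨_, rfl⟩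
  obtain ⟨q, hq⟩ : ∃ q : Fin 3 → ℝ, q = ![r 0 / D1 (vv x), r 1 / D1 (vv x), r 2 / D3 (vv x)] :=
    ⟨_, rfl⟩
  have hSR : S (RR (vv x) q) (vv x) = r := by
    rw [S_RR, hq]
    have e1 : D1 (vv x) ≠ 0 := by linarith
    have e3 : D3 (vv x) ≠ 0 := by linarith
    funext i
    fin_cases i
    · change D1 (vv x) * (r 0 / D1 (vv x)) = r 0
      field_simp
    · change D1 (vv x) * (r 1 / D1 (vv x)) = r 1
      field_simp
    · change D3 (vv x) * (r 2 / D3 (vv x)) = r 2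
      field_simp
  refine ⟨(α • x.1 + RR (vv x) q, β • x.2.1, γ • x.2.2), ?_⟩
  refine Prod.ext ?_ (Prod.ext ?_ (Prod.ext ?_ ?_))
  · change dot x.1 (α • x.1 + RR (vv x) q) = α
    rw [dot_add_right, dot_smul_right, hy, dot_comm x.1 (RR (vv x) q), RR_adj, hS, dot_zero_right]
    ring
  · change dot x.2.1 (β • x.2.1) = β
    rw [dot_smul_right, hu, mul_one]
  · change dot x.2.2 (γ • x.2.2) = γ
    rw [dot_smul_right, ha, mul_one]
  · change S (α • x.1 + RR (vv x) q) (vv x) +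
      S1 x.1 (vv x) (dvec x.2.1 x.2.2 (β • x.2.1) (γ • x.2.2)) = s
    rw [S_add, S_smul, hS, hSR, hr, smul_zero, zero_add]
    abel

end DimT

theorem stDimT (h : StDpos) : StDimT := by
  intro x hx
  have h1 := LinearMap.finrank_range_add_finrank_ker (DimT.TL x)
  rw [DimT.range_TL h x hx, DimT.ker_TL, finrank_top] at h1
  simp only [Module.finrank_prod, Module.finrank_self, Module.finrank_fin_fun] at h1
  omega

end Pool.Agent.Lib.MP_086785_gt.CB
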