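import Pool.Agent.Lib.MP_086785_gt.CB.Stmts

/-! Project CB: the derivative of `phi`, and the map `f0`. -/

set_option autoImplicit false

namespace Pool.Agent.Lib.MP_086785_gt.CB

open Set Filter Topology Finset
open scoped ContDiff

namespace Dphi

theorem contDiff_phi : ContDiff ℝ ∞ phi := by
  unfold phi
  refine ContDiff.prodMk ?_ (ContDiff.prodMk ?_ ?_)
  · refine contDiff_pi.2 fun i => contDiff_pi.2 fun j => ?_
    unfold op
    fun_prop
  · refine contDiff_pi.2 fun i => contDiff_pi.2 fun j => ?_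
    unfold op
    fun_prop
  · have h : ∀ i : Fin 3, ContDiff ℝ ∞ fun x : XX => vv x i := by
      intro i
      fin_cases i
      · change ContDiff ℝ ∞ fun x : XX => x.2.2 0
        fun_prop
      · change ContDiff ℝ ∞ fun x : XX => x.2.2 1 * x.2.1 0
        fun_prop
      · change ContDiff ℝ ∞ fun x : XX => x.2.2 1 * x.2.1 1
        fun_prop
    refine contDiff_pi.2 fun i => contDiff_pi.2 fun j => ?_
    exact (h i).mul (h j)

theorem hasDerivAt_op {n : ℕ} {c : ℝ → Fin n → ℝ} {c' : Fin n → ℝ}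
    (h : HasDerivAt c c' 0) : HasDerivAt (fun t => op (c t)) (dop (c 0) c') 0 := by
  refine hasDerivAt_pi.2 fun i => hasDerivAt_pi.2 fun j => ?_
  have hi := hasDerivAt_pi.1 h i
  have hj := hasDerivAt_pi.1 h j
  refine (hi.fun_mul hj).congr_deriv ?_
  unfold dop
  ring

theorem hasDerivAt_line {F : Type} [NormedAddCommGroup F] [NormedSpace ℝ F] (x η : F) :
    HasDerivAt (fun t : ℝ => x + t • η) η 0 := by
  have h := ((hasDerivAt_id (0 : ℝ)).smul_const η).const_add x
  rw [one_smul] at h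
  exact h

theorem hasDerivAt_phi (x η : XX) : HasDerivAt (fun t : ℝ => phi (x + t • η)) (dphi x η) 0 := by
  have h1 : HasDerivAt (fun t : ℝ => x.1 + t • η.1) η.1 0 := hasDerivAt_line _ _
  have h2 : HasDerivAt (fun t : ℝ => x.2.1 + t • η.2.1) η.2.1 0 := hasDerivAt_line _ _
  have h3 : HasDerivAt (fun t : ℝ => x.2.2 + t • η.2.2) η.2.2 0 := hasDerivAt_line _ _
  have h4 : HasDerivAt (fun t : ℝ => vec (x.2.1 + t • η.2.1) (x.2.2 + t • η.2.2))
      (dvec x.2.1 x.2.2 η.2.1 η.2.2) 0 := by
    refine hasDerivAt_pi.2 fun i => ?_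
    have a0 := hasDerivAt_pi.1 h3 0
    have a1 := hasDerivAt_pi.1 h3 1
    have u0 := hasDerivAt_pi.1 h2 0
    have u1 := hasDerivAt_pi.1 h2 1
    fin_cases i
    · exact a0
    · have h := a1.mul u0
      simp only [zero_smul, add_zero] at h
      exact h
    · have h := a1.mul u1
      simp only [zero_smul, add_zero] at h
      exact h
  have e1 := hasDerivAt_op h1
  have e2 := hasDerivAt_op h2
  have e3 := hasDerivAt_op h4
  simp only [zero_smul, add_zero] at e1 e2 e3
  exact e1.prodMk (e2.prodMk e3)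

end Dphi

open Dphi in
/-- the derivative of `phi` -/
theorem stDphi : StDphi := by
  refine ⟨contDiff_phi, fun x => ?_⟩
  have hd : DifferentiableAt ℝ phi x := contDiff_phi.differentiable (by norm_num) x
  have e : fderiv ℝ phi x = LinearMap.toContinuousLinearMap (dphiL x) := by
    refine ContinuousLinearMap.ext fun η => ?_
    have h1 : HasFDerivAt phi (fderiv ℝ phi x) (x + (0 : ℝ) • η) := by
      rw [zero_smul, add_zero]
      exact hd.hasFDerivAt
    have h2 := h1.comp_hasDerivAt (0 : ℝ) (hasDerivAt_line x η)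
    have h3 := hasDerivAt_phi x η
    exact h2.unique h3
  rw [← e]
  exact hd.hasFDerivAt

/-- the map `f0` -/
theorem stF0 : StF0 := by
  refine ⟨?_, fun p _ => ⟨univ, isOpen_univ, mem_univ p, f0, ?_, fun _ _ => rfl⟩⟩
  · rintro _ ⟨x, hx, rfl⟩
    exact ⟨(x.1, x.2.1), ⟨hx.1, hx.2.1⟩, rfl⟩
  · exact f0.contDiff.contDiffOn

end Pool.Agent.Lib.MP_086785_gt.CB
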