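import Pool.Agent.Lib.MP_086785_gt.CB.Stmts

/-! Project CB, items DPOS and IMM: lower bounds of the eigenvalues; `phi` is an immersion. -/

set_option autoImplicit false

namespace Pool.Agent.Lib.MP_086785_gt.CB

open Set Filter Topology Finset
open scoped ContDiff

namespace Dpos

theorem dop_mul (n : ℕ) (y d : Fin n → ℝ) (h0 : dot y y = 1) (h1 : dot y d = 0)
    (h : dop y d = 0) : d = 0 := by
  funext i
  have e : ∑ j, dop y d i j * y j = 0 := by
    rw [h]
    simp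
  have e2 : ∑ j, dop y d i j * y j = y i * dot y d + d i * dot y y := by
    rw [dot, dot, Finset.mul_sum, Finset.mul_sum, ← Finset.sum_add_distrib]
    exact Finset.sum_congr rfl fun j _ => by rw [dop]; ring
  rw [e, h0, h1] at e2
  simp only [mul_zero, mul_one, zero_add] at e2
  exact e2.symm

theorem bound1 (p q : ℝ) (h : p + q = 1) :
    1 / 5 ≤ (p + q) * (p ^ 2 + q ^ 2) := by
  have : q = 1 - p := by linarith
  subst this
  nlinarith [sq_nonneg (2 * p - 1)]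

theorem bound3 (p q : ℝ) (hp : 0 ≤ p) (h : p + q = 1) :
    1 / 5 ≤ q * (p ^ 2 + q ^ 2) + p * (p - q) ^ 2 := by
  have : q = 1 - p := by linarith
  subst this
  have e : (1 - p) * (p ^ 2 + (1 - p) ^ 2) + p * (p - (1 - p)) ^ 2 = 2 * p ^ 3 - 2 * p + 1 := by
    ring
  rw [e]
  nlinarith [mul_nonneg hp (sq_nonneg (p - 577 / 1000)), sq_nonneg (p - 577 / 1000)]

end Dpos

theorem stDpos : StDpos := by
  intro x hx
  obtain ⟨h1, h2, h3, h4⟩ := hx
  have hv : dot (vv x) (vv x) = 1 := by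
    rw [vv, dot_vec _ _ _ h2, h3]
  have hs : vv x 0 ^ 2 + (vv x 1 ^ 2 + vv x 2 ^ 2) = 1 := by
    have := hv
    rw [dot, Fin.sum_univ_three] at this
    linarith [this]
  refine ⟨hv, ?_, ?_⟩
  · have := Dpos.bound1 (vv x 0 ^ 2) (vv x 1 ^ 2 + vv x 2 ^ 2) hs
    calc (1 : ℝ) / 5 ≤ _ := this
      _ = D1 (vv x) := by rw [D1]; ring
  · have := Dpos.bound3 (vv x 0 ^ 2) (vv x 1 ^ 2 + vv x 2 ^ 2) (by positivity) hs
    calc (1 : ℝ) / 5 ≤ _ := this
      _ = D3 (vv x) := by rw [D3]; ring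

theorem stImm : StImm := by
  intro x hx η hη h
  obtain ⟨h1, h2, h3, h4⟩ := hx
  obtain ⟨k1, k2, k3, k4⟩ := hη
  rw [dphi, Prod.mk_eq_zero, Prod.mk_eq_zero] at h
  obtain ⟨e1, e2, e3⟩ := h
  have f1 : η.1 = 0 := Dpos.dop_mul _ _ _ h1 k1 e1
  have f2 : η.2.1 = 0 := Dpos.dop_mul _ _ _ h2 k2 e2
  have hv : dot (vv x) (vv x) = 1 := by
    rw [vv, dot_vec _ _ _ h2, h3]
  have hu : x.2.1 0 * x.2.1 0 + x.2.1 1 * x.2.1 1 = 1 := by
    have := h2
    rw [dot, Fin.sum_univ_two] at this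
    exact this
  have ha : x.2.2 0 * η.2.2 0 + x.2.2 1 * η.2.2 1 = 0 := by
    have := k3
    rw [dot, Fin.sum_univ_two] at this
    exact this
  have hd : dvec x.2.1 x.2.2 η.2.1 η.2.2 = vec x.2.1 η.2.2 := by
    rw [f2]
    funext i
    fin_cases i <;> simp [dvec, vec]
  rw [hd] at e3
  have hz : dot (vv x) (vec x.2.1 η.2.2) = 0 := by
    rw [vv, dot_vec _ _ _ h2, k3]
  have f3 : vec x.2.1 η.2.2 = 0 := Dpos.dop_mul _ _ _ hv hz e3
  have g0 : η.2.2 0 = 0 := by
    have := congrFun f3 0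
    simpa [vec] using this
  have g1 : η.2.2 1 * x.2.1 0 = 0 := by
    have := congrFun f3 1
    exact this
  have g2 : η.2.2 1 * x.2.1 1 = 0 := by
    have := congrFun f3 2
    exact this
  have g3 : η.2.2 1 = 0 := by
    linear_combination (- η.2.2 1) * hu + x.2.1 0 * g1 + x.2.1 1 * g2
  have f4 : η.2.2 = 0 := by
    funext i
    fin_cases i
    · exact g0
    · exact g3
  exact Prod.ext f1 (Prod.ext f2 f4)

end Pool.Agent.Lib.MP_086785_gt.CB
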