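import Pool.Agent.Lib.MP_086785_gt.CB.Stmts

/-!
Project CB, item END: there is no compact 1-manifold with exactly one boundary point.
-/

set_option autoImplicit false

namespace Pool.Agent.Lib.MP_086785_gt.CB

open Set Filter Topology

namespace End

variable {W : Type} [TopologicalSpace W] [T2Space W]

/-- a chart leaving a ray takes all large values of the ray -/
theorem esc {ρ : NNReal → W} {c : ℝ → W} (hρ : IsOpenEmbedding ρ) (hc : IsOpenEmbedding c)
    {t1 b1 : ℝ} (h1 : t1 < b1) (hO : ∀ t ∈ Ico t1 b1, c t ∈ range ρ) (hb : c b1 ∉ range ρ)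
    {s1 : NNReal} (hs : ρ s1 = c t1) {y : NNReal} (hy : s1 ≤ y) : ∃ t ∈ Ico t1 b1, c t = ρ y := by
  classical
  have hK : IsClosed (ρ '' Icc 0 y) := (isCompact_Icc.image hρ.continuous).isClosed
  have hn : c b1 ∈ (ρ '' Icc 0 y)ᶜ := by
    rintro ⟨s, -, hs'⟩
    exact hb ⟨s, hs'⟩
  have h2 : ∀ᶠ t in 𝓝 b1, c t ∈ (ρ '' Icc 0 y)ᶜ :=
    hc.continuous.continuousAt.eventually_mem (hK.isOpen_compl.mem_nhds hn)
  have h3 : ∀ᶠ t in 𝓝[<] b1, c t ∈ (ρ '' Icc 0 y)ᶜ := h2.filter_mono nhdsWithin_le_nhds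
  have h4 : ∀ᶠ t in 𝓝[<] b1, t ∈ Ioo t1 b1 := Ioo_mem_nhdsLT h1
  obtain ⟨t', h3', h4'⟩ := (h3.and h4).exists
  choose! f hf using hO
  have hcont : ContinuousOn f (Ico t1 b1) := by
    rw [hρ.isInducing.continuousOn_iff]
    exact hc.continuous.continuousOn.congr (fun t ht => hf t ht)
  have hsub : Icc t1 t' ⊆ Ico t1 b1 := fun t ht => ⟨ht.1, ht.2.trans_lt h4'.2⟩
  have hf1 : f t1 = s1 := by
    apply hρ.injective
    rw [hs, hf t1 ⟨le_rfl, h1⟩]
  have hf2 : y ≤ f t' := by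
    by_contra hlt
    push Not at hlt
    exact h3' ⟨f t', ⟨zero_le, hlt.le⟩, hf t' ⟨h4'.1.le, h4'.2⟩⟩
  obtain ⟨t, ht, hty⟩ := intermediate_value_Icc h4'.1.le (hcont.mono hsub)
    (show y ∈ Icc (f t1) (f t') from ⟨hf1 ▸ hy, hf2⟩)
  exact ⟨t, hsub ht, by rw [← hf t (hsub ht), hty]⟩

omit [T2Space W] in
theorem hneg {c : ℝ → W} (hc : IsOpenEmbedding c) : IsOpenEmbedding (fun t => c (-t)) :=
  hc.comp (Homeomorph.neg ℝ).isOpenEmbedding

theorem esc' {ρ : NNReal → W} {c : ℝ → W} (hρ : IsOpenEmbedding ρ) (hc : IsOpenEmbedding c)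
    {t2 b2 : ℝ} (h1 : b2 < t2) (hO : ∀ t ∈ Ioc b2 t2, c t ∈ range ρ) (hb : c b2 ∉ range ρ)
    {s2 : NNReal} (hs : ρ s2 = c t2) {y : NNReal} (hy : s2 ≤ y) : ∃ t ∈ Ioc b2 t2, c t = ρ y := by
  obtain ⟨t, ht, h⟩ := esc (c := fun t => c (-t)) (t1 := -t2) (b1 := -b2) hρ (hneg hc)
    (by linarith) (fun t ht => hO (-t) ⟨by linarith [ht.2], by linarith [ht.1]⟩)
    (by simpa using hb) (s1 := s2) (by simpa using hs) hy
  exact ⟨-t, ⟨by linarith [ht.2], by linarith [ht.1]⟩, h⟩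

theorem noboth {ρ : NNReal → W} {c : ℝ → W} (hρ : IsOpenEmbedding ρ) (hc : IsOpenEmbedding c)
    {t1 b1 t2 b2 : ℝ} (h1 : t1 < b1) (hO1 : ∀ t ∈ Ico t1 b1, c t ∈ range ρ)
    (hb1 : c b1 ∉ range ρ) (h2 : b2 < t2) (hO2 : ∀ t ∈ Ioc b2 t2, c t ∈ range ρ)
    (hb2 : c b2 ∉ range ρ) (hd : t2 ≤ t1 ∨ b1 ≤ b2) : False := by
  obtain ⟨s1, hs1⟩ := hO1 t1 ⟨le_rfl, h1⟩
  obtain ⟨s2, hs2⟩ := hO2 t2 ⟨h2, le_rfl⟩
  have hy1 : s1 < max s1 s2 + 1 := lt_of_le_of_lt (le_max_left s1 s2) (lt_add_one _)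
  have hy2 : s2 < max s1 s2 + 1 := lt_of_le_of_lt (le_max_right s1 s2) (lt_add_one _)
  obtain ⟨t, ht, ht'⟩ := esc hρ hc h1 hO1 hb1 hs1 hy1.le
  obtain ⟨u, hu, hu'⟩ := esc' hρ hc h2 hO2 hb2 hs2 hy2.le
  have htu : t = u := hc.injective (ht'.trans hu'.symm)
  have hne1 : t ≠ t1 := by
    rintro rfl
    have := hρ.injective (hs1.trans ht')
    exact hy1.ne this
  subst htu
  rcases hd with hd | hd
  · have : t1 ≤ t := ht.1
    have h3 : t ≤ t2 := hu.2
    exact hne1 (le_antisymm (h3.trans hd) this)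
  · exact absurd (ht.2.trans_le hd) (not_lt.mpr hu.1.le)

theorem sup {O : Set ℝ} (hO : IsOpen O) {t b : ℝ} (ht : t ∈ O) (hb : b ∉ O) (htb : t < b) :
    ∃ b1, t < b1 ∧ b1 ≤ b ∧ b1 ∉ O ∧ ∀ u ∈ Ico t b1, u ∈ O := by
  have hc : IsCompact (Icc t b ∩ Oᶜ) := isCompact_Icc.inter_right hO.isClosed_compl
  obtain ⟨b1, hb1, hmin⟩ := hc.exists_isLeast ⟨b, ⟨htb.le, le_rfl⟩, hb⟩
  have hne : t ≠ b1 := by
    rintro rfl
    exact hb1.2 ht
  refine ⟨b1, lt_of_le_of_ne hb1.1.1 hne, hb1.1.2, hb1.2, fun u hu => ?_⟩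
  by_contra hu'
  exact absurd (hmin ⟨⟨hu.1, hu.2.le.trans hb1.1.2⟩, hu'⟩) (not_le.mpr hu.2)

theorem inf {O : Set ℝ} (hO : IsOpen O) {t b : ℝ} (ht : t ∈ O) (hb : b ∉ O) (htb : b < t) :
    ∃ b1, b1 < t ∧ b ≤ b1 ∧ b1 ∉ O ∧ ∀ u ∈ Ioc b1 t, u ∈ O := by
  have hc : IsCompact (Icc b t ∩ Oᶜ) := isCompact_Icc.inter_right hO.isClosed_compl
  obtain ⟨b1, hb1, hmax⟩ := hc.exists_isGreatest ⟨b, ⟨le_rfl, htb.le⟩, hb⟩
  have hne : b1 ≠ t := by
    rintro rfl
    exact hb1.2 ht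
  refine ⟨b1, lt_of_le_of_ne hb1.1.2 hne, hb1.1.1, hb1.2, fun u hu => ?_⟩
  by_contra hu'
  exact absurd (hmax ⟨⟨hb1.1.1.trans hu.1.le, hu.2⟩, hu'⟩) (not_le.mpr hu.1)

/-- extension of a ray by a chart, one direction -/
theorem ext1 {ρ : NNReal → W} {c : ℝ → W} (hρ : IsOpenEmbedding ρ) (hc : IsOpenEmbedding c)
    {t0 β : ℝ} (h0 : c t0 ∈ range ρ) (hβ : c β ∉ range ρ) (hlt : t0 < β) :
    ∃ ρ' : NNReal → W, IsOpenEmbedding ρ' ∧ range ρ ⊆ range ρ' ∧ range c ⊆ range ρ' := by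
  classical
  have hOo : IsOpen (c ⁻¹' range ρ) := hρ.isOpen_range.preimage hc.continuous
  obtain ⟨α, hα, -, hαO, hI⟩ := sup hOo h0 hβ hlt
  have hI' : ∀ t ∈ Ico t0 α, c t ∈ range ρ := hI
  obtain ⟨s0, hs0⟩ := h0
  -- below
  have hlow : ∀ t ≤ t0, c t ∈ range ρ := by
    intro t ht
    by_contra hn
    have htt : t < t0 := lt_of_le_of_ne ht (by rintro rfl; exact hn ⟨s0, hs0⟩)
    obtain ⟨b, hb1, -, hb3, hb4⟩ := inf hOo (show t0 ∈ c ⁻¹' range ρ from ⟨s0, hs0⟩) hn htt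
    exact noboth hρ hc hα hI' hαO hb1 hb4 hb3 (Or.inl le_rfl)
  have hhigh : ∀ t, α ≤ t → c t ∉ range ρ := by
    intro t ht hn
    have htt : α < t := lt_of_le_of_ne ht (by rintro rfl; exact hαO hn)
    obtain ⟨b, hb1, hb2, hb3, hb4⟩ := inf hOo (show t ∈ c ⁻¹' range ρ from hn) hαO htt
    exact noboth hρ hc hα hI' hαO hb1 hb4 hb3 (Or.inr hb2)
  -- values
  have hval : ∀ s, s0 ≤ s → ∃ t ∈ Ico t0 α, c t = ρ s := fun s hs => esc hρ hc hα hI' hαO hs0 hs
  have hle : ∀ t s, t < t0 → c t = ρ s → s < s0 := by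
    intro t s ht hts
    by_contra hs
    push Not at hs
    obtain ⟨u, hu, hus⟩ := hval s hs
    have : t = u := hc.injective (hts.trans hus.symm)
    linarith [hu.1]
  have hgt : ∀ t s, t0 < t → c t = ρ s → s0 < s := by
    intro t s ht hts
    by_contra hs
    push Not at hs
    have htα : t < α := by
      by_contra hh
      exact hhigh t (not_lt.mp hh) ⟨s, hts.symm⟩
    obtain ⟨u, hu, hus⟩ := esc (t1 := t) (s1 := s) (y := s0) hρ hc htα
      (fun u hu => hI' u ⟨ht.le.trans hu.1, hu.2⟩) hαO hts.symm hs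
    have : t0 = u := hc.injective (hs0.symm.trans hus.symm)
    linarith [hu.1]
  let ρ' : NNReal → W := fun s => if s ≤ s0 then ρ s else c (t0 + ((s : ℝ) - s0))
  have hρ'1 : ∀ s, s ≤ s0 → ρ' s = ρ s := fun s hs => if_pos hs
  have hρ'2 : ∀ s, s0 ≤ s → ρ' s = c (t0 + ((s : ℝ) - s0)) := by
    intro s hs
    by_cases h : s ≤ s0
    · have : s = s0 := le_antisymm h hs
      subst this
      rw [hρ'1 s le_rfl, hs0]
      simp
    · exact if_neg h
  have hup : ∀ t, t0 ≤ t → ρ' (s0 + (t - t0).toNNReal) = c t := by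
    intro t ht
    rw [hρ'2 _ (le_add_of_nonneg_right zero_le)]
    congr 1
    rw [NNReal.coe_add, Real.coe_toNNReal _ (by linarith)]
    ring
  have hdown : ∀ t s, t < t0 → c t = ρ s → ρ' s = c t := by
    intro t s ht hts
    rw [hρ'1 s (hle t s ht hts).le, hts]
  have hcont : Continuous ρ' := by
    refine Continuous.if_le hρ.continuous ?_ continuous_id continuous_const ?_
    · exact hc.continuous.comp (by fun_prop)
    · intro s hs
      have : s = s0 := hs
      subst this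
      rw [hs0]
      simp
  have hinj : Function.Injective ρ' := by
    have key : ∀ s u, s ≤ s0 → s0 < u → ρ' s ≠ ρ' u := by
      intro s u hs hu h
      rw [hρ'1 s hs, hρ'2 u hu.le] at h
      have hu' : (s0 : ℝ) < u := by exact_mod_cast hu
      have := hgt (t0 + ((u : ℝ) - s0)) s (by linarith) h.symm
      exact absurd hs (not_le.mpr this)
    intro s u hsu
    rcases le_or_gt s s0 with hs | hs <;> rcases le_or_gt u s0 with hu | hu
    · rw [hρ'1 s hs, hρ'1 u hu] at hsu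
      exact hρ.injective hsu
    · exact absurd hsu (key s u hs hu)
    · exact absurd hsu.symm (key u s hu hs)
    · rw [hρ'2 s hs.le, hρ'2 u hu.le] at hsu
      have := hc.injective hsu
      exact NNReal.coe_injective (by linarith)
  have hopen : IsOpenMap ρ' := by
    rw [isOpenMap_iff_nhds_le]
    intro s
    rcases lt_trichotomy s s0 with hs | hs | hs
    · have h1 : ρ' =ᶠ[𝓝 s] ρ := by
        filter_upwards [Iio_mem_nhds hs] with u hu
        exact hρ'1 u (le_of_lt hu)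
      rw [hρ'1 s hs.le, Filter.map_congr h1, hρ.map_nhds_eq]
    · subst hs
      intro N hN
      rw [mem_map] at hN
      rw [hρ'1 s le_rfl, hs0, ← hc.map_nhds_eq, mem_map]
      -- continuity of the inverse of the ray
      have h2 : ρ '' (ρ' ⁻¹' N) ∈ 𝓝 (c t0) := by
        rw [← hs0]
        exact hρ.isOpenMap.image_mem_nhds hN
      have h3 : ∀ᶠ t in 𝓝 t0, c t ∈ ρ '' (ρ' ⁻¹' N) :=
        hc.continuous.continuousAt.eventually_mem h2
      have h4 : ∀ᶠ t in 𝓝 t0, s + (t - t0).toNNReal ∈ ρ' ⁻¹' N := by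
        have hct : ContinuousAt (fun t : ℝ => s + (t - t0).toNNReal) t0 := by
          have : Continuous (fun t : ℝ => s + (t - t0).toNNReal) := by fun_prop
          exact this.continuousAt
        apply hct.eventually_mem
        simpa using hN
      filter_upwards [h3, h4] with t h3t h4t
      rcases lt_or_ge t t0 with ht | ht
      · obtain ⟨u, hu, hut⟩ := h3t
        have := hdown t u ht hut.symm
        show c t ∈ N
        rw [← this]
        exact hu
      · show c t ∈ N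
        rw [← hup t ht]
        exact h4t
    · intro N hN
      rw [mem_map] at hN
      have hs' : (s0 : ℝ) < s := by exact_mod_cast hs
      rw [hρ'2 s hs.le, ← hc.map_nhds_eq, mem_map]
      have h4 : ∀ᶠ t in 𝓝 (t0 + ((s : ℝ) - s0)), s0 + (t - t0).toNNReal ∈ ρ' ⁻¹' N := by
        have hct : ContinuousAt (fun t : ℝ => s0 + (t - t0).toNNReal)
            (t0 + ((s : ℝ) - s0)) := by
          have : Continuous (fun t : ℝ => s0 + (t - t0).toNNReal) := by fun_prop
          exact this.continuousAt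
        apply hct.eventually_mem
        have he : s0 + (t0 + ((s : ℝ) - s0) - t0).toNNReal = s := by
          apply NNReal.coe_injective
          rw [NNReal.coe_add, Real.coe_toNNReal _ (by linarith)]
          ring
        rw [he]
        exact hN
      have h5 : ∀ᶠ t in 𝓝 (t0 + ((s : ℝ) - s0)), t0 < t := lt_mem_nhds (by linarith)
      filter_upwards [h4, h5] with t h4t h5t
      show c t ∈ N
      rw [← hup t h5t.le]
      exact h4t
  refine ⟨ρ', IsOpenEmbedding.of_continuous_injective_isOpenMap hcont hinj hopen, ?_, ?_⟩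
  · rintro _ ⟨s, rfl⟩
    rcases le_or_gt s s0 with hs | hs
    · exact ⟨s, hρ'1 s hs⟩
    · obtain ⟨t, ht, hts⟩ := hval s hs.le
      exact ⟨_, (hup t ht.1).trans hts⟩
  · rintro _ ⟨t, rfl⟩
    rcases lt_or_ge t t0 with ht | ht
    · obtain ⟨s, hs⟩ := hlow t ht.le
      exact ⟨s, hdown t s ht hs.symm⟩
    · exact ⟨_, hup t ht⟩

/-- extension of a ray by a chart -/
theorem ext2 {ρ : NNReal → W} {c : ℝ → W} (hρ : IsOpenEmbedding ρ) (hc : IsOpenEmbedding c)
    {t0 β : ℝ} (h0 : c t0 ∈ range ρ) (hβ : c β ∉ range ρ) :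
    ∃ ρ' : NNReal → W, IsOpenEmbedding ρ' ∧ range ρ ⊆ range ρ' ∧ range c ⊆ range ρ' := by
  rcases lt_trichotomy t0 β with h | h | h
  · exact ext1 hρ hc h0 hβ h
  · subst h
    exact absurd h0 hβ
  · obtain ⟨ρ', h1, h2, h3⟩ := ext1 (c := fun t => c (-t)) (t0 := -t0) (β := -β) hρ (hneg hc)
      (by simpa using h0) (by simpa using hβ) (by linarith)
    refine ⟨ρ', h1, h2, ?_⟩
    rintro _ ⟨t, rfl⟩
    exact h3 ⟨-t, by simp⟩

theorem main [CompactSpace W] (e : NNReal → W) (he : IsOpenEmbedding e)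
    (h : ∀ w : W, w ≠ e 0 → ∃ c : ℝ → W, IsOpenEmbedding c ∧ w ∈ range c) : False := by
  classical
  have : Nonempty W := ⟨e 0⟩
  choose! C hC using h
  let U : W → Set W := fun x => if x = e 0 then range e else range (C x)
  have hU : ∀ x ∈ (univ : Set W), U x ∈ 𝓝 x := by
    intro x _
    by_cases hx : x = e 0
    · simp only [U, if_pos hx]
      exact he.isOpen_range.mem_nhds ⟨0, hx.symm⟩
    · simp only [U, if_neg hx]
      exact (hC x hx).1.isOpen_range.mem_nhds (hC x hx).2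
  obtain ⟨t, -, ht⟩ := (isCompact_univ (X := W)).elim_nhds_subcover U hU
  have key : ∀ (s : Finset W) (ρ : NNReal → W), IsOpenEmbedding ρ → range e ⊆ range ρ →
      (∀ x ∈ t, x ≠ e 0 → x ∉ s → range (C x) ⊆ range ρ) → False := by
    intro s
    induction s using Finset.strongInduction with
    | H s ih =>
      intro ρ hρ heρ hs
      have hncl : ¬ IsClosed (range ρ) := by
        intro hcl
        have : IsClosedEmbedding ρ := ⟨hρ.isEmbedding, hcl⟩
        have := this.compactSpace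
        obtain ⟨M, hM⟩ := (isCompact_univ (X := NNReal)).bddAbove
        exact absurd (hM (mem_univ (M + 1))) (not_le.mpr (lt_add_one M))
      obtain ⟨w, hw1, hw2⟩ : ∃ w, w ∈ closure (range ρ) ∧ w ∉ range ρ := by
        by_contra hcon
        push Not at hcon
        exact hncl (closure_subset_iff_isClosed.mp hcon)
      have hwt := ht (mem_univ w)
      simp only [mem_iUnion] at hwt
      obtain ⟨x, hxt, hwx⟩ := hwt
      have hx0 : x ≠ e 0 := by
        intro hx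
        simp only [U, if_pos hx] at hwx
        exact hw2 (heρ hwx)
      simp only [U, if_neg hx0] at hwx
      have hxs : x ∈ s := by
        by_contra hxs
        exact hw2 (hs x hxt hx0 hxs hwx)
      obtain ⟨β, hβ⟩ := hwx
      obtain ⟨y, hy1, hy2⟩ := mem_closure_iff_nhds.mp hw1 (range (C x))
        ((hC x hx0).1.isOpen_range.mem_nhds ⟨β, hβ⟩)
      obtain ⟨t0, rfl⟩ := hy1
      obtain ⟨ρ', h1, h2, h3⟩ := ext2 (β := β) hρ (hC x hx0).1 hy2 (by rw [hβ]; exact hw2)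
      refine ih (s.erase x) (Finset.erase_ssubset hxs) ρ' h1 (heρ.trans h2) ?_
      intro z hzt hz0 hzs
      by_cases hzx : z = x
      · subst hzx
        exact h3
      · exact (hs z hzt hz0 (fun hz => hzs (Finset.mem_erase.mpr ⟨hzx, hz⟩))).trans h2
  exact key t e he le_rfl (fun x hx _ hx' => absurd hx hx')

end End

/-- there is no compact 1-manifold with exactly one boundary point -/
theorem stEnd : StEnd := by
  intro W _ _ _ e he h
  exact End.main e he h

end Pool.Agent.Lib.MP_086785_gt.CB
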