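import Pool.Agent.Lib.MP_086785_gt.CB.Stmts

/-! Project CB: small jets give small forms. -/

set_option autoImplicit false

namespace Pool.Agent.Lib.MP_086785_gt.CB

open Set Filter Topology Finset
open scoped ContDiff

namespace EndJ

theorem JB_mono {F : ℝ → ℝ} {a b : ℝ} (h : JB F a) (hab : a ≤ b) : JB F b :=
  ⟨h.1, fun i hi => (h.2 i hi).trans hab⟩

theorem JB_add {F G : ℝ → ℝ} {a b : ℝ} (hF : JB F a) (hG : JB G b) :
    JB (fun s => F s + G s) (a + b) := by
  refine ⟨hF.1.add hG.1, fun i hi => ?_⟩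
  have h1 : ContDiffAt ℝ i F 0 := hF.1.contDiffAt.of_le (by exact_mod_cast le_top)
  have h2 : ContDiffAt ℝ i G 0 := hG.1.contDiffAt.of_le (by exact_mod_cast le_top)
  have h3 : iteratedDeriv i (fun s => F s + G s) 0 = iteratedDeriv i F 0 + iteratedDeriv i G 0 :=
    iteratedDeriv_fun_add h1 h2
  rw [h3]
  exact (abs_add_le _ _).trans (add_le_add (hF.2 i hi) (hG.2 i hi))

theorem JB_neg {F : ℝ → ℝ} {a : ℝ} (hF : JB F a) : JB (fun s => - F s) a := by
  refine ⟨hF.1.neg, fun i hi => ?_⟩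
  have h3 : iteratedDeriv i (fun s => - F s) 0 = - iteratedDeriv i F 0 :=
    iteratedDeriv_fun_neg i F 0
  rw [h3, abs_neg]
  exact hF.2 i hi

theorem JB_congr {F G : ℝ → ℝ} {a : ℝ} (hF : JB F a) (h : ∀ s, G s = F s) : JB G a := by
  rw [funext h]
  exact hF

/-- two functions with bounded and close jets -/
def NB (F F' : ℝ → ℝ) (B δ : ℝ) : Prop :=
  JB F B ∧ JB F' B ∧ JB (fun s => F s - F' s) (B * δ)

theorem NB_mono {F F' : ℝ → ℝ} {B B' δ : ℝ} (hδ : 0 ≤ δ) (h : NB F F' B δ) (hB : B ≤ B') :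
    NB F F' B' δ :=
  ⟨JB_mono h.1 hB, JB_mono h.2.1 hB, JB_mono h.2.2 (mul_le_mul_of_nonneg_right hB hδ)⟩

theorem NB_add {F F' G G' : ℝ → ℝ} {B C δ : ℝ} (h : NB F F' B δ) (k : NB G G' C δ) :
    NB (fun s => F s + G s) (fun s => F' s + G' s) (B + C) δ := by
  refine ⟨JB_add h.1 k.1, JB_add h.2.1 k.2.1, ?_⟩
  rw [add_mul]
  exact JB_congr (JB_add h.2.2 k.2.2) fun s => by ring

theorem NB_neg {F F' : ℝ → ℝ} {B δ : ℝ} (h : NB F F' B δ) :
    NB (fun s => - F s) (fun s => - F' s) B δ :=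
  ⟨JB_neg h.1, JB_neg h.2.1, JB_congr (JB_neg h.2.2) fun s => by ring⟩

theorem NB_sub {F F' G G' : ℝ → ℝ} {B C δ : ℝ} (h : NB F F' B δ) (k : NB G G' C δ) :
    NB (fun s => F s - G s) (fun s => F' s - G' s) (B + C) δ := by
  simpa only [sub_eq_add_neg] using NB_add h (NB_neg k)

theorem NB_mul (hm : StJetMul) {F F' G G' : ℝ → ℝ} {B C δ : ℝ} (hB : 0 ≤ B) (hC : 0 ≤ C)
    (hδ : 0 ≤ δ) (h : NB F F' B δ) (k : NB G G' C δ) :
    NB (fun s => F s * G s) (fun s => F' s * G' s) (16 * B * C) δ := by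
  have hBC : 0 ≤ B * C := mul_nonneg hB hC
  refine ⟨JB_mono (hm _ _ _ _ hB hC h.1 k.1) (by linarith),
    JB_mono (hm _ _ _ _ hB hC h.2.1 k.2.1) (by linarith), ?_⟩
  have h1 := hm _ _ _ _ (mul_nonneg hB hδ) hC h.2.2 k.1
  have h2 := hm _ _ _ _ hB (mul_nonneg hC hδ) h.2.1 k.2.2
  have h3 := JB_add h1 h2
  refine JB_mono (JB_congr h3 fun s => by ring) (le_of_eq (by ring))

theorem JB_const (c : ℝ) {a : ℝ} (hc : |c| ≤ a) : JB (fun _ => c) a := by
  refine ⟨contDiff_const, fun i _ => ?_⟩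
  rw [iteratedDeriv_const]
  split_ifs
  · exact hc
  · rw [abs_zero]; exact (abs_nonneg c).trans hc

theorem iteratedDeriv_apply {n : ℕ} (y : ℝ → Fin n → ℝ) (hy : ContDiff ℝ ∞ y) (i : ℕ)
    (j : Fin n) (s : ℝ) :
    iteratedDeriv i (fun t => y t j) s = iteratedDeriv i y s j := by
  induction i generalizing s with
  | zero => simp
  | succ i ih =>
    rw [iteratedDeriv_succ, iteratedDeriv_succ, funext ih]
    have h1 : DifferentiableAt ℝ (iteratedDeriv i y) s :=
      (hy.differentiable_iteratedDeriv i (by exact_mod_cast WithTop.coe_lt_top i)) s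
    exact (hasDerivAt_pi.1 h1.hasDerivAt j).deriv

theorem JB_coord {n : ℕ} (y : ℝ → Fin n → ℝ) (hy : ContDiff ℝ ∞ y) (δ : ℝ) (hδ0 : 0 ≤ δ)
    (hδ : δ ≤ 1) (h1 : dot (y 0) (y 0) = 1)
    (hi : ∀ i, 1 ≤ i → i ≤ 3 → ‖iteratedDeriv i y 0‖ ≤ δ) (j : Fin n) :
    NB (fun s => y s j) (fun _ => y 0 j) 1 δ := by
  have hc : ContDiff ℝ ∞ (fun s => y s j) := contDiff_pi.1 hy j
  have h0 : |y 0 j| ≤ 1 := by
    have h2 : y 0 j * y 0 j ≤ dot (y 0) (y 0) :=
      Finset.single_le_sum (f := fun i => y 0 i * y 0 i) (fun i _ => mul_self_nonneg _)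
        (Finset.mem_univ j)
    rw [h1] at h2
    exact abs_le_one_iff_mul_self_le_one.2 h2
  have hk : ∀ i, 1 ≤ i → i ≤ 3 → |iteratedDeriv i (fun s => y s j) 0| ≤ δ := by
    intro i h2 h3
    rw [iteratedDeriv_apply y hy, ← Real.norm_eq_abs]
    exact (norm_le_pi_norm _ j).trans (hi i h2 h3)
  refine ⟨⟨hc, fun i h3 => ?_⟩, JB_const _ h0, ⟨hc.sub contDiff_const, fun i h3 => ?_⟩⟩
  · rcases Nat.eq_zero_or_pos i with rfl | h4
    · simpa using h0
    · exact (hk i h4 h3).trans hδ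
  · rcases Nat.eq_zero_or_pos i with rfl | h4
    · simpa using hδ0
    · have h5 : ContDiffAt ℝ i (fun s => y s j) 0 :=
        hc.contDiffAt.of_le (by exact_mod_cast le_top)
      have h6 : ContDiffAt ℝ i (fun _ : ℝ => y 0 j) 0 := contDiffAt_const
      have h7 : iteratedDeriv i (fun s => y s j - y 0 j) 0 =
          iteratedDeriv i (fun s => y s j) 0 - iteratedDeriv i (fun _ : ℝ => y 0 j) 0 :=
        iteratedDeriv_fun_sub h5 h6
      rw [h7, iteratedDeriv_const, if_neg h4.ne', sub_zero, one_mul]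
      exact hk i h4 h3

theorem JB_cos : JB Real.cos 1 := by
  refine ⟨Real.contDiff_cos, fun i _ => ?_⟩
  exact Real.abs_iteratedDeriv_cos_le_one i 0

theorem JB_sin : JB Real.sin 1 := by
  refine ⟨Real.contDiff_sin, fun i _ => ?_⟩
  exact Real.abs_iteratedDeriv_sin_le_one i 0

theorem JB_smul {F : ℝ → ℝ} {a : ℝ} (c : ℝ) (hc : |c| ≤ 1) (hF : JB F a) :
    JB (fun s => F s * c) a := by
  refine ⟨hF.1.mul contDiff_const, fun i hi => ?_⟩
  have h1 : ContDiffAt ℝ i F 0 := hF.1.contDiffAt.of_le (by exact_mod_cast le_top)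
  have h3 : iteratedDeriv i (fun s => F s * c) 0 = iteratedDeriv i F 0 * c := by
    have := iteratedDeriv_const_mul (n := i) (x := (0 : ℝ)) c h1
    simp only [mul_comm _ c]
    exact this
  rw [h3, abs_mul]
  have := hF.2 i hi
  nlinarith [abs_nonneg (iteratedDeriv i F 0), abs_nonneg c]

theorem JB_zero {a : ℝ} (ha : 0 ≤ a) : JB (fun _ => 0) a := JB_const 0 (by simpa using ha)

/-- the curve of fibre vectors -/
noncomputable def ab (a : Fin 2 → ℝ) (s : ℝ) : Fin 2 → ℝ := Real.cos s • a + Real.sin s • perp a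

theorem NB_ab (a : Fin 2 → ℝ) (ha : dot a a = 1) (δ : ℝ) (hδ : 0 ≤ δ) (i : Fin 2) :
    NB (fun s => ab a s i) (fun s => ab a s i) 2 δ := by
  have h0 : ∀ j, |a j| ≤ 1 := by
    intro j
    have h2 : a j * a j ≤ dot a a :=
      Finset.single_le_sum (f := fun i => a i * a i) (fun i _ => mul_self_nonneg _)
        (Finset.mem_univ j)
    rw [ha] at h2
    exact abs_le_one_iff_mul_self_le_one.2 h2
  have h1 : ∀ j, |perp a j| ≤ 1 := by
    intro j
    fin_cases j
    · simpa [perp] using h0 1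
    · simpa [perp] using h0 0
  have h2 : JB (fun s => ab a s i) 2 :=
    JB_mono (JB_add (JB_smul (a i) (h0 i) JB_cos) (JB_smul (perp a i) (h1 i) JB_sin))
      (by norm_num)
  exact ⟨h2, h2, JB_congr (JB_zero (by positivity)) fun s => by simp⟩

/-- closeness of the forms -/
theorem NB_S (hm : StJetMul) (y : ℝ → Fin 11 → ℝ) (y' : Fin 11 → ℝ) (v v' : ℝ → Fin 3 → ℝ)
    (δ : ℝ) (hδ : 0 ≤ δ) (hy : ∀ j, NB (fun s => y s j) (fun _ => y' j) 1 δ)
    (hv : ∀ j, NB (fun s => v s j) (fun s => v' s j) 32 δ) (k : Fin 3) :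
    NB (fun s => S (y s) (v s) k) (fun s => S y' (v' s) k) 1610612736 δ := by
  have h3 : ∀ i j k, NB (fun s => v s i * (v s j * v s k)) (fun s => v' s i * (v' s j * v' s k))
      8388608 δ := fun i j k =>
    NB_mono hδ (NB_mul hm (by norm_num) (by norm_num) hδ (hv i)
      (NB_mul hm (by norm_num) (by norm_num) hδ (hv j) (hv k))) (by norm_num)
  have e0 : ∀ w : Fin 3 → ℝ, mono w 0 = w 0 * (w 0 * w 0) := fun w => by
    show w 0 ^ 3 = _
    ring
  have e1 : ∀ w : Fin 3 → ℝ, mono w 1 = w 1 * (w 0 * w 0) := fun w => by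
    show w 1 * w 0 ^ 2 = _
    ring
  have e2 : ∀ w : Fin 3 → ℝ, mono w 2 = w 2 * (w 0 * w 0) := fun w => by
    show w 2 * w 0 ^ 2 = _
    ring
  have e3 : ∀ w : Fin 3 → ℝ, mono w 3 = w 0 * (w 1 * w 1) + w 0 * (w 2 * w 2) := fun w => by
    show w 0 * (w 1 ^ 2 + w 2 ^ 2) = _
    ring
  have e4 : ∀ w : Fin 3 → ℝ, mono w 4 = w 1 * (w 1 * w 1) + w 1 * (w 2 * w 2) := fun w => by
    show w 1 * (w 1 ^ 2 + w 2 ^ 2) = _
    ring
  have e5 : ∀ w : Fin 3 → ℝ, mono w 5 = w 2 * (w 1 * w 1) + w 2 * (w 2 * w 2) := fun w => by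
    show w 2 * (w 1 ^ 2 + w 2 ^ 2) = _
    ring
  have hmo : ∀ i, NB (fun s => mono (v s) i) (fun s => mono (v' s) i) 16777216 δ := by
    intro i
    fin_cases i
    · refine NB_mono hδ (B := 8388608) ?_ (by norm_num)
      simp only [Fin.zero_eta, Fin.isValue, e0]
      exact h3 0 0 0
    · refine NB_mono hδ (B := 8388608) ?_ (by norm_num)
      simp only [Fin.mk_one, Fin.isValue, e1]
      exact h3 1 0 0
    · refine NB_mono hδ (B := 8388608) ?_ (by norm_num)
      simp only [Fin.reduceFinMk, Fin.isValue, e2]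
      exact h3 2 0 0
    · refine NB_mono hδ (B := 8388608 + 8388608) ?_ (by norm_num)
      simp only [Fin.reduceFinMk, Fin.isValue, e3]
      exact NB_add (h3 0 1 1) (h3 0 2 2)
    · refine NB_mono hδ (B := 8388608 + 8388608) ?_ (by norm_num)
      simp only [Fin.reduceFinMk, Fin.isValue, e4]
      exact NB_add (h3 1 1 1) (h3 1 2 2)
    · refine NB_mono hδ (B := 8388608 + 8388608) ?_ (by norm_num)
      simp only [Fin.reduceFinMk, Fin.isValue, e5]
      exact NB_add (h3 2 1 1) (h3 2 2 2)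
  have hp : ∀ j i, NB (fun s => y s j * mono (v s) i) (fun s => y' j * mono (v' s) i)
      268435456 δ := fun j i =>
    NB_mono hδ (NB_mul hm (by norm_num) (by norm_num) hδ (hy j) (hmo i)) (by norm_num)
  fin_cases k
  · refine NB_mono hδ (B := 268435456 + 268435456 + 268435456 + 268435456 + 268435456 +
      268435456) ?_ (by norm_num)
    exact NB_sub (NB_add (NB_add (NB_sub (NB_add (hp 3 0) (hp 5 1)) (hp 6 2)) (hp 7 3)) (hp 9 4))
      (hp 10 5)
  · refine NB_mono hδ (B := 268435456 + 268435456 + 268435456 + 268435456 + 268435456 +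
      268435456) ?_ (by norm_num)
    exact NB_add (NB_add (NB_add (NB_add (NB_add (hp 4 0) (hp 5 2)) (hp 6 1)) (hp 8 3)) (hp 9 5))
      (hp 10 4)
  · refine NB_mono hδ (B := 268435456 + 268435456 + 268435456 + 268435456 + 268435456 +
      268435456) ?_ (by norm_num)
    have := NB_add (NB_add (NB_sub (NB_add (NB_sub (hp 2 0) (hp 2 3)) (hp 0 1)) (hp 1 2))
      (hp 0 5)) (hp 1 4)
    convert this using 1 <;> funext s <;> simp [S, LL] <;> ring

theorem S_comb (y : Fin 11 → ℝ) (v w : Fin 3 → ℝ) (c t : ℝ) (k : Fin 3) :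
    S y (c • v + t • w) k = c ^ 3 * S y v k + c ^ 2 * t * S1 y v w k + c * t ^ 2 * S1 y w v k +
      t ^ 3 * S y w k := by
  fin_cases k <;> simp [S, S1, LL, mono, mono1] <;> ring

theorem vec_comb (u a b : Fin 2 → ℝ) (c t : ℝ) :
    vec u (c • a + t • b) = c • vec u a + t • vec u b := by
  funext i
  fin_cases i <;> simp [vec] <;> ring

/-- the derivatives at `0` of the trigonometric polynomial -/
theorem jets (A B C : ℝ) {a : ℝ}
    (h : JB (fun s => Real.cos s ^ 2 * Real.sin s * A + Real.cos s * Real.sin s ^ 2 * B +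
      Real.sin s ^ 3 * C) a) : |A| ≤ a ∧ |2 * B| ≤ a ∧ |6 * C - 7 * A| ≤ a := by
  have d0 : deriv (fun s => Real.cos s ^ 2 * Real.sin s * A + Real.cos s * Real.sin s ^ 2 * B +
      Real.sin s ^ 3 * C) = fun s => (Real.cos s ^ 3 - 2 * Real.cos s * Real.sin s ^ 2) * A +
      (2 * Real.cos s ^ 2 * Real.sin s - Real.sin s ^ 3) * B +
      (3 * Real.sin s ^ 2 * Real.cos s) * C := by
    funext s
    have hc := Real.hasDerivAt_cos s
    have hs := Real.hasDerivAt_sin s
    have hh : HasDerivAt (fun s => Real.cos s ^ 2 * Real.sin s * A +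
        Real.cos s * Real.sin s ^ 2 * B + Real.sin s ^ 3 * C) _ s :=
      ((((hc.pow 2).mul hs).mul_const A).add ((hc.mul (hs.pow 2)).mul_const B)).add
        ((hs.pow 3).mul_const C)
    rw [hh.deriv]
    simp only [Pi.pow_apply]
    push_cast
    ring
  have d1 : deriv (fun s => (Real.cos s ^ 3 - 2 * Real.cos s * Real.sin s ^ 2) * A +
      (2 * Real.cos s ^ 2 * Real.sin s - Real.sin s ^ 3) * B +
      (3 * Real.sin s ^ 2 * Real.cos s) * C) = fun s =>
      (2 * Real.sin s ^ 3 - 7 * Real.cos s ^ 2 * Real.sin s) * A +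
      (2 * Real.cos s ^ 3 - 7 * Real.cos s * Real.sin s ^ 2) * B +
      (6 * Real.sin s * Real.cos s ^ 2 - 3 * Real.sin s ^ 3) * C := by
    funext s
    have hc := Real.hasDerivAt_cos s
    have hs := Real.hasDerivAt_sin s
    have hh : HasDerivAt (fun s => (Real.cos s ^ 3 - 2 * Real.cos s * Real.sin s ^ 2) * A +
        (2 * Real.cos s ^ 2 * Real.sin s - Real.sin s ^ 3) * B +
        (3 * Real.sin s ^ 2 * Real.cos s) * C) _ s :=
      ((((hc.pow 3).sub ((hc.const_mul 2).mul (hs.pow 2))).mul_const A).add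
      (((((hc.pow 2).const_mul 2).mul hs).sub (hs.pow 3)).mul_const B)).add
      ((((hs.pow 2).const_mul 3).mul hc).mul_const C)
    rw [hh.deriv]
    simp only [Pi.pow_apply]
    push_cast
    ring
  have d2 : deriv (fun s =>
      (2 * Real.sin s ^ 3 - 7 * Real.cos s ^ 2 * Real.sin s) * A +
      (2 * Real.cos s ^ 3 - 7 * Real.cos s * Real.sin s ^ 2) * B +
      (6 * Real.sin s * Real.cos s ^ 2 - 3 * Real.sin s ^ 3) * C) = fun s =>
      (20 * Real.sin s ^ 2 * Real.cos s - 7 * Real.cos s ^ 3) * A +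
      (7 * Real.sin s ^ 3 - 20 * Real.cos s ^ 2 * Real.sin s) * B +
      (6 * Real.cos s ^ 3 - 21 * Real.sin s ^ 2 * Real.cos s) * C := by
    funext s
    have hc := Real.hasDerivAt_cos s
    have hs := Real.hasDerivAt_sin s
    have hh : HasDerivAt (fun s =>
        (2 * Real.sin s ^ 3 - 7 * Real.cos s ^ 2 * Real.sin s) * A +
        (2 * Real.cos s ^ 3 - 7 * Real.cos s * Real.sin s ^ 2) * B +
        (6 * Real.sin s * Real.cos s ^ 2 - 3 * Real.sin s ^ 3) * C) _ s :=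
      (((((hs.pow 3).const_mul 2).sub (((hc.pow 2).const_mul 7).mul hs)).mul_const A).add
      ((((hc.pow 3).const_mul 2).sub ((hc.const_mul 7).mul (hs.pow 2))).mul_const B)).add
      ((((hs.const_mul 6).mul (hc.pow 2)).sub ((hs.pow 3).const_mul 3)).mul_const C)
    rw [hh.deriv]
    simp only [Pi.pow_apply]
    push_cast
    ring
  have h1 := h.2 1 (by norm_num)
  have h2 := h.2 2 (by norm_num)
  have h3 := h.2 3 (by norm_num)
  rw [iteratedDeriv_one, d0] at h1
  rw [iteratedDeriv_succ, iteratedDeriv_one, d0, d1] at h2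
  rw [iteratedDeriv_succ, iteratedDeriv_succ, iteratedDeriv_one, d0, d1, d2] at h3
  simp at h1 h2 h3
  refine ⟨h1, ?_, ?_⟩
  · rw [abs_mul, abs_two]
    linarith
  · have : 6 * C - 7 * A = -(7 * A) + 6 * C := by ring
    rw [this]
    exact h3

end EndJ

open EndJ in
theorem stEndJ (hm : StJetMul) : StEndJ := by
  refine ⟨2 * 1610612736, by norm_num, ?_⟩
  intro δ x X hδ0 hδ1 hx hX hX0 hev hj
  obtain ⟨hy1, hu1, ha1, hS⟩ := hx
  have hXy : ContDiff ℝ ∞ fun s => (X s).1 := contDiff_fst.comp hX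
  have hXu : ContDiff ℝ ∞ fun s => (X s).2.1 := contDiff_fst.comp (contDiff_snd.comp hX)
  have ny : ∀ j, NB (fun s => (X s).1 j) (fun _ => x.1 j) 1 δ := by
    intro j
    have := JB_coord (fun s => (X s).1) hXy δ hδ0 hδ1 (by simp only [hX0]; exact hy1)
      (fun i h1 h2 => (hj i h1 h2).1) j
    simp only [hX0] at this
    exact this
  have nu : ∀ j, NB (fun s => (X s).2.1 j) (fun _ => x.2.1 j) 1 δ := by
    intro j
    have := JB_coord (fun s => (X s).2.1) hXu δ hδ0 hδ1 (by simp only [hX0]; exact hu1)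
      (fun i h1 h2 => (hj i h1 h2).2) j
    simp only [hX0] at this
    exact this
  have na := NB_ab x.2.2 ha1 δ hδ0
  have nv : ∀ j, NB (fun s => vec (X s).2.1 (ab x.2.2 s) j) (fun s => vec x.2.1 (ab x.2.2 s) j)
      32 δ := by
    intro j
    fin_cases j
    · exact NB_mono hδ0 (na 0) (by norm_num)
    · exact NB_mono hδ0 (NB_mul hm (by norm_num) (by norm_num) hδ0 (na 1) (nu 0)) (by norm_num)
    · exact NB_mono hδ0 (NB_mul hm (by norm_num) (by norm_num) hδ0 (na 1) (nu 1)) (by norm_num)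
  have key : ∀ k, |S1 x.1 (vv x) (wv x) k| ≤ 1610612736 * δ ∧
      |2 * S1 x.1 (wv x) (vv x) k| ≤ 1610612736 * δ ∧
      |6 * S x.1 (wv x) k - 7 * S1 x.1 (vv x) (wv x) k| ≤ 1610612736 * δ := by
    intro k
    have h1 := NB_S hm (fun s => (X s).1) x.1 (fun s => vec (X s).2.1 (ab x.2.2 s))
      (fun s => vec x.2.1 (ab x.2.2 s)) δ hδ0 ny nv k
    have h2 : (fun s => S (X s).1 (vec (X s).2.1 (ab x.2.2 s)) k) =ᶠ[𝓝 0] fun _ => 0 := by
      filter_upwards [hev] with s hs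
      have h3 := hs.1.2.2.2
      rw [vv, hs.2] at h3
      exact congrFun h3 k
    apply jets
    have h4 : ∀ s, Real.cos s ^ 2 * Real.sin s * S1 x.1 (vv x) (wv x) k +
        Real.cos s * Real.sin s ^ 2 * S1 x.1 (wv x) (vv x) k + Real.sin s ^ 3 * S x.1 (wv x) k =
        S x.1 (vec x.2.1 (ab x.2.2 s)) k := by
      intro s
      rw [ab, vec_comb]
      show _ = S x.1 (Real.cos s • vv x + Real.sin s • wv x) k
      rw [S_comb, hS]
      simp only [Pi.zero_apply]
      ring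
    refine JB_congr ?_ h4
    refine ⟨h1.2.1.1, fun i hi => ?_⟩
    have h5 := h1.2.2.2 i hi
    have h6 : (fun s => S (X s).1 (vec (X s).2.1 (ab x.2.2 s)) k -
        S x.1 (vec x.2.1 (ab x.2.2 s)) k) =ᶠ[𝓝 0]
        fun s => - S x.1 (vec x.2.1 (ab x.2.2 s)) k := by
      filter_upwards [h2] with s hs
      rw [hs, zero_sub]
    rw [h6.iteratedDeriv_eq i] at h5
    have h7 : iteratedDeriv i (fun s => - S x.1 (vec x.2.1 (ab x.2.2 s)) k) 0 =
        - iteratedDeriv i (fun s => S x.1 (vec x.2.1 (ab x.2.2 s)) k) 0 :=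
      iteratedDeriv_fun_neg i _ 0
    rw [h7, abs_neg] at h5
    exact h5
  have hD : 0 ≤ 2 * 1610612736 * δ := by positivity
  refine ⟨(pi_norm_le_iff_of_nonneg hD).2 fun k => ?_, (pi_norm_le_iff_of_nonneg hD).2 fun k => ?_,
    (pi_norm_le_iff_of_nonneg hD).2 fun k => ?_⟩
  · rw [Real.norm_eq_abs]
    have := (key k).1
    linarith
  · rw [Real.norm_eq_abs]
    have := (key k).2.1
    rw [abs_mul, abs_two] at this
    linarith
  · rw [Real.norm_eq_abs]
    have h1 := (key k).1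
    have h2 := (key k).2.2
    rw [abs_le] at h1 h2 ⊢
    constructor <;> linarith

end Pool.Agent.Lib.MP_086785_gt.CB
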