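import Pool.Agent.Lib.MP_086785_gt.CB.Stmts

/-! Project CB: first order estimate of kernels. -/

set_option autoImplicit false

namespace Pool.Agent.Lib.MP_086785_gt.CB

open Set Filter Topology Finset
open scoped ContDiff

namespace Est1

theorem abs_le_one_of_dot {n : ℕ} (y : Fin n → ℝ) (h : dot y y = 1) (i : Fin n) : |y i| ≤ 1 := by
  have h1 : y i * y i ≤ dot y y :=
    Finset.single_le_sum (f := fun i => y i * y i) (fun j _ => mul_self_nonneg _) (Finset.mem_univ i)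
  rw [h] at h1
  rw [abs_le]
  constructor <;> nlinarith

theorem abs_comp_le {n : ℕ} (y : Fin n → ℝ) (i : Fin n) : |y i| ≤ ‖y‖ := by
  have := norm_le_pi_norm y i
  rwa [Real.norm_eq_abs] at this

theorem norm_dop_le {n : ℕ} (y δ : Fin n → ℝ) (c d : ℝ) (hc : ∀ i, |y i| ≤ c)
    (hd : ∀ i, |δ i| ≤ d) (hc0 : 0 ≤ c) (hd0 : 0 ≤ d) : ‖dop y δ‖ ≤ 2 * (c * d) := by
  have h0 : 0 ≤ 2 * (c * d) := by positivity
  refine (pi_norm_le_iff_of_nonneg h0).2 fun i => (pi_norm_le_iff_of_nonneg h0).2 fun j => ?_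
  rw [Real.norm_eq_abs, dop]
  have h1 : |y i * δ j| ≤ c * d := by
    rw [abs_mul]; exact mul_le_mul (hc i) (hd j) (abs_nonneg _) hc0
  have h2 : |δ i * y j| ≤ c * d := by
    rw [abs_mul, mul_comm c d]; exact mul_le_mul (hd i) (hc j) (abs_nonneg _) hd0
  have h3 := abs_add_le (y i * δ j) (δ i * y j)
  linarith

theorem rec_dop {n : ℕ} (y δ : Fin n → ℝ) (h : dot y y = 1) (h0 : dot y δ = 0) (i : Fin n) :
    δ i = ∑ j, dop y δ i j * y j := by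
  have h1 : ∑ j, dop y δ i j * y j = y i * dot y δ + δ i * dot y y := by
    rw [dot, dot, Finset.mul_sum, Finset.mul_sum, ← Finset.sum_add_distrib]
    refine Finset.sum_congr rfl fun j _ => ?_
    rw [dop]; ring
  rw [h1, h, h0]; ring

theorem norm_le_dop {n : ℕ} (y δ : Fin n → ℝ) (h : dot y y = 1) (h0 : dot y δ = 0) :
    ‖δ‖ ≤ n * ‖dop y δ‖ := by
  refine (pi_norm_le_iff_of_nonneg (by positivity)).2 fun i => ?_
  rw [rec_dop y δ h h0 i, Real.norm_eq_abs]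
  refine (Finset.abs_sum_le_sum_abs _ _).trans ?_
  have h1 : ∀ j ∈ (Finset.univ : Finset (Fin n)), |dop y δ i j * y j| ≤ ‖dop y δ‖ := by
    intro j _
    rw [abs_mul]
    have h2 : |dop y δ i j| ≤ ‖dop y δ‖ :=
      (abs_comp_le (dop y δ i) j).trans (norm_le_pi_norm (dop y δ) i)
    calc |dop y δ i j| * |y j| ≤ ‖dop y δ‖ * 1 :=
          mul_le_mul h2 (abs_le_one_of_dot y h j) (abs_nonneg _) (norm_nonneg _)
      _ = _ := mul_one _
  refine (Finset.sum_le_sum h1).trans ?_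
  simp

theorem norm_dphi (x η : XX) (hx : x ∈ Mt) : ‖dphi x η‖ ≤ 4 * ‖η‖ := by
  obtain ⟨hy, hu, ha, -⟩ := hx
  have h1 : ‖η.1‖ ≤ ‖η‖ := norm_fst_le η
  have h2 : ‖η.2‖ ≤ ‖η‖ := norm_snd_le η
  have h3 : ‖η.2.1‖ ≤ ‖η‖ := (norm_fst_le η.2).trans h2
  have h4 : ‖η.2.2‖ ≤ ‖η‖ := (norm_snd_le η.2).trans h2
  have hN : 0 ≤ ‖η‖ := norm_nonneg _
  have bu := abs_le_one_of_dot _ hu
  have ba := abs_le_one_of_dot _ ha
  have c1 : ∀ i, |η.2.1 i| ≤ ‖η‖ := fun i => (abs_comp_le _ i).trans h3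
  have c2 : ∀ i, |η.2.2 i| ≤ ‖η‖ := fun i => (abs_comp_le _ i).trans h4
  have hm : ∀ s t : ℝ, |s| ≤ 1 → |t| ≤ 1 → |s * t| ≤ 1 := by
    intro s t hs ht
    rw [abs_mul]
    calc |s| * |t| ≤ 1 * 1 := mul_le_mul hs ht (abs_nonneg _) zero_le_one
      _ = 1 := one_mul 1
  have hm2 : ∀ s t : ℝ, |s| ≤ ‖η‖ → |t| ≤ 1 → |s * t| ≤ ‖η‖ := by
    intro s t hs ht
    rw [abs_mul]
    calc |s| * |t| ≤ ‖η‖ * 1 := mul_le_mul hs ht (abs_nonneg _) hN
      _ = ‖η‖ := mul_one _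
  have hv : ∀ i, |vv x i| ≤ 1 := by
    intro i
    fin_cases i
    · simpa [vv, vec] using ba 0
    · simpa [vv, vec] using hm _ _ (ba 1) (bu 0)
    · simpa [vv, vec] using hm _ _ (ba 1) (bu 1)
  have hdv : ∀ i, |dvec x.2.1 x.2.2 η.2.1 η.2.2 i| ≤ 2 * ‖η‖ := by
    intro i
    fin_cases i
    · have := c2 0
      simp only [dvec, Fin.zero_eta, Matrix.cons_val_zero]
      linarith
    · have e1 := hm2 _ _ (c2 1) (bu 0)
      have e2 := hm2 _ _ (c1 0) (ba 1)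
      have e3 := abs_add_le (η.2.2 1 * x.2.1 0) (x.2.2 1 * η.2.1 0)
      rw [mul_comm (x.2.2 1)] at e3
      simp only [dvec, Fin.mk_one, Matrix.cons_val_one, Matrix.cons_val_zero]
      rw [mul_comm (x.2.2 1)]
      linarith
    · have e1 := hm2 _ _ (c2 1) (bu 1)
      have e2 := hm2 _ _ (c1 1) (ba 1)
      have e3 := abs_add_le (η.2.2 1 * x.2.1 1) (x.2.2 1 * η.2.1 1)
      rw [mul_comm (x.2.2 1)] at e3
      have e4 : dvec x.2.1 x.2.2 η.2.1 η.2.2 ⟨2, by norm_num⟩ =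
          η.2.2 1 * x.2.1 1 + x.2.2 1 * η.2.1 1 := rfl
      rw [e4, mul_comm (x.2.2 1)]
      linarith
  refine max_le ?_ (max_le ?_ ?_)
  · have := norm_dop_le x.1 η.1 1 ‖η‖ (abs_le_one_of_dot _ hy)
      (fun i => (abs_comp_le _ i).trans h1) zero_le_one hN
    change ‖dop x.1 η.1‖ ≤ _
    linarith
  · have := norm_dop_le x.2.1 η.2.1 1 ‖η‖ bu c1 zero_le_one hN
    change ‖dop x.2.1 η.2.1‖ ≤ _
    linarith
  · have := norm_dop_le (vv x) (dvec x.2.1 x.2.2 η.2.1 η.2.2) 1 (2 * ‖η‖) hv hdv zero_le_one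
      (by positivity)
    change ‖dop (vv x) (dvec x.2.1 x.2.2 η.2.1 η.2.2)‖ ≤ _
    linarith

end Est1

open Est1 in
theorem stEst1 : StEst1 := by
  refine ⟨88, by norm_num, 1 / 88, by norm_num, ?_⟩
  intro δ x η A hδ0 hδ hx hT hA hk
  have hxm := hx
  obtain ⟨hy, hu, ha, -⟩ := hx
  obtain ⟨t1, t2, t3, -⟩ := hT
  set θ := dot (perp x.2.2) η.2.2 with hθ
  have hN : 0 ≤ ‖η‖ := norm_nonneg _
  -- the norm of `e`
  have he : ‖f0 (dphi x η)‖ ≤ δ * (4 * ‖η‖) := by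
    have h1 : f0 (dphi x η) = -((A - f0) (dphi x η)) := by
      rw [ContinuousLinearMap.sub_apply, hk]; simp
    rw [h1, norm_neg]
    refine ((A - f0).le_opNorm _).trans ?_
    exact mul_le_mul hA (norm_dphi x η hxm) (norm_nonneg _) hδ0
  have hef : f0 (dphi x η) = (dop x.1 η.1, dop x.2.1 η.2.1) := rfl
  rw [hef] at he
  have e1 : ‖dop x.1 η.1‖ ≤ δ * (4 * ‖η‖) :=
    (norm_fst_le ((dop x.1 η.1, dop x.2.1 η.2.1) : FF)).trans he
  have e2 : ‖dop x.2.1 η.2.1‖ ≤ δ * (4 * ‖η‖) :=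
    (norm_snd_le ((dop x.1 η.1, dop x.2.1 η.2.1) : FF)).trans he
  have n1 : ‖η.1‖ ≤ 11 * (δ * (4 * ‖η‖)) := by
    have := norm_le_dop x.1 η.1 hy t1
    push_cast at this
    linarith
  have n2 : ‖η.2.1‖ ≤ 2 * (δ * (4 * ‖η‖)) := by
    have := norm_le_dop x.2.1 η.2.1 hu t2
    push_cast at this
    linarith
  have n3 : ‖η.2.2‖ ≤ |θ| := by
    have h1 := eq_smul_perp x.2.2 η.2.2 ha t3
    rw [h1, norm_smul, Real.norm_eq_abs, ← hθ]
    have h2 : ‖perp x.2.2‖ ≤ 1 := by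
      refine (pi_norm_le_iff_of_nonneg zero_le_one).2 fun i => ?_
      rw [Real.norm_eq_abs]
      have ba := abs_le_one_of_dot _ ha
      fin_cases i
      · simpa [perp] using ba 1
      · simpa [perp] using ba 0
    calc |θ| * ‖perp x.2.2‖ ≤ |θ| * 1 := mul_le_mul_of_nonneg_left h2 (abs_nonneg _)
      _ = |θ| := mul_one _
  have hnn : ‖η‖ ≤ 44 * δ * ‖η‖ + |θ| := by
    have hp : 0 ≤ δ * ‖η‖ := mul_nonneg hδ0 hN
    refine max_le ?_ (max_le ?_ ?_)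
    · have := abs_nonneg θ
      linarith
    · have := abs_nonneg θ
      linarith
    · linarith
  have h2 : ‖η‖ ≤ 2 * |θ| := by
    have h3 : 44 * δ * ‖η‖ ≤ 1 / 2 * ‖η‖ := mul_le_mul_of_nonneg_right (by linarith) hN
    linarith
  have h5 : δ * (4 * ‖η‖) ≤ δ * (8 * |θ|) := mul_le_mul_of_nonneg_left (by linarith) hδ0
  have h6 : 0 ≤ δ * |θ| := mul_nonneg hδ0 (abs_nonneg _)
  constructor
  · linarith
  · linarith

end Pool.Agent.Lib.MP_086785_gt.CB
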