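import Pool.Agent.Lib.MP_086785_gt.Defs

/-!
Project CB (disproof of `MP_086785_gt`, Q1, with `r = 3`, `k = 2`, `n = 9`): the explicit example.

`y ∈ ℝ^11` stands for `(z₃, r, c₀, z₁, c₂, z₂)` with `z₃ = y 0 + i y 1`, `r = y 2`,
`c₀ = y 3 + i y 4`, `z₁ = y 5 + i y 6`, `c₂ = y 7 + i y 8`, `z₂ = y 9 + i y 10`;
`v = (v 0, v') ∈ ℝ × ℂ`, `v' = v 1 + i v 2`, and `S y v = (Re s, Im s, s₃)` with
`s = c₀ v0³ + z₁ v' v0² + c₂ v0 |v'|² + z₂ v' |v'|²`,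
`s₃ = r (v0³ - v0 |v'|²) + Re (z₃ v') v0² + Im (z₃ v') |v'|²`.
-/

set_option autoImplicit false

namespace Pool.Agent.Lib.MP_086785_gt.CB

open Set Filter Topology Finset
open scoped ContDiff

/-- `y yᵀ` -/
def op {n : ℕ} (y : Fin n → ℝ) : Fin n → Fin n → ℝ := fun i j => y i * y j

/-- `y δᵀ + δ yᵀ` -/
def dop {n : ℕ} (y δ : Fin n → ℝ) : Fin n → Fin n → ℝ := fun i j => y i * δ j + δ i * y j

/-- the dot product -/
def dot {n : ℕ} (y z : Fin n → ℝ) : ℝ := ∑ i, y i * z i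

/-- the cubic monomials -/
def mono (v : Fin 3 → ℝ) : Fin 6 → ℝ :=
  ![v 0 ^ 3, v 1 * v 0 ^ 2, v 2 * v 0 ^ 2, v 0 * (v 1 ^ 2 + v 2 ^ 2), v 1 * (v 1 ^ 2 + v 2 ^ 2),
    v 2 * (v 1 ^ 2 + v 2 ^ 2)]

/-- the derivative of `mono` at `v` in the direction `w` -/
def mono1 (v w : Fin 3 → ℝ) : Fin 6 → ℝ :=
  ![3 * v 0 ^ 2 * w 0, w 1 * v 0 ^ 2 + 2 * v 1 * v 0 * w 0, w 2 * v 0 ^ 2 + 2 * v 2 * v 0 * w 0,
    w 0 * (v 1 ^ 2 + v 2 ^ 2) + v 0 * (2 * (v 1 * w 1 + v 2 * w 2)),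
    w 1 * (v 1 ^ 2 + v 2 ^ 2) + v 1 * (2 * (v 1 * w 1 + v 2 * w 2)),
    w 2 * (v 1 ^ 2 + v 2 ^ 2) + v 2 * (2 * (v 1 * w 1 + v 2 * w 2))]

/-- the bilinear map giving `S` -/
def LL (y : Fin 11 → ℝ) (m : Fin 6 → ℝ) : Fin 3 → ℝ :=
  ![y 3 * m 0 + y 5 * m 1 - y 6 * m 2 + y 7 * m 3 + y 9 * m 4 - y 10 * m 5,
    y 4 * m 0 + y 5 * m 2 + y 6 * m 1 + y 8 * m 3 + y 9 * m 5 + y 10 * m 4,
    y 2 * (m 0 - m 3) + y 0 * m 1 - y 1 * m 2 + y 0 * m 5 + y 1 * m 4]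

/-- the transpose of `LL · m` -/
def LT (m : Fin 6 → ℝ) (s : Fin 3 → ℝ) : Fin 11 → ℝ :=
  ![s 2 * (m 1 + m 5), s 2 * (m 4 - m 2), s 2 * (m 0 - m 3), s 0 * m 0, s 1 * m 0,
    s 0 * m 1 + s 1 * m 2, - s 0 * m 2 + s 1 * m 1, s 0 * m 3, s 1 * m 3,
    s 0 * m 4 + s 1 * m 5, - s 0 * m 5 + s 1 * m 4]

/-- the three cubic forms -/
def S (y : Fin 11 → ℝ) (v : Fin 3 → ℝ) : Fin 3 → ℝ := LL y (mono v)

/-- the derivative of `S y` at `v` in the direction `w` -/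
def S1 (y : Fin 11 → ℝ) (v w : Fin 3 → ℝ) : Fin 3 → ℝ := LL y (mono1 v w)

/-- the transpose of `S · v` -/
def RR (v : Fin 3 → ℝ) (s : Fin 3 → ℝ) : Fin 11 → ℝ := LT (mono v) s

/-- the vector `(p, q u)` -/
def vec (u a : Fin 2 → ℝ) : Fin 3 → ℝ := ![a 0, a 1 * u 0, a 1 * u 1]

/-- the derivative of `vec` -/
def dvec (u a δu δa : Fin 2 → ℝ) : Fin 3 → ℝ :=
  ![δa 0, δa 1 * u 0 + a 1 * δu 0, δa 1 * u 1 + a 1 * δu 1]

/-- the vector `(-q, p)` -/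
def perp (a : Fin 2 → ℝ) : Fin 2 → ℝ := ![- a 1, a 0]

/-- the fibre direction at `v`; `ww (vec u a) u = vec u (perp a)` if `|u| = 1` -/
def ww (v : Fin 3 → ℝ) (u : Fin 2 → ℝ) : Fin 3 → ℝ :=
  ![- (u 0 * v 1 + u 1 * v 2), v 0 * u 0, v 0 * u 1]

/-- second fibre derivative (divided by two) -/
def sg1 (y : Fin 11 → ℝ) (v : Fin 3 → ℝ) (u : Fin 2 → ℝ) : Fin 3 → ℝ := S1 y (ww v u) v

/-- third fibre derivative (divided by six), multiplied by the matrix `A(u) = (u ·, u 0)` -/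
def sg2 (y : Fin 11 → ℝ) (v : Fin 3 → ℝ) (u : Fin 2 → ℝ) : Fin 3 → ℝ :=
  ![u 0 * S y (ww v u) 0 - u 1 * S y (ww v u) 1, u 1 * S y (ww v u) 0 + u 0 * S y (ww v u) 1,
    u 0 * S y (ww v u) 2]

/-- the ambient space of `M` -/
abbrev EE : Type := (Fin 11 → Fin 11 → ℝ) × (Fin 2 → Fin 2 → ℝ) × (Fin 3 → Fin 3 → ℝ)

/-- the ambient space of `N` -/
abbrev FF : Type := (Fin 11 → Fin 11 → ℝ) × (Fin 2 → Fin 2 → ℝ)

/-- the ambient space of the covering `Mt` of `M` -/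
abbrev XX : Type := (Fin 11 → ℝ) × (Fin 2 → ℝ) × (Fin 2 → ℝ)

/-- the ambient space of the covering of `N` -/
abbrev NN : Type := (Fin 11 → ℝ) × (Fin 2 → ℝ)

/-- the vector `v` of a point of `XX` -/
def vv (x : XX) : Fin 3 → ℝ := vec x.2.1 x.2.2

/-- the fibre direction at a point of `XX` -/
def wv (x : XX) : Fin 3 → ℝ := vec x.2.1 (perp x.2.2)

/-- the covering map to `M` -/
def phi (x : XX) : EE := (op x.1, op x.2.1, op (vv x))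

/-- the derivative of `phi` at `x` -/
def dphi (x η : XX) : EE :=
  (dop x.1 η.1, dop x.2.1 η.2.1, dop (vv x) (dvec x.2.1 x.2.2 η.2.1 η.2.2))

/-- the covering map to `N` -/
def phiN (x : NN) : FF := (op x.1, op x.2)

/-- the covering of `M`: a regular level set -/
def Mt : Set XX := {x | dot x.1 x.1 = 1 ∧ dot x.2.1 x.2.1 = 1 ∧ dot x.2.2 x.2.2 = 1 ∧
  S x.1 (vv x) = 0}

/-- the covering of `N` -/
def Nt : Set NN := {x | dot x.1 x.1 = 1 ∧ dot x.2 x.2 = 1}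

/-- the manifold `M` -/
def MM : Set EE := phi '' Mt

/-- the manifold `N` -/
def NM : Set FF := phiN '' Nt

/-- the tangent vectors to `Mt` at `x` -/
def TT (x η : XX) : Prop := dot x.1 η.1 = 0 ∧ dot x.2.1 η.2.1 = 0 ∧ dot x.2.2 η.2.2 = 0 ∧
  S η.1 (vv x) + S1 x.1 (vv x) (dvec x.2.1 x.2.2 η.2.1 η.2.2) = 0

/-- the linear map `EE → FF`; its restriction to `MM` is the map `f` of the example -/
def f0 : EE →L[ℝ] FF :=
  (ContinuousLinearMap.fst ℝ _ _).prod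
    ((ContinuousLinearMap.fst ℝ _ _).comp (ContinuousLinearMap.snd ℝ _ _))

/-- the base vector `z₃ = 1` -/
def ye : Fin 11 → ℝ := fun i => if i = 0 then 1 else 0

/-- the special point of `Mt`: `z₃ = 1`, `u = i`, `(p, q) = (1, 0)` -/
def x0 : XX := (ye, ![0, 1], ![1, 0])

/-- matrix product -/
def mm {n : ℕ} (A B : Fin n → Fin n → ℝ) : Fin n → Fin n → ℝ := fun i j => ∑ k, A i k * B k j

/-- transpose -/
def tp {n : ℕ} (A : Fin n → Fin n → ℝ) : Fin n → Fin n → ℝ := fun i j => A j i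

/-- the endomorphism `y ↦ RR v (sg_j y v u)` of `ℝ^11` as a matrix -/
def Xm (j : Fin 2) (v : Fin 3 → ℝ) (u : Fin 2 → ℝ) : Fin 11 → Fin 11 → ℝ := fun a b =>
  if j = 0 then RR v (sg1 (Pi.single b 1) v u) a else RR v (sg2 (Pi.single b 1) v u) a

/-- its extension to the ambient space: substitute the columns of `Q` and `Z`, and sum -/
def Xa (j : Fin 2) (x : EE) : Fin 11 → Fin 11 → ℝ := fun a b =>
  ∑ c : Fin 3, ∑ d : Fin 2, Xm j (fun i => x.2.2 i c) (fun i => x.2.1 i d) a b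

/-- the skew matrix `X P - P Xᵀ` -/
def Km (j : Fin 2) (x : EE) (P : Fin 11 → Fin 11 → ℝ) : Fin 11 → Fin 11 → ℝ :=
  mm (Xa j x) P - mm P (tp (Xa j x))

/-- the vector field along a map, in terms of the first component `P` of the value of the map -/
def Vf (j : Fin 2) (x : EE) (P : Fin 11 → Fin 11 → ℝ) : FF :=
  (mm (Km j x P) P + mm P (tp (Km j x P)), 0)

/-- `(1 + K) P (1 + K)ᵀ / (1 + |K P|²)` -/
noncomputable def Th (P K : Fin 11 → Fin 11 → ℝ) : Fin 11 → Fin 11 → ℝ :=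
  (1 + ∑ a, ∑ b, (mm K P a b) ^ 2)⁻¹ • (P + mm K P + mm P (tp K) + mm (mm K P) (tp K))

/-- the perturbed map `M × ℝ² → N`, as a map of the ambient spaces; `β` is a cut-off function -/
noncomputable def HF (β : (Fin 2 → ℝ) → ℝ) (h : EE → FF) (ε : ℝ) (z : EE × (Fin 2 → ℝ)) : FF :=
  (Th (h z.1).1 ((β z.2 * ε) • (z.2 0 • Km 0 z.1 (h z.1).1 + z.2 1 • Km 1 z.1 (h z.1).1)),
    (h z.1).2)

/-- the affine coordinates on `M` near the special point: `x = (κ, Re z₁, Im z₁, Re c₂, Im c₂,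
Re z₂, Im z₂, η, τ)`, `z₃ = 1 + i κ`, `u = (η, 1)`, `v = (1, τ η, τ)` -/
def cu (x : Fin 9 → ℝ) : Fin 2 → ℝ := ![x 7, 1]

/-- see `cu` -/
def cv (x : Fin 9 → ℝ) : Fin 3 → ℝ := ![1, x 8 * x 7, x 8]

/-- see `cu`; the coordinates `c₀` and `r` are chosen so that `S = 0` -/
noncomputable def cy (x : Fin 9 → ℝ) : Fin 11 → ℝ :=
  ![1, x 0,
    -((x 8 * x 7 - x 0 * x 8) + (x 8 + x 0 * (x 8 * x 7)) * (x 8 ^ 2 * (x 7 ^ 2 + 1))) /
      (1 - x 8 ^ 2 * (x 7 ^ 2 + 1)),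
    -((x 1 * (x 8 * x 7) - x 2 * x 8) + x 3 * (x 8 ^ 2 * (x 7 ^ 2 + 1)) +
      (x 5 * (x 8 * x 7) - x 6 * x 8) * (x 8 ^ 2 * (x 7 ^ 2 + 1))),
    -((x 1 * x 8 + x 2 * (x 8 * x 7)) + x 4 * (x 8 ^ 2 * (x 7 ^ 2 + 1)) +
      (x 5 * x 8 + x 6 * (x 8 * x 7)) * (x 8 ^ 2 * (x 7 ^ 2 + 1))),
    x 1, x 2, x 3, x 4, x 5, x 6]

/-- the chart of `M` near the special point -/
noncomputable def psi (x : Fin 9 → ℝ) : EE :=
  ((dot (cy x) (cy x))⁻¹ • op (cy x), (dot (cu x) (cu x))⁻¹ • op (cu x),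
    (dot (cv x) (cv x))⁻¹ • op (cv x))

/-- the linear coordinates on `N` near the special point: rows `(κ, z₁, c₂, z₂, η)` then
`(r, Re c₀, Im c₀)` -/
noncomputable def piN : FF →L[ℝ] (Fin 8 ⊕ Fin 3 → ℝ) :=
  LinearMap.toContinuousLinearMap
    { toFun := fun z => Sum.elim
        ![z.1 0 1, z.1 0 5, z.1 0 6, z.1 0 7, z.1 0 8, z.1 0 9, z.1 0 10, z.2 0 1]
        ![z.1 0 2, z.1 0 3, z.1 0 4]
      map_add' := by
        intro a b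
        ext i
        rcases i with i | i <;> fin_cases i <;> rfl
      map_smul' := by
        intro a b
        ext i
        rcases i with i | i <;> fin_cases i <;> rfl }

end Pool.Agent.Lib.MP_086785_gt.CB
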