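import Pool.Agent.Lib.MP_086785_gt.CB.Stmts

/-!
Project CB: the fibres of `phi` (module FIB).
-/

set_option autoImplicit false

namespace Pool.Agent.Lib.MP_086785_gt.CB

open Set Filter Topology Finset
open scoped ContDiff

namespace Fib

theorem sq_one {s : ℝ} (h : s = 1 ∨ s = -1) : s * s = 1 := by
  rcases h with rfl | rfl <;> norm_num

theorem op_eq {n : ℕ} {y y' : Fin n → ℝ} (h : op y = op y') (hy : dot y y = 1)
    (hy' : dot y' y' = 1) : ∃ s : ℝ, (s = 1 ∨ s = -1) ∧ y' = s • y := by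
  have h1 : y = dot y' y • y' := by
    funext i
    have h2 : ∑ j, op y i j * y j = ∑ j, op y' i j * y j := by rw [h]
    have h3 : ∑ j, op y i j * y j = y i * dot y y := by
      simp only [op, dot, Finset.mul_sum, mul_assoc]
    have h4 : ∑ j, op y' i j * y j = y' i * dot y' y := by
      simp only [op, dot, Finset.mul_sum, mul_assoc]
    rw [h3, h4, hy, mul_one] at h2
    rw [Pi.smul_apply, smul_eq_mul, h2, mul_comm]
  have h5 : dot y' y * dot y' y = 1 := by
    have h6 : dot y y = dot y' y * (dot y' y * dot y' y') := by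
      conv_lhs => rw [h1]
      rw [dot_smul_left, dot_smul_right]
    rw [hy, hy', mul_one] at h6
    exact h6.symm
  refine ⟨dot y' y, mul_self_eq_one_iff.mp h5, ?_⟩
  conv_rhs => rw [h1]
  rw [dot_smul_right, hy', mul_one, smul_smul, h5, one_smul]

theorem vv_act (s : Fin 3 → ℝ) (hs : ∀ i, s i = 1 ∨ s i = -1) (x : XX) :
    vv (act s x) = s 2 • vv x := by
  have h1 := sq_one (hs 1)
  funext i
  fin_cases i
  · simp [vv, act, vec]
  · simp [vv, act, vec]
    linear_combination (s 2 * x.2.2 1 * x.2.1 0) * h1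
  · simp [vv, act, vec]
    linear_combination (s 2 * x.2.2 1 * x.2.1 1) * h1

theorem op_sm {n : ℕ} {s : ℝ} (hs : s = 1 ∨ s = -1) (y : Fin n → ℝ) : op (s • y) = op y := by
  rw [op_smul, sq, sq_one hs, one_smul]

end Fib

open Fib

theorem stFib : StFib := by
  refine ⟨?_, ?_⟩
  · intro s hs x hx
    obtain ⟨h1, h2, h3, h4⟩ := hx
    refine ⟨⟨?_, ?_, ?_, ?_⟩, ?_⟩
    · change dot (s 0 • x.1) (s 0 • x.1) = 1
      rw [dot_smul_left, dot_smul_right, h1, mul_one, sq_one (hs 0)]
    · change dot (s 1 • x.2.1) (s 1 • x.2.1) = 1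
      rw [dot_smul_left, dot_smul_right, h2, mul_one, sq_one (hs 1)]
    · have h5 : x.2.2 0 * x.2.2 0 + x.2.2 1 * x.2.2 1 = 1 := by
        simpa [dot, Fin.sum_univ_succ] using h3
      have h6 := sq_one (hs 1)
      have h7 := sq_one (hs 2)
      change dot ![s 2 * x.2.2 0, s 1 * s 2 * x.2.2 1] ![s 2 * x.2.2 0, s 1 * s 2 * x.2.2 1] = 1
      simp [dot, Fin.sum_univ_succ]
      linear_combination (x.2.2 0 * x.2.2 0 + s 1 * s 1 * (x.2.2 1 * x.2.2 1)) * h7 +
        (x.2.2 1 * x.2.2 1) * h6 + h5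
    · rw [vv_act s hs]
      change S (s 0 • x.1) (s 2 • vv x) = 0
      rw [S_smul, S_smul_v, h4, smul_zero, smul_zero]
    · unfold phi
      rw [vv_act s hs]
      change (op (s 0 • x.1), op (s 1 • x.2.1), op (s 2 • vv x)) = _
      rw [op_sm (hs 0), op_sm (hs 1), op_sm (hs 2)]
  · intro x hx x' hx' h
    obtain ⟨h1, h2, h3, -⟩ := hx
    obtain ⟨h1', h2', h3', -⟩ := hx'
    unfold phi at h
    rw [Prod.mk.injEq, Prod.mk.injEq] at h
    obtain ⟨k1, k2, k3⟩ := h
    obtain ⟨s0, hs0, e0⟩ := op_eq k1 h1 h1'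
    obtain ⟨s1, hs1, e1⟩ := op_eq k2 h2 h2'
    obtain ⟨s2, hs2, e2⟩ := op_eq k3 (by
      unfold vv
      rw [dot_vec _ _ _ h2, h3]) (by
      unfold vv
      rw [dot_vec _ _ _ h2', h3'])
    refine ⟨![s0, s1, s2], ?_, ?_⟩
    · intro i
      fin_cases i
      · exact hs0
      · exact hs1
      · exact hs2
    · have hu : x.2.1 0 * x.2.1 0 + x.2.1 1 * x.2.1 1 = 1 := by
        simpa [dot, Fin.sum_univ_succ] using h2
      have f0 := congrFun e2 0
      have f1 := congrFun e2 1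
      have f2 := congrFun e2 2
      simp [vv, vec] at f0 f1 f2
      rw [e1] at f1 f2
      simp at f1 f2
      have g1 : x'.2.2 1 * s1 = s2 * x.2.2 1 := by
        linear_combination (x.2.1 0) * f1 + (x.2.1 1) * f2 +
          (s2 * x.2.2 1 - x'.2.2 1 * s1) * hu
      have g2 : x'.2.2 1 = s1 * s2 * x.2.2 1 := by
        have h5 := sq_one hs1
        linear_combination s1 * g1 - (x'.2.2 1) * h5
      change x' = (s0 • x.1, s1 • x.2.1, ![s2 * x.2.2 0, s1 * s2 * x.2.2 1])
      refine Prod.ext e0 (Prod.ext e1 ?_)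
      funext i
      fin_cases i
      · exact f0
      · exact g2

end Pool.Agent.Lib.MP_086785_gt.CB
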