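import Pool.Agent.Lib.MP_086785_gt.CB.Stmts

/-!
Project CB, module Glo: extension of germs of smooth curves.
-/

set_option autoImplicit false

namespace Pool.Agent.Lib.MP_086785_gt.CB

open Set Filter Topology Finset
open scoped ContDiff

theorem stGlo : StGlo := by
  intro E _ _ X U hU hX
  obtain ⟨r, hr, hrU⟩ := Metric.mem_nhds_iff.1 hU
  let f : ContDiffBump (0 : ℝ) := ⟨r / 4, r / 2, by linarith, by linarith⟩
  refine ⟨fun t => f t • X t, ?_, ?_⟩
  · rw [contDiff_iff_contDiffAt]
    intro x
    by_cases hx : x ∈ Metric.ball (0 : ℝ) r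
    · have h1 : U ∈ 𝓝 x := mem_of_superset (Metric.isOpen_ball.mem_nhds hx) hrU
      exact (f.contDiff.contDiffAt).smul (hX.contDiffAt h1)
    · have h2 : x ∉ tsupport f := by
        rw [f.tsupport_eq]
        intro h3
        apply hx
        rw [Metric.mem_ball]
        rw [Metric.mem_closedBall] at h3
        have h4 : f.rOut = r / 2 := rfl
        linarith
      have h3 : (fun t => f t • X t) =ᶠ[𝓝 x] fun _ => (0 : E) := by
        have h4 := notMem_tsupport_iff_eventuallyEq.1 h2
        filter_upwards [h4] with t ht
        rw [ht]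
        exact zero_smul ℝ _
      exact (contDiffAt_const (c := (0 : E))).congr_of_eventuallyEq h3
  · filter_upwards [f.eventuallyEq_one] with t ht
    rw [ht]
    exact one_smul ℝ _

end Pool.Agent.Lib.MP_086785_gt.CB
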