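import Pool.Agent.Lib.MP_086785_gt.CB.Stmts

/-!
Project CB, item GLOB: first order estimate for the points with large kernel.
-/

set_option autoImplicit false

namespace Pool.Agent.Lib.MP_086785_gt.CB

open Set Filter Topology Finset
open scoped ContDiff

namespace Glob

theorem coord_le {n : ℕ} (y : Fin n → ℝ) (h : dot y y = 1) (i : Fin n) : |y i| ≤ 1 := by
  have h1 : y i * y i ≤ ∑ j, y j * y j :=
    Finset.single_le_sum (f := fun j => y j * y j) (fun j _ => mul_self_nonneg (y j))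
      (Finset.mem_univ i)
  have h2 : y i * y i ≤ 1 := by rw [← h]; exact h1
  rw [abs_le]
  constructor <;> nlinarith

theorem mul3_le {v w : Fin 3 → ℝ} {W : ℝ} (hv : ∀ i, |v i| ≤ 1) (hw : ∀ i, |w i| ≤ W)
    (i j k : Fin 3) : |v i * v j * w k| ≤ W := by
  have h0 : 0 ≤ W := (abs_nonneg _).trans (hw 0)
  rw [abs_mul, abs_mul]
  calc |v i| * |v j| * |w k| ≤ 1 * 1 * W := by
        gcongr
        · exact hv i
        · exact hv j
        · exact hw k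
    _ = W := by ring

theorem mono_le {v : Fin 3 → ℝ} (hv : ∀ i, |v i| ≤ 1) (i : Fin 6) : |mono v i| ≤ 2 := by
  have h := fun i j k => abs_le.mp (mul3_le hv hv i j k)
  rw [abs_le]
  fin_cases i
  · simp [mono]; constructor <;> nlinarith [h 0 0 0]
  · simp [mono]; constructor <;> nlinarith [h 0 0 1]
  · simp [mono]; constructor <;> nlinarith [h 0 0 2]
  · simp [mono]; constructor <;> nlinarith [h 1 1 0, h 2 2 0]
  · simp [mono]; constructor <;> nlinarith [h 1 1 1, h 2 2 1]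
  · simp [mono]; constructor <;> nlinarith [h 1 1 2, h 2 2 2]

theorem mono1_le {v w : Fin 3 → ℝ} {W : ℝ} (hv : ∀ i, |v i| ≤ 1) (hw : ∀ i, |w i| ≤ W)
    (i : Fin 6) : |mono1 v w i| ≤ 6 * W := by
  have h := fun i j k => abs_le.mp (mul3_le hv hw i j k)
  have h0 : 0 ≤ W := (abs_nonneg _).trans (hw 0)
  rw [abs_le]
  fin_cases i
  · simp [mono1]; constructor <;> nlinarith [h 0 0 0]
  · simp [mono1]; constructor <;> nlinarith [h 0 0 1, h 1 0 0]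
  · simp [mono1]; constructor <;> nlinarith [h 0 0 2, h 2 0 0]
  · simp [mono1]; constructor <;> nlinarith [h 1 1 0, h 2 2 0, h 0 1 1, h 0 2 2]
  · simp [mono1]; constructor <;> nlinarith [h 1 1 1, h 2 2 1, h 1 1 1, h 1 2 2]
  · simp [mono1]; constructor <;> nlinarith [h 1 1 2, h 2 2 2, h 2 1 1, h 2 2 2]

theorem LL_le {y : Fin 11 → ℝ} {m : Fin 6 → ℝ} {Y M : ℝ} (hy : ∀ i, |y i| ≤ Y)
    (hm : ∀ i, |m i| ≤ M) (i : Fin 3) : |LL y m i| ≤ 6 * (Y * M) := by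
  have hY : 0 ≤ Y := (abs_nonneg _).trans (hy 0)
  have hM : 0 ≤ M := (abs_nonneg _).trans (hm 0)
  have h : ∀ i j, -(Y * M) ≤ y i * m j ∧ y i * m j ≤ Y * M := fun i j => by
    rw [← abs_le, abs_mul]
    exact mul_le_mul (hy i) (hm j) (abs_nonneg _) hY
  rw [abs_le]
  fin_cases i
  · simp [LL]
    constructor <;> linarith [h 3 0, h 5 1, h 6 2, h 7 3, h 9 4, h 10 5]
  · simp [LL]
    constructor <;> linarith [h 4 0, h 5 2, h 6 1, h 8 3, h 9 5, h 10 4]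
  · simp [LL]
    constructor <;> linarith [h 2 0, h 2 3, h 0 1, h 1 2, h 0 5, h 1 4]

theorem LT_le {m : Fin 6 → ℝ} {s : Fin 3 → ℝ} {M P : ℝ} (hm : ∀ i, |m i| ≤ M)
    (hs : ∀ i, |s i| ≤ P) (i : Fin 11) : |LT m s i| ≤ 2 * (P * M) := by
  have hP : 0 ≤ P := (abs_nonneg _).trans (hs 0)
  have hM : 0 ≤ M := (abs_nonneg _).trans (hm 0)
  have hPM : 0 ≤ P * M := mul_nonneg hP hM
  have h : ∀ i j, -(P * M) ≤ s i * m j ∧ s i * m j ≤ P * M := fun i j => by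
    rw [← abs_le, abs_mul]
    exact mul_le_mul (hs i) (hm j) (abs_nonneg _) hP
  rw [abs_le]
  fin_cases i
  · simp [LT]; constructor <;> linarith [h 2 1, h 2 5]
  · simp [LT]; constructor <;> linarith [h 2 4, h 2 2]
  · simp [LT]; constructor <;> linarith [h 2 0, h 2 3]
  · simp [LT]; constructor <;> linarith [h 0 0]
  · simp [LT]; constructor <;> linarith [h 1 0]
  · simp [LT]; constructor <;> linarith [h 0 1, h 1 2]
  · simp [LT]; constructor <;> linarith [h 0 2, h 1 1]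
  · simp [LT]; constructor <;> linarith [h 0 3]
  · simp [LT]; constructor <;> linarith [h 1 3]
  · simp [LT]; constructor <;> linarith [h 0 4, h 1 5]
  · simp [LT]; constructor <;> linarith [h 0 5, h 1 4]

/-- the size of a vector is controlled by its symmetric product with an orthogonal unit vector -/
theorem dop_le {n : ℕ} {y z : Fin n → ℝ} {E : ℝ} (hy : dot y y = 1) (hyz : dot y z = 0)
    (h : ∀ i j, |dop y z i j| ≤ E) (i : Fin n) : |z i| ≤ n * E := by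
  have h1 : z i = ∑ j, dop y z i j * y j := by
    have : ∑ j, dop y z i j * y j = y i * dot y z + z i * dot y y := by
      simp only [dop, dot, Finset.mul_sum, ← Finset.sum_add_distrib]
      exact Finset.sum_congr rfl fun j _ => by ring
    rw [this, hy, hyz]
    ring
  have hE : 0 ≤ E := (abs_nonneg _).trans (h i i)
  rw [h1]
  calc |∑ j, dop y z i j * y j| ≤ ∑ j, |dop y z i j * y j| := Finset.abs_sum_le_sum_abs _ _
    _ ≤ ∑ _j : Fin n, E := by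
        apply Finset.sum_le_sum
        intro j _
        rw [abs_mul]
        calc |dop y z i j| * |y j| ≤ E * 1 :=
              mul_le_mul (h i j) (coord_le y hy j) (abs_nonneg _) hE
          _ = E := mul_one E
    _ = n * E := by simp

theorem dop_norm {n : ℕ} {y z : Fin n → ℝ} {Z : ℝ} (hy : ∀ i, |y i| ≤ 1) (hz : ∀ i, |z i| ≤ Z)
    (hZ : 0 ≤ Z) : ‖dop y z‖ ≤ 2 * Z := by
  rw [pi_norm_le_iff_of_nonneg (by linarith)]
  intro i
  rw [pi_norm_le_iff_of_nonneg (by linarith)]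
  intro j
  rw [Real.norm_eq_abs, dop]
  have h1 : |y i * z j| ≤ Z := by
    rw [abs_mul]
    calc |y i| * |z j| ≤ 1 * Z := mul_le_mul (hy i) (hz j) (abs_nonneg _) zero_le_one
      _ = Z := one_mul Z
  have h2 : |z i * y j| ≤ Z := by
    rw [abs_mul]
    calc |z i| * |y j| ≤ Z * 1 := mul_le_mul (hz i) (hy j) (abs_nonneg _) hZ
      _ = Z := mul_one Z
  linarith [abs_add_le (y i * z j) (z i * y j)]

theorem dphi_norm {x : XX} (hx : x ∈ Mt) (η : XX) : ‖dphi x η‖ ≤ 4 * ‖η‖ := by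
  have hN := norm_nonneg η
  have h1 : ∀ i, |η.1 i| ≤ ‖η‖ := fun i => (norm_le_pi_norm η.1 i).trans (norm_fst_le η)
  have h2 : ∀ i, |η.2.1 i| ≤ ‖η‖ := fun i =>
    (norm_le_pi_norm η.2.1 i).trans ((norm_fst_le η.2).trans (norm_snd_le η))
  have h3 : ∀ i, |η.2.2 i| ≤ ‖η‖ := fun i =>
    (norm_le_pi_norm η.2.2 i).trans ((norm_snd_le η.2).trans (norm_snd_le η))
  have hu := coord_le x.2.1 hx.2.1
  have ha := coord_le x.2.2 hx.2.2.1
  have hv : ∀ i, |vv x i| ≤ 1 := coord_le (vv x) (by rw [vv, dot_vec _ _ _ hx.2.1]; exact hx.2.2.1)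
  have hm : ∀ {p q P Q : ℝ}, |p| ≤ P → |q| ≤ Q → |p * q| ≤ P * Q := fun {p q P Q} hp hq => by
    rw [abs_mul]
    exact mul_le_mul hp hq (abs_nonneg _) ((abs_nonneg _).trans hp)
  have hd : ∀ i, |dvec x.2.1 x.2.2 η.2.1 η.2.2 i| ≤ 2 * ‖η‖ := by
    intro i
    fin_cases i
    · simp only [dvec]
      have := h3 0
      simp
      linarith
    · have e1 := hm (h3 1) (hu 0)
      have e2 := hm (ha 1) (h2 0)
      simp [dvec]
      linarith [abs_add_le (η.2.2 1 * x.2.1 0) (x.2.2 1 * η.2.1 0)]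
    · have e1 := hm (h3 1) (hu 1)
      have e2 := hm (ha 1) (h2 1)
      simp [dvec]
      linarith [abs_add_le (η.2.2 1 * x.2.1 1) (x.2.2 1 * η.2.1 1)]
  rw [dphi, Prod.norm_mk, Prod.norm_mk]
  refine max_le ?_ (max_le ?_ ?_)
  · exact (dop_norm (coord_le x.1 hx.1) h1 hN).trans (by linarith)
  · exact (dop_norm hu h2 hN).trans (by linarith)
  · exact (dop_norm hv hd (by linarith)).trans (by linarith)

theorem dot_perp (a : Fin 2 → ℝ) : dot (perp a) (perp a) = dot a a := by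
  simp [dot, perp, Fin.sum_univ_succ]
  ring

theorem sgj_le {x : XX} (hx : x ∈ Mt) (j : Fin 2) (i : Fin 3) : |sgj j x i| ≤ 36 := by
  have hy := coord_le x.1 hx.1
  have hu := coord_le x.2.1 hx.2.1
  have hv : ∀ i, |vv x i| ≤ 1 := coord_le (vv x) (by rw [vv, dot_vec _ _ _ hx.2.1]; exact hx.2.2.1)
  have hw : ∀ i, |wv x i| ≤ 1 := coord_le (wv x)
    (by rw [wv, dot_vec _ _ _ hx.2.1, dot_perp]; exact hx.2.2.1)
  have hS : ∀ i, |S x.1 (wv x) i| ≤ 12 := fun i => (LL_le hy (mono_le hw) i).trans (by norm_num)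
  have hm : ∀ {p q P Q : ℝ}, |p| ≤ P → |q| ≤ Q → |p * q| ≤ P * Q := fun {p q P Q} hp hq => by
    rw [abs_mul]
    exact mul_le_mul hp hq (abs_nonneg _) ((abs_nonneg _).trans hp)
  unfold sgj
  split_ifs
  · rw [sg1, ww_vv x hx, S1]
    exact (LL_le hy (mono1_le hw hv) i).trans (by norm_num)
  · rw [sg2, ww_vv x hx]
    fin_cases i
    · have e1 := hm (hu 0) (hS 0)
      have e2 := hm (hu 1) (hS 1)
      simp
      linarith [abs_sub (x.2.1 0 * S x.1 (wv x) 0) (x.2.1 1 * S x.1 (wv x) 1)]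
    · have e1 := hm (hu 1) (hS 0)
      have e2 := hm (hu 0) (hS 1)
      simp
      linarith [abs_add_le (x.2.1 1 * S x.1 (wv x) 0) (x.2.1 0 * S x.1 (wv x) 1)]
    · have e1 := hm (hu 0) (hS 2)
      exact e1.trans (by norm_num)

theorem RR_le {x : XX} (hx : x ∈ Mt) (j : Fin 2) (i : Fin 11) :
    |RR (vv x) (sgj j x) i| ≤ 144 := by
  have hv : ∀ i, |vv x i| ≤ 1 := coord_le (vv x) (by rw [vv, dot_vec _ _ _ hx.2.1]; exact hx.2.2.1)
  exact (LT_le (mono_le hv) (sgj_le hx j) i).trans (by norm_num)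

/-- the vector `z` of the estimate -/
noncomputable def zz (x : XX) (ζ : XX × (Fin 2 → ℝ)) : Fin 11 → ℝ :=
  ζ.1.1 + ((ζ.2 0 * rho 0 x) • RR (vv x) (sgj 0 x) + (ζ.2 1 * rho 1 x) • RR (vv x) (sgj 1 x))

theorem est (h1 : StVfEq) {x : XX} (hx : x ∈ Mt) {A : EE →L[ℝ] FF} {V : Fin 2 → FF} {δ : ℝ}
    (hA : ‖A - f0‖ ≤ δ) (hV : ∀ j, ‖V j - VV j (phi x)‖ ≤ δ)
    {ζ : XX × (Fin 2 → ℝ)} (hζ : ζ ∈ Kr x A V) :
    (∀ i, |zz x ζ i| ≤ 66 * (δ * ‖ζ‖)) ∧ ∀ i, |ζ.1.2.1 i| ≤ 12 * (δ * ‖ζ‖) := by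
  obtain ⟨hT, hK⟩ := hζ
  have hN := norm_nonneg ζ
  have hδ : 0 ≤ δ := (norm_nonneg _).trans hA
  have hα : ∀ j, |ζ.2 j| ≤ ‖ζ‖ := fun j => (norm_le_pi_norm ζ.2 j).trans (norm_snd_le ζ)
  have hη : ‖ζ.1‖ ≤ ‖ζ‖ := norm_fst_le ζ
  set e : FF := f0 (dphi x ζ.1) + ∑ j, ζ.2 j • VV j (phi x) with he
  have he' : e = -((A - f0) (dphi x ζ.1) + ∑ j, ζ.2 j • (V j - VV j (phi x))) := by
    have hsub : (A - f0) (dphi x ζ.1) = A (dphi x ζ.1) - f0 (dphi x ζ.1) := rfl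
    rw [he, Fin.sum_univ_two, Fin.sum_univ_two, hsub]
    rw [Fin.sum_univ_two] at hK
    have : A (dphi x ζ.1) = -(ζ.2 0 • V 0 + ζ.2 1 • V 1) := eq_neg_of_add_eq_zero_left hK
    rw [this]
    module
  have hen : ‖e‖ ≤ 6 * (δ * ‖ζ‖) := by
    rw [he', norm_neg]
    have e1 : ‖(A - f0) (dphi x ζ.1)‖ ≤ δ * (4 * ‖ζ‖) := by
      refine ((A - f0).le_opNorm _).trans ?_
      exact mul_le_mul hA ((dphi_norm hx _).trans (by linarith)) (norm_nonneg _) hδ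
    have e2 : ∀ j, ‖ζ.2 j • (V j - VV j (phi x))‖ ≤ ‖ζ‖ * δ := by
      intro j
      rw [norm_smul]
      exact mul_le_mul (hα j) (hV j) (norm_nonneg _) hN
    rw [Fin.sum_univ_two]
    have e3 := norm_add_le ((A - f0) (dphi x ζ.1))
      (ζ.2 0 • (V 0 - VV 0 (phi x)) + ζ.2 1 • (V 1 - VV 1 (phi x)))
    have e4 := norm_add_le (ζ.2 0 • (V 0 - VV 0 (phi x))) (ζ.2 1 • (V 1 - VV 1 (phi x)))
    linarith [e2 0, e2 1]
  have hf : f0 (dphi x ζ.1) = (dop x.1 ζ.1.1, dop x.2.1 ζ.1.2.1) := rfl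
  have he1 : e.1 = dop x.1 (zz x ζ) := by
    rw [he, Fin.sum_univ_two, (h1 0 x hx).1, (h1 1 x hx).1, hf, zz, dop_add, dop_add, dop_smul,
      dop_smul]
    simp only [Prod.smul_mk, Prod.mk_add_mk, smul_smul]
  have he2 : e.2 = dop x.2.1 ζ.1.2.1 := by
    rw [he, Fin.sum_univ_two, (h1 0 x hx).1, (h1 1 x hx).1, hf]
    simp
  have hS0 : ∀ s, dot x.1 (RR (vv x) s) = 0 := by
    intro s
    rw [dot_comm, RR_adj, hx.2.2.2, dot_zero_right]
  have hz0 : dot x.1 (zz x ζ) = 0 := by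
    rw [zz, dot_add_right, dot_add_right, dot_smul_right, dot_smul_right, hS0, hS0, hT.1]
    ring
  constructor
  · intro i
    refine (dop_le (E := 6 * (δ * ‖ζ‖)) hx.1 hz0 ?_ i).trans ?_
    · intro i j
      rw [← he1]
      exact (norm_le_pi_norm (e.1 i) j).trans ((norm_le_pi_norm e.1 i).trans
        ((norm_fst_le e).trans hen))
    · push_cast
      linarith
  · intro i
    refine (dop_le (E := 6 * (δ * ‖ζ‖)) hx.2.1 hT.2.1 ?_ i).trans ?_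
    · intro i j
      rw [← he2]
      exact (norm_le_pi_norm (e.2 i) j).trans ((norm_le_pi_norm e.2 i).trans
        ((norm_snd_le e).trans hen))
    · push_cast
      linarith

/-- the size of a kernel vector -/
theorem size (h1 : StVfEq) {x : XX} (hx : x ∈ Mt) {A : EE →L[ℝ] FF} {V : Fin 2 → FF} {δ : ℝ}
    (hδ1 : δ ≤ 1 / 156) (hA : ‖A - f0‖ ≤ δ) (hV : ∀ j, ‖V j - VV j (phi x)‖ ≤ δ)
    {ζ : XX × (Fin 2 → ℝ)} (hζ : ζ ∈ Kr x A V) :
    ‖ζ‖ ≤ 1730 * (|dot (perp x.2.2) ζ.1.2.2| + ‖ζ.2‖) := by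
  obtain ⟨hz, hu⟩ := est h1 hx hA hV hζ
  have hN := norm_nonneg ζ
  have hδ : 0 ≤ δ := (norm_nonneg _).trans hA
  have hδN : δ * ‖ζ‖ ≤ 1 / 156 * ‖ζ‖ := mul_le_mul_of_nonneg_right hδ1 hN
  have hδN0 : 0 ≤ δ * ‖ζ‖ := mul_nonneg hδ hN
  set θ := dot (perp x.2.2) ζ.1.2.2 with hθ
  have hT := hζ.1
  have h22 : ζ.1.2.2 = θ • perp x.2.2 := eq_smul_perp _ _ hx.2.2.1 hT.2.2.1
  have hp : ∀ i, |perp x.2.2 i| ≤ 1 := coord_le _ (by rw [dot_perp]; exact hx.2.2.1)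
  have ht := abs_nonneg θ
  have hn2 := norm_nonneg ζ.2
  have b1 : ‖ζ.1.1‖ ≤ 66 * (δ * ‖ζ‖) + 864 * ‖ζ.2‖ := by
    rw [pi_norm_le_iff_of_nonneg (by positivity)]
    intro i
    have e1 : ζ.1.1 i = zz x ζ i - (ζ.2 0 * rho 0 x * RR (vv x) (sgj 0 x) i +
        ζ.2 1 * rho 1 x * RR (vv x) (sgj 1 x) i) := by
      simp only [zz, Pi.add_apply, Pi.smul_apply, smul_eq_mul]
      ring
    have e2 : ∀ j, |ζ.2 j * rho j x * RR (vv x) (sgj j x) i| ≤ ‖ζ.2‖ * 3 * 144 := by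
      intro j
      obtain ⟨-, r1, r2⟩ := h1 j x hx
      rw [abs_mul, abs_mul, abs_of_nonneg (show 0 ≤ rho j x by linarith)]
      gcongr
      · exact norm_le_pi_norm ζ.2 j
      · exact RR_le hx j i
    rw [Real.norm_eq_abs, e1]
    have e3 := abs_sub (zz x ζ i) (ζ.2 0 * rho 0 x * RR (vv x) (sgj 0 x) i +
        ζ.2 1 * rho 1 x * RR (vv x) (sgj 1 x) i)
    have e4 := abs_add_le (ζ.2 0 * rho 0 x * RR (vv x) (sgj 0 x) i)
      (ζ.2 1 * rho 1 x * RR (vv x) (sgj 1 x) i)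
    linarith [e2 0, e2 1, hz i]
  have b2 : ‖ζ.1.2.1‖ ≤ 12 * (δ * ‖ζ‖) := by
    rw [pi_norm_le_iff_of_nonneg (by positivity)]
    exact hu
  have b3 : ‖ζ.1.2.2‖ ≤ |θ| := by
    rw [pi_norm_le_iff_of_nonneg ht]
    intro i
    rw [h22, Pi.smul_apply, smul_eq_mul, Real.norm_eq_abs, abs_mul]
    calc |θ| * |perp x.2.2 i| ≤ |θ| * 1 := mul_le_mul_of_nonneg_left (hp i) ht
      _ = |θ| := mul_one _
  have b4 : ‖ζ‖ ≤ 78 * (δ * ‖ζ‖) + 865 * ‖ζ.2‖ + |θ| := by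
    have : ‖ζ‖ = max (max ‖ζ.1.1‖ (max ‖ζ.1.2.1‖ ‖ζ.1.2.2‖)) ‖ζ.2‖ := rfl
    rw [this]
    refine max_le (max_le ?_ (max_le ?_ ?_)) ?_ <;> rw [← this] <;> linarith
  linarith

theorem norm3_le {s : Fin 3 → ℝ} {B : ℝ} (h : ∀ i, |s i| ≤ B) : ‖s‖ ≤ B := by
  rw [pi_norm_le_iff_of_nonneg ((abs_nonneg _).trans (h 0))]
  exact h

theorem tang (h1 : StVfEq) {x : XX} (hx : x ∈ Mt) {A : EE →L[ℝ] FF} {V : Fin 2 → FF} {δ : ℝ}
    (hA : ‖A - f0‖ ≤ δ) (hV : ∀ j, ‖V j - VV j (phi x)‖ ≤ δ)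
    {ζ : XX × (Fin 2 → ℝ)} (hζ : ζ ∈ Kr x A V) (i : Fin 3) :
    |dot (perp x.2.2) ζ.1.2.2 * S1 x.1 (vv x) (wv x) i
      - ∑ j, ζ.2 j * rho j x * S (RR (vv x) (sgj j x)) (vv x) i| ≤ 1224 * (δ * ‖ζ‖) := by
  obtain ⟨hz, hu⟩ := est h1 hx hA hV hζ
  have hN := norm_nonneg ζ
  have hδ : 0 ≤ δ := (norm_nonneg _).trans hA
  have hδN0 : 0 ≤ δ * ‖ζ‖ := mul_nonneg hδ hN
  set θ := dot (perp x.2.2) ζ.1.2.2 with hθ
  have hT := hζ.1
  have h22 : ζ.1.2.2 = θ • perp x.2.2 := eq_smul_perp _ _ hx.2.2.1 hT.2.2.1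
  have hy := coord_le x.1 hx.1
  have ha := coord_le x.2.2 hx.2.2.1
  have hv : ∀ i, |vv x i| ≤ 1 := coord_le (vv x) (by rw [vv, dot_vec _ _ _ hx.2.1]; exact hx.2.2.1)
  have hT4 := hT.2.2.2
  rw [h22, dvec_perp, S1_add, S1_smul] at hT4
  have hS : S ζ.1.1 (vv x) = S (zz x ζ) (vv x) -
      ((ζ.2 0 * rho 0 x) • S (RR (vv x) (sgj 0 x)) (vv x) +
        (ζ.2 1 * rho 1 x) • S (RR (vv x) (sgj 1 x)) (vv x)) := by
    rw [zz, S_add, S_add, S_smul, S_smul]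
    abel
  rw [hS] at hT4
  have e1 := congrFun hT4 i
  simp only [Pi.add_apply, Pi.sub_apply, Pi.smul_apply, smul_eq_mul, Pi.zero_apply] at e1
  have e2 : |S (zz x ζ) (vv x) i| ≤ 6 * (66 * (δ * ‖ζ‖) * 2) := LL_le hz (mono_le hv) i
  have hb : ∀ k, |(![0, x.2.2 1 * ζ.1.2.1 0, x.2.2 1 * ζ.1.2.1 1] : Fin 3 → ℝ) k| ≤
      12 * (δ * ‖ζ‖) := by
    have hm : ∀ k, |x.2.2 1 * ζ.1.2.1 k| ≤ 12 * (δ * ‖ζ‖) := by
      intro k
      rw [abs_mul]
      calc |x.2.2 1| * |ζ.1.2.1 k| ≤ 1 * (12 * (δ * ‖ζ‖)) :=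
            mul_le_mul (ha 1) (hu k) (abs_nonneg _) zero_le_one
        _ = _ := one_mul _
    intro k
    fin_cases k
    · simp
      positivity
    · exact hm 0
    · exact hm 1
  have e3 : |S1 x.1 (vv x) ![0, x.2.2 1 * ζ.1.2.1 0, x.2.2 1 * ζ.1.2.1 1] i| ≤
      6 * (1 * (6 * (12 * (δ * ‖ζ‖)))) := LL_le hy (mono1_le hv hb) i
  rw [Fin.sum_univ_two]
  have e4 : θ * S1 x.1 (vv x) (wv x) i - (ζ.2 0 * rho 0 x * S (RR (vv x) (sgj 0 x)) (vv x) i +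
      ζ.2 1 * rho 1 x * S (RR (vv x) (sgj 1 x)) (vv x) i) =
      -(S (zz x ζ) (vv x) i + S1 x.1 (vv x) ![0, x.2.2 1 * ζ.1.2.1 0, x.2.2 1 * ζ.1.2.1 1] i) := by
    rw [wv]
    linarith
  rw [e4, abs_neg]
  refine (abs_add_le _ _).trans ?_
  linarith

/-- the linear map `(η, α) ↦ (θ, α)` -/
noncomputable def pr (x : XX) : XX × (Fin 2 → ℝ) →ₗ[ℝ] ℝ × (Fin 2 → ℝ) where
  toFun ζ := (dot (perp x.2.2) ζ.1.2.2, ζ.2)
  map_add' := by
    intro ζ ζ'
    simp only [Prod.fst_add, Prod.snd_add, dot_add_right, Prod.mk_add_mk]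
  map_smul' := by
    intro c ζ
    simp only [Prod.smul_fst, Prod.smul_snd, dot_smul_right, Prod.smul_mk, smul_eq_mul,
      RingHom.id_apply]

theorem surj (h1 : StVfEq) {x : XX} (hx : x ∈ Mt) {A : EE →L[ℝ] FF} {V : Fin 2 → FF} {δ : ℝ}
    (hδ1 : δ ≤ 1 / 156) (hA : ‖A - f0‖ ≤ δ) (hV : ∀ j, ‖V j - VV j (phi x)‖ ≤ δ)
    (hk : 3 ≤ kd x A V) (t : ℝ × (Fin 2 → ℝ)) :
    ∃ ζ ∈ Kr x A V, dot (perp x.2.2) ζ.1.2.2 = t.1 ∧ ζ.2 = t.2 := by
  let F : Kr x A V →ₗ[ℝ] ℝ × (Fin 2 → ℝ) := (pr x).comp (Kr x A V).subtype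
  have hinj : Function.Injective F := by
    rw [injective_iff_map_eq_zero]
    intro ζ hζ
    have h2 := size h1 hx hδ1 hA hV ζ.2
    have h3 : dot (perp x.2.2) (ζ : XX × (Fin 2 → ℝ)).1.2.2 = 0 := congrArg Prod.fst hζ
    have h4 : (ζ : XX × (Fin 2 → ℝ)).2 = 0 := congrArg Prod.snd hζ
    rw [h3, h4] at h2
    simp only [abs_zero, norm_zero, add_zero, mul_zero] at h2
    exact Subtype.ext (norm_le_zero_iff.mp h2)
  have hdim : Module.finrank ℝ (ℝ × (Fin 2 → ℝ)) = 3 := by simp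
  have hle : Module.finrank ℝ (Kr x A V) ≤ 3 := by
    rw [← hdim]
    exact LinearMap.finrank_le_finrank_of_injective hinj
  have heq : Module.finrank ℝ (Kr x A V) = Module.finrank ℝ (ℝ × (Fin 2 → ℝ)) := by
    rw [hdim]
    exact le_antisymm hle hk
  have hsurj : Function.Surjective F :=
    (LinearMap.injective_iff_surjective_of_finrank_eq_finrank heq).mp hinj
  obtain ⟨ζ, hζ⟩ := hsurj t
  exact ⟨ζ, ζ.2, congrArg Prod.fst hζ, congrArg Prod.snd hζ⟩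

end Glob

/-- first order estimate for the points with large kernel -/
theorem stGlob (h1 : StVfEq) (h2 : StDpos) : StGlob := by
  refine ⟨100 * (1224 * 1730), by norm_num, 1 / 156, by norm_num, ?_⟩
  intro δ x A V hδ hδ1 hx hA hV hk
  have hone : ∀ j : Fin 2, ‖(Pi.single j 1 : Fin 2 → ℝ)‖ = 1 := by
    intro j
    rw [Pi.norm_single, norm_one]
  constructor
  · obtain ⟨ζ, hζ, e1, e2⟩ := Glob.surj h1 hx hδ1 hA hV hk (1, 0)
    apply Glob.norm3_le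
    intro i
    have h3 := Glob.tang h1 hx hA hV hζ i
    have h4 := Glob.size h1 hx hδ1 hA hV hζ
    simp only [e1, e2] at h3 h4
    simp only [Pi.zero_apply, zero_mul, Finset.sum_const_zero, sub_zero, one_mul] at h3
    simp only [abs_one, norm_zero, add_zero, mul_one] at h4
    have h5 : δ * ‖ζ‖ ≤ δ * 1730 := mul_le_mul_of_nonneg_left h4 hδ
    linarith
  · intro j
    obtain ⟨ζ, hζ, e1, e2⟩ := Glob.surj h1 hx hδ1 hA hV hk (0, Pi.single j 1)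
    obtain ⟨-, d1, d3⟩ := h2 x hx
    obtain ⟨-, r1, -⟩ := h1 j x hx
    apply Glob.norm3_le
    intro i
    have h3 := Glob.tang h1 hx hA hV hζ i
    have h4 := Glob.size h1 hx hδ1 hA hV hζ
    simp only [e1, e2] at h3 h4
    rw [hone j] at h4
    simp only [abs_zero, zero_add, mul_one] at h4
    have h6 : ∑ k, (Pi.single j 1 : Fin 2 → ℝ) k * rho k x * S (RR (vv x) (sgj k x)) (vv x) i =
        rho j x * S (RR (vv x) (sgj j x)) (vv x) i := by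
      rw [Finset.sum_eq_single j]
      · rw [Pi.single_eq_same, one_mul]
      · intro k _ hkj
        rw [Pi.single_eq_of_ne hkj]
        ring
      · intro hj
        exact absurd (Finset.mem_univ j) hj
    rw [h6, zero_mul, zero_sub, abs_neg] at h3
    have h5 : δ * ‖ζ‖ ≤ δ * 1730 := mul_le_mul_of_nonneg_left h4 hδ
    -- the eigenvalues
    have key : ∀ D : ℝ, 1 / 5 ≤ D → |rho j x * (D * sgj j x i)| ≤ 1224 * (δ * ‖ζ‖) →
        |sgj j x i| ≤ 100 * (1224 * 1730) * δ := by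
      intro D hD hb
      rw [abs_mul, abs_mul, abs_of_nonneg (show 0 ≤ rho j x by linarith),
        abs_of_nonneg (show 0 ≤ D by linarith)] at hb
      have hs := abs_nonneg (sgj j x i)
      have h7 : 1 / 20 * (1 / 5 * |sgj j x i|) ≤ rho j x * (D * |sgj j x i|) := by
        gcongr
      linarith
    rw [S_RR] at h3
    fin_cases i
    · exact key _ d1 h3
    · exact key _ d1 h3
    · exact key _ d3 h3

end Pool.Agent.Lib.MP_086785_gt.CB
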