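import Pool.Agent.Lib.MP_086785_gt.CB.Stmts

/-!
Project CB: module HFa, the map `HF`: smoothness, restriction, range.
-/

set_option autoImplicit false

namespace Pool.Agent.Lib.MP_086785_gt.CB

open Set Filter Topology Finset
open scoped ContDiff

namespace HFa

variable {X : Type*} [NormedAddCommGroup X] [NormedSpace ℝ X]

theorem cd_apply {n : ℕ} {f : X → Fin n → ℝ} (hf : ContDiff ℝ ∞ f) (i : Fin n) :
    ContDiff ℝ ∞ (fun x => f x i) := contDiff_pi.1 hf i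

theorem cd_apply2 {n m : ℕ} {f : X → Fin n → Fin m → ℝ} (hf : ContDiff ℝ ∞ f) (i : Fin n)
    (j : Fin m) : ContDiff ℝ ∞ (fun x => f x i j) := contDiff_pi.1 (contDiff_pi.1 hf i) j

theorem cd_mm {n : ℕ} {A B : X → Fin n → Fin n → ℝ} (hA : ContDiff ℝ ∞ A)
    (hB : ContDiff ℝ ∞ B) : ContDiff ℝ ∞ (fun x => mm (A x) (B x)) := by
  refine contDiff_pi.2 fun i => contDiff_pi.2 fun j => ?_
  exact ContDiff.sum fun k _ => (cd_apply2 hA i k).mul (cd_apply2 hB k j)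

theorem cd_tp {n : ℕ} {A : X → Fin n → Fin n → ℝ} (hA : ContDiff ℝ ∞ A) :
    ContDiff ℝ ∞ (fun x => tp (A x)) :=
  contDiff_pi.2 fun i => contDiff_pi.2 fun j => cd_apply2 hA j i

theorem cd_mono {v : X → Fin 3 → ℝ} (hv : ContDiff ℝ ∞ v) :
    ContDiff ℝ ∞ (fun x => mono (v x)) := by
  have h0 := cd_apply hv 0
  have h1 := cd_apply hv 1
  have h2 := cd_apply hv 2
  refine contDiff_pi.2 fun i => ?_
  fin_cases i <;> simp [mono] <;> fun_prop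

theorem cd_mono1 {v w : X → Fin 3 → ℝ} (hv : ContDiff ℝ ∞ v) (hw : ContDiff ℝ ∞ w) :
    ContDiff ℝ ∞ (fun x => mono1 (v x) (w x)) := by
  have h0 := cd_apply hv 0
  have h1 := cd_apply hv 1
  have h2 := cd_apply hv 2
  have k0 := cd_apply hw 0
  have k1 := cd_apply hw 1
  have k2 := cd_apply hw 2
  refine contDiff_pi.2 fun i => ?_
  fin_cases i <;> simp [mono1] <;> fun_prop

theorem cd_LL (y : Fin 11 → ℝ) {m : X → Fin 6 → ℝ} (hm : ContDiff ℝ ∞ m) :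
    ContDiff ℝ ∞ (fun x => LL y (m x)) := by
  have h0 := cd_apply hm 0
  have h1 := cd_apply hm 1
  have h2 := cd_apply hm 2
  have h3 := cd_apply hm 3
  have h4 := cd_apply hm 4
  have h5 := cd_apply hm 5
  refine contDiff_pi.2 fun i => ?_
  fin_cases i <;> simp [LL] <;> fun_prop

theorem cd_LT {m : X → Fin 6 → ℝ} {s : X → Fin 3 → ℝ} (hm : ContDiff ℝ ∞ m)
    (hs : ContDiff ℝ ∞ s) : ContDiff ℝ ∞ (fun x => LT (m x) (s x)) := by
  have h0 := cd_apply hm 0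
  have h1 := cd_apply hm 1
  have h2 := cd_apply hm 2
  have h3 := cd_apply hm 3
  have h4 := cd_apply hm 4
  have h5 := cd_apply hm 5
  have k0 := cd_apply hs 0
  have k1 := cd_apply hs 1
  have k2 := cd_apply hs 2
  refine contDiff_pi.2 fun i => ?_
  fin_cases i <;> simp [LT] <;> fun_prop

theorem cd_ww {v : X → Fin 3 → ℝ} {u : X → Fin 2 → ℝ} (hv : ContDiff ℝ ∞ v)
    (hu : ContDiff ℝ ∞ u) : ContDiff ℝ ∞ (fun x => ww (v x) (u x)) := by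
  have h0 := cd_apply hv 0
  have h1 := cd_apply hv 1
  have h2 := cd_apply hv 2
  have k0 := cd_apply hu 0
  have k1 := cd_apply hu 1
  refine contDiff_pi.2 fun i => ?_
  fin_cases i <;> simp [ww] <;> fun_prop

theorem cd_RR {v s : X → Fin 3 → ℝ} (hv : ContDiff ℝ ∞ v) (hs : ContDiff ℝ ∞ s) :
    ContDiff ℝ ∞ (fun x => RR (v x) (s x)) := cd_LT (cd_mono hv) hs

theorem cd_sg1 (y : Fin 11 → ℝ) {v : X → Fin 3 → ℝ} {u : X → Fin 2 → ℝ}
    (hv : ContDiff ℝ ∞ v) (hu : ContDiff ℝ ∞ u) :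
    ContDiff ℝ ∞ (fun x => sg1 y (v x) (u x)) := cd_LL y (cd_mono1 (cd_ww hv hu) hv)

theorem cd_sg2 (y : Fin 11 → ℝ) {v : X → Fin 3 → ℝ} {u : X → Fin 2 → ℝ}
    (hv : ContDiff ℝ ∞ v) (hu : ContDiff ℝ ∞ u) :
    ContDiff ℝ ∞ (fun x => sg2 y (v x) (u x)) := by
  have hS : ContDiff ℝ ∞ (fun x => S y (ww (v x) (u x))) := cd_LL y (cd_mono (cd_ww hv hu))
  have h0 := cd_apply hS 0
  have h1 := cd_apply hS 1
  have h2 := cd_apply hS 2
  have k0 := cd_apply hu 0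
  have k1 := cd_apply hu 1
  refine contDiff_pi.2 fun i => ?_
  fin_cases i <;> simp [sg2] <;> fun_prop

theorem cd_Xm (j : Fin 2) (a b : Fin 11) {v : X → Fin 3 → ℝ} {u : X → Fin 2 → ℝ}
    (hv : ContDiff ℝ ∞ v) (hu : ContDiff ℝ ∞ u) :
    ContDiff ℝ ∞ (fun x => Xm j (v x) (u x) a b) := by
  unfold Xm
  split_ifs with h
  · exact cd_apply (cd_RR hv (cd_sg1 _ hv hu)) a
  · exact cd_apply (cd_RR hv (cd_sg2 _ hv hu)) a

theorem cd_Xa (j : Fin 2) {x : X → EE} (hx : ContDiff ℝ ∞ x) :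
    ContDiff ℝ ∞ (fun t => Xa j (x t)) := by
  have h1 : ContDiff ℝ ∞ (fun t => (x t).2.1) := hx.snd.fst
  have h2 : ContDiff ℝ ∞ (fun t => (x t).2.2) := hx.snd.snd
  refine contDiff_pi.2 fun a => contDiff_pi.2 fun b => ?_
  refine ContDiff.sum fun c _ => ContDiff.sum fun d _ => ?_
  exact cd_Xm j a b (contDiff_pi.2 fun i => cd_apply2 h2 i c)
    (contDiff_pi.2 fun i => cd_apply2 h1 i d)

theorem cd_Km (j : Fin 2) {x : X → EE} {P : X → Fin 11 → Fin 11 → ℝ} (hx : ContDiff ℝ ∞ x)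
    (hP : ContDiff ℝ ∞ P) : ContDiff ℝ ∞ (fun t => Km j (x t) (P t)) :=
  (cd_mm (cd_Xa j hx) hP).sub (cd_mm hP (cd_tp (cd_Xa j hx)))

theorem cd_Th {P K : X → Fin 11 → Fin 11 → ℝ} (hP : ContDiff ℝ ∞ P) (hK : ContDiff ℝ ∞ K) :
    ContDiff ℝ ∞ (fun t => Th (P t) (K t)) := by
  have hKP := cd_mm hK hP
  have h1 : ContDiff ℝ ∞ (fun t => 1 + ∑ a, ∑ b, (mm (K t) (P t) a b) ^ 2) := by
    refine contDiff_const.add (ContDiff.sum fun a _ => ContDiff.sum fun b _ => ?_)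
    exact (cd_apply2 hKP a b).pow 2
  have h2 : ∀ t, 1 + ∑ a, ∑ b, (mm (K t) (P t) a b) ^ 2 ≠ 0 := by
    intro t
    have : 0 ≤ ∑ a, ∑ b, (mm (K t) (P t) a b) ^ 2 :=
      Finset.sum_nonneg fun a _ => Finset.sum_nonneg fun b _ => sq_nonneg _
    positivity
  exact (h1.inv h2).smul (((hP.add hKP).add (cd_mm hP (cd_tp hK))).add (cd_mm hKP (cd_tp hK)))

theorem cd_HF {β : (Fin 2 → ℝ) → ℝ} {h : EE → FF} (hβ : ContDiff ℝ ∞ β) (hh : ContDiff ℝ ∞ h) :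
    ContDiff ℝ ∞ (fun p : (EE × (Fin 2 → ℝ)) × ℝ => HF β h p.2 p.1) := by
  have hx : ContDiff ℝ ∞ (fun p : (EE × (Fin 2 → ℝ)) × ℝ => p.1.1) := contDiff_fst.fst
  have hw : ContDiff ℝ ∞ (fun p : (EE × (Fin 2 → ℝ)) × ℝ => p.1.2) := contDiff_fst.snd
  have hε : ContDiff ℝ ∞ (fun p : (EE × (Fin 2 → ℝ)) × ℝ => p.2) := contDiff_snd
  have hh' : ContDiff ℝ ∞ (fun p : (EE × (Fin 2 → ℝ)) × ℝ => h p.1.1) := hh.comp hx
  have hβ' : ContDiff ℝ ∞ (fun p : (EE × (Fin 2 → ℝ)) × ℝ => β p.1.2) := hβ.comp hw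
  refine ContDiff.prodMk (cd_Th hh'.fst ?_) hh'.snd
  refine (hβ'.mul hε).smul (ContDiff.add ?_ ?_)
  · exact (cd_apply hw 0).smul (cd_Km 0 hx hh'.fst)
  · exact (cd_apply hw 1).smul (cd_Km 1 hx hh'.fst)

theorem mm_zero_left {n : ℕ} (A : Fin n → Fin n → ℝ) : mm 0 A = 0 := by
  funext i j
  simp [mm]

theorem mm_zero_right {n : ℕ} (A : Fin n → Fin n → ℝ) : mm A 0 = 0 := by
  funext i j
  simp [mm]

theorem tp_zero {n : ℕ} : tp (0 : Fin n → Fin n → ℝ) = 0 := rfl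

theorem Th_zero (P : Fin 11 → Fin 11 → ℝ) : Th P 0 = P := by
  have h1 : mm (mm (0 : Fin 11 → Fin 11 → ℝ) P) (0 : Fin 11 → Fin 11 → ℝ) = 0 := mm_zero_right _
  unfold Th
  rw [tp_zero, h1, mm_zero_left, mm_zero_right]
  simp

theorem tp_mm {n : ℕ} (A B : Fin n → Fin n → ℝ) : tp (mm A B) = mm (tp B) (tp A) := by
  funext i j
  simp only [tp, mm]
  exact Finset.sum_congr rfl fun k _ => mul_comm _ _

theorem tp_tp {n : ℕ} (A : Fin n → Fin n → ℝ) : tp (tp A) = A := rfl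

theorem tp_Km (j : Fin 2) (x : EE) (P : Fin 11 → Fin 11 → ℝ) (hP : tp P = P) :
    tp (Km j x P) = -Km j x P := by
  have h1 : tp (Km j x P) = tp (mm (Xa j x) P) - tp (mm P (tp (Xa j x))) := rfl
  rw [h1, tp_mm, tp_mm, tp_tp, hP]
  unfold Km
  abel

end HFa

open HFa in
/-- The map `HF`: smoothness, restriction, range. -/
theorem stHF (hTh : StTh) : StHF := by
  intro β h hβ hh
  refine ⟨cd_HF hβ hh, fun ε => ?_, fun ε x => ?_, fun ε hm => ?_⟩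
  · have h1 : ContDiff ℝ ∞ (fun z : EE × (Fin 2 → ℝ) => (z, ε)) :=
      contDiff_id.prodMk contDiff_const
    have h2 := (cd_HF hβ hh).comp h1
    have h3 : HF β h ε = (fun p : (EE × (Fin 2 → ℝ)) × ℝ => HF β h p.2 p.1) ∘
      (fun z : EE × (Fin 2 → ℝ) => (z, ε)) := rfl
    rw [h3]
    exact h2
  · unfold HF
    have h1 : (β 0 * ε) • ((0 : Fin 2 → ℝ) 0 • Km 0 x (h x).1 + (0 : Fin 2 → ℝ) 1 • Km 1 x (h x).1) =
        0 := by
      rw [Pi.zero_apply, Pi.zero_apply, zero_smul, zero_smul, add_zero, smul_zero]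
    change (Th (h x).1 ((β 0 * ε) • ((0 : Fin 2 → ℝ) 0 • Km 0 x (h x).1 +
      (0 : Fin 2 → ℝ) 1 • Km 1 x (h x).1)), (h x).2) = h x
    rw [h1, Th_zero]
  · rintro ⟨x, w⟩ ⟨hx, _⟩
    obtain ⟨⟨y, u⟩, ⟨hy, hu⟩, e⟩ := hm hx
    have e1 : (h x).1 = op y := by rw [← e]; rfl
    have e2 : (h x).2 = op u := by rw [← e]; rfl
    have hP : tp (op y) = op y := by
      funext i j
      simp only [tp, op]
      ring
    have hK : tp ((β w * ε) • (w 0 • Km 0 x (op y) + w 1 • Km 1 x (op y))) =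
        -((β w * ε) • (w 0 • Km 0 x (op y) + w 1 • Km 1 x (op y))) := by
      have h1 : tp ((β w * ε) • (w 0 • Km 0 x (op y) + w 1 • Km 1 x (op y))) =
        (β w * ε) • (w 0 • tp (Km 0 x (op y)) + w 1 • tp (Km 1 x (op y))) := rfl
      rw [h1, tp_Km 0 x _ hP, tp_Km 1 x _ hP]
      simp only [smul_neg, smul_add]
      abel
    obtain ⟨y', hy', e'⟩ := hTh y _ hy hK
    refine ⟨(y', u), ⟨hy', hu⟩, ?_⟩
    change (op y', op u) = (Th (h x).1 ((β w * ε) • (w 0 • Km 0 x (h x).1 +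
      w 1 • Km 1 x (h x).1)), (h x).2)
    rw [e1, e2, e']

end Pool.Agent.Lib.MP_086785_gt.CB
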