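import Pool.Agent.Lib.MP_086785_gt.CB.Stmts

/-! Project CB, module HFd: the derivative of the map `HF` in the directions of `ℝ²`. -/

set_option autoImplicit false

namespace Pool.Agent.Lib.MP_086785_gt.CB

open Set Filter Topology Finset
open scoped ContDiff

namespace HFd

theorem mm_smul_left {n : ℕ} (s : ℝ) (A B : Fin n → Fin n → ℝ) : mm (s • A) B = s • mm A B := by
  funext i j
  simp only [mm, Pi.smul_apply, smul_eq_mul, Finset.mul_sum, mul_assoc]

theorem mm_smul_right {n : ℕ} (s : ℝ) (A B : Fin n → Fin n → ℝ) : mm A (s • B) = s • mm A B := by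
  funext i j
  simp only [mm, Pi.smul_apply, smul_eq_mul, Finset.mul_sum]
  exact Finset.sum_congr rfl fun k _ => by ring

theorem tp_smul {n : ℕ} (s : ℝ) (A : Fin n → Fin n → ℝ) : tp (s • A) = s • tp A := rfl

theorem Th_smul (P K : Fin 11 → Fin 11 → ℝ) (s : ℝ) :
    Th P (s • K) = (1 + s ^ 2 * ∑ a, ∑ b, (mm K P a b) ^ 2)⁻¹ •
      (P + s • (mm K P + mm P (tp K)) + s ^ 2 • mm (mm K P) (tp K)) := by
  unfold Th
  rw [mm_smul_left, tp_smul, mm_smul_right, mm_smul_right, mm_smul_left, smul_smul]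
  have e1 : ∑ a, ∑ b, ((s • mm K P) a b) ^ 2 = s ^ 2 * ∑ a, ∑ b, (mm K P a b) ^ 2 := by
    rw [Finset.mul_sum]
    refine Finset.sum_congr rfl fun a _ => ?_
    rw [Finset.mul_sum]
    refine Finset.sum_congr rfl fun b _ => ?_
    simp only [Pi.smul_apply, smul_eq_mul]
    ring
  rw [e1, smul_add s, pow_two s, add_assoc P]

theorem hasDerivAt_Th (P K : Fin 11 → Fin 11 → ℝ) :
    HasDerivAt (fun s : ℝ => Th P (s • K)) (mm K P + mm P (tp K)) 0 := by
  have h1 : (fun s : ℝ => Th P (s • K)) = fun s : ℝ =>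
      (1 + s ^ 2 * ∑ a, ∑ b, (mm K P a b) ^ 2)⁻¹ •
      (P + s • (mm K P + mm P (tp K)) + s ^ 2 • mm (mm K P) (tp K)) := by
    funext s
    exact Th_smul P K s
  rw [h1]
  set A : ℝ := ∑ a, ∑ b, (mm K P a b) ^ 2
  set U := mm K P + mm P (tp K)
  set W := mm (mm K P) (tp K)
  have hsq : HasDerivAt (fun s : ℝ => s ^ 2) 0 0 := by
    have := hasDerivAt_pow 2 (0 : ℝ)
    simpa using this
  have h2 : HasDerivAt (fun s : ℝ => (1 + s ^ 2 * A)⁻¹) 0 0 := by
    have h3 : HasDerivAt (fun s : ℝ => 1 + s ^ 2 * A) 0 0 := by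
      have := (hsq.mul_const A).const_add 1
      simpa using this
    have h3' := h3.inv (by norm_num)
    exact h3'.congr_deriv (by norm_num)
  have h4 : HasDerivAt (fun s : ℝ => P + s • U + s ^ 2 • W) U 0 := by
    have h5 : HasDerivAt (fun s : ℝ => s • U) U 0 := by
      have := (hasDerivAt_id (0 : ℝ)).smul_const U
      simpa using this
    have h6 : HasDerivAt (fun s : ℝ => s ^ 2 • W) 0 0 := by
      have := hsq.smul_const W
      simpa using this
    exact ((h5.const_add P).add h6).congr_deriv (add_zero U)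
  have h7 := h2.smul h4
  exact h7.congr_deriv (by norm_num)

theorem arg (β : (Fin 2 → ℝ) → ℝ) (ε : ℝ) (x : EE) (P : Fin 11 → Fin 11 → ℝ) (j : Fin 2) (t : ℝ) :
    (β (t • Pi.single j 1) * ε) • ((t • Pi.single (M := fun _ => ℝ) j 1 : Fin 2 → ℝ) 0 • Km 0 x P +
      (t • Pi.single (M := fun _ => ℝ) j 1 : Fin 2 → ℝ) 1 • Km 1 x P) =
      (β (t • Pi.single j 1) * ε * t) • Km j x P := by
  fin_cases j <;> simp [smul_smul]

end HFd

/-- Module HFd. -/
theorem stHFd (h : StHF) : StHFd := by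
  intro β f ε hβ hf hβ0 x j
  have h1 := (h β f hβ hf).2.1 ε
  have h2 : HasFDerivAt (HF β f ε) (fderiv ℝ (HF β f ε) (x, 0)) (x, 0) :=
    (h1.differentiable (by simp) _).hasFDerivAt
  -- the curve
  set γ : ℝ → EE × (Fin 2 → ℝ) := fun t => (x, t • Pi.single j 1) with hγ
  have hγ' : HasDerivAt γ (0, Pi.single j 1) 0 := by
    have h3 : HasDerivAt (fun t : ℝ => t • (Pi.single j 1 : Fin 2 → ℝ)) (Pi.single j 1) 0 := by
      have := (hasDerivAt_id (0 : ℝ)).smul_const (Pi.single j 1 : Fin 2 → ℝ)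
      simpa using this
    exact (hasDerivAt_const (0 : ℝ) x).prodMk h3
  have hγ0 : γ 0 = (x, 0) := by simp [hγ]
  have h4 : HasDerivAt (fun t => HF β f ε (γ t)) (fderiv ℝ (HF β f ε) (x, 0) (0, Pi.single j 1))
      0 := by
    rw [← hγ0] at h2
    have := h2.comp_hasDerivAt (0 : ℝ) hγ'
    rwa [hγ0] at this
  -- the direct computation
  have hs : HasDerivAt (fun t : ℝ => β (t • Pi.single j 1) * ε * t) ε 0 := by
    have h5 : HasDerivAt (fun t : ℝ => t • (Pi.single j 1 : Fin 2 → ℝ)) (Pi.single j 1) 0 := by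
      have := (hasDerivAt_id (0 : ℝ)).smul_const (Pi.single j 1 : Fin 2 → ℝ)
      simpa using this
    have h6 : DifferentiableAt ℝ (fun t : ℝ => β (t • Pi.single j 1)) 0 :=
      (hβ.differentiable (by simp) _).comp 0 h5.differentiableAt
    have h7 := (h6.hasDerivAt.mul_const ε).mul (hasDerivAt_id (0 : ℝ))
    simp only [id_eq, mul_zero, zero_smul, hβ0, one_mul, mul_one, zero_add] at h7
    exact h7
  have h8 : HasDerivAt (fun t => HF β f ε (γ t)) (ε • Vf j x (f x).1) 0 := by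
    have h9 : (fun t => HF β f ε (γ t)) = fun t =>
        (Th (f x).1 ((β (t • Pi.single j 1) * ε * t) • Km j x (f x).1), (f x).2) := by
      funext t
      change (Th (f x).1 _, (f x).2) = _
      rw [← HFd.arg]
    rw [h9]
    have h10 := HFd.hasDerivAt_Th (f x).1 (Km j x (f x).1)
    have h11 : HasDerivAt (fun s : ℝ => Th (f x).1 (s • Km j x (f x).1))
        (mm (Km j x (f x).1) (f x).1 + mm (f x).1 (tp (Km j x (f x).1)))
        ((fun t : ℝ => β (t • Pi.single j 1) * ε * t) 0) := by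
      simpa using h10
    have h12 := HasDerivAt.scomp (h := fun t : ℝ => β (t • Pi.single j 1) * ε * t) (0 : ℝ) h11 hs
    have h13 := h12.prodMk (hasDerivAt_const (0 : ℝ) (f x).2)
    have e : ε • Vf j x (f x).1 =
        (ε • (mm (Km j x (f x).1) (f x).1 + mm (f x).1 (tp (Km j x (f x).1))), 0) := by
      unfold Vf
      rw [Prod.smul_mk, smul_zero]
    rw [e]
    exact h13
  exact h4.unique h8

end Pool.Agent.Lib.MP_086785_gt.CB
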