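import Pool.Agent.Lib.MP_086785_gt.CB.Stmts

/-!
Project CB, item HFN: the map `HF`, closeness.
-/

set_option autoImplicit false

namespace Pool.Agent.Lib.MP_086785_gt.CB

open Set Filter Topology Finset
open scoped ContDiff

namespace HFn

theorem mm_zero_left {n : ℕ} (P : Fin n → Fin n → ℝ) : mm 0 P = 0 := by
  funext i j
  simp [mm]

theorem mm_zero_right {n : ℕ} (P : Fin n → Fin n → ℝ) : mm P 0 = 0 := by
  funext i j
  simp [mm]

theorem tp_zero {n : ℕ} : tp (0 : Fin n → Fin n → ℝ) = 0 := rfl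

theorem Th_zero (P : Fin 11 → Fin 11 → ℝ) : Th P 0 = P := by
  unfold Th
  rw [mm_zero_left, tp_zero, mm_zero_right]
  simp [mm_zero_left]

theorem HF_of_zero (β : (Fin 2 → ℝ) → ℝ) (h : EE → FF) (ε : ℝ) (z : EE × (Fin 2 → ℝ))
    (hz : β z.2 * ε = 0) : HF β h ε z = h z.1 := by
  unfold HF
  rw [hz, zero_smul, Th_zero]

end HFn

open HFn

theorem stHFn (h1 : StHF) (h2 : StSmall) (h3 : StMM) : StHFn := by
  intro β h hβ hβc hh j δ hδ hδ0
  have hK : IsCompact (MM ×ˢ tsupport β) := h3.1.prod hβc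
  obtain ⟨δ₀, hδ₀, hδ1⟩ := hK.exists_forall_le' hδ.continuousOn fun z _ => hδ0 z
  have hG : ContDiff ℝ ∞ fun p : (EE × (Fin 2 → ℝ)) × ℝ => HF β h p.2 p.1 - h p.1.1 :=
    (h1 β h hβ hh).1.sub (hh.comp (contDiff_fst.comp contDiff_fst))
  obtain ⟨ε₀, hε₀, hε⟩ := h2 (EE × (Fin 2 → ℝ)) FF
    (fun p => HF β h p.2 p.1 - h p.1.1) (MM ×ˢ tsupport β) j δ₀ hG
    (fun z => by rw [HF_of_zero β h _ _ (mul_zero _), sub_self]) hK hδ₀
  refine ⟨ε₀, hε₀, fun ε he he' z hz i hi => ?_⟩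
  by_cases hs : z.2 ∈ tsupport β
  · have hzK : z ∈ MM ×ˢ tsupport β := ⟨hz.1, hs⟩
    exact (hε ε he he' z hzK i hi).trans_le (hδ1 z hzK)
  · have hopen : IsOpen {w : EE × (Fin 2 → ℝ) | w.2 ∉ tsupport β} :=
      ((isClosed_tsupport β).preimage continuous_snd).isOpen_compl
    have hev : (fun z => HF β h ε z - h z.1) =ᶠ[𝓝 z] fun _ => 0 := by
      filter_upwards [hopen.mem_nhds hs] with w hw
      rw [HF_of_zero β h ε w (by rw [image_eq_zero_of_notMem_tsupport hw, zero_mul]), sub_self]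
    have h4 : iteratedFDeriv ℝ i (fun z => HF β h ε z - h z.1) z =
        iteratedFDeriv ℝ i (fun _ : EE × (Fin 2 → ℝ) => (0 : FF)) z :=
      hev.iteratedFDeriv ℝ i |>.eq_of_nhds
    rw [h4]
    have h5 : iteratedFDeriv ℝ i (fun _ : EE × (Fin 2 → ℝ) => (0 : FF)) = 0 :=
      iteratedFDeriv_zero_fun
    rw [h5, Pi.zero_apply, norm_zero]
    exact hδ0 z

end Pool.Agent.Lib.MP_086785_gt.CB
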