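import Pool.Agent.Lib.MP_086785_gt.CB.Stmts

/-! Project CB: the matrix of the unperturbed problem, smoothness and value. -/

set_option autoImplicit false

namespace Pool.Agent.Lib.MP_086785_gt.CB

open Set Filter Topology Finset
open scoped ContDiff

namespace J0a

theorem contDiffOn_Jc (hpsi : ContDiffOn ℝ ∞ psi (Metric.ball 0 (1 / 2)))
    (h : EE → FF) (V : Fin 2 → EE → FF) (hh : ContDiff ℝ ∞ h) (hV : ∀ j, ContDiff ℝ ∞ (V j))
    (j : Fin 8 ⊕ Fin 3) :
    ContDiffOn ℝ 1 (fun z => Jc h V z j) (Metric.ball 0 (1 / 2)) := by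
  have hc : ContDiffOn ℝ ∞ (fun y => h (psi y)) (Metric.ball 0 (1 / 2)) :=
    hh.comp_contDiffOn hpsi
  have hd : ∀ e : Fin 9 → ℝ, ContDiffOn ℝ 1 (fun z => fderiv ℝ (fun y => h (psi y)) z e)
      (Metric.ball 0 (1 / 2)) := by
    intro e
    have h1 : ContDiffOn ℝ 1 (fderiv ℝ (fun y => h (psi y))) (Metric.ball 0 (1 / 2)) :=
      hc.fderiv_of_isOpen Metric.isOpen_ball (by norm_cast)
    exact h1.clm_apply contDiffOn_const
  have hv : ∀ j, ContDiffOn ℝ 1 (fun z => V j (psi z)) (Metric.ball 0 (1 / 2)) := by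
    intro j
    exact ((hV j).comp_contDiffOn hpsi).of_le (by norm_cast)
  rcases j with j | j
  · exact hd _
  · fin_cases j
    · exact hd _
    · exact hv 0
    · exact hv 1

theorem contDiffOn_Jm (hpsi : ContDiffOn ℝ ∞ psi (Metric.ball 0 (1 / 2)))
    (h : EE → FF) (V : Fin 2 → EE → FF) (hh : ContDiff ℝ ∞ h) (hV : ∀ j, ContDiff ℝ ∞ (V j)) :
    ContDiffOn ℝ 1 (Jm h V) (Metric.ball 0 (1 / 2)) := by
  rw [contDiffOn_pi]
  intro i
  rw [contDiffOn_pi]
  intro j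
  have h1 : ContDiffOn ℝ 1 (fun z => piN (Jc h V z j)) (Metric.ball 0 (1 / 2)) :=
    piN.contDiff.comp_contDiffOn (contDiffOn_Jc hpsi h V hh hV j)
  exact (contDiffOn_pi.1 h1) i

/-! smoothness of the vector fields -/

theorem contDiff_LT {A : Type} [NormedAddCommGroup A] [NormedSpace ℝ A] {m : A → Fin 6 → ℝ}
    {s : A → Fin 3 → ℝ} (hm : ∀ i, ContDiff ℝ ∞ (fun x => m x i))
    (hs : ∀ i, ContDiff ℝ ∞ (fun x => s x i)) (a : Fin 11) :
    ContDiff ℝ ∞ (fun x => LT (m x) (s x) a) := by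
  have m0 := hm 0
  have m1 := hm 1
  have m2 := hm 2
  have m3 := hm 3
  have m4 := hm 4
  have m5 := hm 5
  have s0 := hs 0
  have s1 := hs 1
  have s2 := hs 2
  fin_cases a
  · exact s2.mul (m1.add m5)
  · exact s2.mul (m4.sub m2)
  · exact s2.mul (m0.sub m3)
  · exact s0.mul m0
  · exact s1.mul m0
  · exact (s0.mul m1).add (s1.mul m2)
  · exact (s0.neg.mul m2).add (s1.mul m1)
  · exact s0.mul m3
  · exact s1.mul m3
  · exact (s0.mul m4).add (s1.mul m5)
  · exact (s0.neg.mul m5).add (s1.mul m4)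

theorem contDiff_LL {A : Type} [NormedAddCommGroup A] [NormedSpace ℝ A] (y : Fin 11 → ℝ)
    {m : A → Fin 6 → ℝ} (hm : ∀ i, ContDiff ℝ ∞ (fun x => m x i)) (a : Fin 3) :
    ContDiff ℝ ∞ (fun x => LL y (m x) a) := by
  have m0 := hm 0
  have m1 := hm 1
  have m2 := hm 2
  have m3 := hm 3
  have m4 := hm 4
  have m5 := hm 5
  fin_cases a
  · exact (((((contDiff_const.mul m0).add (contDiff_const.mul m1)).sub
      (contDiff_const.mul m2)).add (contDiff_const.mul m3)).add (contDiff_const.mul m4)).sub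
      (contDiff_const.mul m5)
  · exact (((((contDiff_const.mul m0).add (contDiff_const.mul m2)).add
      (contDiff_const.mul m1)).add (contDiff_const.mul m3)).add (contDiff_const.mul m5)).add
      (contDiff_const.mul m4)
  · exact ((((contDiff_const.mul (m0.sub m3)).add (contDiff_const.mul m1)).sub
      (contDiff_const.mul m2)).add (contDiff_const.mul m5)).add (contDiff_const.mul m4)

theorem contDiff_mono {A : Type} [NormedAddCommGroup A] [NormedSpace ℝ A]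
    {v : A → Fin 3 → ℝ} (hv : ∀ i, ContDiff ℝ ∞ (fun x => v x i)) (a : Fin 6) :
    ContDiff ℝ ∞ (fun x => mono (v x) a) := by
  have v0 := hv 0
  have v1 := hv 1
  have v2 := hv 2
  have hn := (v1.pow 2).add (v2.pow 2)
  fin_cases a
  · exact v0.pow 3
  · exact v1.mul (v0.pow 2)
  · exact v2.mul (v0.pow 2)
  · exact v0.mul hn
  · exact v1.mul hn
  · exact v2.mul hn

theorem contDiff_mono1 {A : Type} [NormedAddCommGroup A] [NormedSpace ℝ A]
    {v w : A → Fin 3 → ℝ} (hv : ∀ i, ContDiff ℝ ∞ (fun x => v x i))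
    (hw : ∀ i, ContDiff ℝ ∞ (fun x => w x i)) (a : Fin 6) :
    ContDiff ℝ ∞ (fun x => mono1 (v x) (w x) a) := by
  have v0 := hv 0
  have v1 := hv 1
  have v2 := hv 2
  have w0 := hw 0
  have w1 := hw 1
  have w2 := hw 2
  have hn := (v1.pow 2).add (v2.pow 2)
  have hd : ContDiff ℝ ∞ (fun x => 2 * (v x 1 * w x 1 + v x 2 * w x 2)) :=
    contDiff_const.mul ((v1.mul w1).add (v2.mul w2))
  fin_cases a
  · exact (contDiff_const.mul (v0.pow 2)).mul w0
  · exact (w1.mul (v0.pow 2)).add (((contDiff_const.mul v1).mul v0).mul w0)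
  · exact (w2.mul (v0.pow 2)).add (((contDiff_const.mul v2).mul v0).mul w0)
  · exact (w0.mul hn).add (v0.mul hd)
  · exact (w1.mul hn).add (v1.mul hd)
  · exact (w2.mul hn).add (v2.mul hd)

theorem contDiff_ww {A : Type} [NormedAddCommGroup A] [NormedSpace ℝ A]
    {v : A → Fin 3 → ℝ} {u : A → Fin 2 → ℝ} (hv : ∀ i, ContDiff ℝ ∞ (fun x => v x i))
    (hu : ∀ i, ContDiff ℝ ∞ (fun x => u x i)) (a : Fin 3) :
    ContDiff ℝ ∞ (fun x => ww (v x) (u x) a) := by
  have v0 := hv 0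
  have v1 := hv 1
  have v2 := hv 2
  have u0 := hu 0
  have u1 := hu 1
  fin_cases a
  · exact ((u0.mul v1).add (u1.mul v2)).neg
  · exact v0.mul u0
  · exact v0.mul u1

theorem contDiff_sg1 {A : Type} [NormedAddCommGroup A] [NormedSpace ℝ A] (y : Fin 11 → ℝ)
    {v : A → Fin 3 → ℝ} {u : A → Fin 2 → ℝ} (hv : ∀ i, ContDiff ℝ ∞ (fun x => v x i))
    (hu : ∀ i, ContDiff ℝ ∞ (fun x => u x i)) (a : Fin 3) :
    ContDiff ℝ ∞ (fun x => sg1 y (v x) (u x) a) :=
  contDiff_LL y (contDiff_mono1 (contDiff_ww hv hu) hv) a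

theorem contDiff_sg2 {A : Type} [NormedAddCommGroup A] [NormedSpace ℝ A] (y : Fin 11 → ℝ)
    {v : A → Fin 3 → ℝ} {u : A → Fin 2 → ℝ} (hv : ∀ i, ContDiff ℝ ∞ (fun x => v x i))
    (hu : ∀ i, ContDiff ℝ ∞ (fun x => u x i)) (a : Fin 3) :
    ContDiff ℝ ∞ (fun x => sg2 y (v x) (u x) a) := by
  have hS : ∀ i, ContDiff ℝ ∞ (fun x => S y (ww (v x) (u x)) i) :=
    fun i => contDiff_LL y (contDiff_mono (contDiff_ww hv hu)) i
  fin_cases a
  · exact ((hu 0).mul (hS 0)).sub ((hu 1).mul (hS 1))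
  · exact ((hu 1).mul (hS 0)).add ((hu 0).mul (hS 1))
  · exact (hu 0).mul (hS 2)

theorem contDiff_Xm {A : Type} [NormedAddCommGroup A] [NormedSpace ℝ A]
    {v : A → Fin 3 → ℝ} {u : A → Fin 2 → ℝ} (hv : ∀ i, ContDiff ℝ ∞ (fun x => v x i))
    (hu : ∀ i, ContDiff ℝ ∞ (fun x => u x i)) (j : Fin 2) (a b : Fin 11) :
    ContDiff ℝ ∞ (fun x => Xm j (v x) (u x) a b) := by
  by_cases hj : j = 0
  · simp only [Xm, if_pos hj]
    exact contDiff_LT (contDiff_mono hv) (contDiff_sg1 _ hv hu) a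
  · simp only [Xm, if_neg hj]
    exact contDiff_LT (contDiff_mono hv) (contDiff_sg2 _ hv hu) a

theorem contDiff_Xa (j : Fin 2) (a b : Fin 11) : ContDiff ℝ ∞ (fun x : EE => Xa j x a b) := by
  have h1 : ∀ (i c : Fin 3), ContDiff ℝ ∞ (fun x : EE => x.2.2 i c) := fun i c =>
    contDiff_pi.1 (contDiff_pi.1 (contDiff_snd.comp contDiff_snd) i) c
  have h2 : ∀ (i c : Fin 2), ContDiff ℝ ∞ (fun x : EE => x.2.1 i c) := fun i c =>
    contDiff_pi.1 (contDiff_pi.1 (contDiff_fst.comp contDiff_snd) i) c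
  refine ContDiff.sum fun c _ => ContDiff.sum fun d _ => ?_
  exact contDiff_Xm (fun i => h1 i c) (fun i => h2 i d) j a b

theorem contDiff_mm {A : Type} [NormedAddCommGroup A] [NormedSpace ℝ A] {n : ℕ}
    {P Q : A → Fin n → Fin n → ℝ} (hP : ∀ a b, ContDiff ℝ ∞ (fun x => P x a b))
    (hQ : ∀ a b, ContDiff ℝ ∞ (fun x => Q x a b)) (a b : Fin n) :
    ContDiff ℝ ∞ (fun x => mm (P x) (Q x) a b) :=
  ContDiff.sum fun k _ => (hP a k).mul (hQ k b)

/-- the vector fields along a map are smooth -/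
theorem contDiff_Vf {A : Type} [NormedAddCommGroup A] [NormedSpace ℝ A]
    {x : A → EE} {P : A → Fin 11 → Fin 11 → ℝ} (hx : ContDiff ℝ ∞ x)
    (hP : ∀ a b, ContDiff ℝ ∞ (fun z => P z a b)) (j : Fin 2) :
    ContDiff ℝ ∞ (fun z => Vf j (x z) (P z)) := by
  have hX : ∀ a b, ContDiff ℝ ∞ (fun z => Xa j (x z) a b) := fun a b =>
    (contDiff_Xa j a b).comp hx
  have hK : ∀ a b, ContDiff ℝ ∞ (fun z => Km j (x z) (P z) a b) := fun a b =>
    (contDiff_mm hX hP a b).sub (contDiff_mm hP (fun a b => hX b a) a b)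
  refine ContDiff.prodMk ?_ contDiff_const
  rw [contDiff_pi]
  intro a
  rw [contDiff_pi]
  intro b
  exact (contDiff_mm hK hP a b).add (contDiff_mm hP (fun a b => hK b a) a b)

theorem contDiff_VV (j : Fin 2) : ContDiff ℝ ∞ (VV j) :=
  contDiff_Vf contDiff_id (fun a b => contDiff_pi.1 (contDiff_pi.1 contDiff_fst a) b) j

/-! the value -/

theorem x0_mem : x0 ∈ Mt := by
  refine ⟨?_, ?_, ?_, ?_⟩
  · simp [x0, dot, ye]
  · simp [x0, dot]
  · simp [x0, dot]
  · funext i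
    fin_cases i <;> simp [x0, S, LL, mono, vv, vec, ye]

theorem sgj_x0 (j : Fin 2) : sgj j x0 = 0 := by
  funext i
  fin_cases j <;> fin_cases i <;>
    simp [sgj, sg1, sg2, x0, S1, S, LL, mono, mono1, vv, vec, ye, ww]

theorem VV_x0 (h2 : StVfEq) (j : Fin 2) : VV j (phi x0) = 0 := by
  rw [(h2 j x0 x0_mem).1, sgj_x0]
  have h3 : RR (vv x0) 0 = 0 := by
    have h4 : LT (mono (vv x0)) 0 = 0 := by simpa using LT_smul 0 (mono (vv x0)) 0
    exact h4
  rw [h3, dop_zero, smul_zero]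
  rfl

/-- products of functions vanishing at a point -/
theorem hasFDerivAt_mul_zero {A : Type} [NormedAddCommGroup A] [NormedSpace ℝ A] {a b : A → ℝ}
    {x : A} (ha : DifferentiableAt ℝ a x) (hb : DifferentiableAt ℝ b x) (ha0 : a x = 0)
    (hb0 : b x = 0) : HasFDerivAt (fun y => a y * b y) (0 : A →L[ℝ] ℝ) x := by
  have h := ha.hasFDerivAt.mul hb.hasFDerivAt
  rw [ha0, hb0, zero_smul, zero_smul, add_zero] at h
  exact h

/-- the projections -/
noncomputable abbrev pr (i : Fin 9) : (Fin 9 → ℝ) →L[ℝ] ℝ := ContinuousLinearMap.proj i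

theorem hasFDerivAt_pr (i : Fin 9) (x : Fin 9 → ℝ) : HasFDerivAt (fun y => y i) (pr i) x :=
  (pr i).hasFDerivAt

/-- the derivative of the coordinates of `cy` at the base point -/
noncomputable def dcy : Fin 11 → (Fin 9 → ℝ) →L[ℝ] ℝ :=
  ![0, pr 0, 0, 0, 0, pr 1, pr 2, pr 3, pr 4, pr 5, pr 6]

theorem hasFDerivAt_cy (i : Fin 11) : HasFDerivAt (fun x => cy x i) (dcy i) 0 := by
  fin_cases i
  · exact hasFDerivAt_const (1 : ℝ) (0 : Fin 9 → ℝ)
  · exact hasFDerivAt_pr 0 0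
  · have hn : DifferentiableAt ℝ (fun x : Fin 9 → ℝ => -(x 7 - x 0 +
        (1 + x 0 * x 7) * (x 8 ^ 2 * (x 7 ^ 2 + 1)))) 0 := by fun_prop
    have hd : DifferentiableAt ℝ (fun x : Fin 9 → ℝ => (1 - x 8 ^ 2 * (x 7 ^ 2 + 1))) 0 := by
      fun_prop
    have hd1 : DifferentiableAt ℝ (fun x : Fin 9 → ℝ => (1 - x 8 ^ 2 * (x 7 ^ 2 + 1))⁻¹) 0 :=
      hd.inv (by simp)
    have h1 : HasFDerivAt (fun x : Fin 9 → ℝ => x 8 * (-(x 7 - x 0 +
        (1 + x 0 * x 7) * (x 8 ^ 2 * (x 7 ^ 2 + 1))) *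
        (1 - x 8 ^ 2 * (x 7 ^ 2 + 1))⁻¹)) (0 : (Fin 9 → ℝ) →L[ℝ] ℝ) 0 := by
      exact hasFDerivAt_mul_zero (hasFDerivAt_pr 8 0).differentiableAt (hn.mul hd1) (by simp)
        (by simp)
    refine h1.congr_of_eventuallyEq (Eventually.of_forall fun x => ?_)
    show -((x 8 * x 7 - x 0 * x 8) + (x 8 + x 0 * (x 8 * x 7)) * (x 8 ^ 2 * (x 7 ^ 2 + 1))) /
      (1 - x 8 ^ 2 * (x 7 ^ 2 + 1)) = _
    ring
  · have h1 : HasFDerivAt (fun x : Fin 9 → ℝ => x 8 * (-(x 1 * x 7 - x 2 +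
        x 3 * (x 8 * (x 7 ^ 2 + 1)) + (x 5 * x 7 - x 6) * (x 8 ^ 2 * (x 7 ^ 2 + 1)))))
        (0 : (Fin 9 → ℝ) →L[ℝ] ℝ) 0 := by
      refine hasFDerivAt_mul_zero (by fun_prop) (by fun_prop) (by simp) (by simp)
    refine h1.congr_of_eventuallyEq (Eventually.of_forall fun x => ?_)
    show -((x 1 * (x 8 * x 7) - x 2 * x 8) + x 3 * (x 8 ^ 2 * (x 7 ^ 2 + 1)) +
      (x 5 * (x 8 * x 7) - x 6 * x 8) * (x 8 ^ 2 * (x 7 ^ 2 + 1))) = _
    ring
  · have h1 : HasFDerivAt (fun x : Fin 9 → ℝ => x 8 * (-(x 1 + x 2 * x 7 +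
        x 4 * (x 8 * (x 7 ^ 2 + 1)) + (x 5 + x 6 * x 7) * (x 8 ^ 2 * (x 7 ^ 2 + 1)))))
        (0 : (Fin 9 → ℝ) →L[ℝ] ℝ) 0 := by
      refine hasFDerivAt_mul_zero (by fun_prop) (by fun_prop) (by simp) (by simp)
    refine h1.congr_of_eventuallyEq (Eventually.of_forall fun x => ?_)
    show -((x 1 * x 8 + x 2 * (x 8 * x 7)) + x 4 * (x 8 ^ 2 * (x 7 ^ 2 + 1)) +
      (x 5 * x 8 + x 6 * (x 8 * x 7)) * (x 8 ^ 2 * (x 7 ^ 2 + 1))) = _
    ring
  · exact hasFDerivAt_pr 1 0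
  · exact hasFDerivAt_pr 2 0
  · exact hasFDerivAt_pr 3 0
  · exact hasFDerivAt_pr 4 0
  · exact hasFDerivAt_pr 5 0
  · exact hasFDerivAt_pr 6 0

theorem cy_zero (i : Fin 11) : cy 0 i = if i = 0 then 1 else 0 := by
  fin_cases i <;> simp [cy]

/-- functions `g f` with `g = 1`, `f = 0` at the point -/
theorem hasFDerivAt_mul_one {A : Type} [NormedAddCommGroup A] [NormedSpace ℝ A] {a b : A → ℝ}
    {x : A} {b' : A →L[ℝ] ℝ} (ha : DifferentiableAt ℝ a x) (hb : HasFDerivAt b b' x)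
    (ha0 : a x = 1) (hb0 : b x = 0) : HasFDerivAt (fun y => a y * b y) b' x := by
  have h := ha.hasFDerivAt.mul hb
  rw [ha0, hb0, zero_smul, one_smul, add_zero] at h
  exact h

theorem hasFDerivAt_row (i : Fin 11) (hi : i ≠ 0) :
    HasFDerivAt (fun z => (f0 (psi z)).1 0 i) (dcy i) 0 := by
  have h1 : DifferentiableAt ℝ (fun z : Fin 9 → ℝ => (dot (cy z) (cy z))⁻¹ * cy z 0) 0 := by
    refine DifferentiableAt.mul (DifferentiableAt.inv ?_ ?_) (hasFDerivAt_cy 0).differentiableAt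
    · exact DifferentiableAt.fun_sum fun k _ =>
        (hasFDerivAt_cy k).differentiableAt.mul (hasFDerivAt_cy k).differentiableAt
    · simp [dot, cy_zero]
  have h2 := hasFDerivAt_mul_one h1 (hasFDerivAt_cy i) (by simp [dot, cy_zero])
    (by simp [cy_zero, hi])
  refine h2.congr_of_eventuallyEq (Eventually.of_forall fun z => ?_)
  show (dot (cy z) (cy z))⁻¹ * (cy z 0 * cy z i) = (dot (cy z) (cy z))⁻¹ * cy z 0 * cy z i
  ring

theorem hasFDerivAt_eta : HasFDerivAt (fun z => (f0 (psi z)).2 0 1) (pr 7) 0 := by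
  have h1 : DifferentiableAt ℝ (fun z : Fin 9 → ℝ => (z 7 * z 7 + 1)⁻¹) 0 := by
    refine DifferentiableAt.inv (by fun_prop) (by simp)
  have h2 := hasFDerivAt_mul_one h1 (hasFDerivAt_pr 7 0) (by simp) (by simp)
  refine h2.congr_of_eventuallyEq (Eventually.of_forall fun z => ?_)
  show (dot (cu z) (cu z))⁻¹ * (cu z 0 * cu z 1) = (z 7 * z 7 + 1)⁻¹ * z 7
  simp [dot, cu]

/-- the derivative of `piN ∘ f0 ∘ psi` at the base point -/
noncomputable def dG : (Fin 9 → ℝ) →L[ℝ] (Fin 8 ⊕ Fin 3 → ℝ) :=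
  ContinuousLinearMap.pi (Sum.elim (fun k : Fin 8 => pr k.castSucc) fun _ => 0)

theorem hasFDerivAt_G : HasFDerivAt (fun z => piN (f0 (psi z))) dG 0 := by
  rw [hasFDerivAt_pi']
  intro i
  have hcomp : (ContinuousLinearMap.proj i).comp dG =
      (Sum.elim (fun k : Fin 8 => pr k.castSucc) fun _ => 0) i := by
    ext ζ
    rfl
  rw [hcomp]
  rcases i with i | i
  · fin_cases i
    · exact hasFDerivAt_row 1 (by decide)
    · exact hasFDerivAt_row 5 (by decide)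
    · exact hasFDerivAt_row 6 (by decide)
    · exact hasFDerivAt_row 7 (by decide)
    · exact hasFDerivAt_row 8 (by decide)
    · exact hasFDerivAt_row 9 (by decide)
    · exact hasFDerivAt_row 10 (by decide)
    · exact hasFDerivAt_eta
  · fin_cases i
    · exact hasFDerivAt_row 2 (by decide)
    · exact hasFDerivAt_row 3 (by decide)
    · exact hasFDerivAt_row 4 (by decide)

theorem piN_fderiv (hpsi : ContDiffOn ℝ ∞ psi (Metric.ball 0 (1 / 2))) (e : Fin 9 → ℝ) :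
    piN (fderiv ℝ (fun y => f0 (psi y)) 0 e) = dG e := by
  have h0 : (0 : Fin 9 → ℝ) ∈ Metric.ball (0 : Fin 9 → ℝ) (1 / 2) := by simp
  have h1 : DifferentiableAt ℝ psi 0 :=
    (hpsi.differentiableOn (by simp)).differentiableAt (Metric.isOpen_ball.mem_nhds h0)
  have h2 : DifferentiableAt ℝ (fun y => f0 (psi y)) 0 := f0.differentiableAt.comp 0 h1
  have h3 := (piN.hasFDerivAt (x := f0 (psi 0))).comp (0 : Fin 9 → ℝ) h2.hasFDerivAt
  have h4 := h3.unique hasFDerivAt_G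
  rw [← h4]
  rfl

end J0a

open J0a in
/-- smoothness and value of the matrix of the unperturbed problem -/
theorem stJ0a (h1 : StPsi) (h2 : StVfEq) : StJ0a := by
  refine ⟨contDiffOn_Jm h1.1 f0 VV f0.contDiff contDiff_VV, ?_⟩
  intro i j
  have hV : ∀ j, VV j (psi 0) = 0 := fun j => by rw [h1.2.1, VV_x0 h2 j]
  rcases j with j | j
  · show piN (fderiv ℝ (fun y => f0 (psi y)) 0 (Pi.single j.castSucc 1)) i = _
    rw [piN_fderiv h1.1]
    rcases i with i | i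
    · show (Pi.single j.castSucc (1 : ℝ) : Fin 9 → ℝ) i.castSucc = _
      by_cases hij : i = j
      · subst hij
        simp
      · rw [Pi.single_eq_of_ne (fun h => hij (Fin.castSucc_injective _ h))]
        simp [hij]
    · show (0 : ℝ) = _
      simp
  · fin_cases j
    · show piN (fderiv ℝ (fun y => f0 (psi y)) 0 (Pi.single (Fin.last 8) 1)) i = _
      rw [piN_fderiv h1.1]
      rcases i with i | i
      · show (Pi.single (Fin.last 8) (1 : ℝ) : Fin 9 → ℝ) i.castSucc = _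
        rw [Pi.single_eq_of_ne (Fin.castSucc_lt_last i).ne]
        simp
      · show (0 : ℝ) = _
        simp
    · show piN (VV 0 (psi 0)) i = _
      rw [hV]
      rcases i with i | i <;> simp
    · show piN (VV 1 (psi 0)) i = _
      rw [hV]
      rcases i with i | i <;> simp

end Pool.Agent.Lib.MP_086785_gt.CB
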