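import Pool.Agent.Lib.MP_086785_gt.CB.Stmts

/-! Project CB, module J0b: the derivative of the matrix of the unperturbed problem at the special
point. -/

set_option autoImplicit false

namespace Pool.Agent.Lib.MP_086785_gt.CB

open Set Filter Topology Finset
open scoped ContDiff

namespace J0b

/-! ### calculus -/

theorem mul_cont {K G : ℝ → ℝ} {g : ℝ} (hK : ContinuousAt K 0) (hG : HasDerivAt G g 0)
    (h0 : G 0 = 0) : HasDerivAt (fun t => K t * G t) (K 0 * g) 0 := by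
  rw [hasDerivAt_iff_tendsto_slope] at hG ⊢
  have h1 : Tendsto K (𝓝[≠] 0) (𝓝 (K 0)) := hK.tendsto.mono_left nhdsWithin_le_nhds
  have h2 := h1.mul hG
  refine h2.congr fun t => ?_
  simp only [slope_def_field, h0, mul_zero, sub_zero]
  ring

/-- derivative of the matrix entries along a line -/
theorem dir (hJ : StJ0a) (ζ : Fin 9 → ℝ) (a b : Fin 8 ⊕ Fin 3) (c : ℝ)
    (h : HasDerivAt (fun t : ℝ => Jm f0 VV (t • ζ) a b) c 0) :
    fderiv ℝ (Jm f0 VV) 0 ζ a b = c := by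
  have h1 : DifferentiableAt ℝ (Jm f0 VV) 0 :=
    (hJ.1.contDiffAt (Metric.ball_mem_nhds _ (by norm_num))).differentiableAt (by norm_num)
  have h2 : HasDerivAt (fun t : ℝ => t • ζ) ζ 0 := by
    simpa using (hasDerivAt_id (0 : ℝ)).smul_const ζ
  have h3 : HasFDerivAt (Jm f0 VV) (fderiv ℝ (Jm f0 VV) 0) ((0 : ℝ) • ζ) := by
    rw [zero_smul]
    exact h1.hasFDerivAt
  have h4 := h3.comp_hasDerivAt (0 : ℝ) h2
  have h5 := (hasDerivAt_pi.1 (hasDerivAt_pi.1 h4 a)) b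
  exact h5.unique h

/-! ### the vector fields in terms of unnormalised vectors -/

theorem ww_smul (l m : ℝ) (v : Fin 3 → ℝ) (u : Fin 2 → ℝ) :
    ww (l • v) (m • u) = (l * m) • ww v u := by
  funext i
  fin_cases i <;> simp [ww] <;> ring

theorem RR_smul_v (l : ℝ) (v s : Fin 3 → ℝ) : RR (l • v) s = l ^ 3 • RR v s := by
  funext i
  fin_cases i <;> simp [RR, LT, mono] <;> ring

theorem S1_smul_v (l : ℝ) (y : Fin 11 → ℝ) (v w : Fin 3 → ℝ) :
    S1 y (l • v) w = l ^ 2 • S1 y v w := by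
  funext i
  fin_cases i <;> simp [S1, LL, mono1] <;> ring

theorem sg1_smul (l m : ℝ) (y : Fin 11 → ℝ) (v : Fin 3 → ℝ) (u : Fin 2 → ℝ) :
    sg1 y (l • v) (m • u) = (l ^ 3 * m ^ 2) • sg1 y v u := by
  rw [sg1, ww_smul, S1_smul_v, S1_smul, smul_smul, sg1]
  congr 1
  ring

theorem sg2_smul (l m : ℝ) (y : Fin 11 → ℝ) (v : Fin 3 → ℝ) (u : Fin 2 → ℝ) :
    sg2 y (l • v) (m • u) = (l ^ 3 * m ^ 4) • sg2 y v u := by
  funext i
  simp only [sg2, ww_smul, S_smul_v]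
  fin_cases i <;> simp <;> ring

/-- both vectors -/
def sg (j : Fin 2) (y : Fin 11 → ℝ) (v : Fin 3 → ℝ) (u : Fin 2 → ℝ) : Fin 3 → ℝ :=
  if j = 0 then sg1 y v u else sg2 y v u

/-- the exponent -/
def ex (j : Fin 2) : ℕ := if j = 0 then 2 else 4

theorem Xm_eq (j : Fin 2) (v : Fin 3 → ℝ) (u : Fin 2 → ℝ) (a b : Fin 11) :
    Xm j v u a b = RR v (sg j (Pi.single b 1) v u) a := by
  unfold Xm sg
  split_ifs <;> rfl

theorem Xm_smul (j : Fin 2) (l m : ℝ) (v : Fin 3 → ℝ) (u : Fin 2 → ℝ) (a b : Fin 11) :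
    Xm j (l • v) (m • u) a b = l ^ 6 * m ^ ex j * Xm j v u a b := by
  rw [Xm_eq, Xm_eq]
  fin_cases j
  · simp only [sg, ex, Fin.zero_eta, if_true, sg1_smul, RR_smul_v]
    rw [show RR v ((l ^ 3 * m ^ 2) • sg1 (Pi.single b 1) v u) =
      (l ^ 3 * m ^ 2) • RR v (sg1 (Pi.single b 1) v u) from LT_smul _ _ _]
    simp only [Pi.smul_apply, smul_eq_mul]
    ring
  · simp only [sg, ex, Fin.mk_one, one_ne_zero, if_false, sg2_smul, RR_smul_v]
    rw [show RR v ((l ^ 3 * m ^ 4) • sg2 (Pi.single b 1) v u) =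
      (l ^ 3 * m ^ 4) • RR v (sg2 (Pi.single b 1) v u) from LT_smul _ _ _]
    simp only [Pi.smul_apply, smul_eq_mul]
    ring

theorem sg_add (j : Fin 2) (y y' : Fin 11 → ℝ) (v : Fin 3 → ℝ) (u : Fin 2 → ℝ) :
    sg j (y + y') v u = sg j y v u + sg j y' v u := by
  fin_cases j
  · exact S1_add_left _ _ _ _
  · change sg2 (y + y') v u = sg2 y v u + sg2 y' v u
    funext i
    simp only [sg2, S_add]
    fin_cases i <;> simp <;> ring

theorem sg_smul (j : Fin 2) (c : ℝ) (y : Fin 11 → ℝ) (v : Fin 3 → ℝ) (u : Fin 2 → ℝ) :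
    sg j (c • y) v u = c • sg j y v u := by
  fin_cases j
  · exact S1_smul_left _ _ _ _
  · change sg2 (c • y) v u = c • sg2 y v u
    funext i
    simp only [sg2, S_smul]
    fin_cases i <;> simp <;> ring

/-- the endomorphism -/
def XL (j : Fin 2) (v : Fin 3 → ℝ) (u : Fin 2 → ℝ) : (Fin 11 → ℝ) →ₗ[ℝ] (Fin 11 → ℝ) where
  toFun y := RR v (sg j y v u)
  map_add' y y' := by rw [sg_add]; exact LT_add _ _ _
  map_smul' c y := by rw [sg_smul]; exact LT_smul _ _ _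

theorem Xm_sum (j : Fin 2) (v : Fin 3 → ℝ) (u : Fin 2 → ℝ) (y : Fin 11 → ℝ) (a : Fin 11) :
    ∑ k, Xm j v u a k * y k = RR v (sg j y v u) a := by
  have h1 : XL j v u y = ∑ k, y k • XL j v u (Pi.single k 1) := by
    conv_lhs => rw [pi_eq_sum_univ' y]
    rw [map_sum]
    refine Finset.sum_congr rfl fun k _ => ?_
    rw [map_smul]
  have h2 := congrFun h1 a
  rw [Finset.sum_apply] at h2
  change RR v (sg j y v u) a = _ at h2
  rw [h2]
  refine Finset.sum_congr rfl fun k _ => ?_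
  rw [Xm_eq, Pi.smul_apply, smul_eq_mul, mul_comm]
  rfl

/-- the factor -/
def Rf (j : Fin 2) (nu nv : ℝ) (u : Fin 2 → ℝ) (v : Fin 3 → ℝ) : ℝ :=
  ∑ c : Fin 3, ∑ d : Fin 2, (nv * v c) ^ 6 * (nu * u d) ^ ex j

theorem Xa_eq (j : Fin 2) (ny nu nv : ℝ) (y : Fin 11 → ℝ) (u : Fin 2 → ℝ) (v : Fin 3 → ℝ)
    (a b : Fin 11) :
    Xa j (ny • op y, nu • op u, nv • op v) a b = Rf j nu nv u v * Xm j v u a b := by
  simp only [Xa, Rf, Finset.sum_mul]
  refine Finset.sum_congr rfl fun c _ => Finset.sum_congr rfl fun d _ => ?_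
  have e1 : (nv * v c) • v = fun i => (nv • op v) i c := by
    funext i
    simp only [op, Pi.smul_apply, smul_eq_mul]
    ring
  have e2 : (nu * u d) • u = fun i => (nu • op u) i d := by
    funext i
    simp only [op, Pi.smul_apply, smul_eq_mul]
    ring
  rw [← Xm_smul, e1, e2]

theorem VV_eq (j : Fin 2) (ny nu nv : ℝ) (y : Fin 11 → ℝ) (u : Fin 2 → ℝ) (v : Fin 3 → ℝ)
    (hy : ny * dot y y = 1) (hS : S y v = 0) (a b : Fin 11) :
    (VV j (ny • op y, nu • op u, nv • op v)).1 a b =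
      Rf j nu nv u v * ny * (RR v (sg j y v u) a * y b + y a * RR v (sg j y v u) b) := by
  set z := RR v (sg j y v u) with hz
  have hzy : dot z y = 0 := by
    rw [hz, RR_adj, hS, dot_zero_right]
  set R := Rf j nu nv u v with hR
  have hX : ∀ a, ∑ k, Xa j (ny • op y, nu • op u, nv • op v) a k * y k = R * z a := by
    intro a
    simp only [Xa_eq]
    rw [hz, ← Xm_sum, Finset.mul_sum]
    exact Finset.sum_congr rfl fun k _ => by rw [hR]; ring
  have hK : ∀ a b, Km j (ny • op y, nu • op u, nv • op v) (ny • op y) a b =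
      R * ny * (z a * y b - y a * z b) := by
    intro a b
    have e1 : mm (Xa j (ny • op y, nu • op u, nv • op v)) (ny • op y) a b = R * ny * (z a * y b) := by
      simp only [mm, Pi.smul_apply, smul_eq_mul, op]
      calc _ = (∑ k, Xa j (ny • op y, nu • op u, nv • op v) a k * y k) * (ny * y b) := by
            rw [Finset.sum_mul]
            exact Finset.sum_congr rfl fun k _ => by ring
        _ = _ := by rw [hX]; ring
    have e2 : mm (ny • op y) (tp (Xa j (ny • op y, nu • op u, nv • op v))) a b =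
        R * ny * (y a * z b) := by
      simp only [mm, tp, Pi.smul_apply, smul_eq_mul, op]
      calc _ = (∑ k, Xa j (ny • op y, nu • op u, nv • op v) b k * y k) * (ny * y a) := by
            rw [Finset.sum_mul]
            exact Finset.sum_congr rfl fun k _ => by ring
        _ = _ := by rw [hX]; ring
    rw [Km, Pi.sub_apply, Pi.sub_apply, e1, e2]
    ring
  have hKy : ∀ a, ∑ k, Km j (ny • op y, nu • op u, nv • op v) (ny • op y) a k * y k = R * z a := by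
    intro a
    simp only [hK]
    calc _ = R * (z a * (ny * dot y y)) - R * ny * y a * dot z y := by
          simp only [dot, Finset.mul_sum, ← Finset.sum_sub_distrib]
          exact Finset.sum_congr rfl fun k _ => by ring
      _ = _ := by rw [hy, hzy]; ring
  change (mm (Km j (ny • op y, nu • op u, nv • op v) (ny • op y)) (ny • op y) +
    mm (ny • op y) (tp (Km j (ny • op y, nu • op u, nv • op v) (ny • op y)))) a b = _
  have e1 : mm (Km j (ny • op y, nu • op u, nv • op v) (ny • op y)) (ny • op y) a b =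
      R * ny * (z a * y b) := by
    simp only [mm, Pi.smul_apply, smul_eq_mul, op]
    calc _ = (∑ k, Km j (ny • op y, nu • op u, nv • op v) (ny • op y) a k * y k) * (ny * y b) := by
          rw [Finset.sum_mul]
          exact Finset.sum_congr rfl fun k _ => by ring
      _ = _ := by rw [hKy]; ring
  have e2 : mm (ny • op y) (tp (Km j (ny • op y, nu • op u, nv • op v) (ny • op y))) a b =
      R * ny * (y a * z b) := by
    simp only [mm, tp, Pi.smul_apply, smul_eq_mul, op]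
    calc _ = (∑ k, Km j (ny • op y, nu • op u, nv • op v) (ny • op y) b k * y k) * (ny * y a) := by
          rw [Finset.sum_mul]
          exact Finset.sum_congr rfl fun k _ => by ring
      _ = _ := by rw [hKy]; ring
  rw [Pi.add_apply, Pi.add_apply, e1, e2]
  ring

/-! ### the columns of the vector fields -/

theorem cont_line {X : Type*} [TopologicalSpace X] (f : (Fin 9 → ℝ) → X) (ζ : Fin 9 → ℝ)
    (h : ContinuousAt f 0) : ContinuousAt (fun t : ℝ => f (t • ζ)) 0 := by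
  have h1 : ContinuousAt (fun t : ℝ => t • ζ) 0 := by fun_prop
  refine ContinuousAt.comp (g := f) ?_ h1
  rw [zero_smul]
  exact h

theorem cy0 : cy 0 = ye := by
  funext i
  fin_cases i <;> simp [cy, ye]

theorem cu0 : cu 0 = ![0, 1] := by
  funext i
  fin_cases i <;> simp [cu]

theorem cv0 : cv 0 = ![1, 0, 0] := by
  funext i
  fin_cases i <;> simp [cv]

/-- derivatives along a line -/
theorem d_cu (ζ : Fin 9 → ℝ) (i : Fin 2) :
    HasDerivAt (fun t : ℝ => cu (t • ζ) i) ((![ζ 7, 0] : Fin 2 → ℝ) i) 0 := by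
  fin_cases i
  · simpa [cu] using (hasDerivAt_id (0 : ℝ)).mul_const (ζ 7)
  · exact hasDerivAt_const _ _

theorem d_cv (ζ : Fin 9 → ℝ) (i : Fin 3) :
    HasDerivAt (fun t : ℝ => cv (t • ζ) i) ((![0, 0, ζ 8] : Fin 3 → ℝ) i) 0 := by
  have h : ∀ k, HasDerivAt (fun t : ℝ => (t • ζ) k) (ζ k) 0 := fun k => by
    simpa using (hasDerivAt_id (0 : ℝ)).mul_const (ζ k)
  fin_cases i
  · exact hasDerivAt_const _ _
  · refine HasDerivAt.congr_deriv ((h 8).mul (h 7)) ?_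
    simp
  · exact h 8

theorem d_cy2 (x : Fin 9 → ℝ) : cy x 2 = x 8 * ((x 0 - x 7 - (1 + x 0 * x 7) *
    (x 8 ^ 2 * (x 7 ^ 2 + 1))) / (1 - x 8 ^ 2 * (x 7 ^ 2 + 1))) := by
  simp only [cy, Matrix.cons_val]
  ring

theorem d_cy3 (x : Fin 9 → ℝ) : cy x 3 = x 8 * (x 2 - x 1 * x 7 - x 3 * (x 8 * (x 7 ^ 2 + 1)) -
    (x 5 * x 7 - x 6) * (x 8 ^ 2 * (x 7 ^ 2 + 1))) := by
  simp only [cy, Matrix.cons_val]
  ring

theorem d_cy4 (x : Fin 9 → ℝ) : cy x 4 = x 8 * (- x 1 - x 2 * x 7 - x 4 * (x 8 * (x 7 ^ 2 + 1)) -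
    (x 5 + x 6 * x 7) * (x 8 ^ 2 * (x 7 ^ 2 + 1))) := by
  simp only [cy, Matrix.cons_val]
  ring

theorem d_cy (ζ : Fin 9 → ℝ) (i : Fin 11) :
    HasDerivAt (fun t : ℝ => cy (t • ζ) i)
      ((![0, ζ 0, 0, 0, 0, ζ 1, ζ 2, ζ 3, ζ 4, ζ 5, ζ 6] : Fin 11 → ℝ) i) 0 := by
  have h : ∀ k, HasDerivAt (fun t : ℝ => (t • ζ) k) (ζ k) 0 := fun k => by
    simpa using (hasDerivAt_id (0 : ℝ)).mul_const (ζ k)
  have key : ∀ (A : ℝ → ℝ), ContinuousAt A 0 → A 0 = 0 →
      HasDerivAt (fun t : ℝ => (t • ζ) 8 * A t) 0 0 := by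
    intro A hA h0
    have h1 := mul_cont hA (h 8) (by simp)
    rw [h0, zero_mul] at h1
    refine h1.congr_of_eventuallyEq (Eventually.of_forall fun t => ?_)
    simp only [mul_comm]
  fin_cases i
  · exact hasDerivAt_const _ _
  · exact h 0
  · change HasDerivAt (fun t : ℝ => cy (t • ζ) 2) 0 0
    simp only [d_cy2]
    refine key _ ?_ ?_
    · refine ContinuousAt.div (by fun_prop) (by fun_prop) ?_
      simp
    · simp
  · change HasDerivAt (fun t : ℝ => cy (t • ζ) 3) 0 0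
    simp only [d_cy3]
    refine key _ ?_ ?_
    · fun_prop
    · simp
  · change HasDerivAt (fun t : ℝ => cy (t • ζ) 4) 0 0
    simp only [d_cy4]
    refine key _ ?_ ?_
    · fun_prop
    · simp
  · exact h 1
  · exact h 2
  · exact h 3
  · exact h 4
  · exact h 5
  · exact h 6

section D

variable {y : ℝ → Fin 11 → ℝ} {v w : ℝ → Fin 3 → ℝ} {u : ℝ → Fin 2 → ℝ} {m : ℝ → Fin 6 → ℝ}
  {y' : Fin 11 → ℝ} {v' w' : Fin 3 → ℝ} {u' : Fin 2 → ℝ} {m' : Fin 6 → ℝ}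

theorem d_ww (hv : ∀ i, HasDerivAt (fun t => v t i) (v' i) 0)
    (hu : ∀ i, HasDerivAt (fun t => u t i) (u' i) 0) (hv0 : v 0 = ![1, 0, 0])
    (hu0 : u 0 = ![0, 1]) (i : Fin 3) :
    HasDerivAt (fun t => ww (v t) (u t) i) ((![- v' 2, u' 0, v' 0 + u' 1] : Fin 3 → ℝ) i) 0 := by
  fin_cases i
  · refine HasDerivAt.congr_deriv (((hu 0).mul (hv 1)).add ((hu 1).mul (hv 2))).neg ?_
    simp [hv0, hu0]
  · refine HasDerivAt.congr_deriv ((hv 0).mul (hu 0)) ?_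
    simp [hv0, hu0]
  · refine HasDerivAt.congr_deriv ((hv 0).mul (hu 1)) ?_
    simp [hv0, hu0]

theorem d_m1 (hv : ∀ i, HasDerivAt (fun t => v t i) (v' i) 0)
    (hw : ∀ i, HasDerivAt (fun t => w t i) (w' i) 0) (hv0 : v 0 = ![1, 0, 0])
    (hw0 : w 0 = ![0, 0, 1]) (i : Fin 6) :
    HasDerivAt (fun t => mono1 (w t) (v t) i)
      ((![0, 0, 2 * w' 0, v' 0 + 2 * w' 2, v' 1, 3 * v' 2] : Fin 6 → ℝ) i) 0 := by
  have hq := ((hw 1).pow 2).add ((hw 2).pow 2)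
  have hl := (((hw 1).mul (hv 1)).add ((hw 2).mul (hv 2))).const_mul 2
  fin_cases i
  · refine HasDerivAt.congr_deriv ((((hw 0).pow 2).const_mul 3).mul (hv 0)) ?_
    simp [hv0, hw0]
  · refine HasDerivAt.congr_deriv (((hv 1).mul ((hw 0).pow 2)).add
      ((((hw 1).const_mul 2).mul (hw 0)).mul (hv 0))) ?_
    simp [hv0, hw0]
  · refine HasDerivAt.congr_deriv (((hv 2).mul ((hw 0).pow 2)).add
      ((((hw 2).const_mul 2).mul (hw 0)).mul (hv 0))) ?_
    simp [hv0, hw0]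
  · refine HasDerivAt.congr_deriv (((hv 0).mul hq).add ((hw 0).mul hl)) ?_
    simp [hv0, hw0]
  · refine HasDerivAt.congr_deriv (((hv 1).mul hq).add ((hw 1).mul hl)) ?_
    simp [hv0, hw0]
  · refine HasDerivAt.congr_deriv (((hv 2).mul hq).add ((hw 2).mul hl)) ?_
    simp [hv0, hw0]
    ring

theorem d_m0 (hw : ∀ i, HasDerivAt (fun t => w t i) (w' i) 0)
    (hw0 : w 0 = ![0, 0, 1]) (i : Fin 6) :
    HasDerivAt (fun t => mono (w t) i)
      ((![0, 0, 0, w' 0, w' 1, 3 * w' 2] : Fin 6 → ℝ) i) 0 := by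
  have hq := ((hw 1).pow 2).add ((hw 2).pow 2)
  fin_cases i
  · refine HasDerivAt.congr_deriv ((hw 0).pow 3) ?_
    simp [hw0]
  · refine HasDerivAt.congr_deriv ((hw 1).mul ((hw 0).pow 2)) ?_
    simp [hw0]
  · refine HasDerivAt.congr_deriv ((hw 2).mul ((hw 0).pow 2)) ?_
    simp [hw0]
  · refine HasDerivAt.congr_deriv ((hw 0).mul hq) ?_
    simp [hw0]
  · refine HasDerivAt.congr_deriv ((hw 1).mul hq) ?_
    simp [hw0]
  · refine HasDerivAt.congr_deriv ((hw 2).mul hq) ?_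
    simp [hw0]
    ring

theorem d_LL (hy : ∀ i, HasDerivAt (fun t => y t i) (y' i) 0)
    (hm : ∀ i, HasDerivAt (fun t => m t i) (m' i) 0) (i : Fin 3) :
    HasDerivAt (fun t => LL (y t) (m t) i) (LL y' (m 0) i + LL (y 0) m' i) 0 := by
  fin_cases i
  · refine HasDerivAt.congr_deriv (((((((hy 3).mul (hm 0)).add ((hy 5).mul (hm 1))).sub
      ((hy 6).mul (hm 2))).add ((hy 7).mul (hm 3))).add ((hy 9).mul (hm 4))).sub
      ((hy 10).mul (hm 5))) ?_
    simp [LL]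
    ring
  · refine HasDerivAt.congr_deriv (((((((hy 4).mul (hm 0)).add ((hy 5).mul (hm 2))).add
      ((hy 6).mul (hm 1))).add ((hy 8).mul (hm 3))).add ((hy 9).mul (hm 5))).add
      ((hy 10).mul (hm 4))) ?_
    simp [LL]
    ring
  · refine HasDerivAt.congr_deriv ((((((hy 2).mul ((hm 0).sub (hm 3))).add
      ((hy 0).mul (hm 1))).sub ((hy 1).mul (hm 2))).add ((hy 0).mul (hm 5))).add
      ((hy 1).mul (hm 4))) ?_
    simp [LL]
    ring

end D

theorem mw : mono1 ![0, 0, 1] ![1, 0, 0] = ![0, 0, 0, 1, 0, 0] := by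
  funext i
  fin_cases i <;> simp [mono1]

theorem mw' : mono ![0, 0, 1] = ![0, 0, 0, 0, 0, 1] := by
  funext i
  fin_cases i <;> simp [mono]

theorem ww0 : ww ![1, 0, 0] ![0, 1] = ![0, 0, 1] := by
  funext i
  fin_cases i <;> simp [ww]

theorem LLye (m : Fin 6 → ℝ) : LL ye m = ![0, 0, m 1 + m 5] := by
  funext i
  fin_cases i <;> simp [LL, ye]

theorem Sye : S ye ![0, 0, 1] = ![0, 0, 1] := by
  rw [S, mw', LLye]
  funext i
  fin_cases i <;> simp

/-- the values of the derivative -/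
def sd (j : Fin 2) (ζ : Fin 9 → ℝ) : Fin 3 → ℝ :=
  if j = 0 then ![ζ 3, ζ 4, 3 * ζ 8] else ![- ζ 5, - ζ 6, ζ 7]

theorem sg_zero (j : Fin 2) : sg j (cy 0) (cv 0) (cu 0) = 0 := by
  rw [cy0, cu0, cv0]
  fin_cases j
  · change S1 ye (ww ![1, 0, 0] ![0, 1]) ![1, 0, 0] = 0
    rw [ww0, S1, mw, LLye]
    funext i
    fin_cases i <;> simp
  · change sg2 ye ![1, 0, 0] ![0, 1] = 0
    simp only [sg2, ww0, S, mw', LLye]
    funext i
    fin_cases i <;> simp

theorem d_sg (j : Fin 2) (ζ : Fin 9 → ℝ) (i : Fin 3) :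
    HasDerivAt (fun t : ℝ => sg j (cy (t • ζ)) (cv (t • ζ)) (cu (t • ζ)) i) (sd j ζ i) 0 := by
  have hv0 : (fun t : ℝ => cv (t • ζ)) 0 = ![1, 0, 0] := by
    change cv ((0 : ℝ) • ζ) = _
    rw [zero_smul, cv0]
  have hu0 : (fun t : ℝ => cu (t • ζ)) 0 = ![0, 1] := by
    change cu ((0 : ℝ) • ζ) = _
    rw [zero_smul, cu0]
  have hy0 : (fun t : ℝ => cy (t • ζ)) 0 = ye := by
    change cy ((0 : ℝ) • ζ) = _
    rw [zero_smul, cy0]
  have hw := d_ww (v := fun t : ℝ => cv (t • ζ)) (u := fun t : ℝ => cu (t • ζ)) (d_cv ζ) (d_cu ζ)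
    hv0 hu0
  have hw0 : (fun t : ℝ => ww (cv (t • ζ)) (cu (t • ζ))) 0 = ![0, 0, 1] := by
    change ww (cv ((0 : ℝ) • ζ)) (cu ((0 : ℝ) • ζ)) = _
    rw [zero_smul, cv0, cu0, ww0]
  fin_cases j
  · have hm := d_m1 (w := fun t : ℝ => ww (cv (t • ζ)) (cu (t • ζ))) (v := fun t : ℝ => cv (t • ζ))
      (d_cv ζ) hw hv0 hw0
    have hl := d_LL (y := fun t : ℝ => cy (t • ζ)) (d_cy ζ) hm i
    refine HasDerivAt.congr_deriv hl ?_
    have hv0' : cv ((0 : ℝ) • ζ) = ![1, 0, 0] := hv0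
    have hw0' : ww (cv ((0 : ℝ) • ζ)) (cu ((0 : ℝ) • ζ)) = ![0, 0, 1] := hw0
    have hy0' : cy ((0 : ℝ) • ζ) = ye := hy0
    simp only [hy0', hv0', LLye]
    rw [show cu ((0 : ℝ) • ζ) = ![0, 1] from hu0, ww0, mw]
    fin_cases i <;> simp [LL, sd]
  · have hm := d_m0 (w := fun t : ℝ => ww (cv (t • ζ)) (cu (t • ζ))) hw hw0
    have hl := fun i => d_LL (y := fun t : ℝ => cy (t • ζ)) (d_cy ζ) hm i
    have hu := d_cu ζ
    have hv0' : cv ((0 : ℝ) • ζ) = ![1, 0, 0] := hv0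
    have hu0' : cu ((0 : ℝ) • ζ) = ![0, 1] := hu0
    have hy0' : cy ((0 : ℝ) • ζ) = ye := hy0
    fin_cases i
    · refine HasDerivAt.congr_deriv (((hu 0).mul (hl 0)).sub ((hu 1).mul (hl 1))) ?_
      simp only [hy0', hv0', hu0', LLye, ww0, mw', Sye]
      simp [LL, sd]
    · refine HasDerivAt.congr_deriv (((hu 1).mul (hl 0)).add ((hu 0).mul (hl 1))) ?_
      simp only [hy0', hv0', hu0', LLye, ww0, mw', Sye]
      simp [LL, sd]
    · refine HasDerivAt.congr_deriv ((hu 0).mul (hl 2)) ?_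
      simp only [hy0', hv0', hu0', LLye, ww0, mw', Sye]
      simp [LL, sd]

theorem S_cy (x : Fin 9 → ℝ) (h : 1 - x 8 ^ 2 * (x 7 ^ 2 + 1) ≠ 0) : S (cy x) (cv x) = 0 := by
  have h2 : cy x 2 * (1 - x 8 ^ 2 * (x 7 ^ 2 + 1)) =
    x 8 * (x 0 - x 7 - (1 + x 0 * x 7) * (x 8 ^ 2 * (x 7 ^ 2 + 1))) := by
    rw [d_cy2, mul_assoc, div_mul_cancel₀ _ h]
  funext i
  fin_cases i
  · change cy x 3 * mono (cv x) 0 + cy x 5 * mono (cv x) 1 - cy x 6 * mono (cv x) 2 +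
      cy x 7 * mono (cv x) 3 + cy x 9 * mono (cv x) 4 - cy x 10 * mono (cv x) 5 = 0
    rw [d_cy3]
    simp [mono, cv, cy]
    ring
  · change cy x 4 * mono (cv x) 0 + cy x 5 * mono (cv x) 2 + cy x 6 * mono (cv x) 1 +
      cy x 8 * mono (cv x) 3 + cy x 9 * mono (cv x) 5 + cy x 10 * mono (cv x) 4 = 0
    rw [d_cy4]
    simp [mono, cv, cy]
    ring
  · change cy x 2 * (mono (cv x) 0 - mono (cv x) 3) + cy x 0 * mono (cv x) 1 -
      cy x 1 * mono (cv x) 2 + cy x 0 * mono (cv x) 5 + cy x 1 * mono (cv x) 4 = 0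
    have e : mono (cv x) 0 - mono (cv x) 3 = 1 - x 8 ^ 2 * (x 7 ^ 2 + 1) := by
      simp [mono, cv]
      ring
    rw [e, h2]
    simp [mono, cv, cy]
    ring

theorem dot_cy (x : Fin 9 → ℝ) : 1 ≤ dot (cy x) (cy x) := by
  have h0 : cy x 0 = 1 := rfl
  rw [dot, sum11, h0]
  nlinarith [mul_self_nonneg (cy x 1), mul_self_nonneg (cy x 2), mul_self_nonneg (cy x 3),
    mul_self_nonneg (cy x 4), mul_self_nonneg (cy x 5), mul_self_nonneg (cy x 6),
    mul_self_nonneg (cy x 7), mul_self_nonneg (cy x 8), mul_self_nonneg (cy x 9),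
    mul_self_nonneg (cy x 10)]

theorem cont_cy (i : Fin 11) : ContinuousAt (fun x => cy x i) 0 := by
  fin_cases i
  · exact continuousAt_const
  · exact (continuous_apply 0).continuousAt
  · change ContinuousAt (fun x => cy x 2) 0
    simp only [d_cy2]
    have h7 : ContinuousAt (fun x : Fin 9 → ℝ => x 7) 0 := (continuous_apply 7).continuousAt
    have h8 : ContinuousAt (fun x : Fin 9 → ℝ => x 8) 0 := (continuous_apply 8).continuousAt
    have h0 : ContinuousAt (fun x : Fin 9 → ℝ => x 0) 0 := (continuous_apply 0).continuousAt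
    refine ContinuousAt.mul h8 (ContinuousAt.div ?_ ?_ ?_)
    · exact (h0.sub h7).sub ((continuousAt_const.add (h0.mul h7)).mul
        ((h8.pow 2).mul ((h7.pow 2).add continuousAt_const)))
    · exact continuousAt_const.sub ((h8.pow 2).mul ((h7.pow 2).add continuousAt_const))
    · simp
  · change ContinuousAt (fun x => cy x 3) 0
    simp only [d_cy3]
    fun_prop
  · change ContinuousAt (fun x => cy x 4) 0
    simp only [d_cy4]
    fun_prop
  · exact (continuous_apply 1).continuousAt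
  · exact (continuous_apply 2).continuousAt
  · exact (continuous_apply 3).continuousAt
  · exact (continuous_apply 4).continuousAt
  · exact (continuous_apply 5).continuousAt
  · exact (continuous_apply 6).continuousAt

theorem cont_dot : ContinuousAt (fun x => dot (cy x) (cy x)) 0 := by
  simp only [dot]
  exact tendsto_finsetSum _ fun i _ => (cont_cy i).mul (cont_cy i)

/-- the index of the row -/
def row (i : Fin 3) : Fin 11 := ![2, 3, 4] i

/-- the index of the component -/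
def cmp (i : Fin 3) : Fin 3 := ![2, 0, 1] i

theorem near (ζ : Fin 9 → ℝ) :
    ∀ᶠ t : ℝ in 𝓝 0, 1 - (t • ζ) 8 ^ 2 * ((t • ζ) 7 ^ 2 + 1) ≠ 0 := by
  have h : ContinuousAt (fun t : ℝ => 1 - (t • ζ) 8 ^ 2 * ((t • ζ) 7 ^ 2 + 1)) 0 := by fun_prop
  exact h.eventually_ne (by simp)

theorem cont_cu (i : Fin 2) : ContinuousAt (fun x => cu x i) 0 := by
  fin_cases i
  · exact (continuous_apply 7).continuousAt
  · exact continuousAt_const

theorem cont_cv (i : Fin 3) : ContinuousAt (fun x => cv x i) 0 := by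
  fin_cases i
  · exact continuousAt_const
  · exact (continuous_apply 8).continuousAt.mul (continuous_apply 7).continuousAt
  · exact (continuous_apply 8).continuousAt

theorem cont_dcu : ContinuousAt (fun x => dot (cu x) (cu x)) 0 := by
  simp only [dot]
  exact tendsto_finsetSum _ fun i _ => (cont_cu i).mul (cont_cu i)

theorem cont_dcv : ContinuousAt (fun x => dot (cv x) (cv x)) 0 := by
  simp only [dot]
  exact tendsto_finsetSum _ fun i _ => (cont_cv i).mul (cont_cv i)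

theorem dcy0 : dot (cy 0) (cy 0) = 1 := by
  rw [cy0, dot, sum11]
  simp [ye]

theorem dcu0 : dot (cu 0) (cu 0) = 1 := by
  rw [cu0, dot, Fin.sum_univ_two]
  simp

theorem dcv0 : dot (cv 0) (cv 0) = 1 := by
  rw [cv0, dot, Fin.sum_univ_three]
  simp

/-- the factor -/
noncomputable def Kf (j : Fin 2) (x : Fin 9 → ℝ) : ℝ :=
  Rf j (dot (cu x) (cu x))⁻¹ (dot (cv x) (cv x))⁻¹ (cu x) (cv x) * (dot (cy x) (cy x))⁻¹

theorem cont_Kf (j : Fin 2) : ContinuousAt (Kf j) 0 := by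
  refine ContinuousAt.mul ?_ (cont_dot.inv₀ (by rw [dcy0]; norm_num))
  unfold Rf
  refine tendsto_finsetSum _ fun c _ => tendsto_finsetSum _ fun d _ => ?_
  exact (((cont_dcv.inv₀ (by rw [dcv0]; norm_num)).mul (cont_cv c)).pow 6).mul
    (((cont_dcu.inv₀ (by rw [dcu0]; norm_num)).mul (cont_cu d)).pow (ex j))

theorem Kf0 (j : Fin 2) : Kf j 0 = 1 := by
  rw [Kf, dcy0, dcu0, dcv0, cu0, cv0, Rf]
  fin_cases j <;> simp [Fin.sum_univ_succ, ex]

/-- the vector `RR v s` -/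
noncomputable def zz (j : Fin 2) (x : Fin 9 → ℝ) : Fin 11 → ℝ := RR (cv x) (sg j (cy x) (cv x) (cu x))

theorem VV_psi (j : Fin 2) (x : Fin 9 → ℝ) (h : 1 - x 8 ^ 2 * (x 7 ^ 2 + 1) ≠ 0) (a b : Fin 11) :
    (VV j (psi x)).1 a b = Kf j x * (zz j x a * cy x b + cy x a * zz j x b) := by
  have h1 := VV_eq j (dot (cy x) (cy x))⁻¹ (dot (cu x) (cu x))⁻¹ (dot (cv x) (cv x))⁻¹ (cy x)
    (cu x) (cv x) (inv_mul_cancel₀ (by have := dot_cy x; positivity)) (S_cy x h) a b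
  exact h1

theorem cont_z0 (j : Fin 2) (ζ : Fin 9 → ℝ) :
    ContinuousAt (fun t : ℝ => zz j (t • ζ) 0) 0 := by
  have h1 : ContinuousAt (fun t : ℝ => sg j (cy (t • ζ)) (cv (t • ζ)) (cu (t • ζ)) 2) 0 :=
    (d_sg j ζ 2).continuousAt
  have h2 := (cont_line _ ζ (cont_cv 0))
  have h3 := (cont_line _ ζ (cont_cv 1))
  have h4 := (cont_line _ ζ (cont_cv 2))
  exact h1.mul ((h3.mul (h2.pow 2)).add (h4.mul ((h3.pow 2).add (h4.pow 2))))

theorem z_zero (j : Fin 2) (a : Fin 11) : zz j 0 a = 0 := by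
  rw [zz, sg_zero]
  fin_cases a <;> simp [RR, LT]

theorem d_zz (j : Fin 2) (ζ : Fin 9 → ℝ) (i : Fin 3) :
    HasDerivAt (fun t : ℝ => zz j (t • ζ) (row i)) (sd j ζ (cmp i)) 0 := by
  have h0 := (cont_line _ ζ (cont_cv 0))
  have h1 := (cont_line _ ζ (cont_cv 1))
  have h2 := (cont_line _ ζ (cont_cv 2))
  have hs : ∀ i, sg j (cy ((0 : ℝ) • ζ)) (cv ((0 : ℝ) • ζ)) (cu ((0 : ℝ) • ζ)) i = 0 := by
    intro i
    rw [zero_smul, sg_zero]
    rfl
  have hv0' : cv ((0 : ℝ) • ζ) = ![1, 0, 0] := by rw [zero_smul, cv0]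
  fin_cases i
  · have h3 := mul_cont ((h0.pow 3).sub (h0.mul ((h1.pow 2).add (h2.pow 2)))) (d_sg j ζ 2) (hs 2)
    refine (h3.congr_deriv ?_).congr_of_eventuallyEq (Eventually.of_forall fun t => ?_)
    · simp [cv0, cmp]
    · change sg j (cy (t • ζ)) (cv (t • ζ)) (cu (t • ζ)) 2 * (cv (t • ζ) 0 ^ 3 -
        cv (t • ζ) 0 * (cv (t • ζ) 1 ^ 2 + cv (t • ζ) 2 ^ 2)) = _
      rw [mul_comm]
      rfl
  · have h3 := mul_cont (h0.pow 3) (d_sg j ζ 0) (hs 0)
    refine (h3.congr_deriv ?_).congr_of_eventuallyEq (Eventually.of_forall fun t => ?_)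
    · simp [cv0, cmp]
    · change sg j (cy (t • ζ)) (cv (t • ζ)) (cu (t • ζ)) 0 * cv (t • ζ) 0 ^ 3 = _
      rw [mul_comm]
      rfl
  · have h3 := mul_cont (h0.pow 3) (d_sg j ζ 1) (hs 1)
    refine (h3.congr_deriv ?_).congr_of_eventuallyEq (Eventually.of_forall fun t => ?_)
    · simp [cv0, cmp]
    · change sg j (cy (t • ζ)) (cv (t • ζ)) (cu (t • ζ)) 1 * cv (t • ζ) 0 ^ 3 = _
      rw [mul_comm]
      rfl

theorem cy_row (i : Fin 3) : cy 0 (row i) = 0 := by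
  rw [cy0]
  fin_cases i <;> rfl

theorem d_col (j : Fin 2) (ζ : Fin 9 → ℝ) (i : Fin 3) :
    HasDerivAt (fun t : ℝ => (VV j (psi (t • ζ))).1 0 (row i)) (sd j ζ (cmp i)) 0 := by
  have h1 : HasDerivAt (fun t : ℝ => zz j (t • ζ) 0 * cy (t • ζ) (row i)) 0 0 := by
    have h2 := mul_cont (cont_z0 j ζ) (d_cy ζ (row i)) (by rw [zero_smul, cy_row])
    simp only [zero_smul, z_zero, zero_mul] at h2
    exact h2
  have h3 := h1.add (d_zz j ζ i)
  have h4 := mul_cont (cont_line _ ζ (cont_Kf j)) h3 (by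
    simp only [Pi.add_apply, zero_smul, z_zero, zero_mul, add_zero])
  refine (h4.congr_deriv ?_).congr_of_eventuallyEq ?_
  · simp only [zero_smul, Kf0, zero_add, one_mul]
  · filter_upwards [near ζ] with t ht
    rw [VV_psi j _ ht]
    simp only [Pi.add_apply]
    have h0 : cy (t • ζ) 0 = 1 := rfl
    rw [h0, one_mul]

/-! ### the first column -/

/-- `cy x (row i)` divided by `x 8` -/
noncomputable def Af (i : Fin 3) (x : Fin 9 → ℝ) : ℝ :=
  ![(x 0 - x 7 - (1 + x 0 * x 7) * (x 8 ^ 2 * (x 7 ^ 2 + 1))) / (1 - x 8 ^ 2 * (x 7 ^ 2 + 1)),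
    x 2 - x 1 * x 7 - x 3 * (x 8 * (x 7 ^ 2 + 1)) - (x 5 * x 7 - x 6) * (x 8 ^ 2 * (x 7 ^ 2 + 1)),
    - x 1 - x 2 * x 7 - x 4 * (x 8 * (x 7 ^ 2 + 1)) - (x 5 + x 6 * x 7) *
      (x 8 ^ 2 * (x 7 ^ 2 + 1))] i

theorem cy_Af (i : Fin 3) (x : Fin 9 → ℝ) : cy x (row i) = x 8 * Af i x := by
  fin_cases i
  · exact d_cy2 x
  · exact d_cy3 x
  · exact d_cy4 x

theorem cd (k : Fin 9) : ContDiffAt ℝ ∞ (fun x : Fin 9 → ℝ => x k) 0 :=
  (contDiff_apply ℝ ℝ k).contDiffAt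

theorem cd_Af (i : Fin 3) : ContDiffAt ℝ ∞ (Af i) 0 := by
  have hc : ∀ c : ℝ, ContDiffAt ℝ ∞ (fun _ : Fin 9 → ℝ => c) 0 := fun c => contDiffAt_const
  have hE := ((cd 8).pow 2).mul (((cd 7).pow 2).add (hc 1))
  fin_cases i
  · refine ContDiffAt.div (((cd 0).sub (cd 7)).sub (((hc 1).add ((cd 0).mul (cd 7))).mul hE))
      ((hc 1).sub hE) ?_
    simp
  · exact (((cd 2).sub ((cd 1).mul (cd 7))).sub ((cd 3).mul ((cd 8).mul
      (((cd 7).pow 2).add (hc 1))))).sub ((((cd 5).mul (cd 7)).sub (cd 6)).mul hE)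
  · exact ((((cd 1).neg).sub ((cd 2).mul (cd 7))).sub ((cd 4).mul ((cd 8).mul
      (((cd 7).pow 2).add (hc 1))))).sub (((cd 5).add ((cd 6).mul (cd 7))).mul hE)

theorem cd_cy (i : Fin 11) : ContDiffAt ℝ ∞ (fun x => cy x i) 0 := by
  have hr : ∀ k : Fin 3, ContDiffAt ℝ ∞ (fun x => cy x (row k)) 0 := fun k => by
    simp only [cy_Af]
    exact (cd 8).mul (cd_Af k)
  fin_cases i
  · exact contDiffAt_const
  · exact cd 0
  · exact hr 0
  · exact hr 1
  · exact hr 2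
  · exact cd 1
  · exact cd 2
  · exact cd 3
  · exact cd 4
  · exact cd 5
  · exact cd 6

theorem cd_dot : ContDiffAt ℝ ∞ (fun x => dot (cy x) (cy x)) 0 := by
  simp only [dot]
  exact ContDiffAt.sum fun i _ => (cd_cy i).mul (cd_cy i)

/-- the cofactor of `x 8` in the coordinate of `f0 (psi x)` -/
noncomputable def Bf (i : Fin 3) (x : Fin 9 → ℝ) : ℝ := (dot (cy x) (cy x))⁻¹ * Af i x

theorem cd_Bf (i : Fin 3) : ContDiffAt ℝ ∞ (Bf i) 0 :=
  (cd_dot.inv (by rw [dcy0]; norm_num)).mul (cd_Af i)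

/-- the values of the derivative -/
def tv (i : Fin 3) (ζ : Fin 9 → ℝ) : ℝ := ![ζ 0 - ζ 7, ζ 2, - ζ 1] i

theorem Af0 (i : Fin 3) : Af i 0 = 0 := by
  fin_cases i <;> simp [Af]

theorem d_Af (i : Fin 3) (ζ : Fin 9 → ℝ) : HasDerivAt (fun t : ℝ => Af i (t • ζ)) (tv i ζ) 0 := by
  have h : ∀ k, HasDerivAt (fun t : ℝ => (t • ζ) k) (ζ k) 0 := fun k => by
    simpa using (hasDerivAt_id (0 : ℝ)).mul_const (ζ k)
  have hE := ((h 8).pow 2).mul (((h 7).pow 2).add_const 1)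
  fin_cases i
  · have hN := ((h 0).sub (h 7)).sub ((((h 0).mul (h 7)).const_add 1).mul hE)
    refine HasDerivAt.congr_deriv (hN.div (hE.const_sub 1) (by simp)) ?_
    simp [tv]
  · refine HasDerivAt.congr_deriv ((((h 2).sub ((h 1).mul (h 7))).sub ((h 3).mul ((h 8).mul
      (((h 7).pow 2).add_const 1)))).sub ((((h 5).mul (h 7)).sub (h 6)).mul hE)) ?_
    simp [tv]
  · refine HasDerivAt.congr_deriv (((((h 1).neg).sub ((h 2).mul (h 7))).sub ((h 4).mul ((h 8).mul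
      (((h 7).pow 2).add_const 1)))).sub (((h 5).add ((h 6).mul (h 7))).mul hE)) ?_
    simp [tv]

theorem d_Bf (i : Fin 3) (ζ : Fin 9 → ℝ) : HasDerivAt (fun t : ℝ => Bf i (t • ζ)) (tv i ζ) 0 := by
  have h1 := mul_cont (cont_line _ ζ (cont_dot.inv₀ (by rw [dcy0]; norm_num))) (d_Af i ζ) (by
    rw [zero_smul, Af0])
  refine h1.congr_deriv ?_
  change (dot (cy ((0 : ℝ) • ζ)) (cy ((0 : ℝ) • ζ)))⁻¹ * tv i ζ = tv i ζ
  rw [zero_smul, dcy0, inv_one, one_mul]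

/-- the last basis vector -/
def e8 : Fin 9 → ℝ := Pi.single (Fin.last 8) 1

theorem fd_Bf (i : Fin 3) : fderiv ℝ (Bf i) 0 e8 = 0 := by
  have h1 : DifferentiableAt ℝ (Bf i) 0 := (cd_Bf i).differentiableAt (by norm_num)
  have h2 : HasDerivAt (fun t : ℝ => t • e8) e8 0 := by
    simpa using (hasDerivAt_id (0 : ℝ)).smul_const e8
  have h3 : HasFDerivAt (Bf i) (fderiv ℝ (Bf i) 0) ((0 : ℝ) • e8) := by
    rw [zero_smul]
    exact h1.hasFDerivAt
  have h5 := h3.comp_hasDerivAt (0 : ℝ) h2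
  have h6 : fderiv ℝ (Bf i) 0 e8 = tv i e8 := h5.unique (d_Bf i e8)
  rw [h6]
  fin_cases i <;> simp [tv, e8, Fin.ext_iff]

/-- the coordinate -/
noncomputable def ell (i : Fin 3) : FF →L[ℝ] ℝ :=
  (ContinuousLinearMap.proj (row i)).comp ((ContinuousLinearMap.proj (0 : Fin 11)).comp
    (ContinuousLinearMap.fst ℝ (Fin 11 → Fin 11 → ℝ) (Fin 2 → Fin 2 → ℝ)))

theorem ell_psi (i : Fin 3) (x : Fin 9 → ℝ) : ell i (f0 (psi x)) = x 8 * Bf i x := by
  change (dot (cy x) (cy x))⁻¹ * (cy x 0 * cy x (row i)) = _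
  rw [cy_Af, Bf, show cy x 0 = 1 from rfl]
  ring

theorem d_tau (hP : StPsi) (i : Fin 3) (ζ : Fin 9 → ℝ) :
    HasDerivAt (fun t : ℝ => ell i (fderiv ℝ (fun y => f0 (psi y)) (t • ζ) e8)) (tv i ζ) 0 := by
  have hc : ContinuousAt (fun x => fderiv ℝ (Bf i) x e8) 0 := by
    have h1 : ContDiffAt ℝ 1 (fderiv ℝ (Bf i)) 0 := (cd_Bf i).fderiv_right
      (show ((2 : ℕ∞) : WithTop ℕ∞) ≤ ∞ from WithTop.coe_le_coe.2 le_top)
    exact h1.continuousAt.clm_apply continuousAt_const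
  have h2 : HasDerivAt (fun t : ℝ => (t • ζ) 8) (ζ 8) 0 := by
    simpa using (hasDerivAt_id (0 : ℝ)).mul_const (ζ 8)
  have h3 := mul_cont (cont_line _ ζ hc) h2 (by simp)
  have h4 := (d_Bf i ζ).add h3
  refine (h4.congr_deriv ?_).congr_of_eventuallyEq ?_
  · change tv i ζ + fderiv ℝ (Bf i) ((0 : ℝ) • ζ) e8 * ζ 8 = tv i ζ
    rw [zero_smul, fd_Bf, zero_mul, add_zero]
  · have hl : Tendsto (fun t : ℝ => t • ζ) (𝓝 0) (𝓝 0) := by
      have : ContinuousAt (fun t : ℝ => t • ζ) 0 := by fun_prop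
      simpa [ContinuousAt] using this
    have e1 : ∀ᶠ x in 𝓝 (0 : Fin 9 → ℝ), ContDiffAt ℝ 1 (Bf i) x :=
      ((cd_Bf i).of_le (by norm_num)).eventually (by norm_num)
    have e2 : ∀ᶠ x in 𝓝 (0 : Fin 9 → ℝ), x ∈ Metric.ball (0 : Fin 9 → ℝ) (1 / 2) :=
      Metric.ball_mem_nhds _ (by norm_num)
    filter_upwards [hl.eventually e1, hl.eventually e2] with t ht1 ht2
    have h5 : DifferentiableAt ℝ psi (t • ζ) :=
      ((hP.1.contDiffAt (Metric.isOpen_ball.mem_nhds ht2))).differentiableAt (by norm_num)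
    have h6 : DifferentiableAt ℝ (fun y => f0 (psi y)) (t • ζ) :=
      f0.differentiableAt.comp _ h5
    have h7 := ((ell i).hasFDerivAt (x := f0 (psi (t • ζ)))).comp (t • ζ) h6.hasFDerivAt
    have h8 : HasFDerivAt (fun x : Fin 9 → ℝ => x 8 * Bf i x)
        ((t • ζ) 8 • fderiv ℝ (Bf i) (t • ζ) + Bf i (t • ζ) •
          (ContinuousLinearMap.proj (R := ℝ) (φ := fun _ : Fin 9 => ℝ) 8)) (t • ζ) :=
      HasFDerivAt.mul (hasFDerivAt_apply 8 (t • ζ)) (ht1.differentiableAt (by norm_num)).hasFDerivAt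
    have h9 : (ell i ∘ fun y => f0 (psi y)) = fun x : Fin 9 → ℝ => x 8 * Bf i x :=
      funext fun x => ell_psi i x
    rw [h9] at h7
    have h10 := congrArg (fun L : (Fin 9 → ℝ) →L[ℝ] ℝ => L e8) (h7.unique h8)
    change ell i (fderiv ℝ (fun y => f0 (psi y)) (t • ζ) e8) = (t • ζ) 8 *
      fderiv ℝ (Bf i) (t • ζ) e8 + Bf i (t • ζ) * e8 8 at h10
    rw [h10]
    have h11 : e8 8 = 1 := by simp [e8]
    rw [h11, mul_one]
    simp only [Pi.add_apply]
    ring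

/-! ### conclusion -/

theorem d_J0 (hP : StPsi) (ζ : Fin 9 → ℝ) (i : Fin 3) :
    HasDerivAt (fun t : ℝ => Jm f0 VV (t • ζ) (Sum.inr i) (Sum.inr 0)) (tv i ζ) 0 := by
  have h := d_tau hP i ζ
  fin_cases i <;> exact h

theorem d_J1 (ζ : Fin 9 → ℝ) (i : Fin 3) :
    HasDerivAt (fun t : ℝ => Jm f0 VV (t • ζ) (Sum.inr i) (Sum.inr 1)) (sd 0 ζ (cmp i)) 0 := by
  have h := d_col 0 ζ i
  fin_cases i <;> exact h

theorem d_J2 (ζ : Fin 9 → ℝ) (i : Fin 3) :
    HasDerivAt (fun t : ℝ => Jm f0 VV (t • ζ) (Sum.inr i) (Sum.inr 2)) (sd 1 ζ (cmp i)) 0 := by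
  have h := d_col 1 ζ i
  fin_cases i <;> exact h

end J0b

open J0b in
/-- the matrix of the unperturbed problem: derivative -/
theorem stJ0b (hP : StPsi) (hJ : StJ0a) : StJ0b := by
  intro ζ h
  have a0 : ∀ i : Fin 3, tv i ζ = 0 := fun i => by
    rw [← dir hJ ζ _ _ _ (d_J0 hP ζ i), h]
  have a1 : ∀ i : Fin 3, sd 0 ζ (cmp i) = 0 := fun i => by
    rw [← dir hJ ζ _ _ _ (d_J1 ζ i), h]
  have a2 : ∀ i : Fin 3, sd 1 ζ (cmp i) = 0 := fun i => by
    rw [← dir hJ ζ _ _ _ (d_J2 ζ i), h]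
  have b1 : ζ 0 - ζ 7 = 0 := a0 0
  have b2 : ζ 2 = 0 := a0 1
  have b3 : - ζ 1 = 0 := a0 2
  have b4 : 3 * ζ 8 = 0 := a1 0
  have b5 : ζ 3 = 0 := a1 1
  have b6 : ζ 4 = 0 := a1 2
  have b7 : ζ 7 = 0 := a2 0
  have b8 : - ζ 5 = 0 := a2 1
  have b9 : - ζ 6 = 0 := a2 2
  funext k
  fin_cases k
  · change ζ 0 = 0
    linarith
  · change ζ 1 = 0
    linarith
  · exact b2
  · exact b5
  · exact b6
  · change ζ 5 = 0
    linarith
  · change ζ 6 = 0
    linarith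
  · exact b7
  · change ζ 8 = 0
    linarith

end Pool.Agent.Lib.MP_086785_gt.CB
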