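import Pool.Agent.Lib.MP_086785_gt.CB.Stmts
import Pool.Agent.Lib.MP_086785_gt.CB.J0a

/-! Project CB: closeness of the matrices of the differentials. -/

set_option autoImplicit false

namespace Pool.Agent.Lib.MP_086785_gt.CB

open Set Filter Topology Finset
open scoped ContDiff

namespace Jclose

/-- linearity of the columns in the data, at points where everything is differentiable -/
theorem Jc_sub {h h' : EE → FF} {V V' : Fin 2 → EE → FF} {z : Fin 9 → ℝ}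
    (hh : DifferentiableAt ℝ (fun y => h (psi y)) z)
    (hh' : DifferentiableAt ℝ (fun y => h' (psi y)) z) (j : Fin 8 ⊕ Fin 3) :
    Jc (fun x => h x - h' x) (fun j x => V j x - V' j x) z j = Jc h V z j - Jc h' V' z j := by
  have h1 : fderiv ℝ (fun y => h (psi y) - h' (psi y)) z =
      fderiv ℝ (fun y => h (psi y)) z - fderiv ℝ (fun y => h' (psi y)) z := fderiv_fun_sub hh hh'
  rcases j with j | j
  · show fderiv ℝ (fun y => h (psi y) - h' (psi y)) z _ = _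
    rw [h1]
    rfl
  · fin_cases j
    · show fderiv ℝ (fun y => h (psi y) - h' (psi y)) z _ = _
      rw [h1]
      rfl
    · rfl
    · rfl

theorem Jm_sub {h h' : EE → FF} {V V' : Fin 2 → EE → FF} {z : Fin 9 → ℝ}
    (hh : DifferentiableAt ℝ (fun y => h (psi y)) z)
    (hh' : DifferentiableAt ℝ (fun y => h' (psi y)) z) :
    Jm (fun x => h x - h' x) (fun j x => V j x - V' j x) z = Jm h V z - Jm h' V' z := by
  funext i j
  show piN (Jc _ _ z j) i = piN (Jc h V z j) i - piN (Jc h' V' z j) i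
  rw [Jc_sub hh hh' j, map_sub]
  rfl

/-- derivatives of `g ∘ psi`, of orders 0 and 1 -/
theorem bound_d1 {g : EE → FF} {δ B B' : ℝ} {z : Fin 9 → ℝ} (hδ : 0 ≤ δ) (hg : ContDiff ℝ ∞ g)
    (h1 : ‖fderiv ℝ g (psi z)‖ ≤ δ) (h2 : ‖fderiv ℝ (fderiv ℝ g) (psi z)‖ ≤ δ)
    (hpsi : ContDiffAt ℝ ∞ psi z) (hB : ‖fderiv ℝ psi z‖ ≤ B)
    (hB' : ‖fderiv ℝ (fderiv ℝ psi) z‖ ≤ B') (e : Fin 9 → ℝ) (he : ‖e‖ ≤ 1) :
    ‖fderiv ℝ (fun y => g (psi y)) z e‖ ≤ δ * B ∧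
    ∃ D : (Fin 9 → ℝ) →L[ℝ] FF,
      HasFDerivAt (fun z => fderiv ℝ (fun y => g (psi y)) z e) D z ∧ ‖D‖ ≤ δ * (B * B + B') := by
  have hB0 : 0 ≤ B := (norm_nonneg _).trans hB
  have hB'0 : 0 ≤ B' := (ContinuousLinearMap.opNorm_nonneg (fderiv ℝ (fderiv ℝ psi) z)).trans hB'
  have hev : (fun w => fderiv ℝ (fun y => g (psi y)) w e) =ᶠ[𝓝 z]
      fun w => fderiv ℝ g (psi w) (fderiv ℝ psi w e) := by
    have h3 : ∀ᶠ w in 𝓝 z, ContDiffAt ℝ 1 psi w :=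
      (hpsi.of_le (by norm_cast : (1 : WithTop ℕ∞) ≤ ∞)).eventually (by simp)
    filter_upwards [h3] with w hw
    have h4 : DifferentiableAt ℝ psi w := hw.differentiableAt (by simp)
    have h5 : DifferentiableAt ℝ g (psi w) := (hg.differentiable (by simp)) _
    rw [fderiv_fun_comp w h5 h4]
    rfl
  have hz : fderiv ℝ (fun y => g (psi y)) z e = fderiv ℝ g (psi z) (fderiv ℝ psi z e) :=
    hev.eq_of_nhds
  have hpe : ‖fderiv ℝ psi z e‖ ≤ B := by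
    refine ((fderiv ℝ psi z).le_opNorm e).trans ?_
    calc _ ≤ B * 1 := mul_le_mul hB he (norm_nonneg _) hB0
      _ = B := mul_one _
  refine ⟨?_, ?_⟩
  · rw [hz]
    refine ((fderiv ℝ g (psi z)).le_opNorm _).trans ?_
    exact mul_le_mul h1 hpe (norm_nonneg _) hδ
  · have hc : HasFDerivAt (fun w => fderiv ℝ g (psi w))
        ((fderiv ℝ (fderiv ℝ g) (psi z)).comp (fderiv ℝ psi z)) z := by
      have h3 : DifferentiableAt ℝ (fderiv ℝ g) (psi z) :=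
        ((hg.fderiv_right (m := 1) (by norm_cast)).differentiable (by simp)) _
      have h4 : DifferentiableAt ℝ psi z := hpsi.differentiableAt (by simp)
      exact h3.hasFDerivAt.comp z h4.hasFDerivAt
    have hd : HasFDerivAt (fun w => fderiv ℝ psi w e)
        ((ContinuousLinearMap.apply ℝ EE e).comp (fderiv ℝ (fderiv ℝ psi) z)) z := by
      have h3 : DifferentiableAt ℝ (fderiv ℝ psi) z := by
        have h4 : ContDiffAt ℝ 1 (fderiv ℝ psi) z :=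
          hpsi.fderiv_right (by norm_cast)
        exact h4.differentiableAt (by simp)
      exact (ContinuousLinearMap.apply ℝ EE e).hasFDerivAt.comp z h3.hasFDerivAt
    have hcd := hc.clm_apply hd
    refine ⟨_, hcd.congr_of_eventuallyEq hev, ?_⟩
    refine ContinuousLinearMap.opNorm_le_bound _ (by positivity) fun ζ => ?_
    show ‖fderiv ℝ g (psi z) (fderiv ℝ (fderiv ℝ psi) z ζ e) +
      (fderiv ℝ (fderiv ℝ g) (psi z) (fderiv ℝ psi z ζ)) (fderiv ℝ psi z e)‖ ≤ _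
    have e1 : ‖fderiv ℝ (fderiv ℝ psi) z ζ e‖ ≤ B' * ‖ζ‖ := by
      refine ((fderiv ℝ (fderiv ℝ psi) z ζ).le_opNorm e).trans ?_
      have e2 : ‖fderiv ℝ (fderiv ℝ psi) z ζ‖ ≤ B' * ‖ζ‖ :=
        ((fderiv ℝ (fderiv ℝ psi) z).le_opNorm ζ).trans
          (mul_le_mul_of_nonneg_right hB' (norm_nonneg _))
      calc _ ≤ (B' * ‖ζ‖) * 1 := mul_le_mul e2 he (norm_nonneg _) (by positivity)
        _ = _ := mul_one _
    have e3 : ‖fderiv ℝ g (psi z) (fderiv ℝ (fderiv ℝ psi) z ζ e)‖ ≤ δ * (B' * ‖ζ‖) :=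
      ((fderiv ℝ g (psi z)).le_opNorm _).trans (mul_le_mul h1 e1 (norm_nonneg _) hδ)
    have e4 : ‖fderiv ℝ psi z ζ‖ ≤ B * ‖ζ‖ :=
      ((fderiv ℝ psi z).le_opNorm ζ).trans (mul_le_mul_of_nonneg_right hB (norm_nonneg _))
    have e5 : ‖fderiv ℝ (fderiv ℝ g) (psi z) (fderiv ℝ psi z ζ)‖ ≤ δ * (B * ‖ζ‖) :=
      ((fderiv ℝ (fderiv ℝ g) (psi z)).le_opNorm _).trans
        (mul_le_mul h2 e4 (norm_nonneg _) hδ)
    have e6 : ‖(fderiv ℝ (fderiv ℝ g) (psi z) (fderiv ℝ psi z ζ)) (fderiv ℝ psi z e)‖ ≤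
        (δ * (B * ‖ζ‖)) * B :=
      ((fderiv ℝ (fderiv ℝ g) (psi z) (fderiv ℝ psi z ζ)).le_opNorm _).trans
        (mul_le_mul e5 hpe (norm_nonneg _) (by positivity))
    calc _ ≤ δ * (B' * ‖ζ‖) + (δ * (B * ‖ζ‖)) * B := (norm_add_le _ _).trans (add_le_add e3 e6)
      _ = δ * (B * B + B') * ‖ζ‖ := by ring

theorem bound_d0 {W : EE → FF} {δ B : ℝ} {z : Fin 9 → ℝ} (hδ : 0 ≤ δ) (hW : ContDiff ℝ ∞ W)
    (h0 : ‖W (psi z)‖ ≤ δ) (h1 : ‖fderiv ℝ W (psi z)‖ ≤ δ)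
    (hpsi : ContDiffAt ℝ ∞ psi z) (hB : ‖fderiv ℝ psi z‖ ≤ B) :
    ‖W (psi z)‖ ≤ δ * 1 ∧
    ∃ D : (Fin 9 → ℝ) →L[ℝ] FF, HasFDerivAt (fun z => W (psi z)) D z ∧ ‖D‖ ≤ δ * B := by
  refine ⟨by rwa [mul_one], (fderiv ℝ W (psi z)).comp (fderiv ℝ psi z), ?_, ?_⟩
  · have h4 : DifferentiableAt ℝ psi z := hpsi.differentiableAt (by simp)
    have h5 : DifferentiableAt ℝ W (psi z) := (hW.differentiable (by simp)) _
    exact h5.hasFDerivAt.comp z h4.hasFDerivAt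
  · refine (ContinuousLinearMap.opNorm_comp_le _ _).trans ?_
    exact mul_le_mul h1 hB (norm_nonneg _) hδ

theorem bound_Jc {g : EE → FF} {W : Fin 2 → EE → FF} {δ B B' : ℝ} {z : Fin 9 → ℝ} (hδ : 0 ≤ δ)
    (hg : Cl 2 δ g) (hW : ∀ j, Cl 1 δ (W j)) (hz : psi z ∈ MM)
    (hpsi : ContDiffAt ℝ ∞ psi z) (hB : ‖fderiv ℝ psi z‖ ≤ B)
    (hB' : ‖fderiv ℝ (fderiv ℝ psi) z‖ ≤ B') (j : Fin 8 ⊕ Fin 3) :
    ‖Jc g W z j‖ ≤ δ * (B * B + B' + B + 1) ∧
    ∃ D : (Fin 9 → ℝ) →L[ℝ] FF,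
      HasFDerivAt (fun z => Jc g W z j) D z ∧ ‖D‖ ≤ δ * (B * B + B' + B + 1) := by
  have hB0 : 0 ≤ B := (norm_nonneg _).trans hB
  have hB'0 : 0 ≤ B' := (ContinuousLinearMap.opNorm_nonneg (fderiv ℝ (fderiv ℝ psi) z)).trans hB'
  have hg1 : ‖fderiv ℝ g (psi z)‖ ≤ δ := by
    have := hg.2 _ hz 1 (by norm_num)
    rwa [norm_iteratedFDeriv_one] at this
  have hg2 : ‖fderiv ℝ (fderiv ℝ g) (psi z)‖ ≤ δ := by
    have := hg.2 _ hz 2 le_rfl
    rw [← norm_iteratedFDeriv_fderiv, norm_iteratedFDeriv_one] at this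
    exact this
  have hW0 : ∀ j, ‖W j (psi z)‖ ≤ δ := by
    intro j
    have := (hW j).2 _ hz 0 (by norm_num)
    rwa [norm_iteratedFDeriv_zero] at this
  have hW1 : ∀ j, ‖fderiv ℝ (W j) (psi z)‖ ≤ δ := by
    intro j
    have := (hW j).2 _ hz 1 le_rfl
    rwa [norm_iteratedFDeriv_one] at this
  have hd := bound_d1 hδ hg.1 hg1 hg2 hpsi hB hB'
  have hs : ∀ i : Fin 9, ‖(Pi.single i 1 : Fin 9 → ℝ)‖ ≤ 1 := by
    intro i
    rw [pi_norm_le_iff_of_nonneg zero_le_one]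
    intro k
    by_cases hk : k = i
    · subst hk
      simp
    · rw [Pi.single_eq_of_ne hk]
      simp
  have m1 : δ * B ≤ δ * (B * B + B' + B + 1) :=
    mul_le_mul_of_nonneg_left (by nlinarith [mul_nonneg hB0 hB0]) hδ
  have m2 : δ * (B * B + B') ≤ δ * (B * B + B' + B + 1) :=
    mul_le_mul_of_nonneg_left (by linarith) hδ
  have m3 : δ * 1 ≤ δ * (B * B + B' + B + 1) :=
    mul_le_mul_of_nonneg_left (by nlinarith [mul_nonneg hB0 hB0]) hδ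
  have hD : ∀ i : Fin 9, ‖fderiv ℝ (fun y => g (psi y)) z (Pi.single i 1)‖ ≤
      δ * (B * B + B' + B + 1) ∧ ∃ D : (Fin 9 → ℝ) →L[ℝ] FF,
      HasFDerivAt (fun z => fderiv ℝ (fun y => g (psi y)) z (Pi.single i 1)) D z ∧
        ‖D‖ ≤ δ * (B * B + B' + B + 1) := by
    intro i
    obtain ⟨k1, D, k2, k3⟩ := hd (Pi.single i 1) (hs i)
    exact ⟨k1.trans m1, D, k2, k3.trans m2⟩
  have hV : ∀ i : Fin 2, ‖W i (psi z)‖ ≤ δ * (B * B + B' + B + 1) ∧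
      ∃ D : (Fin 9 → ℝ) →L[ℝ] FF, HasFDerivAt (fun z => W i (psi z)) D z ∧
        ‖D‖ ≤ δ * (B * B + B' + B + 1) := by
    intro i
    obtain ⟨k1, D, k2, k3⟩ := bound_d0 hδ (hW i).1 (hW0 i) (hW1 i) hpsi hB
    exact ⟨k1.trans m3, D, k2, k3.trans m1⟩
  rcases j with j | j
  · exact hD j.castSucc
  · fin_cases j
    · exact hD (Fin.last 8)
    · exact hV 0
    · exact hV 1

theorem bound_Jm {g : EE → FF} {W : Fin 2 → EE → FF} {δ B B' : ℝ} {z : Fin 9 → ℝ} (hδ : 0 ≤ δ)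
    (hg : Cl 2 δ g) (hW : ∀ j, Cl 1 δ (W j)) (hz : psi z ∈ MM)
    (hpsi : ContDiffAt ℝ ∞ psi z) (hB : ‖fderiv ℝ psi z‖ ≤ B)
    (hB' : ‖fderiv ℝ (fderiv ℝ psi) z‖ ≤ B') :
    ‖Jm g W z‖ ≤ (‖piN‖ * (B * B + B' + B + 1)) * δ ∧
    ‖fderiv ℝ (Jm g W) z‖ ≤ (‖piN‖ * (B * B + B' + B + 1)) * δ := by
  have hB0 : 0 ≤ B := (norm_nonneg _).trans hB
  have hB'0 : 0 ≤ B' := (ContinuousLinearMap.opNorm_nonneg (fderiv ℝ (fderiv ℝ psi) z)).trans hB'
  have hC0 : 0 ≤ (‖piN‖ * (B * B + B' + B + 1)) * δ := by positivity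
  choose H1 D H2 H3 using fun j => bound_Jc hδ hg hW hz hpsi hB hB' j
  refine ⟨?_, ?_⟩
  · rw [pi_norm_le_iff_of_nonneg hC0]
    intro i
    rw [pi_norm_le_iff_of_nonneg hC0]
    intro j
    show ‖piN (Jc g W z j) i‖ ≤ _
    refine (norm_le_pi_norm _ i).trans ((piN.le_opNorm _).trans ?_)
    calc _ ≤ ‖piN‖ * (δ * (B * B + B' + B + 1)) :=
          mul_le_mul_of_nonneg_left (H1 j) (norm_nonneg _)
      _ = _ := by ring
  · have hJ : HasFDerivAt (Jm g W) (ContinuousLinearMap.pi fun i => ContinuousLinearMap.pi fun j =>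
        (ContinuousLinearMap.proj i).comp (piN.comp (D j))) z := by
      rw [hasFDerivAt_pi]
      intro i
      rw [hasFDerivAt_pi]
      intro j
      have h1 : HasFDerivAt (fun w => piN (Jc g W w j)) (piN.comp (D j)) z :=
        piN.hasFDerivAt.comp z (H2 j)
      exact (hasFDerivAt_pi'.1 h1) i
    rw [hJ.fderiv]
    refine ContinuousLinearMap.opNorm_le_bound _ hC0 fun ζ => ?_
    rw [pi_norm_le_iff_of_nonneg (by positivity)]
    intro i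
    rw [pi_norm_le_iff_of_nonneg (by positivity)]
    intro j
    show ‖piN (D j ζ) i‖ ≤ _
    refine (norm_le_pi_norm _ i).trans ((piN.le_opNorm _).trans ?_)
    have h2 : ‖D j ζ‖ ≤ (δ * (B * B + B' + B + 1)) * ‖ζ‖ :=
      ((D j).le_opNorm ζ).trans (mul_le_mul_of_nonneg_right (H3 j) (norm_nonneg _))
    calc _ ≤ ‖piN‖ * ((δ * (B * B + B' + B + 1)) * ‖ζ‖) :=
          mul_le_mul_of_nonneg_left h2 (norm_nonneg _)
      _ = _ := by ring

end Jclose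

open Jclose in
/-- closeness of the matrices -/
theorem stJclose (h1 : StPsi) : StJclose := by
  obtain ⟨hpsi, -, hMt, -⟩ := h1
  have hat : ∀ z ∈ Metric.ball (0 : Fin 9 → ℝ) (1 / 2), ContDiffAt ℝ ∞ psi z := fun z hz =>
    hpsi.contDiffAt (Metric.isOpen_ball.mem_nhds hz)
  have hsub : Metric.closedBall (0 : Fin 9 → ℝ) (1 / 4) ⊆ Metric.ball 0 (1 / 2) :=
    Metric.closedBall_subset_ball (by norm_num)
  have hK : IsCompact (Metric.closedBall (0 : Fin 9 → ℝ) (1 / 4)) := isCompact_closedBall 0 _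
  have hc1 : ContinuousOn (fderiv ℝ psi) (Metric.ball 0 (1 / 2)) :=
    (hpsi.fderiv_of_isOpen (m := 1) Metric.isOpen_ball (by norm_cast)).continuousOn
  have hc2 : ContinuousOn (fderiv ℝ (fderiv ℝ psi)) (Metric.ball 0 (1 / 2)) := by
    have h2 : ContDiffOn ℝ 1 (fderiv ℝ psi) (Metric.ball 0 (1 / 2)) :=
      hpsi.fderiv_of_isOpen (m := 1) Metric.isOpen_ball (by norm_cast)
    exact (h2.fderiv_of_isOpen (m := 0) Metric.isOpen_ball (by norm_num)).continuousOn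
  obtain ⟨B, hB⟩ := hK.exists_bound_of_continuousOn (hc1.mono hsub)
  obtain ⟨B', hB'⟩ : ∃ B' : ℝ, ∀ x ∈ Metric.closedBall (0 : Fin 9 → ℝ) (1 / 4),
      ‖fderiv ℝ (fderiv ℝ psi) x‖ ≤ B' :=
    hK.exists_bound_of_continuousOn (E := (Fin 9 → ℝ) →L[ℝ] (Fin 9 → ℝ) →L[ℝ] EE)
      (hc2.mono hsub)
  have hB0 : 0 ≤ B := (norm_nonneg _).trans (hB 0 (by simp))
  have hB'0 : 0 ≤ B' :=
    (ContinuousLinearMap.opNorm_nonneg (fderiv ℝ (fderiv ℝ psi) 0)).trans (hB' 0 (by simp))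
  refine ⟨‖piN‖ * (B * B + B' + B + 1) + 1, by positivity, ?_⟩
  intro h V δ hh hV hgd hWd
  have h14 : Metric.ball (0 : Fin 9 → ℝ) (1 / 4) ⊆ Metric.ball 0 (1 / 2) :=
    Metric.ball_subset_ball (by norm_num)
  have hcJ := J0a.contDiffOn_Jm hpsi h V hh hV
  have hcJ0 := J0a.contDiffOn_Jm hpsi f0 VV f0.contDiff J0a.contDiff_VV
  refine ⟨hcJ.mono h14, ?_⟩
  intro z hz
  have hz2 := h14 hz
  obtain ⟨x, hx, hxz⟩ := hMt z hz2
  have hzM : psi z ∈ MM := ⟨x, hx, hxz⟩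
  have hδ : 0 ≤ δ := (norm_nonneg _).trans (hgd.2 _ hzM 0 (by norm_num))
  have hzc : z ∈ Metric.closedBall (0 : Fin 9 → ℝ) (1 / 4) := Metric.ball_subset_closedBall hz
  have key := bound_Jm hδ hgd hWd hzM (hat z hz2) (hB z hzc) (hB' z hzc)
  have hd : ∀ w ∈ Metric.ball (0 : Fin 9 → ℝ) (1 / 2), ∀ f : EE → FF, ContDiff ℝ ∞ f →
      DifferentiableAt ℝ (fun y => f (psi y)) w := by
    intro w hw f hf
    exact ((hf.differentiable (by simp)) _).comp w ((hat w hw).differentiableAt (by simp))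
  have heq : ∀ w ∈ Metric.ball (0 : Fin 9 → ℝ) (1 / 2),
      Jm (fun x => h x - f0 x) (fun j x => V j x - VV j x) w = Jm h V w - Jm f0 VV w :=
    fun w hw => Jm_sub (hd w hw h hh) (hd w hw f0 f0.contDiff)
  have hle : (‖piN‖ * (B * B + B' + B + 1)) * δ ≤ (‖piN‖ * (B * B + B' + B + 1) + 1) * δ :=
    mul_le_mul_of_nonneg_right (by linarith) hδ
  refine ⟨?_, ?_⟩
  · rw [← heq z hz2]
    exact key.1.trans hle
  · have hev : Jm (fun x => h x - f0 x) (fun j x => V j x - VV j x) =ᶠ[𝓝 z]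
        fun w => Jm h V w - Jm f0 VV w := by
      filter_upwards [Metric.isOpen_ball.mem_nhds hz2] with w hw
      exact heq w hw
    have hdJ : DifferentiableAt ℝ (Jm h V) z :=
      (hcJ.contDiffAt (Metric.isOpen_ball.mem_nhds hz2)).differentiableAt (by simp)
    have hdJ0 : DifferentiableAt ℝ (Jm f0 VV) z :=
      (hcJ0.contDiffAt (Metric.isOpen_ball.mem_nhds hz2)).differentiableAt (by simp)
    rw [← fderiv_fun_sub hdJ hdJ0, ← hev.fderiv_eq]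
    exact key.2.trans hle

end Pool.Agent.Lib.MP_086785_gt.CB
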