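import Pool.Agent.Lib.MP_086785_gt.CB.Stmts

/-! Bound for the derivatives of a composition with a curve. -/

set_option autoImplicit false

namespace Pool.Agent.Lib.MP_086785_gt.CB

open Set Filter Topology
open scoped ContDiff

theorem stJetComp : StJetComp := by
  intro E F _ _ _ _ g c n δ B hg hc hn1 hn3 hB hδ hgi hci
  have hN : 0 ≤ ‖iteratedDeriv n c 0‖ := norm_nonneg _
  have hn0 : n ≠ 0 := by omega
  have hBn : 1 ≤ B ^ n := one_le_pow₀ hB
  obtain ⟨D, hD⟩ : ∃ D : ℝ, D = (B ^ n + ‖iteratedDeriv n c 0‖) ^ (1 / (n : ℝ)) := ⟨_, rfl⟩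
  have hD0 : 0 ≤ D := by
    rw [hD]
    positivity
  have hDn : D ^ n = B ^ n + ‖iteratedDeriv n c 0‖ := by
    rw [hD, one_div, Real.rpow_inv_natCast_pow (by positivity) hn0]
  have hBD : B ≤ D := by
    by_contra h
    have h1 : D ^ n < B ^ n := pow_lt_pow_left₀ (not_le.1 h) hD0 hn0
    linarith
  have h1 := norm_iteratedFDeriv_comp_le hg hc (n := n) (by exact_mod_cast le_top) (0 : ℝ) hgi
    (D := D) (by
      intro i hi hin
      rw [norm_iteratedFDeriv_eq_norm_iteratedDeriv]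
      rcases eq_or_lt_of_le hin with h | h
      · subst h
        rw [hDn]
        linarith
      · calc ‖iteratedDeriv i c 0‖ ≤ B := hci i hi h
          _ ≤ D := hBD
          _ = D ^ 1 := (pow_one D).symm
          _ ≤ D ^ i := pow_le_pow_right₀ (hB.trans hBD) hi)
  rw [norm_iteratedFDeriv_eq_norm_iteratedDeriv, hDn] at h1
  refine h1.trans ?_
  have h2 : B ^ n ≤ B ^ 3 := pow_le_pow_right₀ hB hn3
  have h3 : (n.factorial : ℝ) ≤ 6 := by
    have h4 : n.factorial ≤ Nat.factorial 3 := Nat.factorial_le hn3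
    have h5 : Nat.factorial 3 = 6 := by decide
    rw [h5] at h4
    exact_mod_cast h4
  calc (n.factorial : ℝ) * δ * (B ^ n + ‖iteratedDeriv n c 0‖)
      ≤ 6 * δ * (B ^ n + ‖iteratedDeriv n c 0‖) := by gcongr
    _ ≤ 6 * δ * (B ^ 3 + ‖iteratedDeriv n c 0‖) := by gcongr

end Pool.Agent.Lib.MP_086785_gt.CB
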