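import Pool.Agent.Lib.MP_086785_gt.CB.Stmts

/-!
Project CB: derivatives of products.
-/

set_option autoImplicit false

namespace Pool.Agent.Lib.MP_086785_gt.CB

open Set Filter Topology Finset
open scoped ContDiff

namespace JetMul

lemma leib {F G : ℝ → ℝ} (hF : ContDiff ℝ ∞ F) (hG : ContDiff ℝ ∞ G) (n : ℕ) :
    iteratedDeriv n (fun s => F s * G s) 0 = ∑ i ∈ Finset.range (n + 1),
      n.choose i * iteratedDeriv i F 0 * iteratedDeriv (n - i) G 0 :=
  iteratedDeriv_fun_mul (hF.contDiffAt.of_le (by exact_mod_cast le_top))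
    (hG.contDiffAt.of_le (by exact_mod_cast le_top))

lemma mulb {x y a b : ℝ} (ha : 0 ≤ a) (hx : |x| ≤ a) (hy : |y| ≤ b) : |x * y| ≤ a * b := by
  rw [abs_mul]
  exact mul_le_mul hx hy (abs_nonneg _) ha

end JetMul

open JetMul

theorem stJetMul : StJetMul := by
  intro F G a b ha hb hF hG
  refine ⟨hF.1.mul hG.1, ?_⟩
  intro n hn
  rw [leib hF.1 hG.1 n]
  have h1 : |∑ i ∈ Finset.range (n + 1),
      (n.choose i : ℝ) * iteratedDeriv i F 0 * iteratedDeriv (n - i) G 0| ≤
      ∑ i ∈ Finset.range (n + 1), (n.choose i : ℝ) * (a * b) := by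
    refine (Finset.abs_sum_le_sum_abs _ _).trans (Finset.sum_le_sum fun i hi => ?_)
    rw [mul_assoc, abs_mul, Nat.abs_cast]
    have hi' := Finset.mem_range.1 hi
    exact mul_le_mul_of_nonneg_left
      (mulb ha (hF.2 i (by omega)) (hG.2 (n - i) (by omega))) (Nat.cast_nonneg _)
  have h2 : ∑ i ∈ Finset.range (n + 1), (n.choose i : ℝ) * (a * b) = 2 ^ n * (a * b) := by
    rw [← Finset.sum_mul]
    congr 1
    exact_mod_cast Nat.sum_range_choose n
  rw [h2] at h1
  refine h1.trans ?_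
  have h3 : (2 : ℝ) ^ n ≤ 2 ^ 3 := pow_le_pow_right₀ (by norm_num) hn
  have h4 : 0 ≤ a * b := mul_nonneg ha hb
  nlinarith

theorem stJetTop : StJetTop := by
  intro F G n a b hF hG h1 h3 ha hb hFa hGb
  rw [leib hF hG n]
  have hab : 0 ≤ a * b := mul_nonneg ha hb
  obtain rfl | rfl | rfl : n = 1 ∨ n = 2 ∨ n = 3 := by omega
  · have e : ∑ i ∈ Finset.range (1 + 1), (Nat.choose 1 i : ℝ) * iteratedDeriv i F 0 *
        iteratedDeriv (1 - i) G 0 - iteratedDeriv 1 F 0 * G 0 - F 0 * iteratedDeriv 1 G 0 = 0 := by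
      simp [Finset.sum_range_succ]
    rw [e, abs_zero]
    nlinarith
  · have e : ∑ i ∈ Finset.range (2 + 1), (Nat.choose 2 i : ℝ) * iteratedDeriv i F 0 *
        iteratedDeriv (2 - i) G 0 - iteratedDeriv 2 F 0 * G 0 - F 0 * iteratedDeriv 2 G 0 =
        2 * (iteratedDeriv 1 F 0 * iteratedDeriv 1 G 0) := by
      simp [Finset.sum_range_succ]
      ring
    rw [e, abs_mul, abs_two]
    have := mulb ha (hFa 1 le_rfl (by norm_num)) (hGb 1 le_rfl (by norm_num))
    nlinarith
  · have e : ∑ i ∈ Finset.range (3 + 1), (Nat.choose 3 i : ℝ) * iteratedDeriv i F 0 *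
        iteratedDeriv (3 - i) G 0 - iteratedDeriv 3 F 0 * G 0 - F 0 * iteratedDeriv 3 G 0 =
        3 * (iteratedDeriv 1 F 0 * iteratedDeriv 2 G 0) +
        3 * (iteratedDeriv 2 F 0 * iteratedDeriv 1 G 0) := by
      have c1 : (Nat.choose 3 1 : ℝ) = 3 := by norm_num [Nat.choose]
      have c2 : (Nat.choose 3 2 : ℝ) = 3 := by norm_num [Nat.choose]
      rw [Finset.sum_range_succ, Finset.sum_range_succ, Finset.sum_range_succ,
        Finset.sum_range_succ, Finset.sum_range_zero, c1, c2]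
      simp only [Nat.choose_zero_right, Nat.choose_self, Nat.cast_one, iteratedDeriv_zero,
        Nat.sub_zero, Nat.sub_self, show 3 - 1 = 2 from rfl, show 3 - 2 = 1 from rfl]
      ring
    rw [e]
    have t1 := mulb ha (hFa 1 le_rfl (by norm_num)) (hGb 2 (by norm_num) (by norm_num))
    have t2 := mulb ha (hFa 2 (by norm_num) (by norm_num)) (hGb 1 le_rfl (by norm_num))
    refine (abs_add_le _ _).trans ?_
    rw [abs_mul, abs_mul 3 (iteratedDeriv 2 F 0 * iteratedDeriv 1 G 0),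
      abs_of_pos (by norm_num : (0 : ℝ) < 3)]
    linarith

end Pool.Agent.Lib.MP_086785_gt.CB
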