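import Pool.Agent.Lib.MP_086785_gt.CB.Stmts

/-! Project CB, module JetOp. -/

set_option autoImplicit false

namespace Pool.Agent.Lib.MP_086785_gt.CB

open Set Filter Topology Finset
open scoped ContDiff

namespace JetOp

theorem clm {E F : Type} [NormedAddCommGroup E] [NormedSpace ℝ E] [NormedAddCommGroup F]
    [NormedSpace ℝ F] (L : E →L[ℝ] F) {f : ℝ → E} (hf : ContDiff ℝ ∞ f) (n : ℕ) (x : ℝ) :
    iteratedDeriv n (fun s => L (f s)) x = L (iteratedDeriv n f x) := by
  rw [iteratedDeriv_eq_iteratedFDeriv, iteratedDeriv_eq_iteratedFDeriv]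
  have h := L.iteratedFDeriv_comp_left (hf.contDiffAt (x := x)) (i := n) (by exact_mod_cast le_top)
  exact congrArg (fun m => m (fun _ => 1)) h

theorem le_norm_pi {k : ℕ} {F : Type} [NormedAddCommGroup F] (A : Fin k → F) (i : Fin k) :
    ‖A i‖ ≤ ‖A‖ := norm_le_pi_norm A i

theorem coord {k : ℕ} {y : ℝ → Fin k → ℝ} (hy : ContDiff ℝ ∞ y) (n : ℕ) (i : Fin k) :
    iteratedDeriv n (fun s => y s i) 0 = iteratedDeriv n y 0 i :=
  clm (ContinuousLinearMap.proj (R := ℝ) (φ := fun _ : Fin k => ℝ) i) hy n 0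

theorem coord2 {k : ℕ} {y : ℝ → Fin k → Fin k → ℝ} (hy : ContDiff ℝ ∞ y) (n : ℕ) (i j : Fin k) :
    iteratedDeriv n (fun s => y s i j) 0 = iteratedDeriv n y 0 i j :=
  clm ((ContinuousLinearMap.proj (R := ℝ) (φ := fun _ : Fin k => ℝ) j).comp
    (ContinuousLinearMap.proj (R := ℝ) (φ := fun _ : Fin k => (Fin k → ℝ)) i)) hy n 0

theorem smooth_coord {k : ℕ} {y : ℝ → Fin k → ℝ} (hy : ContDiff ℝ ∞ y) (i : Fin k) :
    ContDiff ℝ ∞ (fun s => y s i) := contDiff_pi.1 hy i

theorem smooth_op {k : ℕ} {y : ℝ → Fin k → ℝ} (hy : ContDiff ℝ ∞ y) :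
    ContDiff ℝ ∞ (fun s => op (y s)) := by
  rw [contDiff_pi]
  intro i
  rw [contDiff_pi]
  intro j
  exact (smooth_coord hy i).mul (smooth_coord hy j)

/-- the estimate -/
theorem main {k : ℕ} (y Y : Fin k → ℝ) (A : Fin k → Fin k → ℝ) (ε : ℝ)
    (hy : dot y y = 1) (h0 : 0 ≤ ε) (h1 : ε ≤ 1)
    (hA : ∀ i j, |A i j - Y i * y j - y i * Y j| ≤ 6 * ε * ε) :
    ‖Y‖ ≤ (12 * k + 1) * (‖A‖ + ε) := by
  have hN : 0 ≤ ‖A‖ := norm_nonneg A
  have hk : (0 : ℝ) ≤ k := Nat.cast_nonneg k
  have hee : ε * ε ≤ ε := by nlinarith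
  have hyj : ∀ j, |y j| ≤ 1 := by
    intro j
    have : y j * y j ≤ dot y y := Finset.single_le_sum (f := fun i => y i * y i)
      (fun i _ => mul_self_nonneg (y i)) (Finset.mem_univ j)
    rw [hy] at this
    rw [abs_le]
    constructor <;> nlinarith
  have hB : ∀ i j, |Y i * y j + y i * Y j| ≤ ‖A‖ + 6 * ε := by
    intro i j
    have h2 : |A i j| ≤ ‖A‖ := by
      have := (norm_le_pi_norm (A i) j).trans (norm_le_pi_norm A i)
      simpa using this
    have h3 := hA i j
    have : Y i * y j + y i * Y j = A i j - (A i j - Y i * y j - y i * Y j) := by ring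
    rw [this]
    refine (abs_sub _ _).trans ?_
    nlinarith
  have hD : |dot y Y| ≤ k * (‖A‖ + 6 * ε) := by
    have h4 : 2 * dot y Y = ∑ i, (Y i * y i + y i * Y i) := by
      rw [dot, Finset.mul_sum]
      exact Finset.sum_congr rfl fun i _ => by ring
    have h5 : |2 * dot y Y| ≤ k * (‖A‖ + 6 * ε) := by
      rw [h4]
      refine (Finset.abs_sum_le_sum_abs _ _).trans ?_
      refine (Finset.sum_le_sum fun i _ => hB i i).trans ?_
      rw [Finset.sum_const, Finset.card_univ, Fintype.card_fin, nsmul_eq_mul]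
    rw [abs_mul, abs_two] at h5
    have := abs_nonneg (dot y Y)
    nlinarith
  rw [pi_norm_le_iff_of_nonneg (by positivity)]
  intro i
  rw [Real.norm_eq_abs]
  have h6 : Y i = (∑ j, (Y i * y j + y i * Y j) * y j) - y i * dot y Y := by
    have : ∑ j, (Y i * y j + y i * Y j) * y j = Y i * dot y y + y i * dot y Y := by
      simp only [dot, Finset.mul_sum, ← Finset.sum_add_distrib]
      exact Finset.sum_congr rfl fun j _ => by ring
    rw [this, hy]
    ring
  rw [h6]
  refine (abs_sub _ _).trans ?_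
  have h7 : |∑ j, (Y i * y j + y i * Y j) * y j| ≤ k * (‖A‖ + 6 * ε) := by
    refine (Finset.abs_sum_le_sum_abs _ _).trans ?_
    have : ∀ j ∈ (Finset.univ : Finset (Fin k)), |(Y i * y j + y i * Y j) * y j| ≤
        ‖A‖ + 6 * ε := by
      intro j _
      rw [abs_mul]
      have := hB i j
      have h8 := hyj j
      have h9 := abs_nonneg (Y i * y j + y i * Y j)
      have h10 := abs_nonneg (y j)
      nlinarith
    refine (Finset.sum_le_sum this).trans ?_
    rw [Finset.sum_const, Finset.card_univ, Fintype.card_fin, nsmul_eq_mul]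
  have h11 : |y i * dot y Y| ≤ k * (‖A‖ + 6 * ε) := by
    rw [abs_mul]
    have h8 := hyj i
    have h9 := abs_nonneg (dot y Y)
    have h10 := abs_nonneg (y i)
    nlinarith
  nlinarith

end JetOp

theorem stJetOp (h : StJetTop) : StJetOp := by
  intro k
  refine ⟨12 * k + 1, by positivity, ?_⟩
  intro y n ε hy hd hn hn3 h0 h1 hi
  refine JetOp.main (y 0) _ _ ε hd.self_of_nhds h0 h1 ?_
  intro i j
  have h2 := h (fun s => y s i) (fun s => y s j) n ε ε (JetOp.smooth_coord hy i)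
    (JetOp.smooth_coord hy j) hn hn3 h0 h0
    (fun m hm1 hm2 => by
      rw [JetOp.coord hy]
      exact (norm_le_pi_norm (iteratedDeriv m y 0) i).trans (hi m hm1 hm2))
    (fun m hm1 hm2 => by
      rw [JetOp.coord hy]
      exact (norm_le_pi_norm (iteratedDeriv m y 0) j).trans (hi m hm1 hm2))
  rw [JetOp.coord hy, JetOp.coord hy] at h2
  rw [← JetOp.coord2 (JetOp.smooth_op hy) n i j]
  exact h2

end Pool.Agent.Lib.MP_086785_gt.CB
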