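import Pool.Agent.Lib.MP_086785_gt.CB.Stmts

/-!
Project CB, item JKER: the dimension of the kernel in the chart.
-/

set_option autoImplicit false

namespace Pool.Agent.Lib.MP_086785_gt.CB

open Set Filter Topology Finset
open scoped ContDiff

namespace Jker

/-- the first nine coordinates -/
def zt : (Fin 8 ⊕ Fin 3 → ℝ) →ₗ[ℝ] (Fin 9 → ℝ) where
  toFun w := Fin.snoc (α := fun _ => ℝ) (fun j : Fin 8 => w (Sum.inl j)) (w (Sum.inr 0))
  map_add' a b := by
    funext i
    refine Fin.lastCases ?_ (fun j => ?_) i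
    · simp only [Fin.snoc_last, Pi.add_apply]
    · simp only [Fin.snoc_castSucc, Pi.add_apply]
  map_smul' c a := by
    funext i
    refine Fin.lastCases ?_ (fun j => ?_) i
    · simp only [Fin.snoc_last, Pi.smul_apply, RingHom.id_apply]
    · simp only [Fin.snoc_castSucc, Pi.smul_apply, RingHom.id_apply]

/-- the last two coordinates -/
def al : (Fin 8 ⊕ Fin 3 → ℝ) →ₗ[ℝ] (Fin 2 → ℝ) where
  toFun w := ![w (Sum.inr 1), w (Sum.inr 2)]
  map_add' a b := by
    funext i
    fin_cases i <;> simp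
  map_smul' c a := by
    funext i
    fin_cases i <;> simp

theorem zt_cast (w : Fin 8 ⊕ Fin 3 → ℝ) (j : Fin 8) : zt w j.castSucc = w (Sum.inl j) := by
  simp [zt]

theorem zt_last (w : Fin 8 ⊕ Fin 3 → ℝ) : zt w (Fin.last 8) = w (Sum.inr 0) := by
  change Fin.snoc (α := fun _ => ℝ) (fun j : Fin 8 => w (Sum.inl j)) (w (Sum.inr 0))
    (Fin.last 8) = w (Sum.inr 0)
  rw [Fin.snoc_last]

theorem zt_al_inj (w : Fin 8 ⊕ Fin 3 → ℝ) (h1 : zt w = 0) (h2 : al w = 0) : w = 0 := by
  funext i
  rcases i with i | i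
  · exact (zt_cast w i).symm.trans (congrFun h1 _)
  · fin_cases i
    · exact (zt_last w).symm.trans (congrFun h1 _)
    · exact congrFun h2 0
    · exact congrFun h2 1

theorem exists_w (ζ : Fin 9 → ℝ) (α : Fin 2 → ℝ) : ∃ w, zt w = ζ ∧ al w = α := by
  refine ⟨Sum.elim (fun j => ζ j.castSucc) ![ζ (Fin.last 8), α 0, α 1], ?_, ?_⟩
  · funext i
    refine Fin.lastCases ?_ (fun j => ?_) i
    · rw [zt_last]; rfl
    · rw [zt_cast]; rfl
  · funext i
    fin_cases i <;> rfl

theorem sum_single {F : Type} [AddCommGroup F] [Module ℝ F] [TopologicalSpace F]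
    (T : (Fin 9 → ℝ) →L[ℝ] F) (ζ : Fin 9 → ℝ) :
    T ζ = ∑ j : Fin 8, ζ j.castSucc • T (Pi.single j.castSucc 1) +
      ζ (Fin.last 8) • T (Pi.single (Fin.last 8) 1) := by
  have h : ζ = ∑ i, ζ i • (Pi.single i (1 : ℝ) : Fin 9 → ℝ) := by
    funext k
    simp [Finset.sum_apply, Pi.single_apply]
  conv_lhs => rw [h]
  rw [map_sum, Fin.sum_univ_castSucc]
  simp only [map_smul]

/-- the matrix applied to a vector -/
theorem mulVec_eq (h : EE → FF) (V : Fin 2 → EE → FF) (z : Fin 9 → ℝ) (w : Fin 8 ⊕ Fin 3 → ℝ) :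
    (Matrix.of (Jm h V z)).mulVec w =
      piN (fderiv ℝ (fun y => h (psi y)) z (zt w) + ∑ j, al w j • V j (psi z)) := by
  have e1 : ∀ i, (Matrix.of (Jm h V z)).mulVec w i = ∑ j, w j * piN (Jc h V z j) i := by
    intro i
    simp only [Matrix.mulVec, dotProduct, Matrix.of_apply, Jm]
    exact Finset.sum_congr rfl fun j _ => mul_comm _ _
  have e2 : (Matrix.of (Jm h V z)).mulVec w = piN (∑ j, w j • Jc h V z j) := by
    funext i
    rw [e1, map_sum, Finset.sum_apply]
    refine Finset.sum_congr rfl fun j _ => ?_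
    rw [map_smul]
    rfl
  rw [e2, Fintype.sum_sum_type, sum_single, Fin.sum_univ_three]
  congr 1
  simp only [zt_cast, zt_last, Jc, Sum.elim_inl, Sum.elim_inr, Fin.sum_univ_two]
  have a0 : al w 0 = w (Sum.inr 1) := rfl
  have a1 : al w 1 = w (Sum.inr 2) := rfl
  rw [a0, a1]
  simp only [Matrix.cons_val_zero, Matrix.cons_val_one, Matrix.cons_val_two, Matrix.cons_val]
  abel

end Jker

open Jker

theorem stJker (h1 : StPsi) (h2 : StPsiT) (h3 : StImm) : StJker := by
  intro h V z x hh hz hx hxz hPi hh1 hh2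
  set D : (Fin 9 → ℝ) →L[ℝ] EE := fderiv ℝ psi z with hD
  set A : EE →L[ℝ] FF := fderiv ℝ h (phi x) with hA
  have hDinj : Function.Injective D := h1.2.2.2.2.1 z hz
  have hpsi : DifferentiableAt ℝ psi z :=
    (h1.1.contDiffAt (Metric.isOpen_ball.mem_nhds hz)).differentiableAt (by simp)
  have hcomp : ∀ ζ, fderiv ℝ (fun y => h (psi y)) z ζ = A (D ζ) := by
    intro ζ
    have hd : DifferentiableAt ℝ h (psi z) := (hh.differentiable (by simp)) _
    have := fderiv_comp z hd hpsi
    have h5 : fderiv ℝ (fun y => h (psi y)) z = (fderiv ℝ h (psi z)).comp D := this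
    rw [h5, ← hxz]
    rfl
  let f1 : Kr x A (fun j => V j (phi x)) →ₗ[ℝ] EE × (Fin 2 → ℝ) :=
    { toFun := fun p => (dphi x p.1.1, p.1.2)
      map_add' := fun p q => by
        refine Prod.ext ?_ rfl
        exact dphi_add x _ _
      map_smul' := fun c p => by
        refine Prod.ext ?_ rfl
        exact dphi_smul x _ _ }
  let f2 : LinearMap.ker (Matrix.mulVecLin (Matrix.of (Jm h V z))) →ₗ[ℝ] EE × (Fin 2 → ℝ) :=
    { toFun := fun w => (D (zt w.1), al w.1)
      map_add' := fun p q => by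
        refine Prod.ext ?_ ?_
        · change D (zt (p.1 + q.1)) = D (zt p.1) + D (zt q.1)
          rw [map_add, map_add]
        · exact map_add al p.1 q.1
      map_smul' := fun c p => by
        refine Prod.ext ?_ ?_
        · change D (zt (c • p.1)) = c • D (zt p.1)
          rw [map_smul, map_smul]
        · exact map_smul al c p.1 }
  have i1 : Function.Injective f1 := by
    rw [injective_iff_map_eq_zero]
    intro p hp
    have e1 : dphi x p.1.1 = 0 := congrArg Prod.fst hp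
    have e2 : p.1.2 = 0 := congrArg Prod.snd hp
    apply Subtype.ext
    exact Prod.ext (h3 x hx p.1.1 p.2.1 e1) e2
  have i2 : Function.Injective f2 := by
    rw [injective_iff_map_eq_zero]
    intro w hw
    have e1 : D (zt w.1) = 0 := congrArg Prod.fst hw
    have e2 : al w.1 = 0 := congrArg Prod.snd hw
    have e3 : zt w.1 = 0 := hDinj (by rw [e1, map_zero])
    exact Subtype.ext (zt_al_inj w.1 e3 e2)
  have hr : LinearMap.range f1 = LinearMap.range f2 := by
    apply le_antisymm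
    · rintro _ ⟨p, rfl⟩
      obtain ⟨hp1, hp2⟩ := p.2
      obtain ⟨ζ, hζ⟩ := (h2 z hz x hx hxz).2 p.1.1 hp1
      obtain ⟨w, hw1, hw2⟩ := exists_w ζ p.1.2
      have hw : w ∈ LinearMap.ker (Matrix.mulVecLin (Matrix.of (Jm h V z))) := by
        rw [LinearMap.mem_ker, Matrix.mulVecLin_apply, mulVec_eq, hcomp, hw1, hw2, ← hxz]
        have : D ζ = dphi x p.1.1 := hζ
        rw [this]
        rw [hp2, map_zero]
      refine ⟨⟨w, hw⟩, ?_⟩
      refine Prod.ext ?_ hw2
      change D (zt w) = dphi x p.1.1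
      rw [hw1]
      exact hζ
    · rintro _ ⟨w, rfl⟩
      obtain ⟨η, hη1, hη2⟩ := (h2 z hz x hx hxz).1 (zt w.1)
      have hw := w.2
      rw [LinearMap.mem_ker, Matrix.mulVecLin_apply, mulVec_eq, hcomp, ← hxz] at hw
      have hD2 : D (zt w.1) = dphi x η := hη2.symm
      rw [hD2] at hw
      have h6 := hPi x hx η (al w.1) hη1 hh1 hh2 hw
      refine ⟨⟨(η, al w.1), hη1, h6⟩, ?_⟩
      exact Prod.ext hη2 rfl
  have e1 := LinearMap.finrank_range_of_inj i1
  have e2 := LinearMap.finrank_range_of_inj i2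
  unfold kd kJ
  rw [← e1, ← e2, hr]

end Pool.Agent.Lib.MP_086785_gt.CB
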