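import Pool.Agent.Lib.MP_086785_gt.CB.Stmts

/-!
Project CB, module KDIM: the dimensions of the kernels of a map on `MM × ℝ²`.
-/

set_option autoImplicit false

namespace Pool.Agent.Lib.MP_086785_gt.CB

open Set Filter Topology Finset
open scoped ContDiff

namespace Kdim

/-- the map from `Kr` to the kernel -/
noncomputable def Phi (x : XX) (ε : ℝ) : XX × (Fin 2 → ℝ) →ₗ[ℝ] EE × (Fin 2 → ℝ) :=
  (dphiL x).prodMap (ε⁻¹ • LinearMap.id)

theorem Phi_apply (x : XX) (ε : ℝ) (ζ : XX × (Fin 2 → ℝ)) :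
    Phi x ε ζ = (dphi x ζ.1, ε⁻¹ • ζ.2) := rfl

theorem fderiv_slice {H : EE × (Fin 2 → ℝ) → FF} (hH : ContDiff ℝ ∞ H) (p ξ : EE) :
    fderiv ℝ (fun p => H (p, 0)) p ξ = fderiv ℝ H (p, 0) (ξ, 0) := by
  have h1 : HasFDerivAt H (fderiv ℝ H (p, 0)) (p, 0) :=
    (hH.differentiable (by simp) (p, 0)).hasFDerivAt
  have h2 := h1.comp p (hasFDerivAt_prodMk_left (𝕜 := ℝ) p (0 : Fin 2 → ℝ))
  have h3 : fderiv ℝ (fun p => H (p, 0)) p =
      (fderiv ℝ H (p, 0)).comp (ContinuousLinearMap.inl ℝ EE (Fin 2 → ℝ)) := h2.fderiv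
  rw [h3]
  rfl

theorem map_pair (D : EE × (Fin 2 → ℝ) →L[ℝ] FF) (ξ : EE) (β : Fin 2 → ℝ) :
    D (ξ, β) = D (ξ, 0) + ∑ j, β j • D (0, Pi.single j 1) := by
  have h1 : ((ξ, β) : EE × (Fin 2 → ℝ)) =
      (ξ, 0) + (β 0 • (0, Pi.single 0 1) + β 1 • (0, Pi.single 1 1)) := by
    refine Prod.ext ?_ ?_
    · simp
    · funext i
      fin_cases i <;> simp
  rw [h1, map_add, map_add, map_smul, map_smul, Fin.sum_univ_two]

end Kdim

open Kdim in
theorem stKdim (h1 : StKerH) (h2 : StImm) : StKdim := by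
  intro f H x ε hx hf hH hε
  have h3 : Ker (MM ×ˢ univ) f (phi x, 0) =
      ((Kr x (fderiv ℝ (fun p => H (p, 0)) (phi x))
        (fun j => ε⁻¹ • fderiv ℝ H (phi x, 0) (0, Pi.single j 1))).map (Phi x ε) : Set _) := by
    ext ζ
    rw [h1 f H x hx hf hH ζ]
    constructor
    · rintro ⟨η, hη, hζ, hD⟩
      refine ⟨(η, ε • ζ.2), ⟨hη, ?_⟩, ?_⟩
      · dsimp only
        rw [fderiv_slice hH, ← hζ]
        have h4 : (∑ j, (ε • ζ.2) j • ε⁻¹ • fderiv ℝ H (phi x, 0) (0, Pi.single j 1)) =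
            ∑ j, ζ.2 j • fderiv ℝ H (phi x, 0) (0, Pi.single j 1) := by
          apply Finset.sum_congr rfl
          intro j _
          rw [Pi.smul_apply, smul_eq_mul, smul_smul]
          congr 1
          field_simp
        rw [h4, ← map_pair]
        exact hD
      · rw [Phi_apply]
        refine Prod.ext hζ.symm ?_
        dsimp only
        rw [smul_smul, inv_mul_cancel₀ hε, one_smul]
    · rintro ⟨⟨η, α⟩, ⟨hη, hD⟩, hζ⟩
      rw [Phi_apply] at hζ
      refine ⟨η, hη, by rw [← hζ], ?_⟩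
      dsimp only at hη hD hζ
      rw [← hζ, map_pair, ← hD, fderiv_slice hH]
      congr 1
      apply Finset.sum_congr rfl
      intro j _
      rw [Pi.smul_apply, smul_eq_mul, mul_comm, mul_smul]
  have hinj : Function.Injective ((Phi x ε).domRestrict
      (Kr x (fderiv ℝ (fun p => H (p, 0)) (phi x))
        (fun j => ε⁻¹ • fderiv ℝ H (phi x, 0) (0, Pi.single j 1)))) := by
    rw [← LinearMap.ker_eq_bot, LinearMap.ker_eq_bot']
    rintro ⟨⟨η, α⟩, hη, hD⟩ h5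
    have h6 : Phi x ε (η, α) = 0 := h5
    rw [Phi_apply, Prod.mk_eq_zero] at h6
    obtain ⟨h7, h8⟩ := h6
    apply Subtype.ext
    refine Prod.ext (h2 x hx η hη h7) ?_
    exact (smul_eq_zero.1 h8).resolve_left (inv_ne_zero hε)
  unfold kdim kd
  rw [h3, Submodule.span_eq, ← LinearMap.range_domRestrict]
  exact LinearMap.finrank_range_of_inj hinj

end Pool.Agent.Lib.MP_086785_gt.CB
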