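import Pool.Agent.Lib.MP_086785_gt.CB.Stmts

/-! Project CB, module KerM: kernels in terms of tangent vectors of `Mt`. -/

set_option autoImplicit false

namespace Pool.Agent.Lib.MP_086785_gt.CB

open Set Filter Topology Finset
open scoped ContDiff

namespace KerM

theorem contDiff_op {n : ℕ} {F : XX → Fin n → ℝ} (h : ContDiff ℝ ∞ F) :
    ContDiff ℝ ∞ (fun x => op (F x)) :=
  contDiff_pi.2 fun i => contDiff_pi.2 fun j => (contDiff_pi.1 h i).mul (contDiff_pi.1 h j)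

theorem contDiff_vv : ContDiff ℝ ∞ vv := by
  have hu : ContDiff ℝ ∞ fun x : XX => x.2.1 := contDiff_fst.comp contDiff_snd
  have ha : ContDiff ℝ ∞ fun x : XX => x.2.2 := contDiff_snd.comp contDiff_snd
  refine contDiff_pi.2 fun i => ?_
  fin_cases i
  · exact contDiff_pi.1 ha 0
  · exact (contDiff_pi.1 ha 1).mul (contDiff_pi.1 hu 0)
  · exact (contDiff_pi.1 ha 1).mul (contDiff_pi.1 hu 1)

theorem contDiff_phi : ContDiff ℝ ∞ phi := by
  have hu : ContDiff ℝ ∞ fun x : XX => x.2.1 := contDiff_fst.comp contDiff_snd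
  exact (contDiff_op contDiff_fst).prodMk ((contDiff_op hu).prodMk (contDiff_op contDiff_vv))

/-- lifting of the velocity -/
theorem lift (h1 : StVel) (h3 : StLift) {x : XX} (hx : x ∈ Mt) {c : ℝ → EE}
    (hc : IsCurve MM (phi x) c) {ξ : EE} (hξ : HasDerivAt c ξ 0) :
    ∃ η, TT x η ∧ ξ = dphi x η := by
  obtain ⟨X, hX, hX0, hXt⟩ := h3 x hx c hc
  have hd : HasDerivAt X (deriv X 0) 0 := (hX.differentiable (by simp) _).hasDerivAt
  obtain ⟨h4, h5⟩ := h1 x (deriv X 0) X hX0 (hXt.mono fun t ht => ht.1) hd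
  refine ⟨deriv X 0, h4, ?_⟩
  have h6 : HasDerivAt (fun t => phi (X t)) ξ 0 :=
    hξ.congr_of_eventuallyEq (hXt.mono fun t ht => ht.2)
  exact h6.unique h5

/-- the derivative of the value -/
theorem val {E F : Type} [NormedAddCommGroup E] [NormedSpace ℝ E] [NormedAddCommGroup F]
    [NormedSpace ℝ F] {M : Set E} {f h : E → F} (hfh : EqOn f h M) (hh : ContDiff ℝ ∞ h)
    {c : ℝ → E} {p ξ : E} (hc : IsCurve M p c) (hξ : HasDerivAt c ξ 0) :
    HasDerivAt (fun t => f (c t)) (fderiv ℝ h p ξ) 0 := by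
  have h1 : HasFDerivAt h (fderiv ℝ h p) (c 0) := by
    rw [hc.2.1]
    exact (hh.differentiable (by simp) _).hasFDerivAt
  exact (h1.comp_hasDerivAt (0 : ℝ) hξ).congr_of_eventuallyEq
    (hc.2.2.mono fun t ht => hfh ht)

theorem ker_iff {E F : Type} [NormedAddCommGroup E] [NormedSpace ℝ E] [NormedAddCommGroup F]
    [NormedSpace ℝ F] {M : Set E} {f h : E → F} (hfh : EqOn f h M) (hh : ContDiff ℝ ∞ h)
    (p ξ : E) : ξ ∈ Ker M f p ↔ (∃ c, IsCurve M p c ∧ HasDerivAt c ξ 0) ∧ fderiv ℝ h p ξ = 0 := by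
  constructor
  · rintro ⟨c, hc, hξ, h0⟩
    exact ⟨⟨c, hc, hξ⟩, (val hfh hh hc hξ).unique h0⟩
  · rintro ⟨⟨c, hc, hξ⟩, h0⟩
    refine ⟨c, hc, hξ, ?_⟩
    rw [← h0]
    exact val hfh hh hc hξ

end KerM

open KerM

/-- Module KerM. -/
theorem stKerM (h1 : StVel) (h2 : StTan) (h3 : StLift) : StKerM := by
  intro f h x hx hfh hh ξ
  rw [ker_iff hfh hh]
  constructor
  · rintro ⟨⟨c, hc, hξ⟩, h0⟩
    obtain ⟨η, h4, h5⟩ := lift h1 h3 hx hc hξ
    exact ⟨η, h4, h5, h0⟩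
  · rintro ⟨η, hη, hξ, h0⟩
    obtain ⟨X, hX, hX0, hXd, hXt⟩ := h2 x hx η hη
    refine ⟨⟨fun t => phi (X t), ⟨contDiff_phi.comp hX, by
      change phi (X 0) = _; rw [hX0],
      Eventually.of_forall fun t => ⟨X t, hXt t, rfl⟩⟩, ?_⟩, h0⟩
    rw [hξ]
    exact (h1 x η X hX0 (Eventually.of_forall hXt) hXd).2

/-- Module KerM, second part. -/
theorem stKerH (h1 : StVel) (h2 : StTan) (h3 : StLift) : StKerH := by
  intro f H x hx hfh hh ζ
  rw [ker_iff hfh hh]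
  constructor
  · rintro ⟨⟨c, hc, hξ⟩, h0⟩
    have hc1 : IsCurve MM (phi x) (fun t => (c t).1) :=
      ⟨contDiff_fst.comp hc.1, congrArg Prod.fst hc.2.1, hc.2.2.mono fun t ht => ht.1⟩
    have hξ1 : HasDerivAt (fun t => (c t).1) ζ.1 0 :=
      (ContinuousLinearMap.fst ℝ EE (Fin 2 → ℝ)).hasFDerivAt.comp_hasDerivAt (0 : ℝ) hξ
    obtain ⟨η, h4, h5⟩ := lift h1 h3 hx hc1 hξ1
    exact ⟨η, h4, h5, h0⟩
  · rintro ⟨η, hη, hξ, h0⟩
    obtain ⟨X, hX, hX0, hXd, hXt⟩ := h2 x hx η hη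
    have h4 : HasDerivAt (fun t : ℝ => t • ζ.2) ζ.2 0 := by
      have := (hasDerivAt_id (0 : ℝ)).smul_const ζ.2
      simpa using this
    refine ⟨⟨fun t => (phi (X t), t • ζ.2), ⟨(contDiff_phi.comp hX).prodMk
      (contDiff_id.smul contDiff_const), by
      change (phi (X 0), (0 : ℝ) • ζ.2) = _; rw [hX0, zero_smul],
      Eventually.of_forall fun t => ⟨⟨X t, hXt t, rfl⟩, mem_univ _⟩⟩, ?_⟩, h0⟩
    have h5 := (h1 x η X hX0 (Eventually.of_forall hXt) hXd).2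
    rw [← hξ] at h5
    exact h5.prodMk h4

end Pool.Agent.Lib.MP_086785_gt.CB
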