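import Pool.Agent.Lib.MP_086785_gt.CB.Stmts

/-! Project CB, module LEVEL: regular level sets are submanifolds. -/

set_option autoImplicit false

namespace Pool.Agent.Lib.MP_086785_gt.CB

open Set Filter Topology Finset
open scoped ContDiff

namespace Level

/-- a surjective linear map completed to an isomorphism -/
theorem exists_proj {E F : Type} [NormedAddCommGroup E] [NormedSpace ℝ E] [FiniteDimensional ℝ E]
    [NormedAddCommGroup F] [NormedSpace ℝ F] [FiniteDimensional ℝ F] (n : ℕ) (L : E →L[ℝ] F)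
    (hd : Module.finrank ℝ E = n + Module.finrank ℝ F) (hL : Function.Surjective L) :
    ∃ (q : E →L[ℝ] (Fin n → ℝ)) (e : E ≃L[ℝ] F × (Fin n → ℝ)),
      (e : E →L[ℝ] F × (Fin n → ℝ)) = L.prod q := by
  obtain ⟨C, hC⟩ := Submodule.exists_isCompl (LinearMap.ker (L : E →ₗ[ℝ] F))
  have hr : Module.finrank ℝ (LinearMap.ker (L : E →ₗ[ℝ] F)) = n := by
    have h1 := LinearMap.finrank_range_add_finrank_ker (L : E →ₗ[ℝ] F)
    have h2 : LinearMap.range (L : E →ₗ[ℝ] F) = ⊤ := LinearMap.range_eq_top.2 hL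
    rw [h2, finrank_top] at h1
    omega
  let e1 : LinearMap.ker (L : E →ₗ[ℝ] F) ≃ₗ[ℝ] (Fin n → ℝ) :=
    LinearEquiv.ofFinrankEq _ _ (by rw [hr]; simp)
  let pK : E →ₗ[ℝ] LinearMap.ker (L : E →ₗ[ℝ] F) := Submodule.projectionOnto _ C hC
  let q0 : E →ₗ[ℝ] (Fin n → ℝ) := e1.toLinearMap ∘ₗ pK
  let A : E →ₗ[ℝ] F × (Fin n → ℝ) := (L : E →ₗ[ℝ] F).prod q0
  have hinj : Function.Injective A := by
    rw [← LinearMap.ker_eq_bot, LinearMap.ker_eq_bot']
    intro x hx
    have h1 : L x = 0 := congrArg Prod.fst hx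
    have h2 : q0 x = 0 := congrArg Prod.snd hx
    have h3 : pK x = 0 := by
      have : e1 (pK x) = e1 0 := by rw [map_zero]; exact h2
      exact e1.injective this
    have h4 : pK ((⟨x, h1⟩ : LinearMap.ker (L : E →ₗ[ℝ] F)) : E) = ⟨x, h1⟩ :=
      Submodule.projectionOnto_apply_left hC ⟨x, h1⟩
    have h5 : (⟨x, h1⟩ : LinearMap.ker (L : E →ₗ[ℝ] F)) = 0 := by rw [← h4]; exact h3
    exact congrArg Subtype.val h5
  let e : E ≃ₗ[ℝ] F × (Fin n → ℝ) := LinearMap.linearEquivOfInjective A hinj (by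
    rw [Module.finrank_prod, hd]; simp [add_comm])
  refine ⟨LinearMap.toContinuousLinearMap q0, e.toContinuousLinearEquiv, ?_⟩
  ext x
  · rfl
  · rfl

end Level

open Level in
theorem stLevel : StLevel := by
  intro E F _ _ _ _ _ _ n G hG hd hs p hp
  have hcE : CompleteSpace E := FiniteDimensional.complete ℝ E
  obtain ⟨q, e, he⟩ := exists_proj n (fderiv ℝ G p) hd (hs p hp)
  set Φ : E → F × (Fin n → ℝ) := fun x => (G x, q (x - p)) with hΦ
  have hΦs : ContDiff ℝ ∞ Φ := hG.prodMk (q.contDiff.comp (contDiff_id.sub contDiff_const))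
  have hd1 : HasFDerivAt Φ (e : E →L[ℝ] F × (Fin n → ℝ)) p := by
    rw [he]
    refine HasFDerivAt.prodMk ((hG.differentiable (by simp)) p).hasFDerivAt ?_
    have h1 : HasFDerivAt q q (p - p) := q.hasFDerivAt
    have h2 : HasFDerivAt (fun x : E => x - p) (ContinuousLinearMap.id ℝ E) p :=
      (hasFDerivAt_id p).sub_const p
    exact HasFDerivAt.comp (g := q) (f := fun x : E => x - p) p h1 h2
  have hc : ContDiffAt ℝ ∞ Φ p := hΦs.contDiffAt
  set H := hc.toOpenPartialHomeomorph Φ hd1 (by simp) with hH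
  have hHc : (H : E → F × (Fin n → ℝ)) = Φ := hc.toOpenPartialHomeomorph_coe hd1 (by simp)
  have hps : p ∈ H.source := hc.mem_toOpenPartialHomeomorph_source hd1 (by simp)
  set O : Set E := {x | fderiv ℝ Φ x ∈ range ((↑) : (E ≃L[ℝ] F × (Fin n → ℝ)) → E →L[ℝ] F × (Fin n → ℝ))} with hO
  have hOo : IsOpen O := ContinuousLinearEquiv.isOpen.preimage (hΦs.continuous_fderiv (by simp))
  have hpO : p ∈ O := ⟨e, hd1.fderiv.symm⟩
  set H' := H.restrOpen O hOo with hH'
  have hH'c : ∀ x, H' x = Φ x := fun x => by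
    change H x = Φ x
    rw [hHc]
  have hsrc : H'.source = H.source ∩ O := H.restrOpen_source O hOo
  set j : (Fin n → ℝ) → F × (Fin n → ℝ) := fun t => (0, t) with hj
  have hjc : ContDiff ℝ ∞ j := contDiff_const.prodMk contDiff_id
  set V : Set (Fin n → ℝ) := j ⁻¹' H'.target with hV
  have hVo : IsOpen V := H'.open_target.preimage hjc.continuous
  set ψ : (Fin n → ℝ) → E := fun t => H'.symm (j t) with hψ
  have hψm : ∀ t ∈ V, ψ t ∈ H'.source := fun t ht => H'.map_target ht
  have hψr : ∀ t ∈ V, Φ (ψ t) = (0, t) := fun t ht => by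
    rw [← hH'c]
    exact H'.right_inv ht
  have hψd : ∀ t ∈ V, ContDiffAt ℝ ∞ ψ t := by
    intro t ht
    obtain ⟨e', he'⟩ : ψ t ∈ O := (hsrc ▸ hψm t ht : ψ t ∈ H.source ∩ O).2
    have h1 : HasFDerivAt H' (e' : E →L[ℝ] F × (Fin n → ℝ)) (H'.symm (j t)) := by
      have h2 : HasFDerivAt Φ (fderiv ℝ Φ (ψ t)) (ψ t) :=
        ((hΦs.differentiable (by simp)) _).hasFDerivAt
      rw [← he'] at h2
      exact h2.congr_of_eventuallyEq (Eventually.of_forall fun x => hH'c x)
    have h3 : ContDiffAt ℝ ∞ H' (H'.symm (j t)) :=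
      hΦs.contDiffAt.congr_of_eventuallyEq (Eventually.of_forall fun x => hH'c x)
    have h4 := H'.contDiffAt_symm ht h1 h3
    exact h4.comp t hjc.contDiffAt
  refine ⟨ψ, V, ⟨hVo, fun t ht => (hψd t ht).contDiffWithinAt, ?_, ?_, ?_⟩, ?_⟩
  · intro t ht t' ht' h
    have h1 := hψr t ht
    rw [h, hψr t' ht'] at h1
    exact (congrArg Prod.snd h1).symm
  · intro t ht
    have h1 : HasFDerivAt ψ (fderiv ℝ ψ t) t :=
      ((hψd t ht).differentiableAt (by simp)).hasFDerivAt
    have h2 : HasFDerivAt Φ (fderiv ℝ Φ (ψ t)) (ψ t) :=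
      ((hΦs.differentiable (by simp)) _).hasFDerivAt
    have h3 := h2.comp t h1
    have h4 : HasFDerivAt (Φ ∘ ψ) (ContinuousLinearMap.inr ℝ F (Fin n → ℝ)) t := by
      have h5 : HasFDerivAt (fun t => ((0 : F), t)) (ContinuousLinearMap.inr ℝ F (Fin n → ℝ)) t :=
        (ContinuousLinearMap.inr ℝ F (Fin n → ℝ)).hasFDerivAt
      refine h5.congr_of_eventuallyEq ?_
      filter_upwards [hVo.mem_nhds ht] with t' ht'
      exact hψr t' ht'
    have h6 := h3.unique h4
    intro a b hab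
    have h7 := congrArg (fun l => l a) h6
    have h8 := congrArg (fun l => l b) h6
    simp only [ContinuousLinearMap.comp_apply, hab] at h7 h8
    rw [h7] at h8
    exact congrArg Prod.snd h8
  · intro W hW hWo
    refine ⟨H'.source ∩ {x | (Φ x).2 ∈ W}, H'.open_source.inter
      (hWo.preimage (continuous_snd.comp hΦs.continuous)), ?_⟩
    ext x
    constructor
    · rintro ⟨t, ht, rfl⟩
      refine ⟨?_, hψm t (hW ht), ?_⟩
      · have := congrArg Prod.fst (hψr t (hW ht))
        exact this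
      · change (Φ (ψ t)).2 ∈ W
        rw [hψr t (hW ht)]
        exact ht
    · rintro ⟨hx, hxs, hxW⟩
      have h1 : Φ x = j (Φ x).2 := Prod.ext hx rfl
      refine ⟨(Φ x).2, hxW, ?_⟩
      change H'.symm (j (Φ x).2) = x
      rw [← h1, ← hH'c]
      exact H'.left_inv hxs
  · have hpm : p ∈ H'.source := by rw [hsrc]; exact ⟨hps, hpO⟩
    have h1 : Φ p = j 0 := by
      refine Prod.ext hp ?_
      change q (p - p) = 0
      rw [sub_self, map_zero]
    refine ⟨0, ?_, ?_⟩
    · change j 0 ∈ H'.target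
      rw [← h1, ← hH'c]
      exact H'.map_source hpm
    · change H'.symm (j 0) = p
      rw [← h1, ← hH'c]
      exact H'.left_inv hpm

end Pool.Agent.Lib.MP_086785_gt.CB
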