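import Pool.Agent.Lib.MP_086785_gt.CB.Stmts

/-! Project CB, module LIFT: lifting curves from `MM` to `Mt`. -/

set_option autoImplicit false

namespace Pool.Agent.Lib.MP_086785_gt.CB

open Set Filter Topology Finset
open scoped ContDiff

namespace Lift

variable {k : ℕ}

/-- matrix times vector -/
def mv (P : Fin k → Fin k → ℝ) (y : Fin k → ℝ) : Fin k → ℝ := fun i => ∑ j, P i j * y j

/-- the quadratic form -/
def qf (P : Fin k → Fin k → ℝ) (y : Fin k → ℝ) : ℝ := dot y (mv P y)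

/-- the normalised vector -/
noncomputable def nrm (P : Fin k → Fin k → ℝ) (y : Fin k → ℝ) : Fin k → ℝ :=
  (Real.sqrt (qf P y))⁻¹ • mv P y

theorem mv_op (y' y : Fin k → ℝ) : mv (op y') y = dot y' y • y' := by
  funext i
  simp only [mv, op, dot, Pi.smul_apply, smul_eq_mul, Finset.sum_mul]
  exact Finset.sum_congr rfl fun j _ => by ring

theorem qf_op (y' y : Fin k → ℝ) : qf (op y') y = dot y' y ^ 2 := by
  rw [qf, mv_op, dot_smul_right, dot_comm y y']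
  ring

theorem nrm_op (y' y : Fin k → ℝ) (h : 0 < qf (op y') y) :
    ∃ s : ℝ, (s = 1 ∨ s = -1) ∧ nrm (op y') y = s • y' := by
  rw [qf_op] at h
  have hd : dot y' y ≠ 0 := by
    intro h0
    rw [h0] at h
    norm_num at h
  refine ⟨|dot y' y|⁻¹ * dot y' y, ?_, ?_⟩
  · rcases lt_or_gt_of_ne hd with h1 | h1
    · right
      rw [abs_of_neg h1]
      field_simp
    · left
      rw [abs_of_pos h1]
      field_simp
  · rw [nrm, qf_op, mv_op, Real.sqrt_sq_eq_abs, smul_smul]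

theorem nrm_self (y : Fin k → ℝ) (h : dot y y = 1) : nrm (op y) y = y := by
  rw [nrm, qf_op, mv_op, h]
  simp

theorem mv_cd (P : ℝ → Fin k → Fin k → ℝ) (hP : ContDiff ℝ ∞ P) (y : Fin k → ℝ) :
    ContDiff ℝ ∞ fun t => mv (P t) y := by
  rw [contDiff_pi]
  intro i
  exact ContDiff.sum fun j _ => (contDiff_pi.1 (contDiff_pi.1 hP i) j).mul contDiff_const

theorem qf_cd (P : ℝ → Fin k → Fin k → ℝ) (hP : ContDiff ℝ ∞ P) (y : Fin k → ℝ) :
    ContDiff ℝ ∞ fun t => qf (P t) y := by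
  have h1 := contDiff_pi.1 (mv_cd P hP y)
  change ContDiff ℝ ∞ fun t => ∑ i, y i * mv (P t) y i
  exact ContDiff.sum fun j _ => contDiff_const.mul (h1 j)

theorem nrm_cd (P : ℝ → Fin k → Fin k → ℝ) (hP : ContDiff ℝ ∞ P) (y : Fin k → ℝ) (U : Set ℝ)
    (hU : ∀ t ∈ U, 0 < qf (P t) y) : ContDiffOn ℝ ∞ (fun t => nrm (P t) y) U := by
  refine ContDiffOn.smul (ContDiffOn.inv (ContDiffOn.sqrt (qf_cd P hP y).contDiffOn
    fun t ht => (hU t ht).ne') fun t ht => (Real.sqrt_pos.2 (hU t ht)).ne') ?_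
  exact (mv_cd P hP y).contDiffOn

/-- the last component -/
def aa (u : Fin 2 → ℝ) (v : Fin 3 → ℝ) : Fin 2 → ℝ := ![v 0, v 1 * u 0 + v 2 * u 1]

/-- the lift -/
noncomputable def lf (x : XX) (c : EE) : XX :=
  (nrm c.1 x.1, nrm c.2.1 x.2.1, aa (nrm c.2.1 x.2.1) (nrm c.2.2 (vv x)))

theorem aa_vec (u a : Fin 2 → ℝ) (h : dot u u = 1) : aa u (vec u a) = a := by
  have h' : u 0 * u 0 + u 1 * u 1 = 1 := by simpa [dot, Fin.sum_univ_succ] using h
  funext i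
  fin_cases i
  · simp [aa, vec]
  · simp [aa, vec]
    linear_combination (a 1) * h'

theorem lf_self (x : XX) (hx : x ∈ Mt) : lf x (phi x) = x := by
  obtain ⟨h1, h2, h3, h4⟩ := hx
  have h5 : dot (vv x) (vv x) = 1 := by
    rw [vv, dot_vec _ _ _ h2]
    exact h3
  change (nrm (op x.1) x.1, nrm (op x.2.1) x.2.1,
    aa (nrm (op x.2.1) x.2.1) (nrm (op (vv x)) (vv x))) = x
  rw [nrm_self _ h1, nrm_self _ h2, nrm_self _ h5, vv, aa_vec _ _ h2]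

theorem lf_act (x x' : XX) (hx' : x' ∈ Mt) (h1 : 0 < qf (phi x').1 x.1)
    (h2 : 0 < qf (phi x').2.1 x.2.1) (h3 : 0 < qf (phi x').2.2 (vv x)) :
    ∃ s : Fin 3 → ℝ, (∀ i, s i = 1 ∨ s i = -1) ∧ lf x (phi x') = act s x' := by
  obtain ⟨-, k2, -, -⟩ := hx'
  obtain ⟨s0, hs0, e0⟩ := nrm_op x'.1 x.1 h1
  obtain ⟨s1, hs1, e1⟩ := nrm_op x'.2.1 x.2.1 h2
  obtain ⟨s2, hs2, e2⟩ := nrm_op (vv x') (vv x) h3
  refine ⟨![s0, s1, s2], ?_, ?_⟩
  · intro i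
    fin_cases i
    · exact hs0
    · exact hs1
    · exact hs2
  · change (nrm (op x'.1) x.1, nrm (op x'.2.1) x.2.1,
      aa (nrm (op x'.2.1) x.2.1) (nrm (op (vv x')) (vv x))) = _
    rw [e0, e1, e2]
    have h' : x'.2.1 0 * x'.2.1 0 + x'.2.1 1 * x'.2.1 1 = 1 := by
      simpa [dot, Fin.sum_univ_succ] using k2
    refine Prod.ext rfl (Prod.ext rfl ?_)
    funext i
    fin_cases i
    · simp [aa, vec, vv, act]
    · simp [aa, vec, vv, act]
      linear_combination (s1 * s2 * x'.2.2 1) * h'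

theorem lf_cd (x : XX) (c : ℝ → EE) (hc : ContDiff ℝ ∞ c) (U : Set ℝ)
    (h1 : ∀ t ∈ U, 0 < qf (c t).1 x.1) (h2 : ∀ t ∈ U, 0 < qf (c t).2.1 x.2.1)
    (h3 : ∀ t ∈ U, 0 < qf (c t).2.2 (vv x)) : ContDiffOn ℝ ∞ (fun t => lf x (c t)) U := by
  have c1 : ContDiff ℝ ∞ fun t => (c t).1 := contDiff_fst.comp hc
  have c2 : ContDiff ℝ ∞ fun t => (c t).2.1 := contDiff_fst.comp (contDiff_snd.comp hc)
  have c3 : ContDiff ℝ ∞ fun t => (c t).2.2 := contDiff_snd.comp (contDiff_snd.comp hc)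
  have e1 := nrm_cd _ c1 x.1 U h1
  have e2 := nrm_cd _ c2 x.2.1 U h2
  have e3 := nrm_cd _ c3 (vv x) U h3
  refine e1.prodMk (e2.prodMk ?_)
  rw [contDiffOn_pi]
  intro i
  rw [contDiffOn_pi] at e2 e3
  fin_cases i
  · exact e3 0
  · exact ((e3 1).mul (e2 0)).add ((e3 2).mul (e2 1))

end Lift

open Lift in
theorem stLift (h1 : StFib) (h2 : StGlo) : StLift := by
  intro x hx c hc
  obtain ⟨hc1, hc2, hc3⟩ := hc
  have c1 : ContDiff ℝ ∞ fun t => (c t).1 := contDiff_fst.comp hc1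
  have c2 : ContDiff ℝ ∞ fun t => (c t).2.1 := contDiff_fst.comp (contDiff_snd.comp hc1)
  have c3 : ContDiff ℝ ∞ fun t => (c t).2.2 := contDiff_snd.comp (contDiff_snd.comp hc1)
  obtain ⟨k1, k2, k3, k4⟩ := hx
  have k5 : dot (vv x) (vv x) = 1 := by
    rw [vv, dot_vec _ _ _ k2]
    exact k3
  have g1 : ∀ᶠ t in 𝓝 (0 : ℝ), 0 < qf (c t).1 x.1 := by
    refine (qf_cd _ c1 x.1).continuous.continuousAt.eventually_mem (IsOpen.mem_nhds isOpen_Ioi ?_)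
    rw [hc2]
    change 0 < qf (op x.1) x.1
    rw [qf_op, k1]
    norm_num
  have g2 : ∀ᶠ t in 𝓝 (0 : ℝ), 0 < qf (c t).2.1 x.2.1 := by
    refine (qf_cd _ c2 x.2.1).continuous.continuousAt.eventually_mem
      (IsOpen.mem_nhds isOpen_Ioi ?_)
    rw [hc2]
    change 0 < qf (op x.2.1) x.2.1
    rw [qf_op, k2]
    norm_num
  have g3 : ∀ᶠ t in 𝓝 (0 : ℝ), 0 < qf (c t).2.2 (vv x) := by
    refine (qf_cd _ c3 (vv x)).continuous.continuousAt.eventually_mem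
      (IsOpen.mem_nhds isOpen_Ioi ?_)
    rw [hc2]
    change 0 < qf (op (vv x)) (vv x)
    rw [qf_op, k5]
    norm_num
  set U : Set ℝ := {t | 0 < qf (c t).1 x.1 ∧ 0 < qf (c t).2.1 x.2.1 ∧ 0 < qf (c t).2.2 (vv x)}
    with hU
  have hUn : U ∈ 𝓝 (0 : ℝ) := g1.and (g2.and g3)
  obtain ⟨X, hX1, hX2⟩ := h2 XX (fun t => lf x (c t)) U hUn
    (lf_cd x c hc1 U (fun t ht => ht.1) (fun t ht => ht.2.1) (fun t ht => ht.2.2))
  refine ⟨X, hX1, ?_, ?_⟩
  · rw [hX2.eq_of_nhds, hc2]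
    exact lf_self x ⟨k1, k2, k3, k4⟩
  · filter_upwards [hX2, hUn, hc3] with t e1 e2 e3
    obtain ⟨x', hx', e4⟩ := e3
    rw [hU, Set.mem_ofPred_eq, ← e4] at e2
    obtain ⟨s, hs, e5⟩ := lf_act x x' hx' e2.1 e2.2.1 e2.2.2
    rw [e1, ← e4, e5]
    exact h1.1 s hs x' hx'

end Pool.Agent.Lib.MP_086785_gt.CB
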