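import Pool.Agent.Lib.MP_086785_gt.CB.Stmts

/-!
Project CB: assembly of the local part.
-/

set_option autoImplicit false

namespace Pool.Agent.Lib.MP_086785_gt.CB

open Set Filter Topology Finset
open scoped ContDiff

namespace Loc

/-- the values near the base point -/
theorem near (h2 : StPsi) : ∃ ρ > 0, ρ ≤ 1 / 4 ∧ ∀ z ∈ Metric.ball (0 : Fin 9 → ℝ) ρ,
    3 / 4 < (f0 (psi z)).1 0 0 ∧ 3 / 4 < (f0 (psi z)).2 1 1 := by
  obtain ⟨hs, h0, -⟩ := h2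
  have hmem : Metric.ball (0 : Fin 9 → ℝ) (1 / 2) ∈ 𝓝 (0 : Fin 9 → ℝ) :=
    Metric.ball_mem_nhds _ (by norm_num)
  have hc : ContinuousAt psi 0 := (hs.continuousOn.continuousAt hmem)
  have hc1 : ContinuousAt (fun z => (f0 (psi z)).1 0 0) 0 := by
    have h3 : ContinuousAt (fun z => f0 (psi z)) 0 := f0.continuous.continuousAt.comp hc
    have h4 : Continuous (fun q : FF => q.1 0 0) := by fun_prop
    exact h4.continuousAt.comp h3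
  have hc2 : ContinuousAt (fun z => (f0 (psi z)).2 1 1) 0 := by
    have h3 : ContinuousAt (fun z => f0 (psi z)) 0 := f0.continuous.continuousAt.comp hc
    have h4 : Continuous (fun q : FF => q.2 1 1) := by fun_prop
    exact h4.continuousAt.comp h3
  have hv1 : (f0 (psi 0)).1 0 0 = 1 := by
    rw [h0]
    simp [f0, phi, x0, op, ye]
  have hv2 : (f0 (psi 0)).2 1 1 = 1 := by
    rw [h0]
    simp [f0, phi, x0, op]
  have he1 : ∀ᶠ z in 𝓝 (0 : Fin 9 → ℝ), 3 / 4 < (f0 (psi z)).1 0 0 := by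
    refine hc1.eventually (lt_mem_nhds ?_)
    show 3 / 4 < (f0 (psi 0)).1 0 0
    rw [hv1]
    norm_num
  have he2 : ∀ᶠ z in 𝓝 (0 : Fin 9 → ℝ), 3 / 4 < (f0 (psi z)).2 1 1 := by
    refine hc2.eventually (lt_mem_nhds ?_)
    show 3 / 4 < (f0 (psi 0)).2 1 1
    rw [hv2]
    norm_num
  obtain ⟨ρ, hρ, hb⟩ := Metric.eventually_nhds_iff_ball.mp (he1.and he2)
  refine ⟨min ρ (1 / 4), lt_min hρ (by norm_num), min_le_right _ _, ?_⟩
  intro z hz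
  exact hb z (Metric.ball_subset_ball (min_le_left _ _) hz)

/-- components -/
theorem comp_le (a b : FF) (δ : ℝ) (h : ‖a - b‖ ≤ δ) :
    b.1 0 0 - δ ≤ a.1 0 0 ∧ b.2 1 1 - δ ≤ a.2 1 1 := by
  have h1 : ‖(a - b).1‖ ≤ δ := (norm_fst_le _).trans h
  have h2 : ‖(a - b).2‖ ≤ δ := (norm_snd_le _).trans h
  have h3 : ‖(a - b).1 0 0‖ ≤ δ := ((norm_le_pi_norm _ 0).trans (norm_le_pi_norm _ 0)).trans h1
  have h4 : ‖(a - b).2 1 1‖ ≤ δ := ((norm_le_pi_norm _ 1).trans (norm_le_pi_norm _ 1)).trans h2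
  have h5 : |a.1 0 0 - b.1 0 0| ≤ δ := by simpa using h3
  have h6 : |a.2 1 1 - b.2 1 1| ≤ δ := by simpa using h4
  have h7 := abs_le.mp h5
  have h8 := abs_le.mp h6
  constructor <;> linarith [h7.1, h8.1]

end Loc

open Loc in
theorem stLoc (h1 : StPLR) (h2 : StPsi) (h3 : StJker) (h4 : StJ0a) (h5 : StJ0b)
    (h6 : StJclose) : StLoc := by
  obtain ⟨ρ₁, hρ₁, hρ₁4, hnear⟩ := near h2
  obtain ⟨hs, h0, hex, hinj, himm, hU⟩ := h2
  obtain ⟨ρ, hρ, hρρ, hρ2, δ', hδ', hP⟩ := h1 (Jm f0 VV) (1 / 2) (by norm_num) h4.1 h4.2 h5 ρ₁ hρ₁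
  obtain ⟨C, hC, hcl⟩ := h6
  obtain ⟨U, hUo, hUM⟩ := hU ρ hρ hρ2
  have hρ4 : ρ ≤ 1 / 4 := hρρ.trans hρ₁4
  have hb4 : Metric.ball (0 : Fin 9 → ℝ) ρ ⊆ Metric.ball 0 (1 / 4) :=
    Metric.ball_subset_ball hρ4
  have hb2 : Metric.ball (0 : Fin 9 → ℝ) ρ ⊆ Metric.ball 0 (1 / 2) :=
    Metric.ball_subset_ball hρ2
  have hb1 : Metric.ball (0 : Fin 9 → ℝ) ρ ⊆ Metric.ball 0 ρ₁ :=
    Metric.ball_subset_ball hρρ
  refine ⟨U, hUo, ?_, min (δ' / C) (1 / 8), lt_min (div_pos hδ' hC) (by norm_num), ?_⟩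
  · have h7 : psi 0 ∈ MM ∩ U := by
      rw [hUM]
      exact ⟨0, Metric.mem_ball_self hρ, rfl⟩
    rw [← h0]
    exact h7.2
  intro h V hh hV hch hcV hpi
  set δ : ℝ := min (δ' / C) (1 / 8) with hδ
  have hCδ : C * δ ≤ δ' := by
    calc C * δ ≤ C * (δ' / C) := mul_le_mul_of_nonneg_left (min_le_left _ _) hC.le
      _ = δ' := mul_div_cancel₀ _ hC.ne'
  obtain ⟨hJs, hJc⟩ := hcl h V δ hh hV hch hcV
  obtain ⟨⟨zs, hzs, hk3⟩, hkle, huniq⟩ := hP (Jm h V) (hJs.mono hb4) (by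
    intro z hz
    obtain ⟨h8, h9⟩ := hJc z (hb4 hz)
    exact ⟨h8.trans hCδ, h9.trans hCδ⟩)
  -- values of `h` at points of the chart
  have hval : ∀ z ∈ Metric.ball (0 : Fin 9 → ℝ) ρ, ∀ x ∈ Mt, phi x = psi z →
      1 / 2 < (h (phi x)).1 0 0 ∧ 1 / 2 < (h (phi x)).2 1 1 := by
    intro z hz x hx hxz
    have h8 : phi x ∈ MM := ⟨x, hx, rfl⟩
    have h9 := hch.2 (phi x) h8 0 (by norm_num)
    rw [norm_iteratedFDeriv_zero] at h9
    have h10 := comp_le _ _ _ h9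
    have h11 : δ ≤ 1 / 8 := min_le_right _ _
    have h12 := hnear z (hb1 hz)
    rw [← hxz] at h12
    constructor
    · linarith [h10.1, h12.1]
    · linarith [h10.2, h12.2]
  have hkd : ∀ z ∈ Metric.ball (0 : Fin 9 → ℝ) ρ, ∀ x ∈ Mt, phi x = psi z →
      kd x (fderiv ℝ h (phi x)) (fun j => V j (phi x)) = kJ (Jm h V z) := by
    intro z hz x hx hxz
    obtain ⟨h8, h9⟩ := hval z hz x hx hxz
    exact h3 h V z x hh (hb2 hz) hx hxz hpi h8 h9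
  refine ⟨psi zs, ?_, ?_, ?_⟩
  · obtain ⟨x, hx, hxz⟩ := hex zs (hb2 hzs)
    exact ⟨x, hx, hxz⟩
  · intro x hx hxm
    rw [hkd zs hzs x hx hxm, hk3]
  · intro x hx hxU hk
    have h8 : phi x ∈ MM ∩ U := ⟨⟨x, hx, rfl⟩, hxU⟩
    rw [hUM] at h8
    obtain ⟨z, hz, hzx⟩ := h8
    rw [hkd z hz x hx hzx.symm] at hk
    rw [← hzx, huniq z hz zs hzs hk hk3.ge]

end Pool.Agent.Lib.MP_086785_gt.CB
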