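import Pool.Agent.Lib.MP_086785_gt.CB.Stmts

/-! Project CB: `MM` is a compact submanifold. -/

set_option autoImplicit false

namespace Pool.Agent.Lib.MP_086785_gt.CB

open Set Filter Topology Finset
open scoped ContDiff

namespace MMC

theorem contDiff_phi : ContDiff ℝ ∞ phi := by
  unfold phi
  refine ContDiff.prodMk ?_ (ContDiff.prodMk ?_ ?_)
  · refine contDiff_pi.2 fun i => contDiff_pi.2 fun j => ?_
    simp only [op]
    fun_prop
  · refine contDiff_pi.2 fun i => contDiff_pi.2 fun j => ?_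
    simp only [op]
    fun_prop
  · refine contDiff_pi.2 fun i => contDiff_pi.2 fun j => ?_
    have h : ∀ i : Fin 3, ContDiff ℝ ∞ fun x : XX => vv x i := by
      intro i
      fin_cases i
      · change ContDiff ℝ ∞ fun x : XX => x.2.2 0
        fun_prop
      · change ContDiff ℝ ∞ fun x : XX => x.2.2 1 * x.2.1 0
        fun_prop
      · change ContDiff ℝ ∞ fun x : XX => x.2.2 1 * x.2.1 1
        fun_prop
    exact (h i).mul (h j)

/-- the signs -/
def sgn (b : Fin 3 → Bool) : Fin 3 → ℝ := fun i => if b i then 1 else -1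

theorem sgn_eq (b : Fin 3 → Bool) (i : Fin 3) : sgn b i = 1 ∨ sgn b i = -1 := by
  unfold sgn
  split_ifs
  · exact Or.inl rfl
  · exact Or.inr rfl

theorem exists_sgn (s : Fin 3 → ℝ) (hs : ∀ i, s i = 1 ∨ s i = -1) : ∃ b, s = sgn b := by
  classical
  refine ⟨fun i => if s i = 1 then true else false, funext fun i => ?_⟩
  change s i = if (if s i = 1 then true else false) = true then (1 : ℝ) else -1
  by_cases h : s i = 1
  · rw [if_pos h, if_pos rfl, h]
  · rw [if_neg h, if_neg (by simp)]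
    exact (hs i).resolve_left h

theorem act_act {s : Fin 3 → ℝ} (hs : ∀ i, s i = 1 ∨ s i = -1) (x : XX) :
    act s (act s x) = x := by
  have h : ∀ i, s i * s i = 1 := by
    intro i
    rcases hs i with h | h <;> rw [h] <;> norm_num
  obtain ⟨y, u, a⟩ := x
  refine Prod.ext ?_ (Prod.ext ?_ ?_)
  · change s 0 • s 0 • y = y
    rw [smul_smul, h, one_smul]
  · change s 1 • s 1 • u = u
    rw [smul_smul, h, one_smul]
  · funext i
    fin_cases i
    · change s 2 * (s 2 * a 0) = a 0
      rw [← mul_assoc, h, one_mul]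
    · change s 1 * s 2 * (s 1 * s 2 * a 1) = a 1
      calc s 1 * s 2 * (s 1 * s 2 * a 1) = (s 1 * s 1) * (s 2 * s 2) * a 1 := by ring
        _ = a 1 := by rw [h, h, one_mul, one_mul]

theorem continuous_act (s : Fin 3 → ℝ) : Continuous (act s) := by
  unfold act
  refine Continuous.prodMk (by fun_prop) (Continuous.prodMk (by fun_prop) ?_)
  refine continuous_pi fun i => ?_
  fin_cases i
  · change Continuous fun x : XX => s 2 * x.2.2 0
    fun_prop
  · change Continuous fun x : XX => s 1 * s 2 * x.2.2 1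
    fun_prop

/-- the action of the signs by homeomorphisms -/
def hom (b : Fin 3 → Bool) : XX ≃ₜ XX where
  toFun := act (sgn b)
  invFun := act (sgn b)
  left_inv := act_act (sgn_eq b)
  right_inv := act_act (sgn_eq b)
  continuous_toFun := continuous_act _
  continuous_invFun := continuous_act _

theorem hom_apply (b : Fin 3 → Bool) (x : XX) : hom b x = act (sgn b) x := rfl

end MMC

open MMC in
/-- `MM` is a compact submanifold. -/
theorem stMM (h1 : StMt) (h2 : StQuot) (h3 : StFib) (h4 : StImm) (h5 : StVel) : StMM := by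
  refine ⟨h1.1.image contDiff_phi.continuous, ?_⟩
  refine h2 XX EE 9 Mt phi (Fin 3 → Bool) hom h1.1 h1.2 contDiff_phi ?_ ?_ ?_ ?_
  · intro b
    apply Set.Subset.antisymm
    · rintro _ ⟨x, hx, rfl⟩
      exact (h3.1 _ (sgn_eq b) x hx).1
    · intro x hx
      exact ⟨act (sgn b) x, (h3.1 _ (sgn_eq b) x hx).1, act_act (sgn_eq b) x⟩
  · intro b x hx
    exact (h3.1 _ (sgn_eq b) x hx).2
  · intro x hx x' hx' h
    obtain ⟨s, hs, hx's⟩ := h3.2 x hx x' hx' h
    obtain ⟨b, rfl⟩ := exists_sgn s hs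
    exact ⟨b, hx's⟩
  · rintro ψ V ⟨hV, hψ, -, hinj, hU⟩ z hz
    have hdψ : DifferentiableAt ℝ ψ z :=
      (hψ.contDiffAt (hV.mem_nhds hz)).differentiableAt (by simp)
    have hdp : DifferentiableAt ℝ (fun y => phi (ψ y)) z :=
      ((contDiff_phi.contDiffAt (x := ψ z)).differentiableAt (by simp)).comp z hdψ
    have hmem : ∀ y ∈ V, ψ y ∈ Mt := by
      obtain ⟨U, -, hU2⟩ := hU V Subset.rfl hV
      intro y hy
      have h : ψ y ∈ ψ '' V := ⟨y, hy, rfl⟩
      rw [hU2] at h
      exact h.1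
    have hline : ∀ ζ : Fin 9 → ℝ, HasDerivAt (fun t : ℝ => z + t • ζ) ζ 0 := by
      intro ζ
      simpa using ((hasDerivAt_id (0 : ℝ)).smul_const ζ).const_add z
    rw [injective_iff_map_eq_zero]
    intro ζ hζ
    have hz0 : z + (0 : ℝ) • ζ = z := by simp
    have hX : HasDerivAt (fun t : ℝ => ψ (z + t • ζ)) (fderiv ℝ ψ z ζ) 0 := by
      have h6 : HasFDerivAt ψ (fderiv ℝ ψ z) (z + (0 : ℝ) • ζ) := by
        rw [hz0]
        exact hdψ.hasFDerivAt
      exact h6.comp_hasDerivAt (0 : ℝ) (hline ζ)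
    have hP : HasDerivAt (fun t : ℝ => phi (ψ (z + t • ζ)))
        (fderiv ℝ (fun y => phi (ψ y)) z ζ) 0 := by
      have h6 : HasFDerivAt (fun y => phi (ψ y)) (fderiv ℝ (fun y => phi (ψ y)) z)
          (z + (0 : ℝ) • ζ) := by
        rw [hz0]
        exact hdp.hasFDerivAt
      exact h6.comp_hasDerivAt (0 : ℝ) (hline ζ)
    have hev : ∀ᶠ t in 𝓝 (0 : ℝ), ψ (z + t • ζ) ∈ Mt := by
      have h6 : ∀ᶠ t in 𝓝 (0 : ℝ), z + t • ζ ∈ V := by
        apply (hline ζ).continuousAt.eventually_mem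
        rw [hz0]
        exact hV.mem_nhds hz
      exact h6.mono fun t ht => hmem _ ht
    obtain ⟨hT, hP'⟩ := h5 (ψ z) (fderiv ℝ ψ z ζ) (fun t => ψ (z + t • ζ)) (by rw [hz0]) hev hX
    have h7 : dphi (ψ z) (fderiv ℝ ψ z ζ) = 0 := by
      rw [← hP'.unique hP] at hζ
      exact hζ
    have h8 := h4 (ψ z) (hmem z hz) _ hT h7
    exact (injective_iff_map_eq_zero _).1 (hinj z hz) ζ h8

end Pool.Agent.Lib.MP_086785_gt.CB
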