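import Pool.Agent.Lib.MP_086785_gt.CB.Stmts

/-! Project CB: assembly of the main theorem. -/

set_option autoImplicit false

namespace Pool.Agent.Lib.MP_086785_gt.CB

open Set Filter Topology
open scoped ContDiff

namespace Main

theorem exists_bump : ∃ β : (Fin 2 → ℝ) → ℝ, ContDiff ℝ ∞ β ∧ HasCompactSupport β ∧ β 0 = 1 := by
  let b : ContDiffBump (0 : Fin 2 → ℝ) := ⟨1, 2, one_pos, one_lt_two⟩
  exact ⟨b, b.contDiff, b.hasCompactSupport, b.one_of_mem_closedBall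
    (Metric.mem_closedBall_self b.rIn_pos.le)⟩

end Main

theorem stMain (hCob : StCob) (hMM : StMM) (hNM : StNM) (hF0 : StF0) (hTw : StTw) (hSB : StSB)
    (hTwo : StTwo) (hHF : StHF) (hHFn : StHFn) (hPi : StPi) (hClo : StClo) (hKdim : StKdim) :
    StMain := by
  intro G hQ
  obtain ⟨δT, hδT, hTwo⟩ := hTwo
  obtain ⟨δ₀, hδ₀, δ₂, hδ₂, hClo⟩ := hClo δT hδT
  obtain ⟨δa, hδa, hTw⟩ := hTw
  obtain ⟨δb, hδb, hSB⟩ := hSB
  have hδ : 0 < min δ₀ (min δa δb) := lt_min hδ₀ (lt_min hδa hδb)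
  have hNc : IsClosed NM := hNM.1.isClosed
  obtain ⟨f, hfs, ⟨g, hg, hfg, hgb⟩, hfG⟩ := G.dense₁ EE FF 9 11 MM NM hMM.1 hMM.2 hNc hNM.2 f0
    hF0 3 (fun _ => min δ₀ (min δa δb)) continuous_const (fun _ => hδ)
  have hfh : EqOn f (fun x => f0 x + g x) MM := hfg
  have hh : ContDiff ℝ ∞ (fun x => f0 x + g x) := f0.contDiff.add hg
  have hgb0 : ∀ z ∈ MM, ∀ i ≤ 3, ‖iteratedFDeriv ℝ i g z‖ ≤ δ₀ := fun z hz i hi =>
    (hgb z hz i hi).le.trans (min_le_left _ _)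
  have hgba : ∀ z ∈ MM, ∀ i ≤ 3, ‖iteratedFDeriv ℝ i g z‖ ≤ δa := fun z hz i hi =>
    (hgb z hz i hi).le.trans ((min_le_right _ _).trans (min_le_left _ _))
  have hgbb : ∀ z ∈ MM, ∀ i ≤ 3, ‖iteratedFDeriv ℝ i g z‖ ≤ δb := fun z hz i hi =>
    (hgb z hz i hi).le.trans ((min_le_right _ _).trans (min_le_right _ _))
  have hTP : TwistedPrim MM f := by
    refine hTw f (fun x => f0 x + g x) hh (fun z hz => ?_) hfh
    have h1 : fderiv ℝ (fun x => f0 x + g x) z - f0 = fderiv ℝ g z := by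
      rw [fderiv_fun_add f0.differentiableAt (hg.differentiable (by simp)).differentiableAt,
        f0.fderiv, add_sub_cancel_left]
    rw [h1, ← norm_iteratedFDeriv_one]
    exact hgba z hz 1 (by norm_num)
  have hSBf : SigBar 3 MM f = ∅ := hSB f g hg hgbb hfh
  obtain ⟨j, δ', hδ'c, hδ'p, hQ⟩ := hQ EE FF 3 2 9 0 (by norm_num) (by norm_num) (by norm_num) MM NM
    f hMM.1 hMM.2 hNc hNM.2 hfs hfG hTP
  obtain ⟨β, hβ, hβc, hβ0⟩ := Main.exists_bump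
  obtain ⟨hHF1, hHF2, hHF3, hHF4⟩ := hHF β (fun x => f0 x + g x) hβ hh
  have hhN : MapsTo (fun x => f0 x + g x) MM NM := fun x hx => by
    have := hfs.1 hx
    rwa [hfh hx] at this
  obtain ⟨ε₀, hε₀, hn⟩ := hHFn β (fun x => f0 x + g x) hβ hβc hh j (fun z => δ' z / 2)
    (hδ'c.div_const 2) (fun z => half_pos (hδ'p z))
  have hε : 0 < min (ε₀ / 2) 1 := lt_min (half_pos hε₀) one_pos
  have hε1 : min (ε₀ / 2) 1 ≤ 1 := min_le_right _ _
  have hε2 : min (ε₀ / 2) 1 < ε₀ := (min_le_left _ _).trans_lt (half_lt_self hε₀)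
  generalize min (ε₀ / 2) 1 = ε at hε hε1 hε2
  have hHs : SmoothMap (MM ×ˢ (univ : Set (Fin 2 → ℝ))) NM (HF β (fun x => f0 x + g x) ε) :=
    ⟨hHF4 ε hhN, fun p _ => ⟨univ, isOpen_univ, mem_univ p, _, (hHF2 ε).contDiffOn, fun _ _ => rfl⟩⟩
  obtain ⟨f', hf's, ⟨g', hg', hf'g, hg'b⟩, hf'G⟩ := G.dense₂ EE FF 9 11 2 MM NM hMM.1 hMM.2 hNc
    hNM.2 (HF β (fun x => f0 x + g x) ε) hHs (max j 2) (fun z => min (δ' z / 2) (ε * δ₂))
    ((hδ'c.div_const 2).min continuous_const)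
    (fun z => lt_min (half_pos (hδ'p z)) (mul_pos hε hδ₂))
  have hnear : Near (MM ×ˢ (univ : Set (Fin 2 → ℝ))) j δ' (fun z => f z.1) f' := by
    refine ⟨fun z => (HF β (fun x => f0 x + g x) ε z - (fun x => f0 x + g x) z.1) + g' z,
      ((hHF2 ε).sub (hh.comp contDiff_fst)).add hg', fun z hz => ?_, fun z hz i hi => ?_⟩
    · have e' : f z.1 = f0 z.1 + g z.1 := hfh hz.1
      change f' z = f z.1 + ((HF β (fun x => f0 x + g x) ε z - (f0 z.1 + g z.1)) + g' z)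
      rw [hf'g z hz, e', ← add_assoc, add_sub_cancel]
    · have e1 : ContDiffAt ℝ i (fun z : EE × (Fin 2 → ℝ) =>
          HF β (fun x => f0 x + g x) ε z - (fun x => f0 x + g x) z.1) z :=
        (((hHF2 ε).sub (hh.comp contDiff_fst)).contDiffAt).of_le (by exact_mod_cast le_top)
      have e2 : ContDiffAt ℝ i g' z := (hg'.contDiffAt).of_le (by exact_mod_cast le_top)
      rw [fun_iteratedFDeriv_add_apply e1 e2]
      calc _ ≤ _ := norm_add_le _ _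
        _ < δ' z / 2 + δ' z / 2 := add_lt_add (hn ε hε hε2 z hz i hi)
            ((hg'b z hz i (hi.trans (le_max_left _ _))).trans_le (min_le_left _ _))
        _ = δ' z := add_halves _
  have hcob : Cobordant 0 MM (SigBar 3 MM f) {p | (p, 0) ∈ Sig 3 (MM ×ˢ univ) f'} :=
    hQ f' hf's hnear hf'G
  rw [hSBf] at hcob
  have hg'2 : ∀ z ∈ MM, ∀ i ≤ 2, ‖iteratedFDeriv ℝ i g' (z, 0)‖ ≤ ε * δ₂ := fun z hz i hi =>
    ((hg'b (z, 0) ⟨hz, mem_univ _⟩ i (hi.trans (le_max_right _ _))).trans_le (min_le_right _ _)).le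
  obtain ⟨c1, c2, c3, c4, c5⟩ := hClo β g g' ε hβ hβ0 hε hε1
    ⟨hg, fun z hz i hi => hgb0 z hz i (hi.trans (by norm_num))⟩ hg' hg'2
    (fun z => HF β (fun x => f0 x + g x) ε z + g' z) (fun z => rfl)
  have hf'H : EqOn f' (fun z => HF β (fun x => f0 x + g x) ε z + g' z) (MM ×ˢ univ) := hf'g
  have hHN : MapsTo (fun z => HF β (fun x => f0 x + g x) ε z + g' z) (MM ×ˢ univ) NM :=
    fun z hz => by
      have := hf's.1 hz
      rwa [hf'H hz] at this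
  obtain ⟨m, hm, hm'⟩ := hTwo _ _ c2 c3 c4 c5 (hPi _ ε c1 hHN hε.ne')
  have hset : {p | (p, (0 : Fin 2 → ℝ)) ∈ Sig 3 (MM ×ˢ univ) f'} = {m} := by
    ext p
    simp only [mem_ofPred_eq, mem_singleton_iff, Sig]
    constructor
    · rintro ⟨⟨⟨x, hx, rfl⟩, -⟩, h3⟩
      rw [hKdim f' _ x ε hx hf'H c1 hε.ne'] at h3
      exact (hm' x hx).1 h3
    · rintro rfl
      obtain ⟨x, hx, hxm⟩ := hm
      refine ⟨⟨⟨x, hx, hxm⟩, mem_univ _⟩, ?_⟩
      rw [← hxm, hKdim f' _ x ε hx hf'H c1 hε.ne']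
      exact (hm' x hx).2 hxm
  rw [hset] at hcob
  exact hCob EE MM m hcob

end Pool.Agent.Lib.MP_086785_gt.CB
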