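import Pool.Agent.Lib.MP_086785_gt.CB.Stmts

/-!
Project CB, items MT, NT: the level sets Mt, Nt are compact submanifolds.
-/

set_option autoImplicit false

namespace Pool.Agent.Lib.MP_086785_gt.CB

open Set Filter Topology Finset
open scoped ContDiff

namespace MtS

theorem dot_smooth {E : Type} [NormedAddCommGroup E] [NormedSpace ℝ E] {n : ℕ} {f g : E → Fin n → ℝ}
    (hf : ContDiff ℝ ∞ f) (hg : ContDiff ℝ ∞ g) : ContDiff ℝ ∞ (fun x => dot (f x) (g x)) := by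
  unfold dot
  fun_prop

theorem vec3 {E : Type} [NormedAddCommGroup E] [NormedSpace ℝ E] {f g h : E → ℝ}
    (hf : ContDiff ℝ ∞ f) (hg : ContDiff ℝ ∞ g) (hh : ContDiff ℝ ∞ h) :
    ContDiff ℝ ∞ (fun x => (![f x, g x, h x] : Fin 3 → ℝ)) := by
  rw [contDiff_pi]
  intro i
  fin_cases i
  · exact hf
  · exact hg
  · exact hh

theorem mono_smooth {E : Type} [NormedAddCommGroup E] [NormedSpace ℝ E] {v : E → Fin 3 → ℝ}
    (hv : ContDiff ℝ ∞ v) (i : Fin 6) : ContDiff ℝ ∞ (fun x => mono (v x) i) := by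
  fin_cases i <;> simp [mono] <;> fun_prop

theorem mono1_smooth {E : Type} [NormedAddCommGroup E] [NormedSpace ℝ E] {v w : E → Fin 3 → ℝ}
    (hv : ContDiff ℝ ∞ v) (hw : ContDiff ℝ ∞ w) (i : Fin 6) :
    ContDiff ℝ ∞ (fun x => mono1 (v x) (w x) i) := by
  fin_cases i <;> simp [mono1] <;> fun_prop

theorem LL_smooth {E : Type} [NormedAddCommGroup E] [NormedSpace ℝ E] {y : E → Fin 11 → ℝ}
    {m : E → Fin 6 → ℝ} (hy : ContDiff ℝ ∞ y) (hm : ContDiff ℝ ∞ m) :
    ContDiff ℝ ∞ (fun x => LL (y x) (m x)) := by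
  apply vec3 <;> fun_prop

theorem S_smooth {E : Type} [NormedAddCommGroup E] [NormedSpace ℝ E] {y : E → Fin 11 → ℝ}
    {v : E → Fin 3 → ℝ} (hy : ContDiff ℝ ∞ y) (hv : ContDiff ℝ ∞ v) :
    ContDiff ℝ ∞ (fun x => S (y x) (v x)) :=
  LL_smooth hy (contDiff_pi.mpr (mono_smooth hv))

theorem S1_smooth {E : Type} [NormedAddCommGroup E] [NormedSpace ℝ E] {y : E → Fin 11 → ℝ}
    {v w : E → Fin 3 → ℝ} (hy : ContDiff ℝ ∞ y) (hv : ContDiff ℝ ∞ v) (hw : ContDiff ℝ ∞ w) :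
    ContDiff ℝ ∞ (fun x => S1 (y x) (v x) (w x)) :=
  LL_smooth hy (contDiff_pi.mpr (mono1_smooth hv hw))

theorem vv_smooth : ContDiff ℝ ∞ vv := by
  apply vec3 <;> fun_prop

/-- the space of equations -/
abbrev FM : Type := ℝ × ℝ × ℝ × (Fin 3 → ℝ)

/-- the equations -/
def GM (x : XX) : FM := (dot x.1 x.1 - 1, dot x.2.1 x.2.1 - 1, dot x.2.2 x.2.2 - 1, S x.1 (vv x))

theorem GM_smooth : ContDiff ℝ ∞ GM := by
  unfold GM
  have h1 : ContDiff ℝ ∞ (fun x : XX => dot x.1 x.1) := dot_smooth contDiff_fst contDiff_fst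
  have h2 : ContDiff ℝ ∞ (fun x : XX => dot x.2.1 x.2.1) := dot_smooth (by fun_prop) (by fun_prop)
  have h3 : ContDiff ℝ ∞ (fun x : XX => dot x.2.2 x.2.2) := dot_smooth (by fun_prop) (by fun_prop)
  have h4 : ContDiff ℝ ∞ (fun x : XX => S x.1 (vv x)) := S_smooth contDiff_fst vv_smooth
  fun_prop

theorem Mt_eq : Mt = {x | GM x = 0} := by
  ext x
  simp only [Mt, GM, mem_ofPred_eq, Prod.mk_eq_zero, sub_eq_zero]

theorem fderiv_of_line {E F : Type} [NormedAddCommGroup E] [NormedSpace ℝ E]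
    [NormedAddCommGroup F] [NormedSpace ℝ F] {G : E → F} (hG : ContDiff ℝ ∞ G) (x η : E)
    (Q : ℝ → F) (hQ : Continuous Q) (h : ∀ t, G (x + t • η) = G x + t • Q t) :
    fderiv ℝ G x η = Q 0 := by
  have h1 : HasDerivAt (fun t : ℝ => G (x + t • η)) (fderiv ℝ G x η) 0 :=
    ((hG.differentiable (by simp)) x).hasFDerivAt.hasLineDerivAt η
  have h2 : HasDerivAt (fun t : ℝ => G (x + t • η)) (Q 0) 0 := by
    rw [hasDerivAt_iff_tendsto_slope_zero]
    have h3 : Tendsto Q (𝓝[≠] 0) (𝓝 (Q 0)) := hQ.continuousAt.mono_left nhdsWithin_le_nhds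
    refine h3.congr' ?_
    filter_upwards [self_mem_nhdsWithin] with t ht
    have ht' : t ≠ 0 := ht
    rw [zero_add, h t, h 0, zero_smul, add_zero, add_sub_cancel_left, smul_smul,
      inv_mul_cancel₀ ht', one_smul]
  exact h1.unique h2

theorem dot_line {n : ℕ} (y η : Fin n → ℝ) (t : ℝ) :
    dot (y + t • η) (y + t • η) - 1 = (dot y y - 1) + t • (2 * dot y η + t * dot η η) := by
  rw [dot_add_left, dot_add_right, dot_add_right, dot_smul_left, dot_smul_left, dot_smul_right,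
    dot_smul_right, dot_comm η y, smul_eq_mul]
  ring

theorem vec_line (u a δ γ : Fin 2 → ℝ) (t : ℝ) :
    vec (u + t • δ) (a + t • γ) =
      vec u a + t • (dvec u a δ γ + t • ![0, γ 1 * δ 0, γ 1 * δ 1]) := by
  funext i
  fin_cases i <;> simp [vec, dvec] <;> ring

theorem S_line2 (y η : Fin 11 → ℝ) (v w : Fin 3 → ℝ) (t : ℝ) :
    S (y + t • η) (v + t • w) =
      S y v + t • (S1 y v w + t • S1 y w v + t ^ 2 • S y w + S η (v + t • w)) := by
  rw [S_add, S_smul, S_line]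
  module

/-- the derivative of the equations -/
theorem fderiv_GM (x η : XX) : fderiv ℝ GM x η = (2 * dot x.1 η.1, 2 * dot x.2.1 η.2.1,
    2 * dot x.2.2 η.2.2, S η.1 (vv x) + S1 x.1 (vv x) (dvec x.2.1 x.2.2 η.2.1 η.2.2)) := by
  let w : ℝ → Fin 3 → ℝ := fun t => dvec x.2.1 x.2.2 η.2.1 η.2.2 +
    t • ![0, η.2.2 1 * η.2.1 0, η.2.2 1 * η.2.1 1]
  have hw : ContDiff ℝ ∞ w := by fun_prop
  let Q : ℝ → FM := fun t => (2 * dot x.1 η.1 + t * dot η.1 η.1,
    2 * dot x.2.1 η.2.1 + t * dot η.2.1 η.2.1, 2 * dot x.2.2 η.2.2 + t * dot η.2.2 η.2.2,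
    S1 x.1 (vv x) (w t) + t • S1 x.1 (w t) (vv x) + t ^ 2 • S x.1 (w t) +
      S η.1 (vv x + t • w t))
  have h1 : ContDiff ℝ ∞ (fun t => S1 x.1 (vv x) (w t)) := S1_smooth contDiff_const contDiff_const hw
  have h2 : ContDiff ℝ ∞ (fun t => S1 x.1 (w t) (vv x)) := S1_smooth contDiff_const hw contDiff_const
  have h3 : ContDiff ℝ ∞ (fun t => S x.1 (w t)) := S_smooth contDiff_const hw
  have h4 : ContDiff ℝ ∞ (fun t => S η.1 (vv x + t • w t)) :=
    S_smooth contDiff_const (by fun_prop)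
  have hQ : Continuous Q := by
    have g1 := h1.continuous
    have g2 := h2.continuous
    have g3 := h3.continuous
    have g4 := h4.continuous
    fun_prop
  have h : ∀ t, GM (x + t • η) = GM x + t • Q t := by
    intro t
    simp only [GM, Q, Prod.fst_add, Prod.snd_add, Prod.smul_fst, Prod.smul_snd, Prod.smul_mk,
      Prod.mk_add_mk, dot_line, vv, vec_line, S_line2]
    rfl
  rw [fderiv_of_line GM_smooth x η Q hQ h]
  simp only [Q, w, zero_mul, add_zero, zero_smul, zero_pow two_ne_zero]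
  rw [add_comm (S1 _ _ _)]

theorem GM_surj (h2 : StDpos) (x : XX) (hx : x ∈ Mt) : Function.Surjective (fderiv ℝ GM x) := by
  rintro ⟨α, β, γ, s⟩
  obtain ⟨-, d1, d3⟩ := h2 x hx
  have d1' : D1 (vv x) ≠ 0 := by linarith
  have d3' : D3 (vv x) ≠ 0 := by linarith
  set r : Fin 3 → ℝ := s - S1 x.1 (vv x)
    (dvec x.2.1 x.2.2 ((β / 2) • x.2.1) ((γ / 2) • x.2.2)) with hr
  let s' : Fin 3 → ℝ := ![r 0 / D1 (vv x), r 1 / D1 (vv x), r 2 / D3 (vv x)]
  have hs' : S (RR (vv x) s') (vv x) = r := by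
    rw [S_RR]
    funext i
    fin_cases i
    · simp [s', mul_div_cancel₀ _ d1']
    · simp [s', mul_div_cancel₀ _ d1']
    · simp [s', mul_div_cancel₀ _ d3']
  refine ⟨((α / 2) • x.1 + RR (vv x) s', (β / 2) • x.2.1, (γ / 2) • x.2.2), ?_⟩
  rw [fderiv_GM]
  obtain ⟨e1, e2, e3, e4⟩ := hx
  have hd : dot x.1 (RR (vv x) s') = 0 := by
    rw [dot_comm, RR_adj, e4, dot_zero_right]
  simp only [dot_add_right, dot_smul_right, e1, e2, e3, hd, S_add, S_smul, e4, hs', smul_zero,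
    zero_add]
  simp only [Prod.mk.injEq]
  refine ⟨by ring, by ring, by ring, ?_⟩
  rw [hr]
  abel

theorem coord_le {n : ℕ} (y : Fin n → ℝ) (h : dot y y = 1) (i : Fin n) : |y i| ≤ 1 := by
  have h1 : y i * y i ≤ ∑ j, y j * y j :=
    Finset.single_le_sum (f := fun j => y j * y j) (fun j _ => mul_self_nonneg (y j))
      (Finset.mem_univ i)
  have h2 : y i * y i ≤ 1 := by rw [← h]; exact h1
  rw [abs_le]
  constructor <;> nlinarith

theorem norm_le_one {n : ℕ} (y : Fin n → ℝ) (h : dot y y = 1) : ‖y‖ ≤ 1 := by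
  rw [pi_norm_le_iff_of_nonneg zero_le_one]
  exact coord_le y h

theorem Mt_compact : IsCompact Mt := by
  apply Metric.isCompact_of_isClosed_isBounded
  · rw [Mt_eq]
    exact isClosed_eq GM_smooth.continuous continuous_const
  · apply Metric.isBounded_closedBall (x := (0 : XX)) (r := 1) |>.subset
    intro x hx
    rw [mem_closedBall_zero_iff]
    exact max_le (norm_le_one _ hx.1) (max_le (norm_le_one _ hx.2.1) (norm_le_one _ hx.2.2.1))

/-- the equations of `Nt` -/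
def GN (x : NN) : ℝ × ℝ := (dot x.1 x.1 - 1, dot x.2 x.2 - 1)

theorem GN_smooth : ContDiff ℝ ∞ GN := by
  unfold GN
  have h1 : ContDiff ℝ ∞ (fun x : NN => dot x.1 x.1) := dot_smooth contDiff_fst contDiff_fst
  have h2 : ContDiff ℝ ∞ (fun x : NN => dot x.2 x.2) := dot_smooth contDiff_snd contDiff_snd
  fun_prop

theorem Nt_eq : Nt = {x | GN x = 0} := by
  ext x
  simp only [Nt, GN, mem_ofPred_eq, Prod.mk_eq_zero, sub_eq_zero]

theorem fderiv_GN (x η : NN) : fderiv ℝ GN x η = (2 * dot x.1 η.1, 2 * dot x.2 η.2) := by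
  let Q : ℝ → ℝ × ℝ := fun t => (2 * dot x.1 η.1 + t * dot η.1 η.1,
    2 * dot x.2 η.2 + t * dot η.2 η.2)
  have hQ : Continuous Q := by fun_prop
  have h : ∀ t, GN (x + t • η) = GN x + t • Q t := by
    intro t
    simp only [GN, Q, Prod.fst_add, Prod.snd_add, Prod.smul_fst, Prod.smul_snd, Prod.smul_mk,
      Prod.mk_add_mk, dot_line]
  rw [fderiv_of_line GN_smooth x η Q hQ h]
  simp only [Q, zero_mul, add_zero]

theorem GN_surj (x : NN) (hx : x ∈ Nt) : Function.Surjective (fderiv ℝ GN x) := by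
  rintro ⟨α, β⟩
  obtain ⟨e1, e2⟩ := hx
  refine ⟨((α / 2) • x.1, (β / 2) • x.2), ?_⟩
  rw [fderiv_GN]
  simp only [dot_smul_right, e1, e2]
  simp only [Prod.mk.injEq]
  exact ⟨by ring, by ring⟩

theorem Nt_compact : IsCompact Nt := by
  apply Metric.isCompact_of_isClosed_isBounded
  · rw [Nt_eq]
    exact isClosed_eq GN_smooth.continuous continuous_const
  · apply Metric.isBounded_closedBall (x := (0 : NN)) (r := 1) |>.subset
    intro x hx
    rw [mem_closedBall_zero_iff]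
    exact max_le (norm_le_one _ hx.1) (norm_le_one _ hx.2)

end MtS

/-- `Mt` is a compact submanifold -/
theorem stMt (h1 : StLevel) (h2 : StDpos) : StMt := by
  refine ⟨MtS.Mt_compact, ?_⟩
  have h := h1 XX MtS.FM 9 MtS.GM MtS.GM_smooth (by simp) (fun x hx => MtS.GM_surj h2 x
    (by rw [MtS.Mt_eq]; exact hx))
  rw [MtS.Mt_eq]
  exact h

/-- `Nt` is a compact submanifold -/
theorem stNt (h1 : StLevel) : StNt := by
  refine ⟨MtS.Nt_compact, ?_⟩
  have h := h1 NN (ℝ × ℝ) 11 MtS.GN MtS.GN_smooth (by simp) (fun x hx => MtS.GN_surj x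
    (by rw [MtS.Nt_eq]; exact hx))
  rw [MtS.Nt_eq]
  exact h

end Pool.Agent.Lib.MP_086785_gt.CB
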