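import Pool.Agent.Lib.MP_086785_gt.CB.Stmts

/-! Project CB, module NMC: `NM` is a compact submanifold. -/

set_option autoImplicit false

namespace Pool.Agent.Lib.MP_086785_gt.CB

open Set Filter Topology Finset
open scoped ContDiff

namespace NMC

variable {n : ℕ}

theorem contDiff_op {X : Type} [NormedAddCommGroup X] [NormedSpace ℝ X] {F : X → Fin n → ℝ}
    (h : ContDiff ℝ ∞ F) : ContDiff ℝ ∞ (fun x => op (F x)) :=
  contDiff_pi.2 fun i => contDiff_pi.2 fun j => (contDiff_pi.1 h i).mul (contDiff_pi.1 h j)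

theorem contDiff_phiN : ContDiff ℝ ∞ phiN :=
  (contDiff_op contDiff_fst).prodMk (contDiff_op contDiff_snd)

/-- unit vectors with the same square -/
theorem op_eq {y y' : Fin n → ℝ} (hy : dot y y = 1) (hy' : dot y' y' = 1) (h : op y = op y') :
    y' = y ∨ y' = - y := by
  have h1 : y' = dot y y' • y := by
    funext i
    have h2 : ∀ j, y i * y j = y' i * y' j := fun j => congrFun (congrFun h i) j
    calc y' i = y' i * dot y' y' := by rw [hy', mul_one]
      _ = ∑ j, (y' i * y' j) * y' j := by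
        rw [dot, Finset.mul_sum]
        exact Finset.sum_congr rfl fun j _ => by ring
      _ = ∑ j, (y i * y j) * y' j := Finset.sum_congr rfl fun j _ => by rw [h2]
      _ = dot y y' * y i := by
        rw [dot, Finset.sum_mul]
        exact Finset.sum_congr rfl fun j _ => by ring
      _ = _ := rfl
  have h2 : dot y y' * dot y y' = 1 := by
    have h3 : dot y' y' = dot y y' * (dot y y' * dot y y) := by
      conv_lhs => rw [h1]
      rw [dot_smul_left, dot_smul_right]
    rw [hy', hy, mul_one] at h3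
    exact h3.symm
  rcases mul_self_eq_one_iff.1 h2 with h3 | h3
  · left
    rw [h3, one_smul] at h1
    exact h1
  · right
    rw [h3, neg_one_smul] at h1
    exact h1

/-- the squares determine the velocities of curves of unit vectors -/
theorem vel_zero {y : ℝ → Fin n → ℝ} {δ : Fin n → ℝ} (h0 : dot (y 0) (y 0) = 1)
    (h1 : HasDerivAt y δ 0) (h2 : HasDerivAt (fun t => op (y t)) 0 0) : δ = 0 := by
  have h3 : ∀ i, HasDerivAt (fun t => y t i) (δ i) 0 := fun i => hasDerivAt_pi.1 h1 i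
  have h4 : ∀ i j, HasDerivAt (fun t => y t i * y t j) 0 0 := fun i j =>
    hasDerivAt_pi.1 (hasDerivAt_pi.1 h2 i) j
  have h5 : ∀ i j, δ i * y 0 j + y 0 i * δ j = 0 := fun i j =>
    ((h3 i).mul (h3 j)).unique (h4 i j)
  funext i
  have h6 : ∑ j, (δ i * y 0 j + y 0 i * δ j) * y 0 j = 0 :=
    Finset.sum_eq_zero fun j _ => by rw [h5, zero_mul]
  have h7 : ∑ j, (δ i * y 0 j + y 0 i * δ j) * y 0 j = δ i * dot (y 0) (y 0) +
      y 0 i * ∑ j, δ j * y 0 j := by
    rw [dot, Finset.mul_sum, Finset.mul_sum, ← Finset.sum_add_distrib]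
    exact Finset.sum_congr rfl fun j _ => by ring
  have h8 : ∑ j, δ j * y 0 j = 0 := Finset.sum_eq_zero fun j _ => by
    have := h5 j j
    linarith
  rw [h7, h8, h0, mul_one, mul_zero, add_zero] at h6
  exact h6

/-- signs -/
def sg (b : Bool) : ℝ := if b then 1 else -1

theorem sg_mul (b : Bool) : sg b * sg b = 1 := by cases b <;> norm_num [sg]

theorem dot_sg (b : Bool) (y : Fin n → ℝ) : dot (sg b • y) (sg b • y) = dot y y := by
  rw [dot_smul_left, dot_smul_right, ← mul_assoc, sg_mul, one_mul]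

theorem op_sg (b : Bool) (y : Fin n → ℝ) : op (sg b • y) = op y := by
  rw [op_smul, pow_two, sg_mul, one_smul]

/-- the action of signs -/
def gg (i : Bool × Bool) : NN ≃ₜ NN where
  toFun x := (sg i.1 • x.1, sg i.2 • x.2)
  invFun x := (sg i.1 • x.1, sg i.2 • x.2)
  left_inv x := by
    change (sg i.1 • sg i.1 • x.1, sg i.2 • sg i.2 • x.2) = x
    rw [smul_smul, smul_smul, sg_mul, sg_mul, one_smul, one_smul]
  right_inv x := by
    change (sg i.1 • sg i.1 • x.1, sg i.2 • sg i.2 • x.2) = x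
    rw [smul_smul, smul_smul, sg_mul, sg_mul, one_smul, one_smul]
  continuous_toFun := by fun_prop
  continuous_invFun := by fun_prop

theorem gg_apply (i : Bool × Bool) (x : NN) : gg i x = (sg i.1 • x.1, sg i.2 • x.2) := rfl

theorem gg_mem {i : Bool × Bool} {x : NN} (hx : x ∈ Nt) : gg i x ∈ Nt := by
  refine ⟨?_, ?_⟩
  · rw [gg_apply, dot_sg]
    exact hx.1
  · rw [gg_apply, dot_sg]
    exact hx.2

theorem gg_image (i : Bool × Bool) : gg i '' Nt = Nt := by
  refine Subset.antisymm ?_ fun x hx => ⟨gg i x, gg_mem hx, (gg i).left_inv x⟩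
  rintro _ ⟨x, hx, rfl⟩
  exact gg_mem hx

theorem exists_sg {y y' : Fin n → ℝ} (hy : dot y y = 1) (hy' : dot y' y' = 1)
    (h : op y = op y') : ∃ b : Bool, y' = sg b • y := by
  rcases op_eq hy hy' h with h1 | h1
  · exact ⟨true, by rw [h1]; simp [sg]⟩
  · exact ⟨false, by rw [h1]; simp [sg]⟩

end NMC

open NMC

/-- Module NMC. -/
theorem stNM (h1 : StNt) (h2 : StQuot) : StNM := by
  refine ⟨h1.1.image contDiff_phiN.continuous, ?_⟩
  refine h2 NN FF 11 Nt phiN (Bool × Bool) gg h1.1 h1.2 contDiff_phiN gg_image ?_ ?_ ?_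
  · intro i x _
    rw [gg_apply]
    change (op (sg i.1 • x.1), op (sg i.2 • x.2)) = (op x.1, op x.2)
    rw [op_sg, op_sg]
  · intro x hx x' hx' h
    obtain ⟨a, ha⟩ := exists_sg hx.1 hx'.1 (congrArg Prod.fst h)
    obtain ⟨b, hb⟩ := exists_sg hx.2 hx'.2 (congrArg Prod.snd h)
    exact ⟨(a, b), Prod.ext ha hb⟩
  · intro ψ V hψ z hz
    obtain ⟨hV, hψV, _, hinj, himg⟩ := hψ
    have hψz : DifferentiableAt ℝ ψ z :=
      ((hψV z hz).contDiffAt (hV.mem_nhds hz)).differentiableAt (by simp)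
    have hmem : ∀ y ∈ V, ψ y ∈ Nt := by
      intro y hy
      obtain ⟨U, _, hU⟩ := himg V Subset.rfl hV
      exact (hU ▸ mem_image_of_mem ψ hy : ψ y ∈ Nt ∩ U).1
    rw [injective_iff_map_eq_zero]
    intro ζ hζ
    apply (injective_iff_map_eq_zero _).1 (hinj z hz)
    -- the curve
    have h3 : HasDerivAt (fun t : ℝ => z + t • ζ) ζ 0 := by
      have h := ((hasDerivAt_id (0 : ℝ)).smul_const ζ).const_add z
      exact h.congr_deriv (one_smul ℝ ζ)
    have hz0 : z + (0 : ℝ) • ζ = z := by rw [zero_smul, add_zero]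
    have h4 : HasDerivAt (fun t : ℝ => ψ (z + t • ζ)) (fderiv ℝ ψ z ζ) 0 := by
      have h5 : HasFDerivAt ψ (fderiv ℝ ψ z) (z + (0 : ℝ) • ζ) := by
        rw [hz0]
        exact hψz.hasFDerivAt
      exact h5.comp_hasDerivAt (0 : ℝ) h3
    have h5 : HasDerivAt (fun t : ℝ => phiN (ψ (z + t • ζ))) 0 0 := by
      have h6 : DifferentiableAt ℝ (fun y => phiN (ψ y)) z :=
        (contDiff_phiN.differentiable (by simp) _).comp z hψz
      have h7 : HasFDerivAt (fun y => phiN (ψ y)) (fderiv ℝ (fun y => phiN (ψ y)) z)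
          (z + (0 : ℝ) • ζ) := by
        rw [hz0]
        exact h6.hasFDerivAt
      exact (h7.comp_hasDerivAt (0 : ℝ) h3).congr_deriv hζ
    have h0 : ψ (z + (0 : ℝ) • ζ) ∈ Nt := by
      rw [hz0]
      exact hmem z hz
    have h6 : (fderiv ℝ ψ z ζ).1 = 0 := by
      refine vel_zero (y := fun t => (ψ (z + t • ζ)).1) h0.1 ?_ ?_
      · exact (ContinuousLinearMap.fst ℝ (Fin 11 → ℝ) (Fin 2 → ℝ)).hasFDerivAt.comp_hasDerivAt
          (0 : ℝ) h4
      · exact (ContinuousLinearMap.fst ℝ (Fin 11 → Fin 11 → ℝ)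
          (Fin 2 → Fin 2 → ℝ)).hasFDerivAt.comp_hasDerivAt (0 : ℝ) h5
    have h7 : (fderiv ℝ ψ z ζ).2 = 0 := by
      refine vel_zero (y := fun t => (ψ (z + t • ζ)).2) h0.2 ?_ ?_
      · exact (ContinuousLinearMap.snd ℝ (Fin 11 → ℝ) (Fin 2 → ℝ)).hasFDerivAt.comp_hasDerivAt
          (0 : ℝ) h4
      · exact (ContinuousLinearMap.snd ℝ (Fin 11 → Fin 11 → ℝ)
          (Fin 2 → Fin 2 → ℝ)).hasFDerivAt.comp_hasDerivAt (0 : ℝ) h5
    exact Prod.ext h6 h7

end Pool.Agent.Lib.MP_086785_gt.CB
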