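import Pool.Agent.Lib.MP_086785_gt.CB.Stmts

/-! Project CB, module NTAN: velocities of curves in `NM`. -/

set_option autoImplicit false

namespace Pool.Agent.Lib.MP_086785_gt.CB

open Set Filter Topology Finset
open scoped ContDiff

namespace NTan

/-- a velocity of a curve of squares `y yᵀ` of unit vectors is determined by its row `k` without the
diagonal entry if `1 / 2 < y k ^ 2` -/
theorem aux {n : ℕ} (Y : ℝ → Fin n → Fin n → ℝ) (ξ : Fin n → Fin n → ℝ)
    (hY : ∀ᶠ t in 𝓝 (0 : ℝ), ∃ y : Fin n → ℝ, dot y y = 1 ∧ Y t = op y) (hd : HasDerivAt Y ξ 0)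
    (k : Fin n) (hk : 1 / 2 < Y 0 k k) (h : ∀ i, i ≠ k → ξ k i = 0) : ξ = 0 := by
  have hij : ∀ i j, HasDerivAt (fun t => Y t i j) (ξ i j) 0 := fun i j =>
    hasDerivAt_pi.1 (hasDerivAt_pi.1 hd i) j
  have hrel : ∀ i j, ξ k k * Y 0 i j + Y 0 k k * ξ i j = ξ k i * Y 0 k j + Y 0 k i * ξ k j := by
    intro i j
    have h1 := (hij k k).mul (hij i j)
    have h2 := (hij k i).mul (hij k j)
    refine h1.unique (h2.congr_of_eventuallyEq ?_)
    filter_upwards [hY] with t ht
    obtain ⟨y, _, hy⟩ := ht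
    simp only [Pi.mul_apply, hy, op]
    ring
  have htr : ∑ i, ξ i i = 0 := by
    have h1 : HasDerivAt (fun t => ∑ i, Y t i i) (∑ i, ξ i i) 0 :=
      HasDerivAt.fun_sum fun i _ => hij i i
    refine h1.unique ((hasDerivAt_const (0 : ℝ) (1 : ℝ)).congr_of_eventuallyEq ?_)
    filter_upwards [hY] with t ht
    obtain ⟨y, hy1, hy⟩ := ht
    simp only [hy, op]
    exact hy1
  have htr0 : ∑ i, Y 0 i i = 1 := by
    obtain ⟨y, hy1, hy⟩ := hY.self_of_nhds
    rw [hy]
    exact hy1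
  have hkk : ξ k k = 0 := by
    have h1 : ∑ i, (ξ k k * Y 0 i i + Y 0 k k * ξ i i) = ∑ i, (ξ k i * Y 0 k i + Y 0 k i * ξ k i) :=
      Finset.sum_congr rfl fun i _ => hrel i i
    rw [Finset.sum_add_distrib, ← Finset.mul_sum, ← Finset.mul_sum, htr, htr0] at h1
    rw [Finset.sum_eq_single k (fun i _ hi => by rw [h i hi]; ring)
      (fun hk => absurd (Finset.mem_univ k) hk)] at h1
    have h2 : ξ k k * (1 - 2 * Y 0 k k) = 0 := by linarith
    rcases mul_eq_zero.1 h2 with h3 | h3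
    · exact h3
    · exfalso
      linarith
  have hki : ∀ i, ξ k i = 0 := by
    intro i
    by_cases hi : i = k
    · rw [hi, hkk]
    · exact h i hi
  funext i j
  have h1 := hrel i j
  rw [hkk, hki i, hki j] at h1
  have h2 : Y 0 k k * ξ i j = 0 := by linarith
  rcases mul_eq_zero.1 h2 with h3 | h3
  · exfalso
    linarith
  · exact h3

end NTan

theorem stNTan : StNTan := by
  intro c ξ hc hd h0 h1 hpi
  have hp : ∀ i, piN ξ i = 0 := fun i => by
    rw [hpi]
    rfl
  have e1 : ξ.1 = 0 := by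
    refine NTan.aux (fun t => (c t).1) ξ.1 ?_ hd.fst 0 h0 ?_
    · filter_upwards [hc] with t ht
      obtain ⟨x, hx, hxt⟩ := ht
      exact ⟨x.1, hx.1, by rw [← hxt]; rfl⟩
    · intro i hi
      fin_cases i
      · exact absurd rfl hi
      · exact hp (Sum.inl 0)
      · exact hp (Sum.inr 0)
      · exact hp (Sum.inr 1)
      · exact hp (Sum.inr 2)
      · exact hp (Sum.inl 1)
      · exact hp (Sum.inl 2)
      · exact hp (Sum.inl 3)
      · exact hp (Sum.inl 4)
      · exact hp (Sum.inl 5)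
      · exact hp (Sum.inl 6)
  have e2 : ξ.2 = 0 := by
    have hY : ∀ᶠ t in 𝓝 (0 : ℝ), ∃ y : Fin 2 → ℝ, dot y y = 1 ∧ (c t).2 = op y := by
      filter_upwards [hc] with t ht
      obtain ⟨x, hx, hxt⟩ := ht
      exact ⟨x.2, hx.2, by rw [← hxt]; rfl⟩
    refine NTan.aux (fun t => (c t).2) ξ.2 hY hd.snd 1 h1 ?_
    intro i hi
    have hij : ∀ i j, HasDerivAt (fun t => (c t).2 i j) (ξ.2 i j) 0 := fun i j =>
      hasDerivAt_pi.1 (hasDerivAt_pi.1 hd.snd i) j
    have hs : ξ.2 1 0 = ξ.2 0 1 := by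
      refine (hij 1 0).unique ((hij 0 1).congr_of_eventuallyEq ?_)
      filter_upwards [hY] with t ht
      obtain ⟨y, _, hy⟩ := ht
      simp only [hy, op]
      ring
    fin_cases i
    · exact hs.trans (hp (Sum.inl 7))
    · exact absurd rfl hi
  exact Prod.ext e1 e2

end Pool.Agent.Lib.MP_086785_gt.CB
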