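import Pool.Agent.Lib.MP_086785_gt.CB.Stmts

/-!
Project CB, item PLR: stability of a nondegenerate point of corank 3.
-/

set_option autoImplicit false

namespace Pool.Agent.Lib.MP_086785_gt.CB

open Set Filter Topology Finset
open scoped ContDiff

namespace PLR

/-- the target of the Schur complement -/
abbrev V3 : Type := Fin 3 → Fin 3 → ℝ

/-- block -/
def B11 (J : JT) : Matrix (Fin 8) (Fin 8) ℝ := fun i j => J (Sum.inl i) (Sum.inl j)

/-- block -/
def B12 (J : JT) : Matrix (Fin 8) (Fin 3) ℝ := fun i j => J (Sum.inl i) (Sum.inr j)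

/-- block -/
def B21 (J : JT) : Matrix (Fin 3) (Fin 8) ℝ := fun i j => J (Sum.inr i) (Sum.inl j)

/-- block -/
def B22 (J : JT) : Matrix (Fin 3) (Fin 3) ℝ := fun i j => J (Sum.inr i) (Sum.inr j)

/-- the Schur complement times the determinant of the first block -/
def Q (J : JT) : V3 := fun i j =>
  (B11 J).det * B22 J i j - ∑ l, (∑ k, B21 J i k * (B11 J).adjugate k l) * B12 J l j

theorem det_smooth (A : JT → Matrix (Fin 8) (Fin 8) ℝ)
    (h : ∀ a b, ContDiff ℝ 1 fun J => A J a b) : ContDiff ℝ 1 fun J => (A J).det := by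
  simp only [Matrix.det_apply']
  exact ContDiff.sum fun σ _ => contDiff_const.mul (contDiff_prod fun i _ => h _ _)

theorem coord_smooth (a b : Fin 8 ⊕ Fin 3) : ContDiff ℝ 1 fun J : JT => J a b := by
  fun_prop

theorem det11_smooth : ContDiff ℝ 1 fun J => (B11 J).det :=
  det_smooth _ fun a b => coord_smooth _ _

theorem adj_smooth (k l : Fin 8) : ContDiff ℝ 1 fun J => (B11 J).adjugate k l := by
  simp only [Matrix.adjugate_apply]
  refine det_smooth _ fun a b => ?_
  by_cases h : a = l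
  · subst h
    simp only [Matrix.updateRow_self]
    exact contDiff_const
  · simp only [Matrix.updateRow_ne h]
    exact coord_smooth _ _

theorem Q_smooth : ContDiff ℝ 1 Q := by
  rw [contDiff_pi]
  intro i
  rw [contDiff_pi]
  intro j
  exact (det11_smooth.mul (coord_smooth _ _)).sub (ContDiff.sum fun l _ =>
    (ContDiff.sum fun k _ => (coord_smooth _ _).mul (adj_smooth _ _)).mul (coord_smooth _ _))

/-- derivative of a product with a coordinate vanishing at the point -/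
theorem mul_deriv (f : JT → ℝ) (hf : ContDiff ℝ 1 f) (a b : Fin 8 ⊕ Fin 3) (P : JT)
    (h : P a b = 0) (H : JT) : fderiv ℝ (fun J => f J * J a b) P H = f P * H a b := by
  have h1 : HasFDerivAt (fun J : JT => J a b)
      ((ContinuousLinearMap.proj b).comp (ContinuousLinearMap.proj (R := ℝ)
        (φ := fun _ : Fin 8 ⊕ Fin 3 => (Fin 8 ⊕ Fin 3) → ℝ) a)) P :=
    ((ContinuousLinearMap.proj b).comp (ContinuousLinearMap.proj (R := ℝ)
        (φ := fun _ : Fin 8 ⊕ Fin 3 => (Fin 8 ⊕ Fin 3) → ℝ) a)).hasFDerivAt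
  have h2 := ((hf.differentiable (by simp) P).hasFDerivAt).mul h1
  have h3 : HasFDerivAt (fun J => f J * J a b) _ P := h2
  rw [h3.fderiv, h]
  simp

/-- the base point -/
def IsBase (P : JT) : Prop := ∀ i j, P i j = if i = j ∧ i.isLeft then 1 else 0

theorem base_det {P : JT} (hP : IsBase P) : (B11 P).det = 1 := by
  have : B11 P = 1 := by
    ext i j
    simp [B11, hP _ _, Matrix.one_apply]
  rw [this, Matrix.det_one]

theorem Q_base {P : JT} (hP : IsBase P) : Q P = 0 := by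
  funext i j
  simp [Q, B22, B21, B12, hP _ _]

theorem Q_fderiv {P : JT} (hP : IsBase P) (H : JT) (i j : Fin 3) :
    fderiv ℝ Q P H i j = H (Sum.inr i) (Sum.inr j) := by
  have hd := (Q_smooth.differentiable (by simp) P).hasFDerivAt
  have h1 := (hasFDerivAt_pi'.1 ((hasFDerivAt_pi'.1 hd) i)) j
  have h2 : fderiv ℝ (fun J => Q J i j) P H = fderiv ℝ Q P H i j := by
    rw [h1.fderiv]; rfl
  rw [← h2]
  unfold Q
  have hs1 : ContDiff ℝ 1 fun J => (B11 J).det * B22 J i j := det11_smooth.mul (coord_smooth _ _)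
  have hs2 : ∀ l, ContDiff ℝ 1 fun J => (∑ k, B21 J i k * (B11 J).adjugate k l) * B12 J l j :=
    fun l => (ContDiff.sum fun k _ => (coord_smooth _ _).mul (adj_smooth _ _)).mul
      (coord_smooth _ _)
  have hs3 : ∀ l, ContDiff ℝ 1 fun J => (∑ k, B21 J i k * (B11 J).adjugate k l) :=
    fun l => (ContDiff.sum fun k _ => (coord_smooth _ _).mul (adj_smooth _ _))
  rw [fderiv_fun_sub (hs1.differentiable (by simp) P)
    ((ContDiff.sum fun l _ => hs2 l).differentiable (by simp) P)]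
  rw [fderiv_fun_sum fun l _ => (hs2 l).differentiable (by simp) P]
  have e1 : fderiv ℝ (fun J => (B11 J).det * B22 J i j) P H = H (Sum.inr i) (Sum.inr j) := by
    have := mul_deriv (fun J => (B11 J).det) det11_smooth (Sum.inr i) (Sum.inr j) P
      (by simp [hP _ _]) H
    rw [base_det hP, one_mul] at this
    exact this
  have e2 : ∀ l, fderiv ℝ (fun J => (∑ k, B21 J i k * (B11 J).adjugate k l) * B12 J l j) P H
      = 0 := by
    intro l
    have := mul_deriv (fun J => ∑ k, B21 J i k * (B11 J).adjugate k l) (hs3 l) (Sum.inl l)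
      (Sum.inr j) P (by simp [hP _ _]) H
    refine this.trans ?_
    simp [B21, hP _ _]
  simp [e1, e2]

/-! ### The kernel -/

theorem mem_ker {J : JT} {w : Fin 8 ⊕ Fin 3 → ℝ} :
    w ∈ LinearMap.ker (Matrix.mulVecLin (Matrix.of J)) ↔
      (B11 J).mulVec (fun i => w (Sum.inl i)) + (B12 J).mulVec (fun i => w (Sum.inr i)) = 0 ∧
      (B21 J).mulVec (fun i => w (Sum.inl i)) + (B22 J).mulVec (fun i => w (Sum.inr i)) = 0 := by
  rw [LinearMap.mem_ker, Matrix.mulVecLin_apply]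
  constructor
  · intro h
    constructor
    · funext i
      have := congrFun h (Sum.inl i)
      simpa [Matrix.mulVec, dotProduct, B11, B12] using this
    · funext i
      have := congrFun h (Sum.inr i)
      simpa [Matrix.mulVec, dotProduct, B21, B22] using this
  · rintro ⟨h1, h2⟩
    funext i
    rcases i with i | i
    · have := congrFun h1 i
      simpa [Matrix.mulVec, dotProduct, B11, B12] using this
    · have := congrFun h2 i
      simpa [Matrix.mulVec, dotProduct, B21, B22] using this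

theorem Q_eq (J : JT) : (Matrix.of (Q J)) = (B11 J).det • B22 J - B21 J * (B11 J).adjugate * B12 J := by
  ext i j
  simp [Q, Matrix.mul_apply]

/-- the kernel equations give the equation for the second component -/
theorem ker_eqs {J : JT} {a : Fin 8 → ℝ} {b : Fin 3 → ℝ}
    (h1 : (B11 J).mulVec a + (B12 J).mulVec b = 0)
    (h2 : (B21 J).mulVec a + (B22 J).mulVec b = 0) :
    (B11 J).det • a = - ((B11 J).adjugate * B12 J).mulVec b ∧ (Matrix.of (Q J)).mulVec b = 0 := by
  have e1 : (B11 J).det • a = - ((B11 J).adjugate * B12 J).mulVec b := by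
    have h3 := congrArg ((B11 J).adjugate.mulVec) h1
    rw [Matrix.mulVec_add, Matrix.mulVec_mulVec, Matrix.mulVec_mulVec, Matrix.adjugate_mul,
      Matrix.smul_mulVec, Matrix.one_mulVec, Matrix.mulVec_zero] at h3
    exact eq_neg_of_add_eq_zero_left h3
  refine ⟨e1, ?_⟩
  rw [Q_eq, Matrix.sub_mulVec, Matrix.smul_mulVec, Matrix.mul_assoc, ← Matrix.mulVec_mulVec,
    ← neg_eq_iff_eq_neg.2 e1, Matrix.mulVec_neg, Matrix.mulVec_smul, sub_neg_eq_add, ← smul_add,
    add_comm, h2, smul_zero]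

/-- restriction to the second component -/
noncomputable def res (J : JT) :
    LinearMap.ker (Matrix.mulVecLin (Matrix.of J)) →ₗ[ℝ] (Fin 3 → ℝ) where
  toFun w := fun i => w.1 (Sum.inr i)
  map_add' _ _ := rfl
  map_smul' _ _ := rfl

theorem res_inj {J : JT} (hd : (B11 J).det ≠ 0) : Function.Injective (res J) := by
  rw [injective_iff_map_eq_zero]
  intro w hw
  obtain ⟨h1, h2⟩ := mem_ker.1 w.2
  have h3 := (ker_eqs h1 h2).1
  have h4 : (fun i => w.1 (Sum.inr i)) = 0 := hw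
  rw [h4, Matrix.mulVec_zero, neg_zero, smul_eq_zero] at h3
  have h5 := h3.resolve_left hd
  apply Subtype.ext
  funext i
  rcases i with i | i
  · exact congrFun h5 i
  · exact congrFun h4 i

theorem kJ_le {J : JT} (hd : (B11 J).det ≠ 0) : kJ J ≤ 3 := by
  have := LinearMap.finrank_le_finrank_of_injective (res_inj hd)
  simpa [kJ] using this

theorem Q_zero {J : JT} (hd : (B11 J).det ≠ 0) (h : 3 ≤ kJ J) : Q J = 0 := by
  have h0 : Module.finrank ℝ (LinearMap.ker (Matrix.mulVecLin (Matrix.of J))) =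
      Module.finrank ℝ (Fin 3 → ℝ) := by
    rw [Module.finrank_fin_fun]
    exact le_antisymm (kJ_le hd) h
  have hsurj : Function.Surjective (res J) :=
    (LinearMap.injective_iff_surjective_of_finrank_eq_finrank h0).1 (res_inj hd)
  have hz : ∀ b : Fin 3 → ℝ, (Matrix.of (Q J)).mulVec b = 0 := by
    intro b
    obtain ⟨w, hw⟩ := hsurj b
    obtain ⟨h1, h2⟩ := mem_ker.1 w.2
    have h3 := (ker_eqs h1 h2).2
    have h4 : (fun i => w.1 (Sum.inr i)) = b := hw
    rwa [h4] at h3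
  have h5 : Matrix.of (Q J) = 0 := by
    apply Matrix.ext_of_mulVec_single
    intro j
    rw [hz, Matrix.zero_mulVec]
  exact h5

/-- the graph -/
noncomputable def sec (J : JT) : (Fin 3 → ℝ) →ₗ[ℝ] (Fin 8 ⊕ Fin 3 → ℝ) where
  toFun b := Sum.elim (-((B11 J).det⁻¹ • ((B11 J).adjugate * B12 J).mulVec b)) b
  map_add' b c := by
    funext i
    rcases i with i | i
    · simp only [Sum.elim_inl, Pi.add_apply, Matrix.mulVec_add, smul_add, Pi.neg_apply,
        Pi.smul_apply, neg_add, smul_eq_mul]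
    · rfl
  map_smul' r b := by
    funext i
    rcases i with i | i
    · simp only [Sum.elim_inl, Pi.smul_apply, Matrix.mulVec_smul, Pi.neg_apply, smul_eq_mul,
        RingHom.id_apply]
      ring
    · rfl

theorem sec_mem {J : JT} (hd : (B11 J).det ≠ 0) (hQ : Q J = 0) (b : Fin 3 → ℝ) :
    sec J b ∈ LinearMap.ker (Matrix.mulVecLin (Matrix.of J)) := by
  rw [mem_ker]
  have e1 : (fun i => sec J b (Sum.inl i)) =
      -((B11 J).det⁻¹ • ((B11 J).adjugate * B12 J).mulVec b) := rfl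
  have e2 : (fun i => sec J b (Sum.inr i)) = b := rfl
  rw [e1, e2]
  constructor
  · rw [Matrix.mulVec_neg, Matrix.mulVec_smul, Matrix.mulVec_mulVec, ← Matrix.mul_assoc,
      Matrix.mul_adjugate, Matrix.smul_mul, Matrix.one_mul, Matrix.smul_mulVec, smul_smul,
      inv_mul_cancel₀ hd, one_smul, neg_add_cancel]
  · have h3 : Matrix.of (Q J) = 0 := hQ
    rw [Q_eq, sub_eq_zero] at h3
    have h4 : (B22 J).mulVec b = (B11 J).det⁻¹ • (B21 J * (B11 J).adjugate * B12 J).mulVec b := by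
      rw [← h3, Matrix.smul_mulVec, smul_smul, inv_mul_cancel₀ hd, one_smul]
    rw [h4, Matrix.mulVec_neg, Matrix.mulVec_smul, Matrix.mulVec_mulVec, ← Matrix.mul_assoc,
      neg_add_cancel]

theorem kJ_eq {J : JT} (hd : (B11 J).det ≠ 0) (hQ : Q J = 0) : kJ J = 3 := by
  apply le_antisymm (kJ_le hd)
  have hinj : Function.Injective ((sec J).codRestrict
      (LinearMap.ker (Matrix.mulVecLin (Matrix.of J))) (sec_mem hd hQ)) := by
    intro b c h
    have h1 := congrArg (fun w => fun i => w.1 (Sum.inr i)) h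
    exact h1
  have := LinearMap.finrank_le_finrank_of_injective hinj
  simpa [kJ] using this

/-! ### The derivative at the base point -/

theorem exists_equiv (A : (Fin 9 → ℝ) →L[ℝ] JT)
    (h : ∀ ζ, (∀ i j : Fin 3, A ζ (Sum.inr i) (Sum.inr j) = 0) → ζ = 0) {P : JT}
    (hP : IsBase P) :
    ∃ L : (Fin 9 → ℝ) ≃L[ℝ] V3, (L : (Fin 9 → ℝ) →L[ℝ] V3) = (fderiv ℝ Q P).comp A := by
  let T : (Fin 9 → ℝ) →L[ℝ] V3 := (fderiv ℝ Q P).comp A
  have hT : Function.Injective T := by
    rw [injective_iff_map_eq_zero]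
    intro ζ hζ
    refine h ζ fun i j => ?_
    have h1 := congrFun (congrFun hζ i) j
    have h2 : T ζ i j = A ζ (Sum.inr i) (Sum.inr j) := Q_fderiv hP (A ζ) i j
    rw [← h2]
    exact h1
  have hdim : Module.finrank ℝ (Fin 9 → ℝ) = Module.finrank ℝ V3 := by
    rw [Module.finrank_fin_fun, Module.finrank_pi_fintype]
    simp
  let e := LinearMap.linearEquivOfInjective (T : (Fin 9 → ℝ) →ₗ[ℝ] V3) hT hdim
  exact ⟨e.toContinuousLinearEquiv, by ext; rfl⟩

end PLR

open PLR

theorem stPLR : StPLR := by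
  intro J0 r0 hr0 hJ0 hbase hinj ρ₁ hρ₁
  have hP : IsBase (J0 0) := hbase
  have hJ0a : ContDiffAt ℝ 1 J0 0 := hJ0.contDiffAt (Metric.ball_mem_nhds _ hr0)
  obtain ⟨L, hL⟩ := exists_equiv (fderiv ℝ J0 0) hinj hP
  set N : NNReal := ‖(L.symm : V3 →L[ℝ] (Fin 9 → ℝ))‖₊ with hN
  have hN0 : 0 < N := by
    rw [hN, nnnorm_pos]
    intro h0
    have h1 : L.symm (L (Pi.single 0 1)) = 0 := by
      have := congrArg (fun T : V3 →L[ℝ] (Fin 9 → ℝ) => T (L (Pi.single 0 1))) h0
      simpa using this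
    rw [L.symm_apply_apply] at h1
    have h2 := congrFun h1 0
    simp at h2
  set c : NNReal := N⁻¹ / 2 with hc
  have hc0 : 0 < c := by rw [hc]; positivity
  have hcN : c < N⁻¹ := by
    rw [hc]
    exact NNReal.half_lt_self (inv_ne_zero hN0.ne')
  -- continuity of the composed derivative
  have hQ1 : Continuous (fderiv ℝ Q) := Q_smooth.continuous_fderiv (by simp)
  have hΨ : Continuous fun p : JT × ((Fin 9 → ℝ) →L[ℝ] JT) => (fderiv ℝ Q p.1).comp p.2 :=
    (hQ1.comp continuous_fst).clm_comp continuous_snd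
  have hΨ1 : ∀ᶠ p in 𝓝 ((J0 0, fderiv ℝ J0 0) : JT × ((Fin 9 → ℝ) →L[ℝ] JT)),
      ‖(fderiv ℝ Q p.1).comp p.2 - (L : (Fin 9 → ℝ) →L[ℝ] V3)‖ < c := by
    have h1 : ContinuousAt (fun p : JT × ((Fin 9 → ℝ) →L[ℝ] JT) =>
        ‖(fderiv ℝ Q p.1).comp p.2 - (L : (Fin 9 → ℝ) →L[ℝ] V3)‖) (J0 0, fderiv ℝ J0 0) :=
      (hΨ.sub continuous_const).norm.continuousAt
    refine h1.eventually_lt continuousAt_const ?_
    simp only [hL, sub_self, norm_zero]
    exact_mod_cast hc0
  have hdet : ∀ᶠ p in 𝓝 ((J0 0, fderiv ℝ J0 0) : JT × ((Fin 9 → ℝ) →L[ℝ] JT)),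
      (0 : ℝ) < (B11 p.1).det := by
    have h1 : ContinuousAt (fun p : JT × ((Fin 9 → ℝ) →L[ℝ] JT) => (B11 p.1).det)
        (J0 0, fderiv ℝ J0 0) := (det11_smooth.continuous.comp continuous_fst).continuousAt
    refine continuousAt_const.eventually_lt h1 ?_
    simp only [base_det hP]
    exact one_pos
  obtain ⟨η, hη, hη1⟩ := Metric.eventually_nhds_iff.1 (hΨ1.and hdet)
  have hnear : ∀ (J' : JT) (A' : (Fin 9 → ℝ) →L[ℝ] JT), ‖J' - J0 0‖ < η →
      ‖A' - fderiv ℝ J0 0‖ < η →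
      ‖(fderiv ℝ Q J').comp A' - (L : (Fin 9 → ℝ) →L[ℝ] V3)‖ < c ∧ (0 : ℝ) < (B11 J').det := by
    intro J' A' h1 h2
    refine hη1 (y := (J', A')) ?_
    rw [Prod.dist_eq, max_lt_iff, dist_eq_norm, dist_eq_norm]
    exact ⟨h1, h2⟩
  -- the radius
  have hcont0 : ContinuousAt J0 0 := hJ0a.continuousAt
  have hcont1 : ContinuousAt (fderiv ℝ J0) 0 :=
    (hJ0a.fderiv_right (m := 0) (by simp)).continuousAt
  have hev : ∀ᶠ z in 𝓝 (0 : Fin 9 → ℝ), ‖J0 z - J0 0‖ < η / 2 ∧
      ‖fderiv ℝ J0 z - fderiv ℝ J0 0‖ < η / 2 := by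
    have h1 := Metric.tendsto_nhds.1 hcont0 (η / 2) (by positivity)
    have h2 := Metric.tendsto_nhds.1 hcont1 (η / 2) (by positivity)
    filter_upwards [h1, h2] with z hz1 hz2
    rw [dist_eq_norm] at hz1 hz2
    exact ⟨hz1, hz2⟩
  obtain ⟨ρ', hρ', hρ2⟩ := Metric.eventually_nhds_iff_ball.1 hev
  set ρ : ℝ := min ρ' (min ρ₁ r0) with hρdef
  have hρ : 0 < ρ := lt_min hρ' (lt_min hρ₁ hr0)
  have hρρ' : ρ ≤ ρ' := min_le_left _ _
  -- the size of the perturbation
  have hQc : ∀ᶠ J' in 𝓝 (J0 0), ‖Q J'‖ < c * (ρ / 2) := by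
    have h1 : ContinuousAt (fun J' => ‖Q J'‖) (J0 0) :=
      Q_smooth.continuous.norm.continuousAt
    refine h1.eventually_lt continuousAt_const ?_
    simp only [Q_base hP, norm_zero]
    have : (0 : ℝ) < c := by exact_mod_cast hc0
    positivity
  obtain ⟨δ', hδ', hδ1⟩ := Metric.eventually_nhds_iff.1 hQc
  refine ⟨ρ, hρ, (min_le_right _ _).trans (min_le_left _ _),
    (min_le_right _ _).trans (min_le_right _ _), min (η / 4) (δ' / 2), by positivity, ?_⟩
  intro J hJ hJδ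
  have hball : ∀ z ∈ Metric.ball (0 : Fin 9 → ℝ) ρ, ‖J z - J0 0‖ < η ∧
      ‖fderiv ℝ J z - fderiv ℝ J0 0‖ < η := by
    intro z hz
    obtain ⟨h1, h2⟩ := hJδ z hz
    obtain ⟨h3, h4⟩ := hρ2 z (Metric.ball_subset_ball hρρ' hz)
    have h5 : min (η / 4) (δ' / 2) ≤ η / 4 := min_le_left _ _
    constructor
    · calc ‖J z - J0 0‖ = ‖(J z - J0 z) + (J0 z - J0 0)‖ := by rw [sub_add_sub_cancel]
        _ ≤ ‖J z - J0 z‖ + ‖J0 z - J0 0‖ := norm_add_le _ _
        _ < η := by linarith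
    · calc ‖fderiv ℝ J z - fderiv ℝ J0 0‖
          = ‖(fderiv ℝ J z - fderiv ℝ J0 z) + (fderiv ℝ J0 z - fderiv ℝ J0 0)‖ := by
            rw [sub_add_sub_cancel]
        _ ≤ ‖fderiv ℝ J z - fderiv ℝ J0 z‖ + ‖fderiv ℝ J0 z - fderiv ℝ J0 0‖ := norm_add_le _ _
        _ < η := by linarith
  have hdetz : ∀ z ∈ Metric.ball (0 : Fin 9 → ℝ) ρ, (B11 (J z)).det ≠ 0 := fun z hz =>
    (hnear _ _ (hball z hz).1 (hball z hz).2).2.ne'
  have hdiff : ∀ z ∈ Metric.ball (0 : Fin 9 → ℝ) ρ, DifferentiableAt ℝ J z := fun z hz =>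
    (hJ.contDiffAt (Metric.isOpen_ball.mem_nhds hz)).differentiableAt (by simp)
  have hFd : ∀ z ∈ Metric.ball (0 : Fin 9 → ℝ) ρ,
      HasFDerivAt (fun z => Q (J z)) ((fderiv ℝ Q (J z)).comp (fderiv ℝ J z)) z := fun z hz =>
    (Q_smooth.differentiable (by simp) (J z)).hasFDerivAt.comp z (hdiff z hz).hasFDerivAt
  have happ : ApproximatesLinearOn (fun z => Q (J z)) (L : (Fin 9 → ℝ) →L[ℝ] V3)
      (Metric.ball 0 ρ) c := by
    intro x hx y hy
    refine (convex_ball (0 : Fin 9 → ℝ) ρ).norm_image_sub_le_of_norm_fderiv_le'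
      (fun z hz => (hFd z hz).differentiableAt) (fun z hz => ?_) hy hx
    rw [(hFd z hz).fderiv]
    exact (hnear _ _ (hball z hz).1 (hball z hz).2).1.le
  refine ⟨?_, fun z hz => kJ_le (hdetz z hz), fun z hz z' hz' h1 h2 => ?_⟩
  · have hsub : Metric.closedBall (0 : Fin 9 → ℝ) (ρ / 2) ⊆ Metric.ball 0 ρ :=
      Metric.closedBall_subset_ball (by linarith)
    have hsurj := happ.surjOn_closedBall_of_nonlinearRightInverse L.toNonlinearRightInverse
      (by positivity : (0 : ℝ) ≤ ρ / 2) hsub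
    have hz0 : (0 : V3) ∈ Metric.closedBall (Q (J 0))
        (((L.toNonlinearRightInverse.nnnorm : ℝ)⁻¹ - c) * (ρ / 2)) := by
      have h0 : (0 : Fin 9 → ℝ) ∈ Metric.ball (0 : Fin 9 → ℝ) ρ := Metric.mem_ball_self hρ
      have h1 := (hJδ 0 h0).1
      have h2 : ‖Q (J 0)‖ < c * (ρ / 2) := by
        refine hδ1 ?_
        rw [dist_eq_norm]
        have : min (η / 4) (δ' / 2) ≤ δ' / 2 := min_le_right _ _
        linarith
      have h3 : ((L.toNonlinearRightInverse.nnnorm : ℝ)⁻¹ - c) = c := by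
        have h4 : (L.toNonlinearRightInverse.nnnorm : ℝ) = N := rfl
        rw [h4, hc]
        push_cast
        ring
      rw [h3, Metric.mem_closedBall, dist_eq_norm, zero_sub, norm_neg]
      exact h2.le
    obtain ⟨z, hz, hQz⟩ := hsurj hz0
    exact ⟨z, hsub hz, kJ_eq (hdetz z (hsub hz)) hQz⟩
  · have hio := happ.injOn (Or.inr hcN)
    refine hio hz hz' ?_
    simp only [Q_zero (hdetz z hz) h1, Q_zero (hdetz z' hz') h2]

end Pool.Agent.Lib.MP_086785_gt.CB
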