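import Pool.Agent.Lib.MP_086785_gt.CB.Stmts

/-!
Project CB: the condition `PiInj` for maps to `NM`.
-/

set_option autoImplicit false

namespace Pool.Agent.Lib.MP_086785_gt.CB

open Set Filter Topology Finset
open scoped ContDiff

theorem stPi (h1 : StTan) (h2 : StNTan) (h3 : StVel) : StPi := by
  intro H ε hH hmaps hε x hx η α hη hY hZ hpi
  obtain ⟨X, hXs, hX0, hXd, hXM⟩ := h1 x hx η hη
  have hvel := (h3 x η X hX0 (Eventually.of_forall hXM) hXd).2
  have hHd : Differentiable ℝ H := hH.differentiable (by simp)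
  -- the curve
  have hlin : HasDerivAt (fun t : ℝ => (t * ε⁻¹) • α) (ε⁻¹ • α) 0 := by
    have := ((hasDerivAt_id (0 : ℝ)).mul_const ε⁻¹).smul_const α
    simpa using this
  have hpair : HasDerivAt (fun t : ℝ => (phi (X t), (t * ε⁻¹) • α)) (dphi x η, ε⁻¹ • α) 0 :=
    hvel.prodMk hlin
  have h00 : (phi (X 0), ((0 : ℝ) * ε⁻¹) • α) = (phi x, (0 : Fin 2 → ℝ)) := by
    rw [hX0]; simp
  have hHf : HasFDerivAt H (fderiv ℝ H (phi x, 0)) (phi (X 0), ((0 : ℝ) * ε⁻¹) • α) := by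
    rw [h00]; exact (hHd _).hasFDerivAt
  have hc : HasDerivAt (fun t : ℝ => H (phi (X t), (t * ε⁻¹) • α))
      (fderiv ℝ H (phi x, 0) (dphi x η, ε⁻¹ • α)) 0 := by
    have := hHf.comp_hasDerivAt (0 : ℝ) hpair
    exact this
  -- the differential of the restriction
  have hres : fderiv ℝ (fun p => H (p, (0 : Fin 2 → ℝ))) (phi x) =
      (fderiv ℝ H (phi x, 0)).comp (ContinuousLinearMap.inl ℝ EE (Fin 2 → ℝ)) := by
    have hi : HasFDerivAt (fun p : EE => (p, (0 : Fin 2 → ℝ)))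
        (ContinuousLinearMap.inl ℝ EE (Fin 2 → ℝ)) (phi x) :=
      hasFDerivAt_prodMk_left (phi x) (0 : Fin 2 → ℝ)
    exact ((hHd (phi x, 0)).hasFDerivAt.comp (phi x) hi).fderiv
  have hvec : fderiv ℝ (fun p => H (p, (0 : Fin 2 → ℝ))) (phi x) (dphi x η) +
      ∑ j, α j • (ε⁻¹ • fderiv ℝ H (phi x, 0) (0, Pi.single j 1)) =
      fderiv ℝ H (phi x, 0) (dphi x η, ε⁻¹ • α) := by
    rw [hres]
    have e1 : ((dphi x η, ε⁻¹ • α) : EE × (Fin 2 → ℝ)) =
        (dphi x η, 0) + ∑ j, α j • (ε⁻¹ • ((0 : EE), (Pi.single j 1 : Fin 2 → ℝ))) := by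
      refine Prod.ext ?_ ?_
      · simp [Prod.fst_sum]
      · ext i
        simp [Prod.snd_sum, Fin.sum_univ_two]
        fin_cases i <;> simp [mul_comm]
    rw [e1, map_add, map_sum]
    simp only [map_smul]
    rfl
  have hgoal := h2 (fun t => H (phi (X t), (t * ε⁻¹) • α)) _
    (Eventually.of_forall fun t => hmaps ⟨⟨X t, hXM t, rfl⟩, mem_univ _⟩) hc
    (by
      show 1 / 2 < (H (phi (X 0), ((0 : ℝ) * ε⁻¹) • α)).1 0 0
      rw [h00]; exact hY)
    (by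
      show 1 / 2 < (H (phi (X 0), ((0 : ℝ) * ε⁻¹) • α)).2 1 1
      rw [h00]; exact hZ)
    (by
      rw [← hvec]; exact hpi)
  exact hvec.trans hgoal

end Pool.Agent.Lib.MP_086785_gt.CB
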