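import Pool.Agent.Lib.MP_086785_gt.CB.Stmts

/-! Project CB: the chart `psi`. -/

set_option autoImplicit false

namespace Pool.Agent.Lib.MP_086785_gt.CB

open Set Filter Topology Finset
open scoped ContDiff

namespace Psi

variable {n : ℕ}

/-- the normalised square -/
noncomputable def nsq (y : Fin n → ℝ) : Fin n → Fin n → ℝ := (dot y y)⁻¹ • op y

theorem dot_self_nonneg (y : Fin n → ℝ) : 0 ≤ dot y y :=
  Finset.sum_nonneg fun i _ => mul_self_nonneg _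

theorem dot_self_ge (y : Fin n → ℝ) (i : Fin n) : y i * y i ≤ dot y y :=
  Finset.single_le_sum (f := fun i => y i * y i) (fun i _ => mul_self_nonneg _)
    (Finset.mem_univ i)

theorem nsq_smul (c : ℝ) (hc : c ≠ 0) (y : Fin n → ℝ) : nsq (c • y) = nsq y := by
  unfold nsq
  rw [op_smul, dot_smul_left, dot_smul_right, smul_smul]
  congr 1
  by_cases h : dot y y = 0
  · simp [h]
  · field_simp

theorem nsq_of_one (y : Fin n → ℝ) (h : dot y y = 1) : nsq y = op y := by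
  simp [nsq, h]

theorem psi_eq (z : Fin 9 → ℝ) : psi z = (nsq (cy z), nsq (cu z), nsq (cv z)) := rfl

theorem contDiffOn_nsq {X : Type} [NormedAddCommGroup X] [NormedSpace ℝ X] (s : Set X)
    (y : X → Fin n → ℝ) (hy : ContDiffOn ℝ ∞ y s) (h0 : ∀ x ∈ s, dot (y x) (y x) ≠ 0) :
    ContDiffOn ℝ ∞ (fun x => nsq (y x)) s := by
  have hc : ∀ i, ContDiffOn ℝ ∞ (fun x => y x i) s := contDiffOn_pi.1 hy
  have hd : ContDiffOn ℝ ∞ (fun x => dot (y x) (y x)) s := by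
    unfold dot
    exact ContDiffOn.sum fun i _ => (hc i).mul (hc i)
  refine (hd.inv h0).smul ?_
  refine contDiffOn_pi.2 fun i => contDiffOn_pi.2 fun j => ?_
  exact (hc i).mul (hc j)

theorem lt_half {z : Fin 9 → ℝ} {ρ : ℝ} (hρ : ρ ≤ 1 / 2)
    (hz : z ∈ Metric.ball (0 : Fin 9 → ℝ) ρ) (i : Fin 9) :
    |z i| < 1 / 2 := by
  have h1 : ‖z‖ < ρ := by simpa using hz
  have h2 := norm_le_pi_norm z i
  rw [Real.norm_eq_abs] at h2
  linarith

theorem den_pos {z : Fin 9 → ℝ} (h7 : |z 7| < 1 / 2) (h8 : |z 8| < 1 / 2) :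
    0 < 1 - z 8 ^ 2 * (z 7 ^ 2 + 1) := by
  have a7 : z 7 ^ 2 < 1 / 4 := by
    have := abs_nonneg (z 7)
    rw [← sq_abs]; nlinarith
  have a8 : z 8 ^ 2 < 1 / 4 := by
    have := abs_nonneg (z 8)
    rw [← sq_abs]; nlinarith
  nlinarith [sq_nonneg (z 7), sq_nonneg (z 8)]

theorem dot_cy_pos (z : Fin 9 → ℝ) : 0 < dot (cy z) (cy z) := by
  have := dot_self_ge (cy z) 0
  have h : cy z 0 = 1 := rfl
  rw [h] at this
  linarith

theorem dot_cu (z : Fin 9 → ℝ) : dot (cu z) (cu z) = z 7 ^ 2 + 1 := by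
  simp [dot, cu, Fin.sum_univ_succ]
  ring

theorem dot_cv (z : Fin 9 → ℝ) : dot (cv z) (cv z) = 1 + z 8 ^ 2 * (z 7 ^ 2 + 1) := by
  simp [dot, cv, Fin.sum_univ_succ]
  ring

theorem dot_cu_pos (z : Fin 9 → ℝ) : 0 < dot (cu z) (cu z) := by
  rw [dot_cu]; positivity

theorem dot_cv_pos (z : Fin 9 → ℝ) : 0 < dot (cv z) (cv z) := by
  rw [dot_cv]; positivity

theorem contDiffOn_psi : ContDiffOn ℝ ∞ psi (Metric.ball 0 (1 / 2)) := by
  have hcu : ContDiffOn ℝ ∞ cu (Metric.ball 0 (1 / 2)) := by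
    refine contDiffOn_pi.2 fun i => ?_
    apply ContDiff.contDiffOn
    fin_cases i <;> simp [cu] <;> fun_prop
  have hcv : ContDiffOn ℝ ∞ cv (Metric.ball 0 (1 / 2)) := by
    refine contDiffOn_pi.2 fun i => ?_
    apply ContDiff.contDiffOn
    fin_cases i <;> simp [cv] <;> fun_prop
  have hcy : ContDiffOn ℝ ∞ cy (Metric.ball 0 (1 / 2)) := by
    refine contDiffOn_pi.2 fun i => ?_
    by_cases hi : i = 2
    · subst hi
      refine ContDiffOn.div (f := fun x : Fin 9 → ℝ => -((x 8 * x 7 - x 0 * x 8) +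
        (x 8 + x 0 * (x 8 * x 7)) * (x 8 ^ 2 * (x 7 ^ 2 + 1))))
        (g := fun x : Fin 9 → ℝ => 1 - x 8 ^ 2 * (x 7 ^ 2 + 1)) ?_ ?_ ?_
      · apply ContDiff.contDiffOn; fun_prop
      · apply ContDiff.contDiffOn; fun_prop
      · intro x hx
        exact (den_pos (lt_half le_rfl hx 7) (lt_half le_rfl hx 8)).ne'
    · apply ContDiff.contDiffOn
      fin_cases i
      all_goals first | exact absurd rfl hi | (simp [cy]; try fun_prop)
  exact (contDiffOn_nsq _ _ hcy fun x _ => (dot_cy_pos x).ne').prodMk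
    ((contDiffOn_nsq _ _ hcu fun x _ => (dot_cu_pos x).ne').prodMk
      (contDiffOn_nsq _ _ hcv fun x _ => (dot_cv_pos x).ne'))

/-- `S (cy z) (cv z) = 0` and the converse -/
theorem S_cv_iff (z : Fin 9 → ℝ) (h : 0 < 1 - z 8 ^ 2 * (z 7 ^ 2 + 1)) (y : Fin 11 → ℝ)
    (h0 : y 0 = 1) (h1 : y 1 = z 0) (h5 : y 5 = z 1) (h6 : y 6 = z 2) (h7 : y 7 = z 3)
    (h8 : y 8 = z 4) (h9 : y 9 = z 5) (h10 : y 10 = z 6) : S y (cv z) = 0 ↔ y = cy z := by
  have e : S y (cv z) = ![y 3 + z 1 * (z 8 * z 7) - z 2 * z 8 + z 3 * (z 8 ^ 2 * (z 7 ^ 2 + 1)) +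
      z 5 * ((z 8 * z 7) * (z 8 ^ 2 * (z 7 ^ 2 + 1))) - z 6 * (z 8 * (z 8 ^ 2 * (z 7 ^ 2 + 1))),
      y 4 + z 1 * z 8 + z 2 * (z 8 * z 7) + z 4 * (z 8 ^ 2 * (z 7 ^ 2 + 1)) +
      z 5 * (z 8 * (z 8 ^ 2 * (z 7 ^ 2 + 1))) + z 6 * ((z 8 * z 7) * (z 8 ^ 2 * (z 7 ^ 2 + 1))),
      y 2 * (1 - z 8 ^ 2 * (z 7 ^ 2 + 1)) + z 8 * z 7 - z 0 * z 8 +
      z 8 * (z 8 ^ 2 * (z 7 ^ 2 + 1)) + z 0 * ((z 8 * z 7) * (z 8 ^ 2 * (z 7 ^ 2 + 1)))] := by
    funext i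
    fin_cases i
    · simp [S, LL, mono, cv, h0, h1, h5, h6, h7, h8, h9, h10]; ring
    · simp [S, LL, mono, cv, h0, h1, h5, h6, h7, h8, h9, h10]; ring
    · simp [S, LL, mono, cv, h0, h1, h5, h6, h7, h8, h9, h10]; ring
  rw [e]
  constructor
  · intro hs
    have e0 := congrFun hs 0
    have e1 := congrFun hs 1
    have e2 := congrFun hs 2
    simp at e0 e1 e2
    have c2 : y 2 = -((z 8 * z 7 - z 0 * z 8) + (z 8 + z 0 * (z 8 * z 7)) *
        (z 8 ^ 2 * (z 7 ^ 2 + 1))) / (1 - z 8 ^ 2 * (z 7 ^ 2 + 1)) := by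
      rw [eq_div_iff h.ne']
      linear_combination e2
    have c3 : y 3 = -((z 1 * (z 8 * z 7) - z 2 * z 8) + z 3 * (z 8 ^ 2 * (z 7 ^ 2 + 1)) +
      (z 5 * (z 8 * z 7) - z 6 * z 8) * (z 8 ^ 2 * (z 7 ^ 2 + 1))) := by
      linear_combination e0
    have c4 : y 4 = -((z 1 * z 8 + z 2 * (z 8 * z 7)) + z 4 * (z 8 ^ 2 * (z 7 ^ 2 + 1)) +
      (z 5 * z 8 + z 6 * (z 8 * z 7)) * (z 8 ^ 2 * (z 7 ^ 2 + 1))) := by
      linear_combination e1
    funext i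
    fin_cases i
    · exact h0
    · exact h1
    · exact c2
    · exact c3
    · exact c4
    · exact h5
    · exact h6
    · exact h7
    · exact h8
    · exact h9
    · exact h10
  · intro hs
    have c2 : y 2 = -((z 8 * z 7 - z 0 * z 8) + (z 8 + z 0 * (z 8 * z 7)) *
        (z 8 ^ 2 * (z 7 ^ 2 + 1))) / (1 - z 8 ^ 2 * (z 7 ^ 2 + 1)) := by rw [hs]; rfl
    have c3 : y 3 = -((z 1 * (z 8 * z 7) - z 2 * z 8) + z 3 * (z 8 ^ 2 * (z 7 ^ 2 + 1)) +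
      (z 5 * (z 8 * z 7) - z 6 * z 8) * (z 8 ^ 2 * (z 7 ^ 2 + 1))) := by rw [hs]; rfl
    have c4 : y 4 = -((z 1 * z 8 + z 2 * (z 8 * z 7)) + z 4 * (z 8 ^ 2 * (z 7 ^ 2 + 1)) +
      (z 5 * z 8 + z 6 * (z 8 * z 7)) * (z 8 ^ 2 * (z 7 ^ 2 + 1))) := by rw [hs]; rfl
    rw [eq_div_iff h.ne'] at c2
    funext i
    fin_cases i
    · simp
      linear_combination c3
    · simp
      linear_combination c4
    · simp
      linear_combination c2

theorem S_cy (z : Fin 9 → ℝ) (h : 0 < 1 - z 8 ^ 2 * (z 7 ^ 2 + 1)) : S (cy z) (cv z) = 0 :=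
  (S_cv_iff z h (cy z) rfl rfl rfl rfl rfl rfl rfl rfl).2 rfl

/-- the lift of `psi z` -/
noncomputable def lift (z : Fin 9 → ℝ) : XX :=
  ((√(dot (cy z) (cy z)))⁻¹ • cy z, (√(dot (cu z) (cu z)))⁻¹ • cu z,
    (√(dot (cv z) (cv z)))⁻¹ • ![1, z 8 * √(dot (cu z) (cu z))])

theorem dot_norm_smul (y : Fin n → ℝ) (h : 0 < dot y y) :
    dot ((√(dot y y))⁻¹ • y) ((√(dot y y))⁻¹ • y) = 1 := by
  rw [dot_smul_left, dot_smul_right]
  have h1 := Real.mul_self_sqrt h.le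
  have h2 : √(dot y y) ≠ 0 := (Real.sqrt_pos.2 h).ne'
  field_simp
  rw [Real.sq_sqrt h.le]

theorem vv_lift (z : Fin 9 → ℝ) : vv (lift z) = (√(dot (cv z) (cv z)))⁻¹ • cv z := by
  have h2 : √(dot (cu z) (cu z)) ≠ 0 := (Real.sqrt_pos.2 (dot_cu_pos z)).ne'
  funext i
  fin_cases i
  · simp [vv, vec, lift, cv]
  · simp [vv, vec, lift, cv, cu] at h2 ⊢
    field_simp
  · simp [vv, vec, lift, cv, cu] at h2 ⊢
    field_simp

theorem lift_mem (z : Fin 9 → ℝ) (h : 0 < 1 - z 8 ^ 2 * (z 7 ^ 2 + 1)) : lift z ∈ Mt := by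
  refine ⟨dot_norm_smul _ (dot_cy_pos z), dot_norm_smul _ (dot_cu_pos z), ?_, ?_⟩
  · have h1 : dot (![1, z 8 * √(dot (cu z) (cu z))] : Fin 2 → ℝ) ![1, z 8 * √(dot (cu z) (cu z))]
        = dot (cv z) (cv z) := by
      have := Real.mul_self_sqrt (dot_cu_pos z).le
      rw [dot_cv, ← dot_cu]
      simp only [dot, Fin.sum_univ_two] at this ⊢
      simp only [Matrix.cons_val_zero, Matrix.cons_val_one]
      linear_combination z 8 ^ 2 * this
    show dot ((√(dot (cv z) (cv z)))⁻¹ • _) ((√(dot (cv z) (cv z)))⁻¹ • _) = 1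
    rw [← h1]
    exact dot_norm_smul _ (by rw [h1]; exact dot_cv_pos z)
  · rw [vv_lift]
    show S ((√(dot (cy z) (cy z)))⁻¹ • cy z) _ = 0
    rw [S_smul, S_smul_v, S_cy z h, smul_zero, smul_zero]

theorem phi_lift (z : Fin 9 → ℝ) : phi (lift z) = psi z := by
  have key : ∀ (m : ℕ) (y : Fin m → ℝ), 0 < dot y y → op ((√(dot y y))⁻¹ • y) = nsq y := by
    intro m y hy
    rw [op_smul, nsq, inv_pow, Real.sq_sqrt hy.le]
  rw [psi_eq]
  refine Prod.ext ?_ (Prod.ext ?_ ?_)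
  · exact key _ _ (dot_cy_pos z)
  · exact key _ _ (dot_cu_pos z)
  · show op (vv (lift z)) = _
    rw [vv_lift]
    exact key _ _ (dot_cv_pos z)

theorem lift_zero : lift 0 = x0 := by
  have h1 : cy (0 : Fin 9 → ℝ) = ye := by
    funext i
    fin_cases i <;> simp [cy, ye]
  have h2 : cu (0 : Fin 9 → ℝ) = ![0, 1] := by
    funext i
    fin_cases i <;> simp [cu]
  have d1 : dot (cy (0 : Fin 9 → ℝ)) (cy 0) = 1 := by
    rw [h1]
    simp [dot, ye]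
  have d2 : dot (cu (0 : Fin 9 → ℝ)) (cu 0) = 1 := by rw [dot_cu]; simp
  have d3 : dot (cv (0 : Fin 9 → ℝ)) (cv 0) = 1 := by rw [dot_cv]; simp
  refine Prod.ext ?_ (Prod.ext ?_ ?_)
  · show (√(dot (cy (0 : Fin 9 → ℝ)) (cy 0)))⁻¹ • cy 0 = ye
    rw [d1, h1, Real.sqrt_one, inv_one, one_smul]
  · show (√(dot (cu (0 : Fin 9 → ℝ)) (cu 0)))⁻¹ • cu 0 = ![0, 1]
    rw [d2, h2, Real.sqrt_one, inv_one, one_smul]
  · show (√(dot (cv (0 : Fin 9 → ℝ)) (cv 0)))⁻¹ • ![1, (0 : Fin 9 → ℝ) 8 *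
      √(dot (cu (0 : Fin 9 → ℝ)) (cu 0))] = ![1, 0]
    rw [d3, Real.sqrt_one, inv_one, one_smul]
    simp

/-- the inverse of `psi` -/
noncomputable def chi (p : EE) : Fin 9 → ℝ :=
  ![p.1 0 1 / p.1 0 0, p.1 0 5 / p.1 0 0, p.1 0 6 / p.1 0 0, p.1 0 7 / p.1 0 0, p.1 0 8 / p.1 0 0,
    p.1 0 9 / p.1 0 0, p.1 0 10 / p.1 0 0, p.2.1 0 1 / p.2.1 1 1, p.2.2 0 2 / p.2.2 0 0]

theorem chi_psi (z : Fin 9 → ℝ) : chi (psi z) = z := by
  have d1 := (dot_cy_pos z).ne'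
  have d2 := (dot_cu_pos z).ne'
  have d3 := (dot_cv_pos z).ne'
  have c1 : ∀ j, (nsq (cy z)) 0 j / (nsq (cy z)) 0 0 = cy z j := by
    intro j
    have h : cy z 0 = 1 := rfl
    simp only [nsq, Pi.smul_apply, op, smul_eq_mul, h]
    field_simp
  have c2 : (nsq (cu z)) 0 1 / (nsq (cu z)) 1 1 = cu z 0 := by
    have h : cu z 1 = 1 := rfl
    simp only [nsq, Pi.smul_apply, op, smul_eq_mul, h]
    field_simp
  have c3 : (nsq (cv z)) 0 2 / (nsq (cv z)) 0 0 = cv z 2 := by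
    have h : cv z 0 = 1 := rfl
    simp only [nsq, Pi.smul_apply, op, smul_eq_mul, h]
    field_simp
  rw [psi_eq]
  funext i
  fin_cases i
  · exact c1 1
  · exact c1 5
  · exact c1 6
  · exact c1 7
  · exact c1 8
  · exact c1 9
  · exact c1 10
  · exact c2
  · exact c3

theorem psi_pos (z : Fin 9 → ℝ) : 0 < (psi z).1 0 0 ∧ 0 < (psi z).2.1 1 1 ∧
    0 < (psi z).2.2 0 0 := by
  have d1 := dot_cy_pos z
  have d2 := dot_cu_pos z
  have d3 := dot_cv_pos z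
  have h1 : cy z 0 = 1 := rfl
  have h2 : cu z 1 = 1 := rfl
  have h3 : cv z 0 = 1 := rfl
  rw [psi_eq]
  simp only [nsq, Pi.smul_apply, op, smul_eq_mul, h1, h2, h3, mul_one]
  exact ⟨inv_pos.2 d1, inv_pos.2 d2, inv_pos.2 d3⟩

/-- the domain of `chi` -/
def dom : Set EE := {p | 0 < p.1 0 0 ∧ 0 < p.2.1 1 1 ∧ 0 < p.2.2 0 0}

theorem isOpen_dom : IsOpen dom := by
  have c1 : Continuous fun p : EE => p.1 0 0 := by fun_prop
  have c2 : Continuous fun p : EE => p.2.1 1 1 := by fun_prop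
  have c3 : Continuous fun p : EE => p.2.2 0 0 := by fun_prop
  have o1 : IsOpen {p : EE | 0 < p.1 0 0} := isOpen_lt continuous_const c1
  have o2 : IsOpen {p : EE | 0 < p.2.1 1 1} := isOpen_lt continuous_const c2
  have o3 : IsOpen {p : EE | 0 < p.2.2 0 0} := isOpen_lt continuous_const c3
  exact o1.inter (o2.inter o3)

theorem contDiffOn_chi : ContDiffOn ℝ ∞ chi dom := by
  have a1 : ∀ i j, ContDiffOn ℝ ∞ (fun p : EE => p.1 i j) dom := fun i j =>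
    ContDiff.contDiffOn (by fun_prop)
  have a2 : ∀ i j, ContDiffOn ℝ ∞ (fun p : EE => p.2.1 i j) dom := fun i j =>
    ContDiff.contDiffOn (by fun_prop)
  have a3 : ∀ i j, ContDiffOn ℝ ∞ (fun p : EE => p.2.2 i j) dom := fun i j =>
    ContDiff.contDiffOn (by fun_prop)
  refine contDiffOn_pi.2 fun i => ?_
  fin_cases i
  · exact (a1 0 1).div (a1 0 0) fun p hp => hp.1.ne'
  · exact (a1 0 5).div (a1 0 0) fun p hp => hp.1.ne'
  · exact (a1 0 6).div (a1 0 0) fun p hp => hp.1.ne'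
  · exact (a1 0 7).div (a1 0 0) fun p hp => hp.1.ne'
  · exact (a1 0 8).div (a1 0 0) fun p hp => hp.1.ne'
  · exact (a1 0 9).div (a1 0 0) fun p hp => hp.1.ne'
  · exact (a1 0 10).div (a1 0 0) fun p hp => hp.1.ne'
  · exact (a2 0 1).div (a2 1 1) fun p hp => hp.2.1.ne'
  · exact (a3 0 2).div (a3 0 0) fun p hp => hp.2.2.ne'

theorem psi_chi {p : EE} (hp : p ∈ MM) (hd : p ∈ dom)
    (hz : chi p ∈ Metric.ball (0 : Fin 9 → ℝ) (1 / 2)) : psi (chi p) = p := by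
  obtain ⟨x, hx, rfl⟩ := hp
  obtain ⟨hy, hu, ha, hS⟩ := hx
  set y := x.1 with hyd
  set u := x.2.1 with hud
  set v := vv x with hvd
  have hv1 : dot v v = 1 := by rw [hvd, vv, dot_vec _ _ _ hu, ha]
  have hv12 : v 1 * u 1 = v 2 * u 0 := by
    simp [hvd, vv, vec, hud]; ring
  obtain ⟨p1, p2, p3⟩ := hd
  have q1 : (phi x).1 = op y := rfl
  have q2 : (phi x).2.1 = op u := rfl
  have q3 : (phi x).2.2 = op v := rfl
  rw [q1] at p1
  rw [q2] at p2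
  rw [q3] at p3
  have y0 : y 0 ≠ 0 := by
    intro h; simp [op, h] at p1
  have u1 : u 1 ≠ 0 := by
    intro h; simp [op, h] at p2
  have v0 : v 0 ≠ 0 := by
    intro h; simp [op, h] at p3
  set z := chi (phi x) with hzd
  have zy : ∀ j, y 0 * y j / (y 0 * y 0) = (y 0)⁻¹ * y j := by
    intro j; field_simp
  have z0 : z 0 = (y 0)⁻¹ * y 1 := zy 1
  have z1 : z 1 = (y 0)⁻¹ * y 5 := zy 5
  have z2 : z 2 = (y 0)⁻¹ * y 6 := zy 6
  have z3 : z 3 = (y 0)⁻¹ * y 7 := zy 7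
  have z4 : z 4 = (y 0)⁻¹ * y 8 := zy 8
  have z5 : z 5 = (y 0)⁻¹ * y 9 := zy 9
  have z6 : z 6 = (y 0)⁻¹ * y 10 := zy 10
  have z7 : z 7 = (u 1)⁻¹ * u 0 := by
    show u 0 * u 1 / (u 1 * u 1) = _
    field_simp
  have z8 : z 8 = (v 0)⁻¹ * v 2 := by
    show v 0 * v 2 / (v 0 * v 0) = _
    field_simp
  have ecu : cu z = (u 1)⁻¹ • u := by
    funext i
    fin_cases i
    · simp [cu, z7]
    · simp [cu, u1]
  have ecv : cv z = (v 0)⁻¹ • v := by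
    funext i
    fin_cases i
    · simp [cv, v0]
    · simp [cv, z8, z7]
      field_simp
      linear_combination - hv12
    · simp [cv, z8]
  have ecy : cy z = (y 0)⁻¹ • y := by
    symm
    refine (S_cv_iff z (den_pos (lt_half le_rfl hz 7) (lt_half le_rfl hz 8)) _ ?_ ?_ ?_ ?_ ?_ ?_
      ?_ ?_).1 ?_
    · simp [y0]
    · simp [z0]
    · simp [z1]
    · simp [z2]
    · simp [z3]
    · simp [z4]
    · simp [z5]
    · simp [z6]
    · rw [ecv, S_smul, S_smul_v, hS, smul_zero, smul_zero]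
  rw [psi_eq, ecy, ecu, ecv, nsq_smul _ (inv_ne_zero y0), nsq_smul _ (inv_ne_zero u1),
    nsq_smul _ (inv_ne_zero v0), nsq_of_one _ hy, nsq_of_one _ hu, nsq_of_one _ hv1]
  rfl

end Psi

theorem stPsi : StPsi := by
  refine ⟨Psi.contDiffOn_psi, ?_, ?_, ?_, ?_, ?_⟩
  · rw [← Psi.phi_lift, Psi.lift_zero]
  · intro z hz
    exact ⟨Psi.lift z, Psi.lift_mem z (Psi.den_pos (Psi.lt_half le_rfl hz 7)
      (Psi.lt_half le_rfl hz 8)), Psi.phi_lift z⟩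
  · intro z _ z' _ h
    rw [← Psi.chi_psi z, h, Psi.chi_psi]
  · intro z hz
    have h1 : DifferentiableAt ℝ psi z :=
      (Psi.contDiffOn_psi.contDiffAt (Metric.isOpen_ball.mem_nhds hz)).differentiableAt (by simp)
    have h2 : DifferentiableAt ℝ Psi.chi (psi z) :=
      (Psi.contDiffOn_chi.contDiffAt (Psi.isOpen_dom.mem_nhds (Psi.psi_pos z))).differentiableAt
        (by simp)
    have h3 : fderiv ℝ (Psi.chi ∘ psi) z = (fderiv ℝ Psi.chi (psi z)).comp (fderiv ℝ psi z) :=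
      fderiv_comp z h2 h1
    have h4 : Psi.chi ∘ psi = id := funext Psi.chi_psi
    rw [h4, fderiv_id] at h3
    intro a b hab
    have := congrArg (fun L : (Fin 9 → ℝ) →L[ℝ] (Fin 9 → ℝ) => L (a - b)) h3
    simp only [ContinuousLinearMap.id_apply, ContinuousLinearMap.comp_apply, map_sub, hab,
      sub_self] at this
    exact sub_eq_zero.1 this
  · intro ρ hρ0 hρ
    refine ⟨Psi.dom ∩ Psi.chi ⁻¹' Metric.ball 0 ρ,
      Psi.contDiffOn_chi.continuousOn.isOpen_inter_preimage Psi.isOpen_dom Metric.isOpen_ball, ?_⟩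
    ext p
    constructor
    · rintro ⟨hp, hd, hz⟩
      exact ⟨Psi.chi p, hz, Psi.psi_chi hp hd (Metric.ball_subset_ball hρ hz)⟩
    · rintro ⟨z, hz, rfl⟩
      have hz' := Metric.ball_subset_ball hρ hz
      refine ⟨⟨Psi.lift z, Psi.lift_mem z (Psi.den_pos (Psi.lt_half le_rfl hz' 7)
        (Psi.lt_half le_rfl hz' 8)), Psi.phi_lift z⟩, Psi.psi_pos z, ?_⟩
      show Psi.chi (psi z) ∈ Metric.ball (0 : Fin 9 → ℝ) ρ
      rw [Psi.chi_psi]
      exact hz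

end Pool.Agent.Lib.MP_086785_gt.CB
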