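import Pool.Agent.Lib.MP_086785_gt.CB.Stmts

/-! Project CB, module PSIT: tangent vectors in the chart. -/

set_option autoImplicit false

namespace Pool.Agent.Lib.MP_086785_gt.CB

open Set Filter Topology Finset
open scoped ContDiff

namespace PsiT

/-- a globally smooth curve in a chart with a given velocity -/
theorem curve {E : Type} [NormedAddCommGroup E] [NormedSpace ℝ E] (ψ : (Fin 9 → ℝ) → E)
    (ρ : ℝ) (hψ : ContDiffOn ℝ ∞ ψ (Metric.ball 0 ρ)) (z : Fin 9 → ℝ)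
    (hz : z ∈ Metric.ball (0 : Fin 9 → ℝ) ρ) (ζ : Fin 9 → ℝ) :
    ∃ b : ℝ → Fin 9 → ℝ, b 0 = z ∧ (∀ t, b t ∈ Metric.ball (0 : Fin 9 → ℝ) ρ) ∧
      ContDiff ℝ ∞ (fun t => ψ (b t)) ∧ HasDerivAt (fun t => ψ (b t)) (fderiv ℝ ψ z ζ) 0 := by
  have hz' : ‖z‖ < ρ := by simpa using hz
  obtain ⟨r, hr0, hr⟩ : ∃ r : ℝ, 0 < r ∧ r * ‖ζ‖ < ρ - ‖z‖ := by
    have h1 : 0 < ρ - ‖z‖ := sub_pos.2 hz'
    have h2 : 0 < ‖ζ‖ + 1 := by positivity
    refine ⟨(ρ - ‖z‖) / (‖ζ‖ + 1), div_pos h1 h2, ?_⟩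
    rw [div_mul_eq_mul_div, div_lt_iff₀ h2]
    nlinarith
  refine ⟨fun t => z + (r * Real.sin (t / r)) • ζ, ?_, ?_, ?_, ?_⟩
  · simp
  · intro t
    rw [mem_ball_zero_iff]
    calc ‖z + (r * Real.sin (t / r)) • ζ‖ ≤ ‖z‖ + ‖(r * Real.sin (t / r)) • ζ‖ := norm_add_le _ _
      _ = ‖z‖ + r * |Real.sin (t / r)| * ‖ζ‖ := by
        rw [norm_smul, Real.norm_eq_abs, abs_mul, abs_of_pos hr0]
      _ ≤ ‖z‖ + r * 1 * ‖ζ‖ := by
        have := Real.abs_sin_le_one (t / r)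
        gcongr
      _ < ρ := by linarith
  · refine contDiffOn_univ.1 (hψ.comp ?_ ?_)
    · fun_prop
    · intro t _
      rw [mem_ball_zero_iff]
      calc ‖z + (r * Real.sin (t / r)) • ζ‖ ≤ ‖z‖ + ‖(r * Real.sin (t / r)) • ζ‖ := norm_add_le _ _
        _ = ‖z‖ + r * |Real.sin (t / r)| * ‖ζ‖ := by
          rw [norm_smul, Real.norm_eq_abs, abs_mul, abs_of_pos hr0]
        _ ≤ ‖z‖ + r * 1 * ‖ζ‖ := by
          have := Real.abs_sin_le_one (t / r)
          gcongr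
        _ < ρ := by linarith
  · have hs : HasDerivAt (fun t : ℝ => r * Real.sin (t / r)) 1 0 := by
      have h1 : HasDerivAt (fun t : ℝ => t / r) (1 / r) 0 := (hasDerivAt_id 0).div_const r
      have h2 := (h1.sin).const_mul r
      refine h2.congr_deriv ?_
      rw [zero_div, Real.cos_zero]
      field_simp
    have hb : HasDerivAt (fun t : ℝ => z + (r * Real.sin (t / r)) • ζ) ζ 0 := by
      refine ((hs.smul_const ζ).const_add z).congr_deriv ?_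
      rw [one_smul]
    have hd : HasFDerivAt ψ (fderiv ℝ ψ z) (z + (r * Real.sin (0 / r)) • ζ) := by
      have h0 : z + (r * Real.sin (0 / r)) • ζ = z := by simp
      rw [h0]
      exact ((hψ.contDiffAt (Metric.isOpen_ball.mem_nhds hz)).differentiableAt
        (by simp)).hasFDerivAt
    exact hd.comp_hasDerivAt 0 hb

end PsiT

theorem stPsiT (h1 : StPsi) (h2 : StDimT) (h3 : StVel) (h4 : StLift) : StPsiT := by
  intro z hz x hx hxz
  obtain ⟨hs, -, hM, -, hinj, -⟩ := h1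
  have key : ∀ ζ, ∃ η, TT x η ∧ dphi x η = fderiv ℝ psi z ζ := by
    intro ζ
    obtain ⟨b, hb0, hb, hc, hd⟩ := PsiT.curve psi (1 / 2) hs z hz ζ
    obtain ⟨X, hX, hX0, hXt⟩ := h4 x hx (fun t => psi (b t)) ⟨hc, by
      change psi (b 0) = phi x
      rw [hb0, hxz], Eventually.of_forall fun t => by
      obtain ⟨x', hx', h'⟩ := hM (b t) (hb t)
      exact ⟨x', hx', h'⟩⟩
    have hXd : HasDerivAt X (deriv X 0) 0 :=
      (hX.differentiable (by simp) 0).hasDerivAt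
    obtain ⟨hT, hp⟩ := h3 x (deriv X 0) X hX0 (hXt.mono fun t ht => ht.1) hXd
    refine ⟨deriv X 0, hT, hp.unique (hd.congr_of_eventuallyEq (hXt.mono fun t ht => ht.2))⟩
  refine ⟨key, fun η hη => ?_⟩
  have hle : LinearMap.range (fderiv ℝ psi z : (Fin 9 → ℝ) →ₗ[ℝ] EE) ≤
      (TS x).map (dphiL x) := by
    rintro _ ⟨ζ, rfl⟩
    obtain ⟨η', h', h''⟩ := key ζ
    exact ⟨η', h', h''⟩
  have heq := Submodule.eq_of_le_of_finrank_le hle (by
    calc Module.finrank ℝ ((TS x).map (dphiL x)) ≤ Module.finrank ℝ (TS x) :=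
          Submodule.finrank_map_le _ _
      _ = 9 := h2 x hx
      _ = Module.finrank ℝ (LinearMap.range (fderiv ℝ psi z : (Fin 9 → ℝ) →ₗ[ℝ] EE)) := by
        rw [LinearMap.finrank_range_of_inj (hinj z hz)]
        simp)
  have hm : dphi x η ∈ (TS x).map (dphiL x) := ⟨η, hη, rfl⟩
  rw [← heq] at hm
  obtain ⟨ζ, hζ⟩ := hm
  exact ⟨ζ, hζ⟩

end Pool.Agent.Lib.MP_086785_gt.CB
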