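import Pool.Agent.Lib.MP_086785_gt.CB.Stmts

/-! Project CB: the binary cubics determine `y`. -/

set_option autoImplicit false

namespace Pool.Agent.Lib.MP_086785_gt.CB

open Set Filter Topology Finset
open scoped ContDiff

namespace Quad

theorem S_comb (y : Fin 11 → ℝ) (v w : Fin 3 → ℝ) (s t : ℝ) :
    S y (s • v + t • w) = s ^ 3 • S y v + (s ^ 2 * t) • S1 y v w + (s * t ^ 2) • S1 y w v +
      t ^ 3 • S y w := by
  funext i
  fin_cases i <;> simp [S, S1, LL, mono, mono1] <;> ring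

theorem vec_comb (u a b : Fin 2 → ℝ) (ha : dot a a = 1) :
    vec u b = (dot a b) • vec u a + (dot (perp a) b) • vec u (perp a) := by
  have h : a 0 * a 0 + a 1 * a 1 = 1 := by simpa [dot, Fin.sum_univ_two] using ha
  funext i
  fin_cases i
  · simp [vec, dot, perp, Fin.sum_univ_two]
    linear_combination (-b 0) * h
  · simp [vec, dot, perp, Fin.sum_univ_two]
    linear_combination (-b 1 * u 0) * h
  · simp [vec, dot, perp, Fin.sum_univ_two]
    linear_combination (-b 1 * u 1) * h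

theorem S_zero_plane (y : Fin 11 → ℝ) (u a : Fin 2 → ℝ) (ha : dot a a = 1)
    (h1 : S y (vec u a) = 0) (h2 : S1 y (vec u a) (vec u (perp a)) = 0)
    (h3 : S1 y (vec u (perp a)) (vec u a) = 0) (h4 : S y (vec u (perp a)) = 0)
    (b : Fin 2 → ℝ) : S y (vec u b) = 0 := by
  rw [vec_comb u a b ha, S_comb, h1, h2, h3, h4]
  simp

theorem form0 (y : Fin 11 → ℝ) (u : Fin 2 → ℝ) (hu : u 0 * u 0 + u 1 * u 1 = 1) (p q : ℝ) :
    S y (vec u ![p, q]) 0 = y 3 * p ^ 3 + (y 5 * u 0 - y 6 * u 1) * (p ^ 2 * q) +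
      y 7 * (p * q ^ 2) + (y 9 * u 0 - y 10 * u 1) * q ^ 3 := by
  simp [S, LL, mono, vec]
  linear_combination (y 7 * p * q ^ 2 + (y 9 * u 0 - y 10 * u 1) * q ^ 3) * hu

theorem form1 (y : Fin 11 → ℝ) (u : Fin 2 → ℝ) (hu : u 0 * u 0 + u 1 * u 1 = 1) (p q : ℝ) :
    S y (vec u ![p, q]) 1 = y 4 * p ^ 3 + (y 5 * u 1 + y 6 * u 0) * (p ^ 2 * q) +
      y 8 * (p * q ^ 2) + (y 9 * u 1 + y 10 * u 0) * q ^ 3 := by
  simp [S, LL, mono, vec]
  linear_combination (y 8 * p * q ^ 2 + (y 9 * u 1 + y 10 * u 0) * q ^ 3) * hu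

theorem form2 (y : Fin 11 → ℝ) (u : Fin 2 → ℝ) (hu : u 0 * u 0 + u 1 * u 1 = 1) (p q : ℝ) :
    S y (vec u ![p, q]) 2 = y 2 * (p ^ 3 - p * q ^ 2) + (y 0 * u 0 - y 1 * u 1) * (p ^ 2 * q) +
      (y 0 * u 1 + y 1 * u 0) * q ^ 3 := by
  simp [S, LL, mono, vec]
  linear_combination (- y 2 * p * q ^ 2 + (y 0 * u 1 + y 1 * u 0) * q ^ 3) * hu

theorem rot_zero (u0 u1 a b : ℝ) (hu : u0 * u0 + u1 * u1 = 1) (h1 : a * u0 - b * u1 = 0)
    (h2 : a * u1 + b * u0 = 0) : a = 0 ∧ b = 0 :=
  ⟨by linear_combination (-a) * hu + u0 * h1 + u1 * h2,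
    by linear_combination (-b) * hu - u1 * h1 + u0 * h2⟩

theorem cubic_zero (c0 c1 c2 c3 : ℝ)
    (h : ∀ p q : ℝ, c0 * p ^ 3 + c1 * (p ^ 2 * q) + c2 * (p * q ^ 2) + c3 * q ^ 3 = 0) :
    c0 = 0 ∧ c1 = 0 ∧ c2 = 0 ∧ c3 = 0 := by
  have h1 := h 1 0
  have h2 := h 0 1
  have h3 := h 1 1
  have h4 := h 1 (-1)
  norm_num at h1 h2 h3 h4
  refine ⟨h1, ?_, ?_, h2⟩ <;> linarith

/-- the equations for the coefficients -/
theorem coef_zero (y : Fin 11 → ℝ) (u : Fin 2 → ℝ) (hu : dot u u = 1)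
    (h : ∀ b : Fin 2 → ℝ, S y (vec u b) = 0) : y = 0 := by
  have hu' : u 0 * u 0 + u 1 * u 1 = 1 := by simpa [dot, Fin.sum_univ_two] using hu
  have key : ∀ (p q : ℝ) (i : Fin 3), S y (vec u ![p, q]) i = 0 := fun p q i => by
    rw [h]; rfl
  obtain ⟨b1, b2, b3, b4⟩ := cubic_zero _ _ _ _ fun p q => (form0 y u hu' p q).symm.trans (key p q 0)
  obtain ⟨c1, c2, c3, c4⟩ := cubic_zero _ _ _ _ fun p q => (form1 y u hu' p q).symm.trans (key p q 1)
  obtain ⟨d1, d2, d3, d4⟩ := cubic_zero (y 2) (y 0 * u 0 - y 1 * u 1) (- y 2)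
    (y 0 * u 1 + y 1 * u 0) fun p q => by
      rw [← (form2 y u hu' p q).symm.trans (key p q 2)]; ring
  obtain ⟨e1, e2⟩ := rot_zero _ _ _ _ hu' b2 c2
  obtain ⟨e3, e4⟩ := rot_zero _ _ _ _ hu' b4 c4
  obtain ⟨e5, e6⟩ := rot_zero _ _ _ _ hu' d2 d4
  funext i
  fin_cases i
  · exact e5
  · exact e6
  · exact d1
  · exact b1
  · exact c1
  · exact e1
  · exact e2
  · exact b3
  · exact c3
  · exact e3
  · exact e4

end Quad

theorem stQuad : StQuad := by
  intro y u a hu ha h1 h2 h3 h4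
  exact Quad.coef_zero y u hu (Quad.S_zero_plane y u a ha h1 h2 h3 h4)

namespace Quad

theorem cont_mono {X : Type} [TopologicalSpace X] {f : X → Fin 3 → ℝ} (hf : Continuous f) :
    Continuous fun x => mono (f x) := by
  have h : ∀ i, Continuous fun x => f x i := fun i => (continuous_apply i).comp hf
  refine continuous_pi fun i => ?_
  have h0 := h 0
  have h1 := h 1
  have h2 := h 2
  fin_cases i <;> simp only [mono, Fin.isValue, Fin.zero_eta, Fin.mk_one, Fin.reduceFinMk,
    Matrix.cons_val_zero, Matrix.cons_val_one, Matrix.cons_val] <;> fun_prop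

theorem cont_mono1 {X : Type} [TopologicalSpace X] {f g : X → Fin 3 → ℝ} (hf : Continuous f)
    (hg : Continuous g) : Continuous fun x => mono1 (f x) (g x) := by
  have h : ∀ i, Continuous fun x => f x i := fun i => (continuous_apply i).comp hf
  have k : ∀ i, Continuous fun x => g x i := fun i => (continuous_apply i).comp hg
  refine continuous_pi fun i => ?_
  have h0 := h 0
  have h1 := h 1
  have h2 := h 2
  have k0 := k 0
  have k1 := k 1
  have k2 := k 2
  fin_cases i <;> simp only [mono1, Fin.isValue, Fin.zero_eta, Fin.mk_one, Fin.reduceFinMk,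
    Matrix.cons_val_zero, Matrix.cons_val_one, Matrix.cons_val] <;> fun_prop

theorem cont_LL {X : Type} [TopologicalSpace X] {f : X → Fin 11 → ℝ} {g : X → Fin 6 → ℝ}
    (hf : Continuous f) (hg : Continuous g) : Continuous fun x => LL (f x) (g x) := by
  have h : ∀ i, Continuous fun x => f x i := fun i => (continuous_apply i).comp hf
  have k : ∀ i, Continuous fun x => g x i := fun i => (continuous_apply i).comp hg
  have h0 := h 0
  have h1 := h 1
  have h2 := h 2
  have h3 := h 3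
  have h4 := h 4
  have h5 := h 5
  have h6 := h 6
  have h7 := h 7
  have h8 := h 8
  have h9 := h 9
  have h10 := h 10
  have k0 := k 0
  have k1 := k 1
  have k2 := k 2
  have k3 := k 3
  have k4 := k 4
  have k5 := k 5
  refine continuous_pi fun i => ?_
  fin_cases i <;> simp only [LL, Fin.isValue, Fin.zero_eta, Fin.mk_one, Fin.reduceFinMk,
    Matrix.cons_val_zero, Matrix.cons_val_one, Matrix.cons_val] <;> fun_prop

theorem cont_vec {X : Type} [TopologicalSpace X] {f g : X → Fin 2 → ℝ} (hf : Continuous f)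
    (hg : Continuous g) : Continuous fun x => vec (f x) (g x) := by
  have h : ∀ i, Continuous fun x => f x i := fun i => (continuous_apply i).comp hf
  have k : ∀ i, Continuous fun x => g x i := fun i => (continuous_apply i).comp hg
  refine continuous_pi fun i => ?_
  have h0 := h 0
  have h1 := h 1
  have k0 := k 0
  have k1 := k 1
  fin_cases i <;> simp only [vec, Fin.isValue, Fin.zero_eta, Fin.mk_one, Fin.reduceFinMk,
    Matrix.cons_val_zero, Matrix.cons_val_one, Matrix.cons_val] <;> fun_prop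

theorem cont_perp {X : Type} [TopologicalSpace X] {f : X → Fin 2 → ℝ} (hf : Continuous f) :
    Continuous fun x => perp (f x) := by
  have h : ∀ i, Continuous fun x => f x i := fun i => (continuous_apply i).comp hf
  refine continuous_pi fun i => ?_
  have h0 := h 0
  have h1 := h 1
  fin_cases i <;> simp only [perp, Fin.isValue, Fin.zero_eta, Fin.mk_one, Fin.reduceFinMk,
    Matrix.cons_val_zero, Matrix.cons_val_one, Matrix.cons_val] <;> fun_prop

theorem cont_vv : Continuous vv :=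
  cont_vec (continuous_fst.comp continuous_snd) (continuous_snd.comp continuous_snd)

theorem cont_wv : Continuous wv :=
  cont_vec (continuous_fst.comp continuous_snd)
    (cont_perp (continuous_snd.comp continuous_snd))

theorem cont_S {X : Type} [TopologicalSpace X] {f : X → Fin 11 → ℝ} {g : X → Fin 3 → ℝ}
    (hf : Continuous f) (hg : Continuous g) : Continuous fun x => S (f x) (g x) :=
  cont_LL hf (cont_mono hg)

theorem cont_S1 {X : Type} [TopologicalSpace X] {f : X → Fin 11 → ℝ} {g k : X → Fin 3 → ℝ}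
    (hf : Continuous f) (hg : Continuous g) (hk : Continuous k) :
    Continuous fun x => S1 (f x) (g x) (k x) :=
  cont_LL hf (cont_mono1 hg hk)

end Quad

theorem stQuadC (h : StMt) : StQuadC := by
  have hcont : Continuous fun x : XX => max ‖S1 x.1 (vv x) (wv x)‖
      (max ‖S1 x.1 (wv x) (vv x)‖ ‖S x.1 (wv x)‖) :=
    (Quad.cont_S1 continuous_fst Quad.cont_vv Quad.cont_wv).norm.max
      ((Quad.cont_S1 continuous_fst Quad.cont_wv Quad.cont_vv).norm.max
        (Quad.cont_S continuous_fst Quad.cont_wv).norm)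
  rcases Mt.eq_empty_or_nonempty with he | hne
  · exact ⟨1, one_pos, fun x hx => by rw [he] at hx; exact hx.elim⟩
  obtain ⟨x1, hx1, hmin⟩ := h.1.exists_isMinOn hne hcont.continuousOn
  refine ⟨_, ?_, fun x hx => hmin hx⟩
  by_contra hc
  rw [gt_iff_lt, not_lt] at hc
  have e1 : ‖S1 x1.1 (vv x1) (wv x1)‖ ≤ 0 := (le_max_left _ _).trans hc
  have e2 : ‖S1 x1.1 (wv x1) (vv x1)‖ ≤ 0 :=
    ((le_max_left _ _).trans (le_max_right _ _)).trans hc
  have e3 : ‖S x1.1 (wv x1)‖ ≤ 0 := ((le_max_right _ _).trans (le_max_right _ _)).trans hc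
  have hy : x1.1 = 0 := stQuad x1.1 x1.2.1 x1.2.2 hx1.2.1 hx1.2.2.1 hx1.2.2.2
    (norm_le_zero_iff.1 e1) (norm_le_zero_iff.1 e2) (norm_le_zero_iff.1 e3)
  have := hx1.1
  rw [hy, dot_zero_left] at this
  exact zero_ne_one this

end Pool.Agent.Lib.MP_086785_gt.CB
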