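import Pool.Agent.Lib.MP_086785_gt.CB.Stmts

/-!
Project CB: quotients of compact submanifolds by finite groups.
-/

set_option autoImplicit false

namespace Pool.Agent.Lib.MP_086785_gt.CB

open Set Filter Topology
open scoped ContDiff

namespace Quot

/-- a map with injective strict derivative is injective near the point -/
theorem injOn_nhds {E F : Type} [NormedAddCommGroup E] [NormedSpace ℝ E] [FiniteDimensional ℝ E]
    [NormedAddCommGroup F] [NormedSpace ℝ F] (f : E → F) (f' : E →L[ℝ] F) (z : E)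
    (hf : HasStrictFDerivAt f f' z) (hinj : Function.Injective f') :
    ∃ U : Set E, IsOpen U ∧ z ∈ U ∧ InjOn f U := by
  obtain ⟨K, hK0, hK⟩ := LinearMap.exists_antilipschitzWith (f' : E →ₗ[ℝ] F)
    (LinearMap.ker_eq_bot.2 hinj)
  have hK' : (0 : ℝ) < K := hK0
  have h1 := hf.isLittleO.def (c := (1 / (2 * K) : ℝ)) (by positivity)
  rw [nhds_prod_eq] at h1
  obtain ⟨t, ht, h2⟩ := Filter.Eventually.exists_mem h1
  obtain ⟨u, hu, v, hv, huv⟩ := Filter.mem_prod_iff.1 ht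
  obtain ⟨U, hU, hUo, hzU⟩ := mem_nhds_iff.1 (inter_mem hu hv)
  refine ⟨U, hUo, hzU, ?_⟩
  intro x hx y hy hxy
  have h3 := h2 (x, y) (huv ⟨(hU hx).1, (hU hy).2⟩)
  simp only at h3
  rw [hxy, sub_self, zero_sub, norm_neg] at h3
  have h4 : ‖x - y‖ ≤ K * ‖f' (x - y)‖ := by
    have h5 := hK.le_mul_dist x y
    rw [dist_eq_norm, dist_eq_norm] at h5
    have h6 : (f' : E →ₗ[ℝ] F) x - (f' : E →ₗ[ℝ] F) y = f' (x - y) := by
      rw [map_sub]
      rfl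
    rw [h6] at h5
    exact h5
  have h7 : ‖x - y‖ ≤ 1 / 2 * ‖x - y‖ := by
    calc ‖x - y‖ ≤ K * ‖f' (x - y)‖ := h4
      _ ≤ K * (1 / (2 * K) * ‖x - y‖) := by gcongr
      _ = 1 / 2 * ‖x - y‖ := by field_simp
  have h8 := norm_nonneg (x - y)
  have h9 : ‖x - y‖ = 0 := by linarith
  exact sub_eq_zero.1 (norm_eq_zero.1 h9)

end Quot

/-- Module QUOT. -/
theorem stQuot : StQuot := by
  intro X E _ _ _ _ _ _ n M p ι _ g hM hsub hp hgM hpg hfib himm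
  rintro _ ⟨x, hx, rfl⟩
  obtain ⟨ψ, V, hpar, z, hz, rfl⟩ := hsub x hx
  have hpar0 := hpar
  obtain ⟨hVo, hψ, hψi, hψd, hψU⟩ := hpar
  have hF : ContDiffOn ℝ ∞ (fun y => p (ψ y)) V := hp.comp_contDiffOn hψ
  have hFz : ContDiffAt ℝ ∞ (fun y => p (ψ y)) z := hF.contDiffAt (hVo.mem_nhds hz)
  obtain ⟨U0, hU0, hzU0, hinj⟩ := Quot.injOn_nhds (fun y => p (ψ y)) _ z
    (hFz.hasStrictFDerivAt (by simp)) (himm ψ V hpar0 z hz)
  refine ⟨fun y => p (ψ y), V ∩ U0, ⟨hVo.inter hU0, hF.mono inter_subset_left,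
    hinj.mono inter_subset_right, fun w hw => himm ψ V hpar0 w hw.1, ?_⟩, ⟨z, ⟨hz, hzU0⟩, rfl⟩⟩
  intro W hW hWo
  obtain ⟨U, hU, hWU⟩ := hψU W (hW.trans inter_subset_left) hWo
  have hC : IsCompact (M ∩ (⋃ i, g i '' U)ᶜ) := by
    apply hM.inter_right
    apply IsOpen.isClosed_compl
    exact isOpen_iUnion fun i => (g i).isOpenMap U hU
  have himg : ∀ i, g i '' (M ∩ U) = M ∩ g i '' U := by
    intro i
    rw [image_inter (g i).injective, hgM i]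
  refine ⟨(p '' (M ∩ (⋃ i, g i '' U)ᶜ))ᶜ, (hC.image hp.continuous).isClosed.isOpen_compl, ?_⟩
  have hFW : (fun y => p (ψ y)) '' W = p '' (M ∩ U) := by
    rw [← hWU, image_image]
  rw [hFW]
  apply Subset.antisymm
  · rintro _ ⟨a, ha, rfl⟩
    refine ⟨⟨a, ha.1, rfl⟩, ?_⟩
    rintro ⟨c, hc, hca⟩
    obtain ⟨i, hi⟩ := hfib a ha.1 c hc.1 hca.symm
    apply hc.2
    rw [mem_iUnion]
    exact ⟨i, a, ha.2, hi.symm⟩
  · rintro _ ⟨⟨m, hm, rfl⟩, hmC⟩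
    have h1 : m ∈ ⋃ i, g i '' U := by
      by_contra h
      exact hmC ⟨m, ⟨hm, h⟩, rfl⟩
    obtain ⟨i, hi⟩ := mem_iUnion.1 h1
    have h2 : m ∈ g i '' (M ∩ U) := by
      rw [himg]
      exact ⟨hm, hi⟩
    obtain ⟨a, ha, rfl⟩ := h2
    exact ⟨a, ha, (hpg i a ha.1).symm⟩

end Pool.Agent.Lib.MP_086785_gt.CB
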