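import Pool.Agent.Lib.MP_086785_gt.CB.Stmts

/-!
Project CB: local inverse functions (module REP).
-/

set_option autoImplicit false

namespace Pool.Agent.Lib.MP_086785_gt.CB

open Set Filter Topology Finset
open scoped ContDiff

theorem stRep (h : StGlo) : StRep := by
  intro σ hσ h0 hd
  have hsd : HasStrictDerivAt σ (deriv σ 0) 0 :=
    hσ.contDiffAt.hasStrictDerivAt (by simp)
  have hsf := hsd.hasStrictFDerivAt_equiv hd
  set F : OpenPartialHomeomorph ℝ ℝ := hsf.toOpenPartialHomeomorph σ with hF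
  have hFc : (F : ℝ → ℝ) = σ := hsf.toOpenPartialHomeomorph_coe
  have h0s : (0 : ℝ) ∈ F.source := hsf.mem_toOpenPartialHomeomorph_source
  have h0t : (0 : ℝ) ∈ F.target := by
    have h1 := hsf.image_mem_toOpenPartialHomeomorph_target
    rwa [h0] at h1
  have hs0 : F.symm 0 = 0 := by
    have h1 := F.left_inv h0s
    rw [hFc, h0] at h1
    exact h1
  have hdc : Continuous (deriv σ) := hσ.continuous_deriv (by simp)
  have hV : IsOpen {x | deriv σ x ≠ 0} := isOpen_ne_fun hdc continuous_const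
  have hU : F.target ∩ F.symm ⁻¹' {x | deriv σ x ≠ 0} ∈ 𝓝 (0 : ℝ) := by
    refine inter_mem (F.open_target.mem_nhds h0t) ?_
    refine (F.continuousAt_symm h0t).preimage_mem_nhds ?_
    rw [hs0]
    exact hV.mem_nhds hd
  obtain ⟨τ, hτ, hτe⟩ := h ℝ F.symm _ hU (by
    rintro y ⟨hy, hy'⟩
    refine ContDiffAt.contDiffWithinAt ?_
    refine F.contDiffAt_symm_deriv (f₀' := deriv σ (F.symm y)) hy' hy ?_ ?_
    · rw [hFc]
      exact (hσ.differentiable (by simp)).differentiableAt.hasDerivAt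
    · rw [hFc]
      exact hσ.contDiffAt)
  refine ⟨τ, hτ, ?_, ?_⟩
  · rw [hτe.self_of_nhds, hs0]
  · filter_upwards [hτe, F.open_target.mem_nhds h0t] with s hs hst
    rw [hs]
    have h1 := F.right_inv hst
    rwa [hFc] at h1

end Pool.Agent.Lib.MP_086785_gt.CB
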