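import Pool.Agent.Lib.MP_086785_gt.CB.Stmts

/-! Project CB, module SB: no points of type `Σ^{1,1,1}`. -/

set_option autoImplicit false

namespace Pool.Agent.Lib.MP_086785_gt.CB

open Set Filter Topology Finset
open scoped ContDiff

theorem stSB (h1 : StBoot) (h2 : StEndJ) (h3 : StQuadC) (h4 : StEst1) (h5 : StLift) (h6 : StVel)
    (h7 : StArc) : StSB := by
  obtain ⟨CB, hCB, δB, hδB, hB⟩ := h1
  obtain ⟨CE, hCE, hE⟩ := h2
  obtain ⟨c, hc, hQ⟩ := h3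
  obtain ⟨C1, hC1, δ1, hδ1, hF⟩ := h4
  obtain ⟨δ, hδ, hδB', hδ1', hδC, hδE⟩ : ∃ δ > 0, δ ≤ δB ∧ δ ≤ δ1 ∧ CB * δ ≤ 1 ∧
      CE * (CB * δ) < c := by
    refine ⟨min (min δB δ1) (min (1 / CB) (c / (2 * (CE * CB)))), by positivity,
      (min_le_left _ _).trans (min_le_left _ _), (min_le_left _ _).trans (min_le_right _ _),
      ?_, ?_⟩
    · have h : min (min δB δ1) (min (1 / CB) (c / (2 * (CE * CB)))) ≤ 1 / CB :=
        (min_le_right _ _).trans (min_le_left _ _)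
      calc CB * _ ≤ CB * (1 / CB) := mul_le_mul_of_nonneg_left h hCB.le
        _ = 1 := by field_simp
    · have h : min (min δB δ1) (min (1 / CB) (c / (2 * (CE * CB)))) ≤ c / (2 * (CE * CB)) :=
        (min_le_right _ _).trans (min_le_right _ _)
      have hpos : 0 < CE * CB := mul_pos hCE hCB
      calc CE * (CB * _) = (CE * CB) * _ := by ring
        _ ≤ (CE * CB) * (c / (2 * (CE * CB))) := mul_le_mul_of_nonneg_left h hpos.le
        _ = c / 2 := by field_simp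
        _ < c := by linarith
  refine ⟨δ, hδ, fun f g hg hgb hfg => ?_⟩
  rw [Set.eq_empty_iff_forall_notMem]
  rintro p ⟨hp, γ, ⟨hγs, hγ0, hγM⟩, hd, hO⟩
  obtain ⟨x, hx, rfl⟩ := hp
  obtain ⟨X, hXs, hX0, hX⟩ := h5 x hx γ ⟨hγs, hγ0, hγM⟩
  have hgx : ∀ i ≤ 3, ‖iteratedFDeriv ℝ i g (phi x)‖ ≤ δ := hgb (phi x) ⟨x, hx, rfl⟩
  have hXd : HasDerivAt X (deriv X 0) 0 :=
    ((hXs.differentiable (by simp)) 0).hasDerivAt
  obtain ⟨hT, hPd⟩ := h6 x (deriv X 0) X hX0 (hX.mono fun t ht => ht.1) hXd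
  have hγd : HasDerivAt γ (dphi x (deriv X 0)) 0 :=
    hPd.congr_of_eventuallyEq (hX.mono fun t ht => ht.2.symm)
  have hne : deriv X 0 ≠ 0 := by
    intro h
    apply hd
    rw [hγd.deriv, h, dphi_zero]
  -- the order of vanishing
  have hO' : (fun t => f0 (γ t) + g (γ t) - (f0 (phi x) + g (phi x))) =O[𝓝 0]
      fun t : ℝ => t ^ 4 := by
    refine hO.congr' ?_ (EventuallyEq.refl _ _)
    filter_upwards [hγM] with t ht
    rw [hfg ht, hfg ⟨x, hx, rfl⟩]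
  have hgd : HasFDerivAt g (fderiv ℝ g (phi x)) (phi x) :=
    ((hg.differentiable (by simp)) _).hasFDerivAt
  have hGd : HasDerivAt (fun t => f0 (γ t) + g (γ t) - (f0 (phi x) + g (phi x)))
      ((f0 + fderiv ℝ g (phi x)) (dphi x (deriv X 0))) 0 := by
    have e1 : HasDerivAt (fun t => f0 (γ t)) (f0 (dphi x (deriv X 0))) 0 :=
      (f0.hasFDerivAt (x := γ 0)).comp_hasDerivAt 0 hγd
    have e2 : HasDerivAt (fun t => g (γ t)) (fderiv ℝ g (phi x) (dphi x (deriv X 0))) 0 := by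
      have hgd' : HasFDerivAt g (fderiv ℝ g (phi x)) (γ 0) := by
        rw [hγ0]
        exact hgd
      exact hgd'.comp_hasDerivAt 0 hγd
    exact (e1.add e2).sub_const _
  have hG0 : HasDerivAt (fun t => f0 (γ t) + g (γ t) - (f0 (phi x) + g (phi x))) 0 0 := by
    rw [hasDerivAt_iff_isLittleO]
    have e0 : f0 (γ 0) + g (γ 0) - (f0 (phi x) + g (phi x)) = 0 := by
      rw [hγ0, sub_self]
    simp only [e0, sub_zero, smul_zero]
    refine hO'.trans_isLittleO ?_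
    have h : (fun t : ℝ => t ^ 4) =o[𝓝 0] fun t : ℝ => t ^ 1 :=
      Asymptotics.isLittleO_pow_pow (by norm_num)
    simpa using h
  have hA : (f0 + fderiv ℝ g (phi x)) (dphi x (deriv X 0)) = 0 := hGd.unique hG0
  have hA' : ‖(f0 + fderiv ℝ g (phi x)) - f0‖ ≤ δ := by
    rw [add_sub_cancel_left]
    have h := hgx 1 (by norm_num)
    rwa [norm_iteratedFDeriv_one] at h
  obtain ⟨hy, hu⟩ := hF δ x (deriv X 0) _ hδ.le hδ1' hx hT hA' hA
  have hθ : dot (perp x.2.2) (deriv X 0).2.2 ≠ 0 := by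
    intro h
    rw [h, abs_zero, mul_zero] at hy hu
    apply hne
    have e1 : (deriv X 0).1 = 0 := norm_le_zero_iff.mp hy
    have e2 : (deriv X 0).2.1 = 0 := norm_le_zero_iff.mp hu
    have e3 : (deriv X 0).2.2 = 0 := by
      rw [eq_smul_perp x.2.2 (deriv X 0).2.2 hx.2.2.1 hT.2.2.1, h, zero_smul]
    exact Prod.ext e1 (Prod.ext e2 e3)
  obtain ⟨τ, hτs, hτ0, hτ⟩ := h7 x X hx hXs hX0 (hX.mono fun t ht => ht.1) hθ
  have hτt : Tendsto τ (𝓝 0) (𝓝 0) := by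
    have h := hτs.continuous.tendsto 0
    rwa [hτ0] at h
  have hXτ : ∀ᶠ s in 𝓝 (0 : ℝ), X (τ s) ∈ Mt ∧ phi (X (τ s)) = γ (τ s) := hτt.eventually hX
  have hXs' : ContDiff ℝ ∞ (fun s => X (τ s)) := hXs.comp hτs
  have hX0' : (fun s => X (τ s)) 0 = x := by
    change X (τ 0) = x
    rw [hτ0, hX0]
  have hcirc : ∀ᶠ s in 𝓝 (0 : ℝ), X (τ s) ∈ Mt ∧
      (X (τ s)).2.2 = Real.cos s • x.2.2 + Real.sin s • perp x.2.2 := by
    filter_upwards [hXτ, hτ] with s h h'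
    exact ⟨h.1, h'⟩
  have hτO : τ =O[𝓝 0] fun s : ℝ => s := by
    have h := (((hτs.differentiable (by simp)) 0).isBigO_sub)
    simpa [hτ0] using h
  have hO4 : (fun s => f0 (phi (X (τ s))) + g (phi (X (τ s))) - (f0 (phi x) + g (phi x)))
      =O[𝓝 0] fun s : ℝ => s ^ 4 := by
    have e1 : (fun s => f0 (γ (τ s)) + g (γ (τ s)) - (f0 (phi x) + g (phi x)))
        =O[𝓝 0] fun s : ℝ => (τ s) ^ 4 := hO'.comp_tendsto hτt
    have e2 : (fun s : ℝ => (τ s) ^ 4) =O[𝓝 0] fun s : ℝ => s ^ 4 := hτO.pow 4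
    refine (e1.trans e2).congr' ?_ (EventuallyEq.refl _ _)
    filter_upwards [hXτ] with s hs
    rw [hs.2]
  have hjet := hB δ x g (fun s => X (τ s)) hδ hδB' hx hg hgx hXs' hX0' hcirc hO4
  obtain ⟨k1, k2, k3⟩ := hE (CB * δ) x (fun s => X (τ s)) (mul_pos hCB hδ).le hδC hx hXs' hX0'
    hcirc hjet
  have hmax := hQ x hx
  have hlt : max ‖S1 x.1 (vv x) (wv x)‖ (max ‖S1 x.1 (wv x) (vv x)‖ ‖S x.1 (wv x)‖) ≤
      CE * (CB * δ) := max_le k1 (max_le k2 k3)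
  linarith

end Pool.Agent.Lib.MP_086785_gt.CB
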