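import Pool.Agent.Lib.MP_086785_gt.CB.Stmts

/-! Project CB, module Slice: iterated derivatives of restrictions to a slice. -/

set_option autoImplicit false

namespace Pool.Agent.Lib.MP_086785_gt.CB

open Set Filter Topology Finset
open scoped ContDiff

namespace Slice

theorem slice {E P F : Type} [NormedAddCommGroup E] [NormedSpace ℝ E] [NormedAddCommGroup P]
    [NormedSpace ℝ P] [NormedAddCommGroup F] [NormedSpace ℝ F] {g : E × P → F}
    (hg : ContDiff ℝ ∞ g) (i : ℕ) (x : E) : ‖iteratedFDeriv ℝ i (fun y => g (y, 0)) x‖ ≤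
      ‖iteratedFDeriv ℝ i g (x, 0)‖ := by
  have h1 : iteratedFDeriv ℝ i (g ∘ (ContinuousLinearMap.inl ℝ E P)) x = _ :=
    ContinuousLinearMap.iteratedFDeriv_comp_right (ContinuousLinearMap.inl ℝ E P) hg x
      (i := i) (by exact_mod_cast le_top)
  have h2 : (fun y => g (y, 0)) = g ∘ (ContinuousLinearMap.inl ℝ E P) := rfl
  rw [h2, h1]
  refine (ContinuousMultilinearMap.norm_compContinuousLinearMap_le _ _).trans ?_
  have h3 : ∏ _j : Fin i, ‖ContinuousLinearMap.inl ℝ E P‖ ≤ 1 :=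
    Finset.prod_le_one (fun _ _ => norm_nonneg _)
      fun _ _ => ContinuousLinearMap.norm_inl_le_one ℝ E P
  exact mul_le_of_le_one_right (norm_nonneg _) h3

end Slice

/-- Module Slice. -/
theorem stSlice : StSlice := by
  intro E P F _ _ _ _ _ _ g hg
  refine ⟨fun i x => Slice.slice hg i x, fun i x e => ?_⟩
  have hg' : ContDiff ℝ ∞ (fderiv ℝ g) := hg.fderiv_right (by simp)
  set L : (E × P →L[ℝ] F) →L[ℝ] F := ContinuousLinearMap.apply ℝ F ((0, e) : E × P) with hL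
  have hLn : ‖L‖ ≤ ‖e‖ := by
    refine ContinuousLinearMap.opNorm_le_bound _ (norm_nonneg _) fun A => ?_
    change ‖A (0, e)‖ ≤ _
    refine (A.le_opNorm _).trans ?_
    have h1 : ‖((0, e) : E × P)‖ = ‖e‖ := by
      rw [Prod.norm_mk, norm_zero, max_eq_right (norm_nonneg _)]
    rw [h1, mul_comm]
  have h2 : (fun y => fderiv ℝ g (y, 0) (0, e)) = L ∘ fun y => fderiv ℝ g (y, 0) := rfl
  have h3 : ContDiff ℝ ∞ fun y : E => fderiv ℝ g (y, (0 : P)) :=
    hg'.comp (contDiff_id.prodMk contDiff_const)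
  rw [h2]
  calc ‖iteratedFDeriv ℝ i (L ∘ fun y => fderiv ℝ g (y, 0)) x‖
      ≤ ‖L‖ * ‖iteratedFDeriv ℝ i (fun y => fderiv ℝ g (y, 0)) x‖ :=
        L.norm_iteratedFDeriv_comp_left (N := ∞) h3.contDiffAt (by exact_mod_cast le_top)
    _ ≤ ‖e‖ * ‖iteratedFDeriv ℝ i (fderiv ℝ g) (x, 0)‖ :=
        mul_le_mul hLn (Slice.slice hg' i x) (norm_nonneg _) (norm_nonneg _)
    _ = ‖e‖ * ‖iteratedFDeriv ℝ (i + 1) g (x, 0)‖ := by rw [norm_iteratedFDeriv_fderiv]

end Pool.Agent.Lib.MP_086785_gt.CB
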