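import Pool.Agent.Lib.MP_086785_gt.CB.Stmts

/-!
Project CB: smooth families which vanish for `ε = 0`.
-/

set_option autoImplicit false

namespace Pool.Agent.Lib.MP_086785_gt.CB

open Set Filter Topology
open scoped ContDiff

namespace Small

variable {E F : Type} [NormedAddCommGroup E] [NormedSpace ℝ E] [NormedAddCommGroup F]
  [NormedSpace ℝ F]

/-- derivatives of the restrictions to the slices -/
theorem slice_eq (G : E × ℝ → F) (hG : ContDiff ℝ ∞ G) (i : ℕ) (z : E) (ε : ℝ) :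
    iteratedFDeriv ℝ i (fun x => G (x, ε)) z =
      (iteratedFDeriv ℝ i G (z, ε)).compContinuousLinearMap
        fun _ => ContinuousLinearMap.inl ℝ E ℝ := by
  have h1 : (fun x => G (x, ε)) =
      (fun w : E × ℝ => G (w + (0, ε))) ∘ ContinuousLinearMap.inl ℝ E ℝ := by
    funext x
    simp
  have h2 : ContDiff ℝ ∞ (fun w : E × ℝ => G (w + (0, ε))) :=
    hG.comp (contDiff_id.add contDiff_const)
  rw [h1, ContinuousLinearMap.iteratedFDeriv_comp_right (n := ∞) _ h2 z
    (by exact_mod_cast le_top), iteratedFDeriv_comp_add_right]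
  simp

theorem cont (G : E × ℝ → F) (hG : ContDiff ℝ ∞ G) (i : ℕ) :
    Continuous fun w : E × ℝ => ‖iteratedFDeriv ℝ i (fun x => G (x, w.2)) w.1‖ := by
  have h1 : (fun w : E × ℝ => ‖iteratedFDeriv ℝ i (fun x => G (x, w.2)) w.1‖) = fun w =>
      ‖ContinuousMultilinearMap.compContinuousLinearMapL (𝕜 := ℝ) (F := F)
        (fun _ : Fin i => ContinuousLinearMap.inl ℝ E ℝ) (iteratedFDeriv ℝ i G w)‖ := by
    funext w
    rw [slice_eq G hG]
    rfl
  rw [h1]
  have h2 : Continuous (iteratedFDeriv ℝ i G) :=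
    hG.continuous_iteratedFDeriv (by exact_mod_cast le_top)
  exact ((ContinuousLinearMap.continuous _).comp h2).norm

end Small

/-- Module SMALL. -/
theorem stSmall : StSmall := by
  intro E F _ _ _ _ _ G K j δ hG h0 hK hδ
  have hopen : IsOpen (⋂ i ∈ Finset.range (j + 1),
      {w : E × ℝ | ‖iteratedFDeriv ℝ i (fun x => G (x, w.2)) w.1‖ < δ}) :=
    isOpen_biInter_finset fun i _ => isOpen_lt (Small.cont G hG i) continuous_const
  obtain ⟨u, v, _, hv, hKu, h0v, huv⟩ := generalized_tube_lemma hK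
    (isCompact_singleton (x := (0 : ℝ))) hopen (by
      rintro ⟨z, ε⟩ ⟨_, hε⟩
      have hε0 : ε = 0 := hε
      subst hε0
      rw [mem_iInter₂]
      intro i _
      change ‖iteratedFDeriv ℝ i (fun x => G (x, 0)) z‖ < δ
      have h1 : (fun x => G (x, (0 : ℝ))) = fun _ => 0 := funext h0
      rw [h1, iteratedFDeriv_fun_zero]
      simpa using hδ)
  obtain ⟨ε₀, hε₀, hball⟩ := Metric.isOpen_iff.1 hv 0 (h0v rfl)
  refine ⟨ε₀, hε₀, fun ε hε hεlt z hz i hi => ?_⟩
  have h1 : (z, ε) ∈ u ×ˢ v := by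
    refine ⟨hKu hz, hball ?_⟩
    rw [Metric.mem_ball, Real.dist_eq, sub_zero, abs_of_pos hε]
    exact hεlt
  have h2 := huv h1
  rw [mem_iInter₂] at h2
  exact h2 i (Finset.mem_range.2 (by omega))

end Pool.Agent.Lib.MP_086785_gt.CB
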