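import Pool.Agent.Lib.MP_086785_gt.CB.Vel

/-! Project CB, module TAN: tangent vectors of `Mt` are velocities of curves in `Mt`. -/

set_option autoImplicit false

namespace Pool.Agent.Lib.MP_086785_gt.CB

open Set Filter Topology Finset
open scoped ContDiff

namespace Tan

/-- vanishing to second order at `0` -/
def Z (f : ℝ → ℝ) : Prop := f 0 = 0 ∧ HasDerivAt f 0 0

theorem Z_mul {f g : ℝ → ℝ} {g' : ℝ} (hf : Z f) (hg : HasDerivAt g g' 0) :
    Z (fun s => f s * g s) := by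
  refine ⟨by show f 0 * g 0 = 0; rw [hf.1, zero_mul], ?_⟩
  refine HasDerivAt.congr_deriv (hf.2.fun_mul hg) ?_
  rw [hf.1]; ring

theorem Z_mul' {f g : ℝ → ℝ} {g' : ℝ} (hf : Z f) (hg : HasDerivAt g g' 0) :
    Z (fun s => g s * f s) := by
  refine ⟨by show g 0 * f 0 = 0; rw [hf.1, mul_zero], ?_⟩
  refine HasDerivAt.congr_deriv (hg.fun_mul hf.2) ?_
  rw [hf.1]; ring

theorem Z_add {f g : ℝ → ℝ} (hf : Z f) (hg : Z g) : Z (fun s => f s + g s) := by
  refine ⟨by show f 0 + g 0 = 0; rw [hf.1, hg.1, zero_add], ?_⟩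
  exact HasDerivAt.congr_deriv (hf.2.fun_add hg.2) (by ring)

theorem Z_neg {f : ℝ → ℝ} (hf : Z f) : Z (fun s => - f s) := by
  refine ⟨by show - f 0 = 0; rw [hf.1, neg_zero], ?_⟩
  exact HasDerivAt.congr_deriv hf.2.fun_neg (by ring)

/-- normalisation -/
noncomputable def nb {n : ℕ} (b : Fin n → ℝ) : Fin n → ℝ := (Real.sqrt (dot b b))⁻¹ • b

theorem dot_nb {n : ℕ} (b : Fin n → ℝ) (h : 0 < dot b b) : dot (nb b) (nb b) = 1 := by
  rw [nb, dot_smul_left, dot_smul_right, ← mul_assoc]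
  have h1 : Real.sqrt (dot b b) * Real.sqrt (dot b b) = dot b b := Real.mul_self_sqrt h.le
  have h2 : Real.sqrt (dot b b) ≠ 0 := (Real.sqrt_pos.2 h).ne'
  rw [← mul_inv, h1]
  exact inv_mul_cancel₀ h.ne'

theorem nb_one {n : ℕ} (b : Fin n → ℝ) (h : dot b b = 1) : nb b = b := by
  rw [nb, h, Real.sqrt_one, inv_one, one_smul]

theorem contDiff_dot {n : ℕ} {b : ℝ → Fin n → ℝ} (hb : ContDiff ℝ ∞ b) :
    ContDiff ℝ ∞ (fun s => dot (b s) (b s)) := by
  have h : ∀ i, ContDiff ℝ ∞ (fun s => b s i) := contDiff_pi.1 hb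
  exact ContDiff.sum fun i _ => (h i).mul (h i)

theorem contDiff_nb {n : ℕ} {b : ℝ → Fin n → ℝ} (hb : ContDiff ℝ ∞ b)
    (h : ∀ s, 0 < dot (b s) (b s)) : ContDiff ℝ ∞ (fun s => nb (b s)) := by
  have h1 : ContDiff ℝ ∞ (fun s => (Real.sqrt (dot (b s) (b s)))⁻¹) :=
    ((contDiff_dot hb).sqrt fun s => (h s).ne').inv fun s => (Real.sqrt_pos.2 (h s)).ne'
  exact h1.smul hb

theorem deriv_nb {n : ℕ} {b : ℝ → Fin n → ℝ} {b' : Fin n → ℝ}
    (hb : ∀ i, HasDerivAt (fun s => b s i) (b' i) 0) (h1 : dot (b 0) (b 0) = 1)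
    (h2 : dot (b 0) b' = 0) (i : Fin n) : HasDerivAt (fun s => nb (b s) i) (b' i) 0 := by
  have hq : HasDerivAt (fun t => dot (b t) (b t)) (∑ i, (b' i * b 0 i + b 0 i * b' i)) 0 :=
    HasDerivAt.fun_sum fun i _ => (hb i).fun_mul (hb i)
  have h3 : ∑ i, (b' i * b 0 i + b 0 i * b' i) = 0 := by
    have : ∑ i, (b' i * b 0 i + b 0 i * b' i) = 2 * dot (b 0) b' := by
      rw [dot, Finset.mul_sum]
      exact Finset.sum_congr rfl fun i _ => by ring
    rw [this, h2, mul_zero]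
  rw [h3] at hq
  have hne : dot (b 0) (b 0) ≠ 0 := by rw [h1]; exact one_ne_zero
  have hs := hq.sqrt hne
  have hi := hs.fun_inv (by rw [h1, Real.sqrt_one]; exact one_ne_zero)
  refine HasDerivAt.congr_deriv (hi.fun_mul (hb i)) ?_
  rw [h1, Real.sqrt_one]
  ring

/-- `u + s δ` -/
def li {n : ℕ} (u δ : Fin n → ℝ) (s : ℝ) : Fin n → ℝ := u + s • δ

theorem contDiff_li {n : ℕ} (u δ : Fin n → ℝ) : ContDiff ℝ ∞ (li u δ) :=
  contDiff_const.add (contDiff_id.smul contDiff_const)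

theorem li_zero {n : ℕ} (u δ : Fin n → ℝ) : li u δ 0 = u := by
  rw [li, zero_smul, add_zero]

theorem deriv_li {n : ℕ} (u δ : Fin n → ℝ) (i : Fin n) :
    HasDerivAt (fun s => li u δ s i) (δ i) 0 := by
  have h := ((hasDerivAt_id (0 : ℝ)).mul_const (δ i)).const_add (u i)
  refine HasDerivAt.congr_deriv h ?_
  ring

theorem dot_li {n : ℕ} (u δ : Fin n → ℝ) (h1 : dot u u = 1) (h2 : dot u δ = 0) (s : ℝ) :
    0 < dot (li u δ s) (li u δ s) := by
  have h3 : dot (li u δ s) (li u δ s) = 1 + s ^ 2 * dot δ δ := by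
    rw [li, dot_add_left, dot_add_right, dot_add_right, dot_smul_left, dot_smul_left,
      dot_smul_right, dot_smul_right, h1, h2, dot_comm δ u, h2]
    ring
  have h4 : 0 ≤ dot δ δ := Finset.sum_nonneg fun i _ => mul_self_nonneg _
  rw [h3]
  have := mul_nonneg (sq_nonneg s) h4
  linarith

theorem D_pos (v : Fin 3 → ℝ) (h : dot v v = 1) : 0 < D1 v ∧ 0 < D3 v := by
  have h' : v 0 ^ 2 + (v 1 ^ 2 + v 2 ^ 2) = 1 := by
    have : dot v v = v 0 * v 0 + v 1 * v 1 + v 2 * v 2 := by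
      rw [dot, Fin.sum_univ_three]
    nlinarith [this]
  have hp : 0 ≤ v 0 ^ 2 := sq_nonneg _
  have hw : v 1 ^ 2 + v 2 ^ 2 = 1 - v 0 ^ 2 := by linarith
  have hq : 0 ≤ 1 - v 0 ^ 2 := by
    rw [← hw]; positivity
  constructor
  · rw [D1, h', hw]
    nlinarith [sq_nonneg (v 0 ^ 2 - 1 / 2)]
  · rw [D3, hw]
    have h4 : v 0 ^ 4 = (v 0 ^ 2) ^ 2 := by ring
    rw [h4]
    generalize v 0 ^ 2 = p at hp hq
    have h5 : (1 - p) * (p ^ 2 + (1 - p) ^ 2) + p * (p - (1 - p)) ^ 2 = 2 * p ^ 3 - 2 * p + 1 := by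
      ring
    rw [h5]
    nlinarith [mul_nonneg hp (sq_nonneg (p - 1 / 2)), sq_nonneg (p - 1 / 2), sq_nonneg (p - 4 / 7),
      mul_nonneg hp (sq_nonneg (p - 4 / 7))]

theorem contDiff_mono {v : ℝ → Fin 3 → ℝ} (h : ∀ i, ContDiff ℝ ∞ (fun s => v s i)) (i : Fin 6) :
    ContDiff ℝ ∞ (fun s => mono (v s) i) := by
  have h0 := h 0
  have h1 := h 1
  have h2 := h 2
  fin_cases i
  · exact h0.pow 3
  · exact h1.mul (h0.pow 2)
  · exact h2.mul (h0.pow 2)
  · exact h0.mul ((h1.pow 2).add (h2.pow 2))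
  · exact h1.mul ((h1.pow 2).add (h2.pow 2))
  · exact h2.mul ((h1.pow 2).add (h2.pow 2))

theorem contDiff_LL {y : ℝ → Fin 11 → ℝ} {m : ℝ → Fin 6 → ℝ}
    (hy : ∀ i, ContDiff ℝ ∞ (fun s => y s i)) (hm : ∀ i, ContDiff ℝ ∞ (fun s => m s i))
    (i : Fin 3) : ContDiff ℝ ∞ (fun s => LL (y s) (m s) i) := by
  fin_cases i
  · exact ((((((hy 3).mul (hm 0)).add ((hy 5).mul (hm 1))).sub ((hy 6).mul (hm 2))).add
      ((hy 7).mul (hm 3))).add ((hy 9).mul (hm 4))).sub ((hy 10).mul (hm 5))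
  · exact ((((((hy 4).mul (hm 0)).add ((hy 5).mul (hm 2))).add ((hy 6).mul (hm 1))).add
      ((hy 8).mul (hm 3))).add ((hy 9).mul (hm 5))).add ((hy 10).mul (hm 4))
  · exact (((((hy 2).mul ((hm 0).sub (hm 3))).add ((hy 0).mul (hm 1))).sub
      ((hy 1).mul (hm 2))).add ((hy 0).mul (hm 5))).add ((hy 1).mul (hm 4))

theorem contDiff_LT {m : ℝ → Fin 6 → ℝ} {s : ℝ → Fin 3 → ℝ}
    (hm : ∀ i, ContDiff ℝ ∞ (fun t => m t i)) (hs : ∀ i, ContDiff ℝ ∞ (fun t => s t i))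
    (i : Fin 11) : ContDiff ℝ ∞ (fun t => LT (m t) (s t) i) := by
  fin_cases i
  · exact (hs 2).mul ((hm 1).add (hm 5))
  · exact (hs 2).mul ((hm 4).sub (hm 2))
  · exact (hs 2).mul ((hm 0).sub (hm 3))
  · exact (hs 0).mul (hm 0)
  · exact (hs 1).mul (hm 0)
  · exact ((hs 0).mul (hm 1)).add ((hs 1).mul (hm 2))
  · exact ((hs 0).neg.mul (hm 2)).add ((hs 1).mul (hm 1))
  · exact (hs 0).mul (hm 3)
  · exact (hs 1).mul (hm 3)
  · exact ((hs 0).mul (hm 4)).add ((hs 1).mul (hm 5))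
  · exact ((hs 0).neg.mul (hm 5)).add ((hs 1).mul (hm 4))

theorem Z_LT {m : ℝ → Fin 6 → ℝ} {m' : Fin 6 → ℝ} {s : ℝ → Fin 3 → ℝ}
    (hm : ∀ i, HasDerivAt (fun t => m t i) (m' i) 0) (hs : ∀ i, Z (fun t => s t i))
    (i : Fin 11) : Z (fun t => LT (m t) (s t) i) := by
  fin_cases i
  · exact Z_mul (hs 2) ((hm 1).fun_add (hm 5))
  · exact Z_mul (hs 2) ((hm 4).fun_sub (hm 2))
  · exact Z_mul (hs 2) ((hm 0).fun_sub (hm 3))
  · exact Z_mul (hs 0) (hm 0)
  · exact Z_mul (hs 1) (hm 0)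
  · exact Z_add (Z_mul (hs 0) (hm 1)) (Z_mul (hs 1) (hm 2))
  · exact Z_add (Z_mul (Z_neg (hs 0)) (hm 2)) (Z_mul (hs 1) (hm 1))
  · exact Z_mul (hs 0) (hm 3)
  · exact Z_mul (hs 1) (hm 3)
  · exact Z_add (Z_mul (hs 0) (hm 4)) (Z_mul (hs 1) (hm 5))
  · exact Z_add (Z_mul (Z_neg (hs 0)) (hm 5)) (Z_mul (hs 1) (hm 4))

end Tan

open Tan in
theorem stTan : StTan := by
  rintro ⟨y, u, a⟩ ⟨hyy, huu, haa, hS⟩ ⟨η1, η21, η22⟩ ⟨ty, tu, ta, tS⟩
  change dot y y = 1 at hyy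
  change dot u u = 1 at huu
  change dot a a = 1 at haa
  change S y (vec u a) = 0 at hS
  change dot y η1 = 0 at ty
  change dot u η21 = 0 at tu
  change dot a η22 = 0 at ta
  change S η1 (vec u a) + S1 y (vec u a) (dvec u a η21 η22) = 0 at tS
  -- the curves `U`, `A`, `V`, `B`
  set U : ℝ → Fin 2 → ℝ := fun s => nb (li u η21 s) with hU
  set A : ℝ → Fin 2 → ℝ := fun s => nb (li a η22 s) with hA
  set V : ℝ → Fin 3 → ℝ := fun s => vec (U s) (A s) with hV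
  set B : ℝ → Fin 11 → ℝ := li y η1 with hB
  have cU : ContDiff ℝ ∞ U := contDiff_nb (contDiff_li u η21) (dot_li u η21 huu tu)
  have cA : ContDiff ℝ ∞ A := contDiff_nb (contDiff_li a η22) (dot_li a η22 haa ta)
  have cUi : ∀ i, ContDiff ℝ ∞ (fun s => U s i) := contDiff_pi.1 cU
  have cAi : ∀ i, ContDiff ℝ ∞ (fun s => A s i) := contDiff_pi.1 cA
  have cV : ∀ i, ContDiff ℝ ∞ (fun s => V s i) := by
    intro i
    fin_cases i
    · exact cAi 0
    · exact (cAi 1).mul (cUi 0)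
    · exact (cAi 1).mul (cUi 1)
  have cB : ∀ i, ContDiff ℝ ∞ (fun s => B s i) := contDiff_pi.1 (contDiff_li y η1)
  have U0 : U 0 = u := by
    show nb (li u η21 0) = u
    rw [li_zero, nb_one u huu]
  have A0 : A 0 = a := by
    show nb (li a η22 0) = a
    rw [li_zero, nb_one a haa]
  have V0 : V 0 = vec u a := by
    show vec (U 0) (A 0) = vec u a
    rw [U0, A0]
  have B0 : B 0 = y := li_zero y η1
  have dU : ∀ i, HasDerivAt (fun s => U s i) (η21 i) 0 :=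
    deriv_nb (deriv_li u η21) (by rw [li_zero]; exact huu) (by rw [li_zero]; exact tu)
  have dA : ∀ i, HasDerivAt (fun s => A s i) (η22 i) 0 :=
    deriv_nb (deriv_li a η22) (by rw [li_zero]; exact haa) (by rw [li_zero]; exact ta)
  have dV : ∀ i, HasDerivAt (fun s => V s i) (dvec u a η21 η22 i) 0 := by
    intro i
    fin_cases i
    · exact dA 0
    · refine HasDerivAt.congr_deriv ((dA 1).fun_mul (dU 0)) ?_
      show η22 1 * U 0 0 + A 0 1 * η21 0 = _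
      rw [U0, A0]
      rfl
    · refine HasDerivAt.congr_deriv ((dA 1).fun_mul (dU 1)) ?_
      show η22 1 * U 0 1 + A 0 1 * η21 1 = _
      rw [U0, A0]
      rfl
  have dB : ∀ i, HasDerivAt (fun s => B s i) (η1 i) 0 := deriv_li y η1
  have dUU : ∀ s, dot (U s) (U s) = 1 := fun s => dot_nb _ (dot_li u η21 huu tu s)
  have dAA : ∀ s, dot (A s) (A s) = 1 := fun s => dot_nb _ (dot_li a η22 haa ta s)
  have dVV : ∀ s, dot (V s) (V s) = 1 := fun s => by
    show dot (vec (U s) (A s)) (vec (U s) (A s)) = 1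
    rw [dot_vec _ _ _ (dUU s), dAA s]
  have cm : ∀ i, ContDiff ℝ ∞ (fun s => mono (V s) i) := contDiff_mono cV
  have dm := Vel.mono_deriv V _ dV
  -- the defect
  set T : ℝ → Fin 3 → ℝ := fun s => S (B s) (V s) with hT
  have cT : ∀ i, ContDiff ℝ ∞ (fun s => T s i) := contDiff_LL cB cm
  have zT : ∀ i, Z (fun s => T s i) := by
    intro i
    refine ⟨?_, ?_⟩
    · show S (B 0) (V 0) i = 0
      rw [B0, V0, hS]
      rfl
    · have h := Vel.LL_deriv B η1 (fun s => mono (V s)) _ dB dm i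
      refine HasDerivAt.congr_deriv h ?_
      rw [B0, V0]
      exact congrFun tS i
  have cD1 : ContDiff ℝ ∞ (fun s => (D1 (V s))⁻¹) := by
    refine ContDiff.inv ?_ fun s => (D_pos _ (dVV s)).1.ne'
    exact (((cV 0).pow 2).add (((cV 1).pow 2).add ((cV 2).pow 2))).mul
      (((cV 0).pow 4).add ((((cV 1).pow 2).add ((cV 2).pow 2)).pow 2))
  have cD3 : ContDiff ℝ ∞ (fun s => (D3 (V s))⁻¹) := by
    refine ContDiff.inv ?_ fun s => (D_pos _ (dVV s)).2.ne'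
    exact ((((cV 1).pow 2).add ((cV 2).pow 2)).mul
      (((cV 0).pow 4).add ((((cV 1).pow 2).add ((cV 2).pow 2)).pow 2))).add
      (((cV 0).pow 2).mul ((((cV 0).pow 2).sub (((cV 1).pow 2).add ((cV 2).pow 2))).pow 2))
  have dD1 : HasDerivAt (fun s => (D1 (V s))⁻¹) (deriv (fun s => (D1 (V s))⁻¹) 0) 0 :=
    (cD1.differentiable (by simp)).differentiableAt.hasDerivAt
  have dD3 : HasDerivAt (fun s => (D3 (V s))⁻¹) (deriv (fun s => (D3 (V s))⁻¹) 0) 0 :=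
    (cD3.differentiable (by simp)).differentiableAt.hasDerivAt
  set w : ℝ → Fin 3 → ℝ := fun s =>
    ![(D1 (V s))⁻¹ * T s 0, (D1 (V s))⁻¹ * T s 1, (D3 (V s))⁻¹ * T s 2] with hw
  have cw : ∀ i, ContDiff ℝ ∞ (fun s => w s i) := by
    intro i
    fin_cases i
    · exact cD1.mul (cT 0)
    · exact cD1.mul (cT 1)
    · exact cD3.mul (cT 2)
  have zw : ∀ i, Z (fun s => w s i) := by
    intro i
    fin_cases i
    · exact Z_mul' (zT 0) dD1
    · exact Z_mul' (zT 1) dD1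
    · exact Z_mul' (zT 2) dD3
  set Y : ℝ → Fin 11 → ℝ := fun s => B s + (-1 : ℝ) • RR (V s) (w s) with hY
  have cR : ∀ i, ContDiff ℝ ∞ (fun s => RR (V s) (w s) i) := contDiff_LT cm cw
  have zR : ∀ i, Z (fun s => RR (V s) (w s) i) := Z_LT dm zw
  have cY : ContDiff ℝ ∞ Y := contDiff_pi.2 fun i => (cB i).add (contDiff_const.mul (cR i))
  have SY : ∀ s, S (Y s) (V s) = 0 := by
    intro s
    show S (B s + (-1 : ℝ) • RR (V s) (w s)) (V s) = 0
    rw [S_add, S_smul, S_RR]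
    have h1 := (D_pos _ (dVV s)).1.ne'
    have h3 := (D_pos _ (dVV s)).2.ne'
    have h4 : (![D1 (V s) * w s 0, D1 (V s) * w s 1, D3 (V s) * w s 2] : Fin 3 → ℝ) = T s := by
      funext i
      fin_cases i
      · show D1 (V s) * ((D1 (V s))⁻¹ * T s 0) = T s 0
        rw [mul_inv_cancel_left₀ h1]
      · show D1 (V s) * ((D1 (V s))⁻¹ * T s 1) = T s 1
        rw [mul_inv_cancel_left₀ h1]
      · show D3 (V s) * ((D3 (V s))⁻¹ * T s 2) = T s 2
        rw [mul_inv_cancel_left₀ h3]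
    rw [h4]
    show T s + (-1 : ℝ) • T s = 0
    rw [neg_one_smul, add_neg_cancel]
  have Y0 : Y 0 = y := by
    funext i
    show B 0 i + (-1 : ℝ) * RR (V 0) (w 0) i = y i
    have h5 : RR (V 0) (w 0) i = 0 := (zR i).1
    rw [h5, B0, mul_zero, add_zero]
  have dY : ∀ i, HasDerivAt (fun s => Y s i) (η1 i) 0 := by
    intro i
    refine HasDerivAt.congr_deriv ((dB i).fun_add ((zR i).2.const_mul (-1))) ?_
    ring
  have cN : Continuous (fun s => dot (Y s) (Y s)) := (contDiff_dot cY).continuous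
  have hN : ∀ᶠ s in 𝓝 (0 : ℝ), 0 < dot (Y s) (Y s) := by
    refine cN.continuousAt.eventually_mem (isOpen_Ioi.mem_nhds ?_)
    show 0 < dot (Y 0) (Y 0)
    rw [Y0, hyy]
    exact one_pos
  obtain ⟨ε, hε, hεN⟩ := Metric.eventually_nhds_iff.1 hN
  set σ : ℝ → ℝ := fun t => ε / 2 * Real.sin (t / (ε / 2)) with hσ
  have cσ : ContDiff ℝ ∞ σ :=
    contDiff_const.mul (Real.contDiff_sin.comp (contDiff_id.div_const _))
  have σ0 : σ 0 = 0 := by
    show ε / 2 * Real.sin (0 / (ε / 2)) = 0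
    rw [zero_div, Real.sin_zero, mul_zero]
  have dσ : HasDerivAt σ 1 0 := by
    have h1 : HasDerivAt (fun t : ℝ => t / (ε / 2)) (1 / (ε / 2)) 0 :=
      (hasDerivAt_id (0 : ℝ)).div_const _
    have h2 := (h1.sin).const_mul (ε / 2)
    refine HasDerivAt.congr_deriv h2 ?_
    rw [zero_div, Real.cos_zero, one_mul, mul_one_div_cancel (by positivity)]
  have σN : ∀ t, 0 < dot (Y (σ t)) (Y (σ t)) := by
    intro t
    apply hεN
    rw [Real.dist_eq, sub_zero]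
    show |ε / 2 * Real.sin (t / (ε / 2))| < ε
    rw [abs_mul, abs_of_pos (by positivity : 0 < ε / 2)]
    have := Real.abs_sin_le_one (t / (ε / 2))
    nlinarith
  have comp : ∀ (f : ℝ → ℝ) (f' : ℝ), HasDerivAt f f' 0 → HasDerivAt (fun t => f (σ t)) f' 0 := by
    intro f f' hf
    have h1 : HasDerivAt f f' (σ 0) := by rw [σ0]; exact hf
    have h2 := h1.comp (0 : ℝ) dσ
    rw [mul_one] at h2
    exact h2
  refine ⟨fun t => (nb (Y (σ t)), U (σ t), A (σ t)), ?_, ?_, ?_, ?_⟩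
  · exact (contDiff_nb (cY.comp cσ) σN).prodMk ((cU.comp cσ).prodMk (cA.comp cσ))
  · show (nb (Y (σ 0)), U (σ 0), A (σ 0)) = (y, u, a)
    rw [σ0, Y0, U0, A0, nb_one y hyy]
  · refine HasDerivAt.prodMk (hasDerivAt_pi.2 ?_) (HasDerivAt.prodMk (hasDerivAt_pi.2 ?_)
      (hasDerivAt_pi.2 ?_))
    · refine deriv_nb (b := fun t => Y (σ t)) (fun i => comp _ _ (dY i)) ?_ ?_
      · show dot (Y (σ 0)) (Y (σ 0)) = 1
        rw [σ0, Y0, hyy]
      · show dot (Y (σ 0)) η1 = 0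
        rw [σ0, Y0, ty]
    · exact fun i => comp _ _ (dU i)
    · exact fun i => comp _ _ (dA i)
  · intro t
    refine ⟨dot_nb _ (σN t), dUU (σ t), dAA (σ t), ?_⟩
    show S (nb (Y (σ t))) (V (σ t)) = 0
    rw [nb, S_smul, SY, smul_zero]

end Pool.Agent.Lib.MP_086785_gt.CB
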