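import Pool.Agent.Lib.MP_086785_gt.CB.Stmts

/-! Project CB, TW: maps close to `f0` are twisted prim. -/

set_option autoImplicit false

namespace Pool.Agent.Lib.MP_086785_gt.CB

open Set Filter Topology Finset
open scoped ContDiff

namespace Tw

/-- the line bundle -/
noncomputable def Lf (p : EE) : (Fin 2 → ℝ) →L[ℝ] (Fin 2 → ℝ) :=
  LinearMap.toContinuousLinearMap
    { toFun := fun b c => p.2.1 c 0 * b 0 + p.2.1 c 1 * b 1
      map_add' := by
        intro b b'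
        funext c
        simp only [Pi.add_apply]
        ring
      map_smul' := by
        intro r b
        funext c
        simp only [Pi.smul_apply, smul_eq_mul, RingHom.id_apply]
        ring }

theorem Lf_apply (p : EE) (b : Fin 2 → ℝ) (c : Fin 2) :
    Lf p b c = p.2.1 c 0 * b 0 + p.2.1 c 1 * b 1 := rfl

/-- the isomorphism -/
noncomputable def Tf (p : EE) : EE →L[ℝ] (Fin 2 → ℝ) :=
  LinearMap.toContinuousLinearMap
    { toFun := fun ξ d => ∑ i : Fin 3,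
        (- ξ.2.2 i 0 * (p.2.2 i 1 * p.2.1 0 d + p.2.2 i 2 * p.2.1 1 d) +
          ξ.2.2 i 1 * (p.2.2 i 0 * p.2.1 0 d) + ξ.2.2 i 2 * (p.2.2 i 0 * p.2.1 1 d))
      map_add' := by
        intro ξ ξ'
        funext d
        simp only [Prod.snd_add, Pi.add_apply, ← Finset.sum_add_distrib]
        exact Finset.sum_congr rfl fun i _ => by ring
      map_smul' := by
        intro r ξ
        funext d
        simp only [Prod.smul_snd, Pi.smul_apply, smul_eq_mul, RingHom.id_apply, Finset.mul_sum]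
        exact Finset.sum_congr rfl fun i _ => by ring }

theorem Tf_apply (p ξ : EE) (d : Fin 2) : Tf p ξ d = ∑ i : Fin 3,
    (- ξ.2.2 i 0 * (p.2.2 i 1 * p.2.1 0 d + p.2.2 i 2 * p.2.1 1 d) +
      ξ.2.2 i 1 * (p.2.2 i 0 * p.2.1 0 d) + ξ.2.2 i 2 * (p.2.2 i 0 * p.2.1 1 d)) := rfl

theorem cont_Lf : Continuous Lf := by
  rw [continuous_clm_apply]
  intro b
  refine continuous_pi fun c => ?_
  simp only [Lf_apply]
  fun_prop

theorem cont_Tf : Continuous Tf := by
  rw [continuous_clm_apply]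
  intro b
  refine continuous_pi fun c => ?_
  simp only [Tf_apply]
  fun_prop

theorem key (v dv : Fin 3 → ℝ) (u : Fin 2 → ℝ) (d : Fin 2) : ∑ i : Fin 3,
    (- dop v dv i 0 * (op v i 1 * op u 0 d + op v i 2 * op u 1 d) +
      dop v dv i 1 * (op v i 0 * op u 0 d) + dop v dv i 2 * (op v i 0 * op u 1 d)) =
      (dot v v * dot dv (ww v u) + dot dv v * dot v (ww v u)) * u d := by
  simp [dot, ww, op, dop, Fin.sum_univ_three]
  ring

theorem dot_ww (v : Fin 3 → ℝ) (u : Fin 2 → ℝ) : dot v (ww v u) = 0 := by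
  simp [dot, ww, Fin.sum_univ_three]
  ring

theorem Tf_phi (x η : XX) (hx : x ∈ Mt) (hη : TT x η) :
    Tf (phi x) (dphi x η) = dot (perp x.2.2) η.2.2 • x.2.1 := by
  obtain ⟨-, hu, ha, -⟩ := hx
  obtain ⟨-, h2, h3, -⟩ := hη
  funext d
  rw [Tf_apply]
  change ∑ i : Fin 3, (- dop (vv x) (dvec x.2.1 x.2.2 η.2.1 η.2.2) i 0 *
    (op (vv x) i 1 * op x.2.1 0 d + op (vv x) i 2 * op x.2.1 1 d) +
      dop (vv x) (dvec x.2.1 x.2.2 η.2.1 η.2.2) i 1 * (op (vv x) i 0 * op x.2.1 0 d) +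
      dop (vv x) (dvec x.2.1 x.2.2 η.2.1 η.2.2) i 2 * (op (vv x) i 0 * op x.2.1 1 d)) = _
  rw [key, dot_ww, mul_zero, add_zero]
  have h4 : dot (vv x) (vv x) = 1 := by
    unfold vv
    rw [dot_vec _ _ _ hu, ha]
  have h5 : ww (vv x) x.2.1 = vec x.2.1 (perp x.2.2) := ww_vec _ _ hu
  have h6 := eq_smul_perp _ _ ha h3
  have h7 : dvec x.2.1 x.2.2 η.2.1 η.2.2 = dot (perp x.2.2) η.2.2 • vec x.2.1 (perp x.2.2) +
      ![0, x.2.2 1 * η.2.1 0, x.2.2 1 * η.2.1 1] := by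
    rw [← dvec_perp, ← h6]
  have h8 : dot (perp x.2.2) (perp x.2.2) = 1 := by
    have : x.2.2 0 * x.2.2 0 + x.2.2 1 * x.2.2 1 = 1 := by
      simpa [dot, Fin.sum_univ_succ] using ha
    simp [dot, perp, Fin.sum_univ_succ]
    linarith
  have h9 : x.2.1 0 * η.2.1 0 + x.2.1 1 * η.2.1 1 = 0 := by
    simpa [dot, Fin.sum_univ_succ] using h2
  have h10 : dot (![0, x.2.2 1 * η.2.1 0, x.2.2 1 * η.2.1 1] : Fin 3 → ℝ)
      (vec x.2.1 (perp x.2.2)) = 0 := by
    simp [dot, vec, perp, Fin.sum_univ_three]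
    linear_combination (x.2.2 0 * x.2.2 1) * h9
  rw [h4, h5, h7, dot_add_left, dot_smul_left, dot_vec _ _ _ hu, h8, h10]
  simp

theorem eta_zero (h2 : StEst1) : ∃ δ₀ > 0, ∀ (x η : XX) (A : EE →L[ℝ] FF), x ∈ Mt → TT x η →
    ‖A - f0‖ ≤ δ₀ → A (dphi x η) = 0 → dot (perp x.2.2) η.2.2 = 0 → η = 0 := by
  obtain ⟨C, hC, δ₀, hδ, h⟩ := h2
  refine ⟨δ₀, hδ, fun x η A hx hη hA h0 hθ => ?_⟩
  obtain ⟨e1, e2⟩ := h δ₀ x η A hδ.le le_rfl hx hη hA h0
  rw [hθ, abs_zero, mul_zero] at e1 e2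
  have e1' : η.1 = 0 := norm_le_zero_iff.1 e1
  have e2' : η.2.1 = 0 := norm_le_zero_iff.1 e2
  have e3 : η.2.2 = 0 := by
    rw [eq_smul_perp _ _ hx.2.2.1 hη.2.2.1, hθ, zero_smul]
  exact Prod.ext e1' (Prod.ext e2' e3)

theorem Lf_phi (x : XX) (b : Fin 2 → ℝ) : Lf (phi x) b = dot x.2.1 b • x.2.1 := by
  funext c
  rw [Lf_apply]
  change op x.2.1 c 0 * b 0 + op x.2.1 c 1 * b 1 = _
  simp [op, dot, Fin.sum_univ_two]
  ring

theorem range_Lf (x : XX) (hx : x ∈ Mt) :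
    LinearMap.range (Lf (phi x) : (Fin 2 → ℝ) →ₗ[ℝ] (Fin 2 → ℝ)) = ℝ ∙ x.2.1 := by
  apply le_antisymm
  · rintro _ ⟨b, rfl⟩
    rw [Submodule.mem_span_singleton]
    exact ⟨dot x.2.1 b, (Lf_phi x b).symm⟩
  · rw [Submodule.span_singleton_le_iff_mem]
    refine ⟨x.2.1, ?_⟩
    change Lf (phi x) x.2.1 = x.2.1
    rw [Lf_phi, hx.2.1, one_smul]

theorem ne_zero (x : XX) (hx : x ∈ Mt) : x.2.1 ≠ 0 := by
  intro h
  have := hx.2.1
  rw [h, dot_zero_left] at this
  exact zero_ne_one this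

end Tw

open Tw in
theorem stTw (h1 : StKerM) (h2 : StEst1) : StTw := by
  obtain ⟨δ₀, hδ, hz⟩ := eta_zero h2
  refine ⟨δ₀, hδ, fun f h hh hA hf => ⟨?_, 2, Lf, Tf, cont_Lf.continuousOn, ?_,
    cont_Tf.continuousOn, ?_⟩⟩
  · rintro _ ⟨x, hx, rfl⟩
    unfold kdim
    by_cases hK : ∀ ξ ∈ Ker MM f (phi x), ξ = 0
    · have : Submodule.span ℝ (Ker MM f (phi x)) = ⊥ := by
        rw [Submodule.span_eq_bot]
        exact hK
      rw [this]
      simp
    · push Not at hK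
      obtain ⟨ξ0, h0, hne⟩ := hK
      obtain ⟨η0, t0, r0, a0⟩ := (h1 f h x hx hf hh ξ0).1 h0
      have hθ : dot (perp x.2.2) η0.2.2 ≠ 0 := by
        intro hθ
        have := hz x η0 _ hx t0 (hA _ ⟨x, hx, rfl⟩) (by rw [← r0]; exact a0) hθ
        rw [this, dphi_zero] at r0
        exact hne r0
      have hle : Submodule.span ℝ (Ker MM f (phi x)) ≤ ℝ ∙ ξ0 := by
        rw [Submodule.span_le]
        intro ξ hξ
        obtain ⟨η, t, r, a⟩ := (h1 f h x hx hf hh ξ).1 hξ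
        have e : η - (dot (perp x.2.2) η.2.2 / dot (perp x.2.2) η0.2.2) • η0 = 0 := by
          refine hz x _ _ hx ((TS x).sub_mem t ((TS x).smul_mem _ t0)) (hA _ ⟨x, hx, rfl⟩) ?_ ?_
          · have : dphi x (η - (dot (perp x.2.2) η.2.2 / dot (perp x.2.2) η0.2.2) • η0) =
                ξ - (dot (perp x.2.2) η.2.2 / dot (perp x.2.2) η0.2.2) • ξ0 := by
              rw [r, r0]
              have := map_sub (dphiL x) η
                ((dot (perp x.2.2) η.2.2 / dot (perp x.2.2) η0.2.2) • η0)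
              rw [map_smul] at this
              exact this
            rw [this, map_sub, map_smul, a, a0, smul_zero, sub_zero]
          · have : (η - (dot (perp x.2.2) η.2.2 / dot (perp x.2.2) η0.2.2) • η0).2.2 =
                η.2.2 + (-(dot (perp x.2.2) η.2.2 / dot (perp x.2.2) η0.2.2)) • η0.2.2 := by
              rw [neg_smul, ← sub_eq_add_neg]
              rfl
            rw [this, dot_add_right, dot_smul_right]
            field_simp
            ring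
        rw [sub_eq_zero] at e
        rw [SetLike.mem_coe, Submodule.mem_span_singleton]
        refine ⟨dot (perp x.2.2) η.2.2 / dot (perp x.2.2) η0.2.2, ?_⟩
        rw [r, r0, ← dphi_smul, ← e]
      refine (Submodule.finrank_mono hle).trans ?_
      rw [finrank_span_singleton hne]
  · rintro _ ⟨x, hx, rfl⟩
    constructor
    · ext1 b
      rw [ContinuousLinearMap.comp_apply, Lf_phi, Lf_phi, dot_smul_right, hx.2.1, mul_one]
    · rw [range_Lf x hx, finrank_span_singleton (ne_zero x hx)]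
  · rintro _ ⟨⟨x, hx, rfl⟩, -⟩ ξ hξ
    obtain ⟨η, t, r, a⟩ := (h1 f h x hx hf hh ξ).1 hξ
    rw [r, Tf_phi x η hx t, Lf_phi, dot_smul_right, hx.2.1, mul_one]
    refine ⟨rfl, fun h0 => ?_⟩
    have hθ : dot (perp x.2.2) η.2.2 = 0 := by
      rcases smul_eq_zero.1 h0 with h | h
      · exact h
      · exact absurd h (ne_zero x hx)
    rw [hz x η _ hx t (hA _ ⟨x, hx, rfl⟩) (by rw [← r]; exact a) hθ, dphi_zero]

end Pool.Agent.Lib.MP_086785_gt.CB
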