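import Pool.Agent.Lib.MP_086785_gt.CB.Stmts

/-! Project CB: exactly one point with large kernel. -/

set_option autoImplicit false

namespace Pool.Agent.Lib.MP_086785_gt.CB

open Set Filter Topology
open scoped ContDiff

theorem Two.cl_mono {i : ℕ} {δ δ' : ℝ} {g : EE → FF} (h : δ ≤ δ') (hg : Cl i δ g) : Cl i δ' g :=
  ⟨hg.1, fun z hz j hj => (hg.2 z hz j hj).trans h⟩

theorem stTwo (h1 : StGlobU) (h2 : StLoc) : StTwo := by
  obtain ⟨U, hU, h0, δ1, hδ1, hL⟩ := h2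
  obtain ⟨δ2, hδ2, hG⟩ := h1 U hU h0
  refine ⟨min δ1 δ2, lt_min hδ1 hδ2, fun h V hh hV hc hcV hp => ?_⟩
  obtain ⟨m, hm, hm1, hm2⟩ := hL h V hh hV (Two.cl_mono (min_le_left _ _) hc)
    (fun j => Two.cl_mono (min_le_left _ _) (hcV j)) hp
  refine ⟨m, hm, fun x hx => ⟨fun h3 => ?_, fun hxm => hm1 x hx hxm⟩⟩
  have hxM : phi x ∈ MM := ⟨x, hx, rfl⟩
  refine hm2 x hx (hG x _ _ hx ?_ ?_ h3.ge) h3.ge
  · have e : fderiv ℝ h (phi x) - f0 = fderiv ℝ (fun x => h x - f0 x) (phi x) := by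
      rw [fderiv_fun_sub (hh.differentiable (by simp)).differentiableAt f0.differentiableAt,
        f0.fderiv]
    rw [e, ← norm_iteratedFDeriv_one]
    exact (hc.2 _ hxM 1 (by norm_num)).trans (min_le_right _ _)
  · intro j
    have := (hcV j).2 _ hxM 0 (by norm_num)
    rw [norm_iteratedFDeriv_zero] at this
    exact this.trans (min_le_right _ _)

end Pool.Agent.Lib.MP_086785_gt.CB
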