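import Pool.Agent.Lib.MP_086785_gt.CB.Stmts

/-! Project CB, module VEL: velocities of curves in `Mt`. -/

set_option autoImplicit false

namespace Pool.Agent.Lib.MP_086785_gt.CB

open Set Filter Topology Finset
open scoped ContDiff

namespace Vel

theorem mono_deriv (v : ℝ → Fin 3 → ℝ) (w : Fin 3 → ℝ) (h : ∀ i, HasDerivAt (fun t => v t i) (w i) 0)
    (i : Fin 6) : HasDerivAt (fun t => mono (v t) i) (mono1 (v 0) w i) 0 := by
  have h0 := h 0
  have h1 := h 1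
  have h2 := h 2
  fin_cases i
  · refine HasDerivAt.congr_deriv (h0.fun_pow 3) ?_
    simp only [mono1]
    norm_num
  · refine HasDerivAt.congr_deriv (h1.fun_mul (h0.fun_pow 2)) ?_
    simp [mono1]
    ring
  · refine HasDerivAt.congr_deriv (h2.fun_mul (h0.fun_pow 2)) ?_
    simp [mono1]
    ring
  · refine HasDerivAt.congr_deriv (h0.fun_mul ((h1.fun_pow 2).fun_add (h2.fun_pow 2))) ?_
    change _ = w 0 * (v 0 1 ^ 2 + v 0 2 ^ 2) + v 0 0 * (2 * (v 0 1 * w 1 + v 0 2 * w 2))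
    simp only [Nat.cast_ofNat, Nat.reduceSub, pow_one]
    ring
  · refine HasDerivAt.congr_deriv (h1.fun_mul ((h1.fun_pow 2).fun_add (h2.fun_pow 2))) ?_
    change _ = w 1 * (v 0 1 ^ 2 + v 0 2 ^ 2) + v 0 1 * (2 * (v 0 1 * w 1 + v 0 2 * w 2))
    simp only [Nat.cast_ofNat, Nat.reduceSub, pow_one]
    ring
  · refine HasDerivAt.congr_deriv (h2.fun_mul ((h1.fun_pow 2).fun_add (h2.fun_pow 2))) ?_
    change _ = w 2 * (v 0 1 ^ 2 + v 0 2 ^ 2) + v 0 2 * (2 * (v 0 1 * w 1 + v 0 2 * w 2))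
    simp only [Nat.cast_ofNat, Nat.reduceSub, pow_one]
    ring

theorem LL_deriv (y : ℝ → Fin 11 → ℝ) (y' : Fin 11 → ℝ) (m : ℝ → Fin 6 → ℝ) (m' : Fin 6 → ℝ)
    (hy : ∀ i, HasDerivAt (fun t => y t i) (y' i) 0)
    (hm : ∀ i, HasDerivAt (fun t => m t i) (m' i) 0) (i : Fin 3) :
    HasDerivAt (fun t => LL (y t) (m t) i) ((LL y' (m 0) + LL (y 0) m') i) 0 := by
  fin_cases i
  · refine HasDerivAt.congr_deriv (((((((hy 3).fun_mul (hm 0)).fun_add
      ((hy 5).fun_mul (hm 1))).fun_sub ((hy 6).fun_mul (hm 2))).fun_add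
      ((hy 7).fun_mul (hm 3))).fun_add ((hy 9).fun_mul (hm 4))).fun_sub
      ((hy 10).fun_mul (hm 5))) ?_
    simp [LL]
    ring
  · refine HasDerivAt.congr_deriv (((((((hy 4).fun_mul (hm 0)).fun_add
      ((hy 5).fun_mul (hm 2))).fun_add ((hy 6).fun_mul (hm 1))).fun_add
      ((hy 8).fun_mul (hm 3))).fun_add ((hy 9).fun_mul (hm 5))).fun_add
      ((hy 10).fun_mul (hm 4))) ?_
    simp [LL]
    ring
  · refine HasDerivAt.congr_deriv ((((((hy 2).fun_mul ((hm 0).fun_sub (hm 3))).fun_add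
      ((hy 0).fun_mul (hm 1))).fun_sub ((hy 1).fun_mul (hm 2))).fun_add
      ((hy 0).fun_mul (hm 5))).fun_add ((hy 1).fun_mul (hm 4))) ?_
    simp [LL]
    ring

theorem dot_deriv {n : ℕ} (y : ℝ → Fin n → ℝ) (y' : Fin n → ℝ)
    (hy : ∀ i, HasDerivAt (fun t => y t i) (y' i) 0) (h : ∀ᶠ t in 𝓝 (0 : ℝ), dot (y t) (y t) = 1) :
    dot (y 0) y' = 0 := by
  have h1 : HasDerivAt (fun t => dot (y t) (y t)) (∑ i, (y' i * y 0 i + y 0 i * y' i)) 0 :=
    HasDerivAt.fun_sum fun i _ => (hy i).fun_mul (hy i)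
  have h2 := h1.unique ((hasDerivAt_const (0 : ℝ) (1 : ℝ)).congr_of_eventuallyEq h)
  have h3 : ∑ i, (y' i * y 0 i + y 0 i * y' i) = 2 * dot (y 0) y' := by
    rw [dot, Finset.mul_sum]
    exact Finset.sum_congr rfl fun i _ => by ring
  linarith

end Vel

theorem stVel (h : StDphi) : StVel := by
  rintro x η X rfl hX hd
  have hy : ∀ i, HasDerivAt (fun t => (X t).1 i) (η.1 i) 0 := hasDerivAt_pi.1 hd.fst
  have hu : ∀ i, HasDerivAt (fun t => (X t).2.1 i) (η.2.1 i) 0 := hasDerivAt_pi.1 hd.snd.fst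
  have ha : ∀ i, HasDerivAt (fun t => (X t).2.2 i) (η.2.2 i) 0 := hasDerivAt_pi.1 hd.snd.snd
  refine ⟨⟨?_, ?_, ?_, ?_⟩, ?_⟩
  · exact Vel.dot_deriv (fun t => (X t).1) η.1 hy (hX.mono fun t ht => ht.1)
  · exact Vel.dot_deriv (fun t => (X t).2.1) η.2.1 hu (hX.mono fun t ht => ht.2.1)
  · exact Vel.dot_deriv (fun t => (X t).2.2) η.2.2 ha (hX.mono fun t ht => ht.2.2.1)
  · have hv : ∀ i, HasDerivAt (fun t => vv (X t) i)
        (dvec (X 0).2.1 (X 0).2.2 η.2.1 η.2.2 i) 0 := by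
      intro i
      fin_cases i
      · exact ha 0
      · exact (ha 1).fun_mul (hu 0)
      · exact (ha 1).fun_mul (hu 1)
    have hm := Vel.mono_deriv (fun t => vv (X t)) _ hv
    have hS := Vel.LL_deriv (fun t => (X t).1) η.1 (fun t => mono (vv (X t))) _ hy hm
    funext i
    refine (hS i).unique ((hasDerivAt_const (0 : ℝ) (0 : ℝ)).congr_of_eventuallyEq ?_)
    filter_upwards [hX] with t ht
    exact congrFun ht.2.2.2 i
  · exact (h.2 (X 0)).comp_hasDerivAt 0 hd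

end Pool.Agent.Lib.MP_086785_gt.CB
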