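import Pool.Agent.Lib.MP_086785_gt.CB.Stmts

/-! Project CB: formula for the vector fields. -/

set_option autoImplicit false

namespace Pool.Agent.Lib.MP_086785_gt.CB

open Set Filter Topology Finset
open scoped ContDiff

namespace VfEq

theorem mono_smul (c : ℝ) (v : Fin 3 → ℝ) : mono (c • v) = c ^ 3 • mono v := by
  funext i
  fin_cases i <;> simp [mono] <;> ring

theorem mono1_smul2 (c d : ℝ) (w v : Fin 3 → ℝ) :
    mono1 (c • w) (d • v) = (c ^ 2 * d) • mono1 w v := by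
  funext i
  fin_cases i <;> simp [mono1] <;> ring

theorem LT_smul_m (c : ℝ) (m : Fin 6 → ℝ) (s : Fin 3 → ℝ) : LT (c • m) s = c • LT m s := by
  funext i
  fin_cases i <;> simp [LT] <;> ring

theorem ww_smul (c d : ℝ) (v : Fin 3 → ℝ) (u : Fin 2 → ℝ) :
    ww (c • v) (d • u) = (c * d) • ww v u := by
  funext i
  fin_cases i <;> simp [ww] <;> ring

theorem RR_smul_v (c : ℝ) (v s : Fin 3 → ℝ) : RR (c • v) s = c ^ 3 • RR v s := by
  rw [RR, mono_smul, LT_smul_m]; rfl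

theorem sg1_smul (c d : ℝ) (y : Fin 11 → ℝ) (v : Fin 3 → ℝ) (u : Fin 2 → ℝ) :
    sg1 y (c • v) (d • u) = (c ^ 3 * d ^ 2) • sg1 y v u := by
  rw [sg1, ww_smul, S1, mono1_smul2, LL_smul_right, sg1, S1]
  congr 1
  ring

theorem S_smul_v' (c : ℝ) (y : Fin 11 → ℝ) (v : Fin 3 → ℝ) : S y (c • v) = c ^ 3 • S y v := by
  rw [S, mono_smul, LL_smul_right]; rfl

theorem sg2_smul (c d : ℝ) (y : Fin 11 → ℝ) (v : Fin 3 → ℝ) (u : Fin 2 → ℝ) :
    sg2 y (c • v) (d • u) = (c ^ 3 * d ^ 4) • sg2 y v u := by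
  rw [sg2, ww_smul, S_smul_v', sg2]
  funext i
  fin_cases i <;> simp <;> ring

/-- `sgj` with free arguments -/
def sgf (j : Fin 2) (y : Fin 11 → ℝ) (v : Fin 3 → ℝ) (u : Fin 2 → ℝ) : Fin 3 → ℝ :=
  if j = 0 then sg1 y v u else sg2 y v u

theorem Xm_eq (j : Fin 2) (v : Fin 3 → ℝ) (u : Fin 2 → ℝ) (a b : Fin 11) :
    Xm j v u a b = RR v (sgf j (Pi.single b 1) v u) a := by
  unfold Xm sgf
  split_ifs <;> rfl

theorem sgf_smul (j : Fin 2) (c d : ℝ) (y : Fin 11 → ℝ) (v : Fin 3 → ℝ) (u : Fin 2 → ℝ) :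
    sgf j y (c • v) (d • u) = (c ^ 3 * d ^ (if j = 0 then 2 else 4)) • sgf j y v u := by
  unfold sgf
  split_ifs
  · exact sg1_smul _ _ _ _ _
  · exact sg2_smul _ _ _ _ _

theorem Xm_smul (j : Fin 2) (c d : ℝ) (v : Fin 3 → ℝ) (u : Fin 2 → ℝ) (a b : Fin 11) :
    Xm j (c • v) (d • u) a b = c ^ 6 * d ^ (if j = 0 then 2 else 4) * Xm j v u a b := by
  rw [Xm_eq, Xm_eq, sgf_smul, RR_smul_v, RR, LT_smul]
  simp only [Pi.smul_apply, smul_eq_mul, RR]
  ring

theorem sgf_add (j : Fin 2) (y y' : Fin 11 → ℝ) (v : Fin 3 → ℝ) (u : Fin 2 → ℝ) :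
    sgf j (y + y') v u = sgf j y v u + sgf j y' v u := by
  unfold sgf
  split_ifs
  · exact S1_add_left _ _ _ _
  · rw [sg2, S_add]
    funext i
    fin_cases i <;> simp [sg2] <;> ring

theorem sgf_smul_y (j : Fin 2) (c : ℝ) (y : Fin 11 → ℝ) (v : Fin 3 → ℝ) (u : Fin 2 → ℝ) :
    sgf j (c • y) v u = c • sgf j y v u := by
  unfold sgf
  split_ifs
  · exact S1_smul_left _ _ _ _
  · rw [sg2, S_smul]
    funext i
    fin_cases i <;> simp [sg2] <;> ring

/-- the linear map `y ↦ RR v (sgf j y v u)` -/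
def Rl (j : Fin 2) (v : Fin 3 → ℝ) (u : Fin 2 → ℝ) : (Fin 11 → ℝ) →ₗ[ℝ] (Fin 11 → ℝ) where
  toFun y := RR v (sgf j y v u)
  map_add' y y' := by rw [sgf_add, RR, LT_add]; rfl
  map_smul' c y := by rw [sgf_smul_y, RR, LT_smul]; rfl

theorem sum_Xm (j : Fin 2) (v : Fin 3 → ℝ) (u : Fin 2 → ℝ) (y : Fin 11 → ℝ) (a : Fin 11) :
    ∑ k, Xm j v u a k * y k = RR v (sgf j y v u) a := by
  have h : Rl j v u y = ∑ k, y k • Rl j v u (Pi.single k 1) := by
    have hy : y = ∑ k, y k • (Pi.single k (1 : ℝ) : Fin 11 → ℝ) := by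
      funext i
      simp [Finset.sum_apply, Pi.single_apply]
    conv_lhs => rw [hy]
    rw [map_sum]
    simp only [map_smul]
  have h' := congrFun h a
  simp only [Finset.sum_apply, Pi.smul_apply, smul_eq_mul] at h'
  change RR v (sgf j y v u) a = _ at h'
  rw [h']
  refine Finset.sum_congr rfl fun k _ => ?_
  rw [Xm_eq, mul_comm]
  rfl

theorem sgj_eq (j : Fin 2) (x : XX) : sgj j x = sgf j x.1 (vv x) x.2.1 := rfl

theorem Xa_eq (j : Fin 2) (x : XX) (a b : Fin 11) :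
    Xa j (phi x) a b = rho j x * Xm j (vv x) x.2.1 a b := by
  unfold Xa
  have h : ∀ (c : Fin 3) (d : Fin 2),
      Xm j (fun i => (phi x).2.2 i c) (fun i => (phi x).2.1 i d) a b =
        (vv x c ^ 6 * x.2.1 d ^ (if j = 0 then 2 else 4)) * Xm j (vv x) x.2.1 a b := by
    intro c d
    rw [← Xm_smul]
    congr 1
    · funext i
      simp [phi, op, mul_comm]
    · funext i
      simp [phi, op, mul_comm]
  simp only [h]
  rw [rho, Finset.sum_mul_sum, Finset.sum_mul]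
  refine Finset.sum_congr rfl fun c _ => ?_
  rw [Finset.sum_mul]

/-- the vector `rho RR v s` -/
def rv (j : Fin 2) (x : XX) : Fin 11 → ℝ := rho j x • RR (vv x) (sgj j x)

theorem dot_rv (j : Fin 2) (x : XX) (hx : x ∈ Mt) : ∑ k, rv j x k * x.1 k = 0 := by
  have : dot (rv j x) x.1 = 0 := by
    rw [rv, dot_smul_left, RR_adj, hx.2.2.2, dot_zero_right, mul_zero]
  exact this

theorem mmXa (j : Fin 2) (x : XX) (a b : Fin 11) :
    mm (Xa j (phi x)) (op x.1) a b = rv j x a * x.1 b := by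
  have : mm (Xa j (phi x)) (op x.1) a b =
      rho j x * (∑ k, Xm j (vv x) x.2.1 a k * x.1 k) * x.1 b := by
    simp only [mm, Xa_eq, op, Finset.mul_sum, Finset.sum_mul]
    exact Finset.sum_congr rfl fun k _ => by ring
  rw [this, sum_Xm, rv, sgj_eq]
  rfl

theorem mmXt (j : Fin 2) (x : XX) (a b : Fin 11) :
    mm (op x.1) (tp (Xa j (phi x))) a b = x.1 a * rv j x b := by
  have : mm (op x.1) (tp (Xa j (phi x))) a b =
      x.1 a * (rho j x * (∑ k, Xm j (vv x) x.2.1 b k * x.1 k)) := by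
    simp only [mm, tp, Xa_eq, op, Finset.mul_sum]
    exact Finset.sum_congr rfl fun k _ => by ring
  rw [this, sum_Xm, rv, sgj_eq]
  rfl

theorem Km_eq (j : Fin 2) (x : XX) (a b : Fin 11) :
    Km j (phi x) (op x.1) a b = rv j x a * x.1 b - x.1 a * rv j x b := by
  rw [Km, Pi.sub_apply, Pi.sub_apply, mmXa, mmXt]

theorem sum_sq (x : XX) (hx : x ∈ Mt) : ∑ k, x.1 k * x.1 k = 1 := hx.1

theorem Vf_eq (j : Fin 2) (x : XX) (hx : x ∈ Mt) :
    VV j (phi x) = (dop x.1 (rv j x), 0) := by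
  unfold VV Vf
  have h1 : ∀ a b, mm (Km j (phi x) (phi x).1) (phi x).1 a b = rv j x a * x.1 b := by
    intro a b
    have : mm (Km j (phi x) (phi x).1) (phi x).1 a b =
        rv j x a * x.1 b * (∑ k, x.1 k * x.1 k) - x.1 a * x.1 b * (∑ k, rv j x k * x.1 k) := by
      change ∑ k, Km j (phi x) (op x.1) a k * (x.1 k * x.1 b) = _
      simp only [Km_eq, Finset.mul_sum, ← Finset.sum_sub_distrib]
      exact Finset.sum_congr rfl fun k _ => by ring
    rw [this, sum_sq x hx, dot_rv j x hx]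
    ring
  have h2 : ∀ a b, mm (phi x).1 (tp (Km j (phi x) (phi x).1)) a b = x.1 a * rv j x b := by
    intro a b
    have : mm (phi x).1 (tp (Km j (phi x) (phi x).1)) a b =
        x.1 a * rv j x b * (∑ k, x.1 k * x.1 k) - x.1 a * x.1 b * (∑ k, rv j x k * x.1 k) := by
      change ∑ k, x.1 a * x.1 k * Km j (phi x) (op x.1) b k = _
      simp only [Km_eq, Finset.mul_sum, ← Finset.sum_sub_distrib]
      exact Finset.sum_congr rfl fun k _ => by ring
    rw [this, sum_sq x hx, dot_rv j x hx]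
    ring
  ext a b
  · change mm _ _ a b + mm _ _ a b = _
    rw [h1, h2]
    simp only [dop]
    ring
  · rfl

theorem rho_bd (j : Fin 2) (x : XX) (hx : x ∈ Mt) : 1 / 20 ≤ rho j x ∧ rho j x ≤ 3 := by
  obtain ⟨-, hu, ha, -⟩ := hx
  have hu' : x.2.1 0 * x.2.1 0 + x.2.1 1 * x.2.1 1 = 1 := by
    simpa [dot, Fin.sum_univ_two] using hu
  have ha' : x.2.2 0 * x.2.2 0 + x.2.2 1 * x.2.2 1 = 1 := by
    simpa [dot, Fin.sum_univ_two] using ha
  have hv : vv x 0 ^ 2 + vv x 1 ^ 2 + vv x 2 ^ 2 = 1 := by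
    simp only [vv, vec, Matrix.cons_val_zero, Matrix.cons_val_one, Matrix.cons_val]
    nlinarith [hu', ha']
  have hA : 1 / 9 ≤ ∑ c, vv x c ^ 6 ∧ ∑ c, vv x c ^ 6 ≤ 1 := by
    rw [Fin.sum_univ_three]
    generalize vv x 0 = a at hv ⊢
    generalize vv x 1 = b at hv ⊢
    generalize vv x 2 = c at hv ⊢
    have e1 : a ^ 6 = (a ^ 2) ^ 3 := by ring
    have e2 : b ^ 6 = (b ^ 2) ^ 3 := by ring
    have e3 : c ^ 6 = (c ^ 2) ^ 3 := by ring
    rw [e1, e2, e3]
    have p1 := sq_nonneg a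
    have p2 := sq_nonneg b
    have p3 := sq_nonneg c
    generalize a ^ 2 = p at *
    generalize b ^ 2 = q at *
    generalize c ^ 2 = r at *
    constructor
    · nlinarith [mul_nonneg p1 (sq_nonneg (p - 1 / 3)), mul_nonneg p2 (sq_nonneg (q - 1 / 3)),
        mul_nonneg p3 (sq_nonneg (r - 1 / 3)), sq_nonneg (p - 1 / 3), sq_nonneg (q - 1 / 3),
        sq_nonneg (r - 1 / 3)]
    · have h1 : p ^ 3 ≤ p := by
        have : p ≤ 1 := by linarith
        nlinarith [mul_nonneg p1 p1, mul_nonneg (mul_nonneg p1 p1) (sub_nonneg.2 this),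
          mul_nonneg p1 (sub_nonneg.2 this)]
      have h2 : q ^ 3 ≤ q := by
        have : q ≤ 1 := by linarith
        nlinarith [mul_nonneg p2 p2, mul_nonneg (mul_nonneg p2 p2) (sub_nonneg.2 this),
          mul_nonneg p2 (sub_nonneg.2 this)]
      have h3 : r ^ 3 ≤ r := by
        have : r ≤ 1 := by linarith
        nlinarith [mul_nonneg p3 p3, mul_nonneg (mul_nonneg p3 p3) (sub_nonneg.2 this),
          mul_nonneg p3 (sub_nonneg.2 this)]
      linarith
  have hB : 1 / 2 ≤ ∑ d, x.2.1 d ^ (if j = 0 then 2 else 4) ∧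
      ∑ d, x.2.1 d ^ (if j = 0 then 2 else 4) ≤ 1 := by
    rw [Fin.sum_univ_two]
    generalize x.2.1 0 = a at hu' ⊢
    generalize x.2.1 1 = b at hu' ⊢
    split_ifs
    · constructor <;> nlinarith
    · have p1 := sq_nonneg a
      have p2 := sq_nonneg b
      have e1 : a ^ 4 = (a ^ 2) ^ 2 := by ring
      have e2 : b ^ 4 = (b ^ 2) ^ 2 := by ring
      have e3 : a ^ 2 + b ^ 2 = 1 := by nlinarith
      rw [e1, e2]
      generalize a ^ 2 = p at *
      generalize b ^ 2 = q at *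
      constructor <;> nlinarith [sq_nonneg (p - q), mul_nonneg p1 p2]
  unfold rho
  constructor
  · nlinarith [hA.1, hB.1, mul_le_mul hA.1 hB.1 (by norm_num) (by linarith [hA.1])]
  · nlinarith [hA.1, hB.1, hA.2, hB.2, mul_le_mul hA.2 hB.2 (by linarith [hB.1]) (by norm_num)]

end VfEq

theorem stVfEq : StVfEq := by
  intro j x hx
  refine ⟨?_, VfEq.rho_bd j x hx⟩
  rw [VfEq.Vf_eq j x hx, VfEq.rv, dop_smul]

end Pool.Agent.Lib.MP_086785_gt.CB
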