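import Pool.Agent.Lib.MP_086785_gt.CB.Stmts

/-! Project CB: the vector fields depend continuously on the map. -/

set_option autoImplicit false

namespace Pool.Agent.Lib.MP_086785_gt.CB

open Set Filter Topology Finset
open scoped ContDiff

namespace Vfc

section General

variable {E P F : Type} [NormedAddCommGroup E] [NormedSpace ℝ E] [NormedAddCommGroup P]
  [NormedSpace ℝ P] [NormedAddCommGroup F] [NormedSpace ℝ F]

omit [NormedSpace ℝ E] [NormedSpace ℝ P] in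
/-- a continuous function which is smaller than `ε` on `K × {0}` is so near this set -/
theorem tube (K : Set E) (hK : IsCompact K) (φ : E × P → ℝ) (hφ : Continuous φ) (ε : ℝ)
    (h0 : ∀ x ∈ K, φ (x, 0) < ε) :
    ∃ δ > 0, ∀ x ∈ K, ∀ q : P, ‖q‖ ≤ δ → φ (x, q) < ε := by
  obtain ⟨u, v, hu, hv, hKu, h0v, huv⟩ := generalized_tube_lemma hK
    (isCompact_singleton (x := (0 : P))) (isOpen_lt hφ continuous_const) (by
      rintro ⟨x, q⟩ ⟨hx, hq⟩
      obtain rfl : q = 0 := hq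
      exact h0 x hx : K ×ˢ ({0} : Set P) ⊆ {z | φ z < ε})
  obtain ⟨δ, hδ, hball⟩ := Metric.isOpen_iff.1 hv 0 (h0v rfl)
  refine ⟨δ / 2, by positivity, fun x hx q hq => ?_⟩
  refine huv ⟨hKu hx, hball ?_⟩
  rw [mem_ball_zero_iff]
  linarith

theorem gen (W : E × P → F) (hW : ContDiff ℝ ∞ W) (h0 : ∀ x, W (x, 0) = 0) (K : Set E)
    (hK : IsCompact K) (δ : ℝ) (hδ : 0 < δ) :
    ∃ δ' > 0, ∀ q : E → P, ContDiff ℝ ∞ q → (∀ z ∈ K, ‖q z‖ ≤ δ' ∧ ‖fderiv ℝ q z‖ ≤ δ') →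
      ∀ z ∈ K, ‖W (z, q z)‖ ≤ δ ∧ ‖fderiv ℝ (fun x => W (x, q x)) z‖ ≤ δ := by
  have hWc : Continuous W := hW.continuous
  have hdW : Continuous (fderiv ℝ W) := hW.continuous_fderiv (by simp)
  have hd : ∀ z, HasFDerivAt W (fderiv ℝ W z) z := fun z =>
    (hW.differentiable (by simp) z).hasFDerivAt
  -- the derivative in the direction of `E` vanishes on `q = 0`
  have h1 : ∀ x, (fderiv ℝ W (x, 0)).comp (ContinuousLinearMap.inl ℝ E P) = 0 := by
    intro x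
    have e1 : HasFDerivAt (fun y : E => W (y, (0 : P)))
        ((fderiv ℝ W (x, 0)).comp (ContinuousLinearMap.inl ℝ E P)) x := by
      exact HasFDerivAt.comp (g := W) (f := fun y : E => (y, (0 : P))) x (hd (x, 0))
        (hasFDerivAt_prodMk_left x (0 : P))
    have e2 : HasFDerivAt (fun y : E => W (y, (0 : P))) (0 : E →L[ℝ] F) x := by
      have : (fun y : E => W (y, (0 : P))) = fun _ => 0 := funext h0
      rw [this]
      exact hasFDerivAt_const _ _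
    exact e1.unique e2
  obtain ⟨C, hC⟩ : ∃ C, ∀ x ∈ K, ‖fderiv ℝ W (x, (0 : P))‖ ≤ C := by
    have hc : Continuous fun x : E => fderiv ℝ W (x, (0 : P)) :=
      hdW.comp (by fun_prop)
    exact hK.exists_bound_of_continuousOn hc.continuousOn
  obtain ⟨δ1, hδ1, k1⟩ := tube K hK (fun z : E × P => ‖W z‖) hWc.norm δ (by
    intro x _
    simpa [h0] using hδ)
  obtain ⟨δ2, hδ2, k2⟩ := tube K hK
    (fun z : E × P => ‖(fderiv ℝ W z).comp (ContinuousLinearMap.inl ℝ E P)‖)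
    (hdW.clm_comp continuous_const).norm (δ / 2) (by
      intro x _
      simpa [h1] using hδ)
  obtain ⟨δ3, hδ3, k3⟩ := tube K hK (fun z : E × P => ‖fderiv ℝ W z‖) hdW.norm (|C| + 1) (by
    intro x hx
    have := hC x hx
    have := le_abs_self C
    linarith)
  have hC1 : 0 < |C| + 1 := by positivity
  refine ⟨min (min δ1 δ2) (min δ3 (δ / (2 * (|C| + 1)))), by positivity, ?_⟩
  intro q hq hsm z hz
  obtain ⟨a1, a2⟩ := hsm z hz
  have b1 : ‖q z‖ ≤ δ1 := a1.trans ((min_le_left _ _).trans (min_le_left _ _))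
  have b2 : ‖q z‖ ≤ δ2 := a1.trans ((min_le_left _ _).trans (min_le_right _ _))
  have b3 : ‖q z‖ ≤ δ3 := a1.trans ((min_le_right _ _).trans (min_le_left _ _))
  have b4 : ‖fderiv ℝ q z‖ ≤ δ / (2 * (|C| + 1)) :=
    a2.trans ((min_le_right _ _).trans (min_le_right _ _))
  refine ⟨(k1 z hz _ b1).le, ?_⟩
  have hqd : HasFDerivAt q (fderiv ℝ q z) z := (hq.differentiable (by simp) z).hasFDerivAt
  have e : HasFDerivAt (fun x => W (x, q x))
      ((fderiv ℝ W (z, q z)).comp ((ContinuousLinearMap.id ℝ E).prod (fderiv ℝ q z))) z :=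
    HasFDerivAt.comp z (hd (z, q z)) ((hasFDerivAt_id z).prodMk hqd)
  rw [e.fderiv]
  have hsplit : (fderiv ℝ W (z, q z)).comp ((ContinuousLinearMap.id ℝ E).prod (fderiv ℝ q z)) =
      (fderiv ℝ W (z, q z)).comp (ContinuousLinearMap.inl ℝ E P) +
      ((fderiv ℝ W (z, q z)).comp (ContinuousLinearMap.inr ℝ E P)).comp (fderiv ℝ q z) := by
    ext v
    simp only [ContinuousLinearMap.comp_apply, add_apply,
      ContinuousLinearMap.prod_apply, ContinuousLinearMap.inl_apply,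
      ContinuousLinearMap.inr_apply, ContinuousLinearMap.id_apply, ← map_add, Prod.mk_add_mk,
      add_zero, zero_add]
  rw [hsplit]
  have c2 := k2 z hz _ b2
  have c3 := k3 z hz _ b3
  have c4 : ‖(fderiv ℝ W (z, q z)).comp (ContinuousLinearMap.inr ℝ E P)‖ ≤ |C| + 1 := by
    refine (ContinuousLinearMap.opNorm_comp_le _ _).trans ?_
    have : ‖ContinuousLinearMap.inr ℝ E P‖ ≤ 1 := ContinuousLinearMap.norm_inr_le_one ℝ E P
    calc _ ≤ ‖fderiv ℝ W (z, q z)‖ * 1 := by gcongr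
      _ ≤ _ := by rw [mul_one]; exact c3.le
  have c5 : ‖((fderiv ℝ W (z, q z)).comp (ContinuousLinearMap.inr ℝ E P)).comp (fderiv ℝ q z)‖ ≤
      δ / 2 := by
    refine (ContinuousLinearMap.opNorm_comp_le _ _).trans ?_
    calc _ ≤ (|C| + 1) * (δ / (2 * (|C| + 1))) := by gcongr
      _ = δ / 2 := by field_simp
  refine (norm_add_le _ _).trans ?_
  linarith [c2.le]

end General

section Smooth

variable {E : Type} [NormedAddCommGroup E] [NormedSpace ℝ E]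

theorem cd_mono {v : E → Fin 3 → ℝ} (hv : ContDiff ℝ ∞ v) :
    ContDiff ℝ ∞ fun x => mono (v x) := by
  have h := contDiff_pi.1 hv
  have h0 := h 0
  have h1 := h 1
  have h2 := h 2
  refine contDiff_pi.2 fun i => ?_
  fin_cases i <;> simp only [mono] <;> simp <;> fun_prop

theorem cd_mono1 {v w : E → Fin 3 → ℝ} (hv : ContDiff ℝ ∞ v) (hw : ContDiff ℝ ∞ w) :
    ContDiff ℝ ∞ fun x => mono1 (v x) (w x) := by
  have h := contDiff_pi.1 hv
  have h0 := h 0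
  have h1 := h 1
  have h2 := h 2
  have h' := contDiff_pi.1 hw
  have h0' := h' 0
  have h1' := h' 1
  have h2' := h' 2
  refine contDiff_pi.2 fun i => ?_
  fin_cases i <;> simp only [mono1] <;> simp <;> fun_prop

theorem cd_LL {y : E → Fin 11 → ℝ} {m : E → Fin 6 → ℝ} (hy : ContDiff ℝ ∞ y)
    (hm : ContDiff ℝ ∞ m) : ContDiff ℝ ∞ fun x => LL (y x) (m x) := by
  have h := contDiff_pi.1 hy
  have h' := contDiff_pi.1 hm
  refine contDiff_pi.2 fun i => ?_
  fin_cases i <;> simp only [LL] <;> simp <;> fun_prop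

theorem cd_LT {m : E → Fin 6 → ℝ} {s : E → Fin 3 → ℝ} (hm : ContDiff ℝ ∞ m)
    (hs : ContDiff ℝ ∞ s) : ContDiff ℝ ∞ fun x => LT (m x) (s x) := by
  have h := contDiff_pi.1 hs
  have h' := contDiff_pi.1 hm
  refine contDiff_pi.2 fun i => ?_
  fin_cases i <;> simp only [LT] <;> simp <;> fun_prop

theorem cd_ww {v : E → Fin 3 → ℝ} {u : E → Fin 2 → ℝ} (hv : ContDiff ℝ ∞ v)
    (hu : ContDiff ℝ ∞ u) : ContDiff ℝ ∞ fun x => ww (v x) (u x) := by
  have h := contDiff_pi.1 hv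
  have h' := contDiff_pi.1 hu
  refine contDiff_pi.2 fun i => ?_
  fin_cases i <;> simp only [ww] <;> simp <;> fun_prop

theorem cd_sg1 (y : Fin 11 → ℝ) {v : E → Fin 3 → ℝ} {u : E → Fin 2 → ℝ} (hv : ContDiff ℝ ∞ v)
    (hu : ContDiff ℝ ∞ u) : ContDiff ℝ ∞ fun x => sg1 y (v x) (u x) :=
  cd_LL contDiff_const (cd_mono1 (cd_ww hv hu) hv)

theorem cd_sg2 (y : Fin 11 → ℝ) {v : E → Fin 3 → ℝ} {u : E → Fin 2 → ℝ} (hv : ContDiff ℝ ∞ v)
    (hu : ContDiff ℝ ∞ u) : ContDiff ℝ ∞ fun x => sg2 y (v x) (u x) := by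
  have h := contDiff_pi.1 (cd_LL (contDiff_const (c := y)) (cd_mono (cd_ww hv hu)))
  have h' := contDiff_pi.1 hu
  refine contDiff_pi.2 fun i => ?_
  fin_cases i <;> simp only [sg2, S] <;> simp <;> fun_prop

theorem cd_Xm (j : Fin 2) {v : E → Fin 3 → ℝ} {u : E → Fin 2 → ℝ} (hv : ContDiff ℝ ∞ v)
    (hu : ContDiff ℝ ∞ u) (a b : Fin 11) : ContDiff ℝ ∞ fun x => Xm j (v x) (u x) a b := by
  unfold Xm
  by_cases hj : j = 0
  · simp only [hj, if_true]
    exact contDiff_pi.1 (cd_LT (cd_mono hv) (cd_sg1 _ hv hu)) a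
  · simp only [hj, if_false]
    exact contDiff_pi.1 (cd_LT (cd_mono hv) (cd_sg2 _ hv hu)) a

theorem cd_Xa (j : Fin 2) {x : E → EE} (hx : ContDiff ℝ ∞ x) :
    ContDiff ℝ ∞ fun t => Xa j (x t) := by
  refine contDiff_pi.2 fun a => contDiff_pi.2 fun b => ?_
  simp only [Xa]
  refine ContDiff.sum fun c _ => ContDiff.sum fun d _ => cd_Xm j ?_ ?_ a b
  · refine contDiff_pi.2 fun i => ?_
    exact contDiff_pi.1 (contDiff_pi.1 hx.snd.snd i) c
  · refine contDiff_pi.2 fun i => ?_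
    exact contDiff_pi.1 (contDiff_pi.1 hx.snd.fst i) d

theorem cd_mm {n : ℕ} {A B : E → Fin n → Fin n → ℝ} (hA : ContDiff ℝ ∞ A)
    (hB : ContDiff ℝ ∞ B) : ContDiff ℝ ∞ fun t => mm (A t) (B t) := by
  refine contDiff_pi.2 fun a => contDiff_pi.2 fun b => ?_
  simp only [mm]
  exact ContDiff.sum fun k _ => (contDiff_pi.1 (contDiff_pi.1 hA a) k).mul
    (contDiff_pi.1 (contDiff_pi.1 hB k) b)

theorem cd_tp {n : ℕ} {A : E → Fin n → Fin n → ℝ} (hA : ContDiff ℝ ∞ A) :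
    ContDiff ℝ ∞ fun t => tp (A t) := by
  refine contDiff_pi.2 fun a => contDiff_pi.2 fun b => ?_
  exact contDiff_pi.1 (contDiff_pi.1 hA b) a

theorem cd_Km (j : Fin 2) {x : E → EE} {P : E → Fin 11 → Fin 11 → ℝ} (hx : ContDiff ℝ ∞ x)
    (hP : ContDiff ℝ ∞ P) : ContDiff ℝ ∞ fun t => Km j (x t) (P t) :=
  (cd_mm (cd_Xa j hx) hP).sub (cd_mm hP (cd_tp (cd_Xa j hx)))

theorem cd_Vf (j : Fin 2) {x : E → EE} {P : E → Fin 11 → Fin 11 → ℝ} (hx : ContDiff ℝ ∞ x)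
    (hP : ContDiff ℝ ∞ P) : ContDiff ℝ ∞ fun t => Vf j (x t) (P t) :=
  ((cd_mm (cd_Km j hx hP) hP).add (cd_mm hP (cd_tp (cd_Km j hx hP)))).prodMk contDiff_const

end Smooth

end Vfc

open Vfc in
theorem stVfc (h1 : StMM) : StVfc := by
  intro δ hδ
  have key : ∀ j : Fin 2, ∃ δ' > 0, ∀ q : EE → Fin 11 → Fin 11 → ℝ, ContDiff ℝ ∞ q →
      (∀ z ∈ MM, ‖q z‖ ≤ δ' ∧ ‖fderiv ℝ q z‖ ≤ δ') → ∀ z ∈ MM,
      ‖Vf j z (z.1 + q z) - VV j z‖ ≤ δ ∧
      ‖fderiv ℝ (fun x : EE => Vf j x (x.1 + q x) - VV j x) z‖ ≤ δ := by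
    intro j
    have hW : ContDiff ℝ ∞ fun z : EE × (Fin 11 → Fin 11 → ℝ) =>
        Vf j z.1 (z.1.1 + z.2) - Vf j z.1 z.1.1 :=
      (cd_Vf j contDiff_fst (contDiff_fst.fst.add contDiff_snd)).sub
        (cd_Vf j contDiff_fst contDiff_fst.fst)
    exact gen _ hW (fun x => by simp) MM h1.1 δ hδ
  choose d hd hk using key
  refine ⟨min (d 0) (d 1), lt_min (hd 0) (hd 1), fun g hg j => ?_⟩
  have hj : min (d 0) (d 1) ≤ d j := by
    fin_cases j
    · exact min_le_left _ _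
    · exact min_le_right _ _
  have hq : ContDiff ℝ ∞ fun x => (g x).1 := hg.1.fst
  refine ⟨(cd_Vf j contDiff_id (contDiff_fst.add hq)).sub (cd_Vf j contDiff_id contDiff_fst),
    fun z hz i hi => ?_⟩
  have hsm : ∀ z ∈ MM, ‖(g z).1‖ ≤ d j ∧ ‖fderiv ℝ (fun x => (g x).1) z‖ ≤ d j := by
    intro z hz
    constructor
    · have := hg.2 z hz 0 (by norm_num)
      rw [norm_iteratedFDeriv_zero] at this
      exact ((norm_fst_le _).trans this).trans hj
    · have := hg.2 z hz 1 le_rfl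
      rw [norm_iteratedFDeriv_one] at this
      have e : HasFDerivAt (fun x => (g x).1)
          ((ContinuousLinearMap.fst ℝ (Fin 11 → Fin 11 → ℝ) (Fin 2 → Fin 2 → ℝ)).comp
            (fderiv ℝ g z)) z :=
        (hg.1.differentiable (by simp) z).hasFDerivAt.fst
      rw [e.fderiv]
      refine ((ContinuousLinearMap.opNorm_comp_le _ _).trans ?_).trans hj
      have hf : ‖ContinuousLinearMap.fst ℝ (Fin 11 → Fin 11 → ℝ) (Fin 2 → Fin 2 → ℝ)‖ ≤ 1 :=
        ContinuousLinearMap.norm_fst_le _ _ _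
      calc _ ≤ 1 * ‖fderiv ℝ g z‖ := by gcongr
        _ ≤ _ := by rw [one_mul]; exact this
  obtain ⟨r1, r2⟩ := hk j _ hq hsm z hz
  have hi' : i = 0 ∨ i = 1 := by omega
  rcases hi' with rfl | rfl
  · rw [norm_iteratedFDeriv_zero]
    exact r1
  · rw [norm_iteratedFDeriv_one]
    exact r2

end Pool.Agent.Lib.MP_086785_gt.CB
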