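import Pool.Agent.Lib.MP_086785_gt.CB.Stmts

/-! Project CB, item ZERO: the special point is the only zero. -/

set_option autoImplicit false

namespace Pool.Agent.Lib.MP_086785_gt.CB

open Set Filter Topology Finset
open scoped ContDiff

namespace Zero

theorem S_line2 (y : Fin 11 → ℝ) (v w : Fin 3 → ℝ) (s t : ℝ) :
    S y (s • v + t • w) = s ^ 3 • S y v + (s ^ 2 * t) • S1 y v w + (s * t ^ 2) • S1 y w v +
      t ^ 3 • S y w := by
  funext i
  fin_cases i <;> simp [S, S1, LL, mono, mono1] <;> ring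

theorem vec_comb (u a : Fin 2 → ℝ) (s t : ℝ) :
    vec u (s • a + t • perp a) = s • vec u a + t • vec u (perp a) := by
  rw [vec_add, vec_smul, vec_smul]

theorem S_vec0 (y : Fin 11 → ℝ) (u : Fin 2 → ℝ) (hu : u 0 = 0) (p q : ℝ) :
    S y (vec u ![p, q]) 0 = y 3 * p ^ 3 - y 6 * (q * u 1) * p ^ 2 + y 7 * p * (q * u 1) ^ 2 -
      y 10 * (q * u 1) ^ 3 ∧
    S y (vec u ![p, q]) 1 = y 4 * p ^ 3 + y 5 * (q * u 1) * p ^ 2 + y 8 * p * (q * u 1) ^ 2 +
      y 9 * (q * u 1) ^ 3 ∧
    S y (vec u ![p, q]) 2 = y 2 * (p ^ 3 - p * (q * u 1) ^ 2) - y 1 * (q * u 1) * p ^ 2 +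
      y 0 * (q * u 1) ^ 3 := by
  refine ⟨?_, ?_, ?_⟩ <;> simp [S, LL, mono, vec, hu] <;> ring

end Zero

open Pool.Agent.Lib.MP_086785_gt.CB.Zero in
/-- the special point is the only zero -/
theorem stZero (h : StQuad) : StZero := by
  intro x hx hvw hsg
  obtain ⟨y, u, a⟩ := x
  obtain ⟨hy, hu, ha, hS⟩ := id hx
  have hww := ww_vv _ hx
  have h0 := hsg 0
  have h1 := hsg 1
  simp only [sgj, sg1, sg2, if_pos, if_neg (show ¬ (1 : Fin 2) = 0 by decide), hww] at h0 h1
  change dot y y = 1 at hy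
  change dot u u = 1 at hu
  change dot a a = 1 at ha
  change S y (vec u a) = 0 at hS
  change S1 y (vec u a) (vec u (perp a)) = 0 at hvw
  change S1 y (vec u (perp a)) (vec u a) = 0 at h0
  change ![u 0 * S y (vec u (perp a)) 0 - u 1 * S y (vec u (perp a)) 1,
    u 1 * S y (vec u (perp a)) 0 + u 0 * S y (vec u (perp a)) 1,
    u 0 * S y (vec u (perp a)) 2] = 0 at h1
  have hu' : u 0 * u 0 + u 1 * u 1 = 1 := by simpa [dot, Fin.sum_univ_succ] using hu
  have ha' : a 0 * a 0 + a 1 * a 1 = 1 := by simpa [dot, Fin.sum_univ_succ] using ha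
  have e0 : u 0 * S y (vec u (perp a)) 0 - u 1 * S y (vec u (perp a)) 1 = 0 := congrFun h1 0
  have e1 : u 1 * S y (vec u (perp a)) 0 + u 0 * S y (vec u (perp a)) 1 = 0 := congrFun h1 1
  have e2 : u 0 * S y (vec u (perp a)) 2 = 0 := congrFun h1 2
  have s0 : S y (vec u (perp a)) 0 = 0 := by
    linear_combination (-S y (vec u (perp a)) 0) * hu' + u 0 * e0 + u 1 * e1
  have s1 : S y (vec u (perp a)) 1 = 0 := by
    linear_combination (-S y (vec u (perp a)) 1) * hu' - u 1 * e0 + u 0 * e1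
  have key : ∀ s t : ℝ, S y (vec u (s • a + t • perp a)) = t ^ 3 • S y (vec u (perp a)) := by
    intro s t
    rw [vec_comb, S_line2, hS, hvw, h0]
    simp
  set L := S y (vec u (perp a)) 2 with hL
  have hL0 : L ≠ 0 := by
    intro hL0
    have h2 : S y (vec u (perp a)) = 0 := by
      funext i
      fin_cases i
      · exact s0
      · exact s1
      · exact hL0
    have h3 := h y u a hu ha hS hvw h0 h2
    rw [h3, dot_zero_left] at hy
    exact zero_ne_one hy
  have u0 : u 0 = 0 := by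
    rcases mul_eq_zero.1 e2 with h2 | h2
    · exact h2
    · exact absurd h2 hL0
  have u1 : u 1 * u 1 = 1 := by rw [u0] at hu'; linarith
  have u1' : u 1 ≠ 0 := by
    intro h2
    rw [h2] at u1
    norm_num at u1
  -- values at four points
  have b1 : (a 0) • a + (-a 1) • perp a = ![1, 0] := by
    funext i
    fin_cases i
    · simp [perp]; linarith
    · simp [perp]; ring
  have b2 : (a 1) • a + (a 0) • perp a = ![0, 1] := by
    funext i
    fin_cases i
    · simp [perp]; ring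
    · simp [perp]; linarith
  have b3 : (a 0 + a 1) • a + (a 0 - a 1) • perp a = ![1, 1] := by
    funext i
    fin_cases i
    · simp [perp]; linarith
    · simp [perp]; linarith
  have b4 : (a 0 - a 1) • a + (-a 0 - a 1) • perp a = ![1, -1] := by
    funext i
    fin_cases i
    · simp [perp]; linarith
    · simp [perp]; linarith
  have k1 := key (a 0) (-a 1)
  have k2 := key (a 1) (a 0)
  have k3 := key (a 0 + a 1) (a 0 - a 1)
  have k4 := key (a 0 - a 1) (-a 0 - a 1)
  rw [b1] at k1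
  rw [b2] at k2
  rw [b3] at k3
  rw [b4] at k4
  obtain ⟨p10, p11, p12⟩ := S_vec0 y u u0 1 0
  obtain ⟨p20, p21, p22⟩ := S_vec0 y u u0 0 1
  obtain ⟨p30, p31, p32⟩ := S_vec0 y u u0 1 1
  obtain ⟨p40, p41, p42⟩ := S_vec0 y u u0 1 (-1)
  rw [k1, Pi.smul_apply, smul_eq_mul] at p10 p11 p12
  rw [k2, Pi.smul_apply, smul_eq_mul] at p20 p21 p22
  rw [k3, Pi.smul_apply, smul_eq_mul] at p30 p31 p32
  rw [k4, Pi.smul_apply, smul_eq_mul] at p40 p41 p42
  rw [s0] at p10 p20 p30 p40
  rw [s1] at p11 p21 p31 p41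
  rw [← hL] at p12 p22 p32 p42
  have u3 : u 1 ^ 3 = u 1 := by linear_combination (u 1) * u1
  have y3 : y 3 = 0 := by linear_combination (-1) * p10
  have y4 : y 4 = 0 := by linear_combination (-1) * p11
  have y10 : y 10 = 0 := by
    have h2 : y 10 * u 1 = 0 := by linear_combination p20 - y 10 * u3
    exact (mul_eq_zero.1 h2).resolve_right u1'
  have y9 : y 9 = 0 := by
    have h2 : y 9 * u 1 = 0 := by linear_combination (-1) * p21 - y 9 * u3
    exact (mul_eq_zero.1 h2).resolve_right u1'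
  have y7 : y 7 = 0 := by
    linear_combination (-1 / 2) * p30 - (1 / 2) * p40 - y 7 * u1 - y3
  have y6 : y 6 = 0 := by
    have h2 : y 6 * u 1 = 0 := by
      linear_combination (1 / 2) * p30 - (1 / 2) * p40 - u 1 ^ 3 * y10
    exact (mul_eq_zero.1 h2).resolve_right u1'
  have y8 : y 8 = 0 := by
    linear_combination (-1 / 2) * p31 - (1 / 2) * p41 - y 8 * u1 - y4
  have y5 : y 5 = 0 := by
    have h2 : y 5 * u 1 = 0 := by
      linear_combination (-1 / 2) * p31 + (1 / 2) * p41 - u 1 ^ 3 * y9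
    exact (mul_eq_zero.1 h2).resolve_right u1'
  have a1 : a 1 = 0 := by
    have h2 : L * (a 1 * (3 * a 0 ^ 2 + a 1 ^ 2)) = 0 := by
      linear_combination (-1 / 2) * p32 - (1 / 2) * p42 + y 2 * u1
    rcases mul_eq_zero.1 h2 with h3 | h3
    · exact absurd h3 hL0
    rcases mul_eq_zero.1 h3 with h4 | h4
    · exact h4
    · nlinarith [sq_nonneg (a 0), sq_nonneg (a 1)]
  have y2 : y 2 = 0 := by
    rw [a1] at p12
    linear_combination (-1) * p12
  have y1 : y 1 = 0 := by
    have h2 : y 1 * u 1 = 0 := by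
      rw [a1] at p32
      linear_combination p32 - p22 + (1 - u 1 ^ 2) * y2
    exact (mul_eq_zero.1 h2).resolve_right u1'
  have hy0 : y = y 0 • ye := by
    funext i
    fin_cases i <;> simp [ye, y1, y2, y3, y4, y5, y6, y7, y8, y9, y10]
  have hu0 : u = u 1 • (![0, 1] : Fin 2 → ℝ) := by
    funext i
    fin_cases i <;> simp [u0]
  have hv0 : vec u a = a 0 • (vec ![0, 1] ![1, 0] : Fin 3 → ℝ) := by
    funext i
    fin_cases i <;> simp [vec, a1]
  have yy : y 0 ^ 2 = 1 := by
    have h2 := hy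
    rw [dot, sum11, y1, y2, y3, y4, y5, y6, y7, y8, y9, y10] at h2
    linarith
  have aa : a 0 ^ 2 = 1 := by
    rw [a1] at ha'
    linarith
  have uu : u 1 ^ 2 = 1 := by linarith
  have g1 : op y = op ye := by
    rw [hy0, op_smul, yy, one_smul]
  have g2 : op u = op (![0, 1] : Fin 2 → ℝ) := by
    rw [hu0, op_smul, uu, one_smul]
  have g3 : op (vec u a) = op (vec ![0, 1] ![1, 0]) := by
    rw [hv0, op_smul, aa, one_smul]
  change (op y, op u, op (vec u a)) = (op ye, op ![0, 1], op (vec ![0, 1] ![1, 0]))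
  rw [g1, g2, g3]

end Pool.Agent.Lib.MP_086785_gt.CB
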