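import Pool.Agent.Lib.MP_086785_gt.CB.Arc
import Pool.Agent.Lib.MP_086785_gt.CB.Boot
import Pool.Agent.Lib.MP_086785_gt.CB.Clo
import Pool.Agent.Lib.MP_086785_gt.CB.Cob
import Pool.Agent.Lib.MP_086785_gt.CB.Comp
import Pool.Agent.Lib.MP_086785_gt.CB.DimT
import Pool.Agent.Lib.MP_086785_gt.CB.Dphi
import Pool.Agent.Lib.MP_086785_gt.CB.Dpos
import Pool.Agent.Lib.MP_086785_gt.CB.End
import Pool.Agent.Lib.MP_086785_gt.CB.EndJ
import Pool.Agent.Lib.MP_086785_gt.CB.Est1
import Pool.Agent.Lib.MP_086785_gt.CB.Fib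
import Pool.Agent.Lib.MP_086785_gt.CB.Glo
import Pool.Agent.Lib.MP_086785_gt.CB.Glob
import Pool.Agent.Lib.MP_086785_gt.CB.HFa
import Pool.Agent.Lib.MP_086785_gt.CB.HFd
import Pool.Agent.Lib.MP_086785_gt.CB.HFn
import Pool.Agent.Lib.MP_086785_gt.CB.J0a
import Pool.Agent.Lib.MP_086785_gt.CB.J0b
import Pool.Agent.Lib.MP_086785_gt.CB.Jclose
import Pool.Agent.Lib.MP_086785_gt.CB.JetComp
import Pool.Agent.Lib.MP_086785_gt.CB.JetMul
import Pool.Agent.Lib.MP_086785_gt.CB.JetOp
import Pool.Agent.Lib.MP_086785_gt.CB.JetPhi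
import Pool.Agent.Lib.MP_086785_gt.CB.Jker
import Pool.Agent.Lib.MP_086785_gt.CB.Kdim
import Pool.Agent.Lib.MP_086785_gt.CB.KerM
import Pool.Agent.Lib.MP_086785_gt.CB.Level
import Pool.Agent.Lib.MP_086785_gt.CB.Lift
import Pool.Agent.Lib.MP_086785_gt.CB.Loc
import Pool.Agent.Lib.MP_086785_gt.CB.MMC
import Pool.Agent.Lib.MP_086785_gt.CB.Main
import Pool.Agent.Lib.MP_086785_gt.CB.Mt
import Pool.Agent.Lib.MP_086785_gt.CB.NMC
import Pool.Agent.Lib.MP_086785_gt.CB.NTan
import Pool.Agent.Lib.MP_086785_gt.CB.O4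
import Pool.Agent.Lib.MP_086785_gt.CB.PLR
import Pool.Agent.Lib.MP_086785_gt.CB.PiI
import Pool.Agent.Lib.MP_086785_gt.CB.Psi
import Pool.Agent.Lib.MP_086785_gt.CB.PsiT
import Pool.Agent.Lib.MP_086785_gt.CB.Quad
import Pool.Agent.Lib.MP_086785_gt.CB.Quot
import Pool.Agent.Lib.MP_086785_gt.CB.Rep
import Pool.Agent.Lib.MP_086785_gt.CB.SB
import Pool.Agent.Lib.MP_086785_gt.CB.Slice
import Pool.Agent.Lib.MP_086785_gt.CB.Small
import Pool.Agent.Lib.MP_086785_gt.CB.Tan
import Pool.Agent.Lib.MP_086785_gt.CB.Th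
import Pool.Agent.Lib.MP_086785_gt.CB.Tw
import Pool.Agent.Lib.MP_086785_gt.CB.Two
import Pool.Agent.Lib.MP_086785_gt.CB.Vel
import Pool.Agent.Lib.MP_086785_gt.CB.VfEq
import Pool.Agent.Lib.MP_086785_gt.CB.Vfc
import Pool.Agent.Lib.MP_086785_gt.CB.Zero

/-! Project CB: the main theorem without hypotheses. -/

set_option autoImplicit false

namespace Pool.Agent.Lib.MP_086785_gt.CB

theorem fStDphi : StDphi := stDphi

theorem fStF0 : StF0 := stF0

theorem fStDpos : StDpos := stDpos

theorem fStImm : StImm := stImm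

theorem fStEnd : StEnd := stEnd

theorem fStEst1 : StEst1 := stEst1

theorem fStFib : StFib := stFib

theorem fStGlo : StGlo := stGlo

theorem fStJetComp : StJetComp := stJetComp

theorem fStJetMul : StJetMul := stJetMul

theorem fStJetTop : StJetTop := stJetTop

theorem fStJetOp : StJetOp := stJetOp fStJetTop

theorem fStJetPhi : StJetPhi := stJetPhi fStJetTop

theorem fStLevel : StLevel := stLevel

theorem fStLift : StLift := stLift fStFib fStGlo

theorem fStMt : StMt := stMt fStLevel fStDpos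

theorem fStNt : StNt := stNt fStLevel

theorem fStNTan : StNTan := stNTan

theorem fStO4 : StO4 := stO4

theorem fStPLR : StPLR := stPLR

theorem fStPsi : StPsi := stPsi

theorem fStQuad : StQuad := stQuad

theorem fStQuadC : StQuadC := stQuadC fStMt

theorem fStQuot : StQuot := stQuot

theorem fStRep : StRep := stRep fStGlo

theorem fStSlice : StSlice := stSlice

theorem fStSmall : StSmall := stSmall

theorem fStTan : StTan := stTan

theorem fStTh : StTh := stTh

theorem fStVel : StVel := stVel fStDphi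

theorem fStVfEq : StVfEq := stVfEq

theorem fStZero : StZero := stZero fStQuad

theorem fStArc : StArc := stArc fStGlo fStRep

theorem fStBoot : StBoot := stBoot fStO4 fStJetComp fStJetOp fStJetPhi

theorem fStCob : StCob := stCob fStEnd

theorem fStComp : StComp := stComp fStZero fStMt

theorem fStDimT : StDimT := stDimT fStDpos

theorem fStEndJ : StEndJ := stEndJ fStJetMul

theorem fStGlob : StGlob := stGlob fStVfEq fStDpos

theorem fStHF : StHF := stHF fStTh

theorem fStHFd : StHFd := stHFd fStHF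

theorem fStJ0a : StJ0a := stJ0a fStPsi fStVfEq

theorem fStJ0b : StJ0b := stJ0b fStPsi fStJ0a

theorem fStJclose : StJclose := stJclose fStPsi

theorem fStKerM : StKerM := stKerM fStVel fStTan fStLift

theorem fStKerH : StKerH := stKerH fStVel fStTan fStLift

theorem fStMM : StMM := stMM fStMt fStQuot fStFib fStImm fStVel

theorem fStNM : StNM := stNM fStNt fStQuot

theorem fStPi : StPi := stPi fStTan fStNTan fStVel

theorem fStPsiT : StPsiT := stPsiT fStPsi fStDimT fStVel fStLift

theorem fStSB : StSB := stSB fStBoot fStEndJ fStQuadC fStEst1 fStLift fStVel fStArc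

theorem fStTw : StTw := stTw fStKerM fStEst1

theorem fStVfc : StVfc := stVfc fStMM

theorem fStClo : StClo := stClo fStHF fStHFd fStVfc fStSlice

theorem fStGlobU : StGlobU := stGlobU fStGlob fStComp

theorem fStHFn : StHFn := stHFn fStHF fStSmall fStMM

theorem fStJker : StJker := stJker fStPsi fStPsiT fStImm

theorem fStKdim : StKdim := stKdim fStKerH fStImm

theorem fStLoc : StLoc := stLoc fStPLR fStPsi fStJker fStJ0a fStJ0b fStJclose

theorem fStTwo : StTwo := stTwo fStGlobU fStLoc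

theorem fStMain : StMain := stMain fStCob fStMM fStNM fStF0 fStTw fStSB fStTwo fStHF fStHFn fStPi fStClo fStKdim

end Pool.Agent.Lib.MP_086785_gt.CB
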