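import Pool.Agent.Lib.MP_086785_gt.CB.Stmts

/-! Project CB, module JetPhi. -/

set_option autoImplicit false

namespace Pool.Agent.Lib.MP_086785_gt.CB

open Set Filter Topology Finset
open scoped ContDiff

namespace JetPhi

theorem clm {E F : Type} [NormedAddCommGroup E] [NormedSpace ℝ E] [NormedAddCommGroup F]
    [NormedSpace ℝ F] (L : E →L[ℝ] F) {f : ℝ → E} (hf : ContDiff ℝ ∞ f) (n : ℕ) (x : ℝ) :
    iteratedDeriv n (fun s => L (f s)) x = L (iteratedDeriv n f x) := by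
  rw [iteratedDeriv_eq_iteratedFDeriv, iteratedDeriv_eq_iteratedFDeriv]
  have h := L.iteratedFDeriv_comp_left (hf.contDiffAt (x := x)) (i := n) (by exact_mod_cast le_top)
  exact congrArg (fun m => m (fun _ => 1)) h

/-- bounded jets -/
def B (n : ℕ) (N c : ℝ) (F : ℝ → ℝ) : Prop := ContDiff ℝ ∞ F ∧ |F 0| ≤ 1 ∧
  (∀ i, 1 ≤ i → i < n → |iteratedDeriv i F 0| ≤ c) ∧ |iteratedDeriv n F 0| ≤ c * (1 + N)

theorem B.mono {n : ℕ} {N c d : ℝ} {F : ℝ → ℝ} (hN : 0 ≤ N) (h : B n N c F) (hcd : c ≤ d) :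
    B n N d F :=
  ⟨h.1, h.2.1, fun i h1 h2 => (h.2.2.1 i h1 h2).trans hcd, h.2.2.2.trans (by nlinarith)⟩

theorem B.mul (hJ : StJetTop) {n : ℕ} {N c d : ℝ} {F G : ℝ → ℝ} (hN : 0 ≤ N) (hc : 0 ≤ c)
    (hd : 0 ≤ d) (hn : 1 ≤ n) (hn3 : n ≤ 3) (hF : B n N c F) (hG : B n N d G) :
    B n N (c + d + 6 * c * d) (fun s => F s * G s) := by
  obtain ⟨f1, f2, f3, f4⟩ := hF
  obtain ⟨g1, g2, g3, g4⟩ := hG
  have key : ∀ i, 1 ≤ i → i ≤ n → ∀ a b : ℝ, |iteratedDeriv i F 0| ≤ a →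
      |iteratedDeriv i G 0| ≤ b → |iteratedDeriv i (fun s => F s * G s) 0| ≤ a + b + 6 * c * d := by
    intro i h1 h2 a b ha hb
    have h3 := hJ F G i c d f1 g1 h1 (h2.trans hn3) hc hd
      (fun j hj1 hj2 => f3 j hj1 (lt_of_lt_of_le hj2 h2))
      (fun j hj1 hj2 => g3 j hj1 (lt_of_lt_of_le hj2 h2))
    have h4 : iteratedDeriv i (fun s => F s * G s) 0 =
      (iteratedDeriv i (fun s => F s * G s) 0 - iteratedDeriv i F 0 * G 0
      - F 0 * iteratedDeriv i G 0) + iteratedDeriv i F 0 * G 0 + F 0 * iteratedDeriv i G 0 := by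
      ring
    rw [h4]
    refine (abs_add_three _ _ _).trans ?_
    rw [abs_mul, abs_mul]
    have h5 : |iteratedDeriv i F 0| * |G 0| ≤ a := by
      have := abs_nonneg (iteratedDeriv i F 0)
      have := abs_nonneg (G 0)
      nlinarith
    have h6 : |F 0| * |iteratedDeriv i G 0| ≤ b := by
      have := abs_nonneg (iteratedDeriv i G 0)
      have := abs_nonneg (F 0)
      nlinarith
    linarith
  refine ⟨f1.mul g1, ?_, ?_, ?_⟩
  · simp only
    rw [abs_mul]
    have := abs_nonneg (F 0)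
    have := abs_nonneg (G 0)
    nlinarith
  · intro i h1 h2
    exact key i h1 h2.le c d (f3 i h1 h2) (g3 i h1 h2)
  · refine (key n hn le_rfl _ _ f4 g4).trans ?_
    have : 0 ≤ 6 * c * d * N := by positivity
    nlinarith

theorem abs_le_one {k : ℕ} {y : Fin k → ℝ} (hy : dot y y = 1) (j : Fin k) : |y j| ≤ 1 := by
  have : y j * y j ≤ dot y y := Finset.single_le_sum (f := fun i => y i * y i)
    (fun i _ => mul_self_nonneg (y i)) (Finset.mem_univ j)
  rw [hy] at this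
  rw [abs_le]
  constructor <;> nlinarith

/-- linear coordinates -/
theorem lin {X : ℝ → XX} (hX : ContDiff ℝ ∞ X) (n : ℕ) (L : XX →L[ℝ] ℝ)
    (hL : ∀ z, |L z| ≤ ‖z‖) (h0 : |L (X 0)| ≤ 1)
    (hi : ∀ i, 1 ≤ i → i < n → ‖iteratedDeriv i X 0‖ ≤ 1) :
    B n ‖iteratedDeriv n X 0‖ 1 (fun s => L (X s)) := by
  refine ⟨L.contDiff.comp hX, h0, ?_, ?_⟩
  · intro i h1 h2
    rw [clm L hX]
    exact (hL _).trans (hi i h1 h2)
  · rw [clm L hX]
    have := hL (iteratedDeriv n X 0)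
    linarith

/-- coordinate -/
def q1 (i j : Fin 11) : EE →L[ℝ] ℝ :=
  (ContinuousLinearMap.proj (R := ℝ) (φ := fun _ : Fin 11 => ℝ) j).comp
      ((ContinuousLinearMap.proj (R := ℝ) (φ := fun _ : Fin 11 => (Fin 11 → ℝ)) i).comp
        (ContinuousLinearMap.fst ℝ _ _))

/-- coordinate -/
def q2 (i j : Fin 2) : EE →L[ℝ] ℝ :=
  (ContinuousLinearMap.proj (R := ℝ) (φ := fun _ : Fin 2 => ℝ) j).comp
      ((ContinuousLinearMap.proj (R := ℝ) (φ := fun _ : Fin 2 => (Fin 2 → ℝ)) i).comp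
        ((ContinuousLinearMap.fst ℝ _ _).comp (ContinuousLinearMap.snd ℝ _ _)))

/-- coordinate -/
def q3 (i j : Fin 3) : EE →L[ℝ] ℝ :=
  (ContinuousLinearMap.proj (R := ℝ) (φ := fun _ : Fin 3 => ℝ) j).comp
      ((ContinuousLinearMap.proj (R := ℝ) (φ := fun _ : Fin 3 => (Fin 3 → ℝ)) i).comp
        ((ContinuousLinearMap.snd ℝ _ _).comp (ContinuousLinearMap.snd ℝ _ _)))

end JetPhi

open JetPhi in
theorem stJetPhi (h : StJetTop) : StJetPhi := by
  refine ⟨400, by norm_num, ?_⟩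
  intro x X n hx hX hX0 hn hn3 hi
  have hN : 0 ≤ ‖iteratedDeriv n X 0‖ := norm_nonneg _
  obtain ⟨hx1, hx2, hx3, -⟩ := hx
  set N := ‖iteratedDeriv n X 0‖ with hNd
  have hy : ∀ i, B n N 1 (fun s => (X s).1 i) := by
    intro i
    refine lin hX n ((ContinuousLinearMap.proj (R := ℝ) (φ := fun _ : Fin 11 => ℝ) i).comp
      (ContinuousLinearMap.fst ℝ _ _)) (fun z => ?_) ?_ hi
    · exact (norm_le_pi_norm z.1 i).trans (norm_fst_le z)
    · change |(X 0).1 i| ≤ 1
      rw [hX0]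
      exact abs_le_one hx1 i
  have hu : ∀ i, B n N 1 (fun s => (X s).2.1 i) := by
    intro i
    refine lin hX n ((ContinuousLinearMap.proj (R := ℝ) (φ := fun _ : Fin 2 => ℝ) i).comp
      ((ContinuousLinearMap.fst ℝ _ _).comp (ContinuousLinearMap.snd ℝ _ _))) (fun z => ?_) ?_ hi
    · exact ((norm_le_pi_norm z.2.1 i).trans (norm_fst_le z.2)).trans (norm_snd_le z)
    · change |(X 0).2.1 i| ≤ 1
      rw [hX0]
      exact abs_le_one hx2 i
  have ha : ∀ i, B n N 1 (fun s => (X s).2.2 i) := by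
    intro i
    refine lin hX n ((ContinuousLinearMap.proj (R := ℝ) (φ := fun _ : Fin 2 => ℝ) i).comp
      ((ContinuousLinearMap.snd ℝ _ _).comp (ContinuousLinearMap.snd ℝ _ _))) (fun z => ?_) ?_ hi
    · exact ((norm_le_pi_norm z.2.2 i).trans (norm_snd_le z.2)).trans (norm_snd_le z)
    · change |(X 0).2.2 i| ≤ 1
      rw [hX0]
      exact abs_le_one hx3 i
  have hv : ∀ i, B n N 8 (fun s => vv (X s) i) := by
    intro i
    fin_cases i
    · exact (ha 0).mono hN (by norm_num)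
    · exact (B.mul h hN zero_le_one zero_le_one hn hn3 (ha 1) (hu 0)).mono hN (by norm_num)
    · exact (B.mul h hN zero_le_one zero_le_one hn hn3 (ha 1) (hu 1)).mono hN (by norm_num)
  have hyy : ∀ i j, B n N 400 (fun s => (phi (X s)).1 i j) := fun i j =>
    (B.mul h hN zero_le_one zero_le_one hn hn3 (hy i) (hy j)).mono hN (by norm_num)
  have huu : ∀ i j, B n N 400 (fun s => (phi (X s)).2.1 i j) := fun i j =>
    (B.mul h hN zero_le_one zero_le_one hn hn3 (hu i) (hu j)).mono hN (by norm_num)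
  have hvv : ∀ i j, B n N 400 (fun s => (phi (X s)).2.2 i j) := fun i j =>
    (B.mul h hN (by norm_num) (by norm_num) hn hn3 (hv i) (hv j)).mono hN (by norm_num)
  have hs : ContDiff ℝ ∞ (fun s => phi (X s)) := by
    have e : (fun s => phi (X s)) =
        fun s => ((phi (X s)).1, (phi (X s)).2.1, (phi (X s)).2.2) := rfl
    rw [e]
    refine ContDiff.prodMk ?_ (ContDiff.prodMk ?_ ?_) <;>
    · rw [contDiff_pi]
      intro i
      rw [contDiff_pi]
      intro j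
      first | exact (hyy i j).1 | exact (huu i j).1 | exact (hvv i j).1
  have hC : (0 : ℝ) ≤ 400 * (1 + N) := by positivity
  have p1 : ∀ i j, (iteratedDeriv n (fun s => phi (X s)) 0).1 i j =
      iteratedDeriv n (fun s => (phi (X s)).1 i j) 0 := fun i j => (clm (q1 i j) hs n 0).symm
  have p2 : ∀ i j, (iteratedDeriv n (fun s => phi (X s)) 0).2.1 i j =
      iteratedDeriv n (fun s => (phi (X s)).2.1 i j) 0 := fun i j => (clm (q2 i j) hs n 0).symm
  have p3 : ∀ i j, (iteratedDeriv n (fun s => phi (X s)) 0).2.2 i j =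
      iteratedDeriv n (fun s => (phi (X s)).2.2 i j) 0 := fun i j => (clm (q3 i j) hs n 0).symm
  rw [Prod.norm_def, Prod.norm_def]
  refine max_le ?_ (max_le ?_ ?_)
  · rw [pi_norm_le_iff_of_nonneg hC]
    intro i
    rw [pi_norm_le_iff_of_nonneg hC]
    intro j
    rw [Real.norm_eq_abs, p1]
    exact (hyy i j).2.2.2
  · rw [pi_norm_le_iff_of_nonneg hC]
    intro i
    rw [pi_norm_le_iff_of_nonneg hC]
    intro j
    rw [Real.norm_eq_abs, p2]
    exact (huu i j).2.2.2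
  · rw [pi_norm_le_iff_of_nonneg hC]
    intro i
    rw [pi_norm_le_iff_of_nonneg hC]
    intro j
    rw [Real.norm_eq_abs, p3]
    exact (hvv i j).2.2.2

end Pool.Agent.Lib.MP_086785_gt.CB
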