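import Pool.Agent.Lib.MP_086785_gt.CB.Ex

/-! Project CB: linearity lemmas, the tangent space and the kernels as submodules. -/

set_option autoImplicit false

namespace Pool.Agent.Lib.MP_086785_gt.CB

open Set Filter Topology Finset
open scoped ContDiff

variable {n : ℕ}

theorem dot_add_left (x y z : Fin n → ℝ) : dot (x + y) z = dot x z + dot y z := by
  simp only [dot, Pi.add_apply, add_mul, Finset.sum_add_distrib]

theorem dot_add_right (x y z : Fin n → ℝ) : dot x (y + z) = dot x y + dot x z := by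
  simp only [dot, Pi.add_apply, mul_add, Finset.sum_add_distrib]

theorem dot_smul_left (c : ℝ) (x y : Fin n → ℝ) : dot (c • x) y = c * dot x y := by
  simp only [dot, Pi.smul_apply, smul_eq_mul, Finset.mul_sum, mul_assoc]

theorem dot_smul_right (c : ℝ) (x y : Fin n → ℝ) : dot x (c • y) = c * dot x y := by
  simp only [dot, Pi.smul_apply, smul_eq_mul, Finset.mul_sum]
  exact Finset.sum_congr rfl fun i _ => by ring

theorem dot_zero_left (x : Fin n → ℝ) : dot 0 x = 0 := by simp [dot]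

theorem dot_zero_right (x : Fin n → ℝ) : dot x 0 = 0 := by simp [dot]

theorem dot_comm (x y : Fin n → ℝ) : dot x y = dot y x := by
  simp only [dot, mul_comm]

theorem dop_add (y a b : Fin n → ℝ) : dop y (a + b) = dop y a + dop y b := by
  funext i j
  simp only [dop, Pi.add_apply]
  ring

theorem dop_smul (c : ℝ) (y a : Fin n → ℝ) : dop y (c • a) = c • dop y a := by
  funext i j
  simp only [dop, Pi.smul_apply, smul_eq_mul]
  ring

theorem dop_zero (y : Fin n → ℝ) : dop y 0 = 0 := by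
  funext i j
  simp [dop]

theorem LL_add_left (y y' : Fin 11 → ℝ) (m : Fin 6 → ℝ) : LL (y + y') m = LL y m + LL y' m := by
  funext i
  fin_cases i <;> simp [LL] <;> ring

theorem LL_smul_left (c : ℝ) (y : Fin 11 → ℝ) (m : Fin 6 → ℝ) : LL (c • y) m = c • LL y m := by
  funext i
  fin_cases i <;> simp [LL] <;> ring

theorem LL_add_right (y : Fin 11 → ℝ) (m m' : Fin 6 → ℝ) : LL y (m + m') = LL y m + LL y m' := by
  funext i
  fin_cases i <;> simp [LL] <;> ring

theorem LL_smul_right (c : ℝ) (y : Fin 11 → ℝ) (m : Fin 6 → ℝ) : LL y (c • m) = c • LL y m := by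
  funext i
  fin_cases i <;> simp [LL] <;> ring

theorem mono1_add (v w w' : Fin 3 → ℝ) : mono1 v (w + w') = mono1 v w + mono1 v w' := by
  funext i
  fin_cases i <;> simp [mono1] <;> ring

theorem mono1_smul (c : ℝ) (v w : Fin 3 → ℝ) : mono1 v (c • w) = c • mono1 v w := by
  funext i
  fin_cases i <;> simp [mono1] <;> ring

theorem S_add (y y' : Fin 11 → ℝ) (v : Fin 3 → ℝ) : S (y + y') v = S y v + S y' v :=
  LL_add_left _ _ _

theorem S_smul (c : ℝ) (y : Fin 11 → ℝ) (v : Fin 3 → ℝ) : S (c • y) v = c • S y v :=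
  LL_smul_left _ _ _

theorem S_smul_v (c : ℝ) (y : Fin 11 → ℝ) (v : Fin 3 → ℝ) : S y (c • v) = c ^ 3 • S y v := by
  funext i
  fin_cases i <;> simp [S, LL, mono] <;> ring

theorem S1_add (y : Fin 11 → ℝ) (v w w' : Fin 3 → ℝ) : S1 y v (w + w') = S1 y v w + S1 y v w' := by
  rw [S1, mono1_add, LL_add_right]; rfl

theorem S1_smul (c : ℝ) (y : Fin 11 → ℝ) (v w : Fin 3 → ℝ) : S1 y v (c • w) = c • S1 y v w := by
  rw [S1, mono1_smul, LL_smul_right]; rfl

theorem S1_add_left (y y' : Fin 11 → ℝ) (v w : Fin 3 → ℝ) :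
    S1 (y + y') v w = S1 y v w + S1 y' v w := LL_add_left _ _ _

theorem S1_smul_left (c : ℝ) (y : Fin 11 → ℝ) (v w : Fin 3 → ℝ) :
    S1 (c • y) v w = c • S1 y v w := LL_smul_left _ _ _

theorem S_line (y : Fin 11 → ℝ) (v w : Fin 3 → ℝ) (t : ℝ) :
    S y (v + t • w) = S y v + t • S1 y v w + t ^ 2 • S1 y w v + t ^ 3 • S y w := by
  funext i
  fin_cases i <;> simp [S, S1, LL, mono, mono1] <;> ring

theorem dvec_add (u a δ δ' γ γ' : Fin 2 → ℝ) :
    dvec u a (δ + δ') (γ + γ') = dvec u a δ γ + dvec u a δ' γ' := by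
  funext i
  fin_cases i <;> simp [dvec] <;> ring

theorem dvec_smul (c : ℝ) (u a δ γ : Fin 2 → ℝ) :
    dvec u a (c • δ) (c • γ) = c • dvec u a δ γ := by
  funext i
  fin_cases i <;> simp [dvec] <;> ring

theorem dvec_zero (u a : Fin 2 → ℝ) : dvec u a 0 0 = 0 := by
  funext i
  fin_cases i <;> simp [dvec]

theorem dphi_add (x η η' : XX) : dphi x (η + η') = dphi x η + dphi x η' := by
  simp only [dphi, Prod.fst_add, Prod.snd_add, dop_add, dvec_add, Prod.mk_add_mk]

theorem dphi_smul (x : XX) (c : ℝ) (η : XX) : dphi x (c • η) = c • dphi x η := by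
  simp only [dphi, Prod.smul_fst, Prod.smul_snd, dop_smul, dvec_smul, Prod.smul_mk]

theorem dphi_zero (x : XX) : dphi x 0 = 0 := by
  simpa using dphi_smul x 0 0

/-- `dphi x` as a linear map -/
def dphiL (x : XX) : XX →ₗ[ℝ] EE where
  toFun := dphi x
  map_add' := dphi_add x
  map_smul' := dphi_smul x

/-- the tangent space of `Mt` at `x` -/
def TS (x : XX) : Submodule ℝ XX where
  carrier := {η | TT x η}
  add_mem' := by
    rintro η η' ⟨h1, h2, h3, h4⟩ ⟨k1, k2, k3, k4⟩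
    refine ⟨?_, ?_, ?_, ?_⟩
    · rw [Prod.fst_add, dot_add_right, h1, k1, add_zero]
    · rw [Prod.snd_add, Prod.fst_add, dot_add_right, h2, k2, add_zero]
    · rw [Prod.snd_add, Prod.snd_add, dot_add_right, h3, k3, add_zero]
    · rw [Prod.fst_add, Prod.snd_add, Prod.fst_add, Prod.snd_add, dvec_add, S_add, S1_add]
      calc _ = (S η.1 (vv x) + S1 x.1 (vv x) (dvec x.2.1 x.2.2 η.2.1 η.2.2)) +
          (S η'.1 (vv x) + S1 x.1 (vv x) (dvec x.2.1 x.2.2 η'.2.1 η'.2.2)) := by abel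
        _ = 0 := by rw [h4, k4, add_zero]
  zero_mem' := by
    refine ⟨dot_zero_right _, dot_zero_right _, dot_zero_right _, ?_⟩
    have h1 : S (0 : XX).1 (vv x) = 0 := by simpa using S_smul 0 (0 : Fin 11 → ℝ) (vv x)
    have h2 : S1 x.1 (vv x) (0 : Fin 3 → ℝ) = 0 := by
      simpa using S1_smul 0 x.1 (vv x) (0 : Fin 3 → ℝ)
    rw [h1]
    simp only [Prod.snd_zero, Prod.fst_zero, dvec_zero, h2, add_zero]
  smul_mem' := by
    rintro c η ⟨h1, h2, h3, h4⟩
    refine ⟨?_, ?_, ?_, ?_⟩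
    · rw [Prod.smul_fst, dot_smul_right, h1, mul_zero]
    · rw [Prod.smul_snd, Prod.smul_fst, dot_smul_right, h2, mul_zero]
    · rw [Prod.smul_snd, Prod.smul_snd, dot_smul_right, h3, mul_zero]
    · rw [Prod.smul_fst, Prod.smul_snd, Prod.smul_fst, Prod.smul_snd, dvec_smul, S_smul, S1_smul,
        ← smul_add, h4, smul_zero]

theorem mem_TS {x η : XX} : η ∈ TS x ↔ TT x η := Iff.rfl

/-- the kernel, at the point `x` of `Mt`, of the differential `A` plus the vectors `V` -/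
def Kr (x : XX) (A : EE →L[ℝ] FF) (V : Fin 2 → FF) : Submodule ℝ (XX × (Fin 2 → ℝ)) where
  carrier := {ζ | TT x ζ.1 ∧ A (dphi x ζ.1) + ∑ j, ζ.2 j • V j = 0}
  add_mem' := by
    rintro ζ ζ' ⟨h1, h2⟩ ⟨k1, k2⟩
    refine ⟨(TS x).add_mem h1 k1, ?_⟩
    rw [Prod.fst_add, dphi_add, map_add]
    simp only [Prod.snd_add, Pi.add_apply, add_smul, Finset.sum_add_distrib]
    calc _ = (A (dphi x ζ.1) + ∑ j, ζ.2 j • V j) + (A (dphi x ζ'.1) + ∑ j, ζ'.2 j • V j) := by abel
      _ = 0 := by rw [h2, k2, add_zero]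
  zero_mem' := by
    refine ⟨(TS x).zero_mem, ?_⟩
    simp only [Prod.fst_zero, dphi_zero, map_zero, Prod.snd_zero, Pi.zero_apply, zero_smul,
      Finset.sum_const_zero, add_zero]
  smul_mem' := by
    rintro c ζ ⟨h1, h2⟩
    refine ⟨(TS x).smul_mem c h1, ?_⟩
    rw [Prod.smul_fst, dphi_smul, map_smul]
    simp only [Prod.smul_snd, Pi.smul_apply, smul_eq_mul, mul_smul]
    rw [← Finset.smul_sum, ← smul_add, h2, smul_zero]

theorem mem_Kr {x : XX} {A : EE →L[ℝ] FF} {V : Fin 2 → FF} {ζ : XX × (Fin 2 → ℝ)} :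
    ζ ∈ Kr x A V ↔ TT x ζ.1 ∧ A (dphi x ζ.1) + ∑ j, ζ.2 j • V j = 0 := Iff.rfl

/-- the dimension of `Kr` -/
noncomputable def kd (x : XX) (A : EE →L[ℝ] FF) (V : Fin 2 → FF) : ℕ :=
  Module.finrank ℝ (Kr x A V)

theorem op_smul (c : ℝ) (y : Fin n → ℝ) : op (c • y) = (c ^ 2) • op y := by
  funext i j
  simp only [op, Pi.smul_apply, smul_eq_mul]
  ring

theorem vec_add (u a b : Fin 2 → ℝ) : vec u (a + b) = vec u a + vec u b := by
  funext i
  fin_cases i <;> simp [vec] <;> ring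

theorem vec_smul (c : ℝ) (u a : Fin 2 → ℝ) : vec u (c • a) = c • vec u a := by
  funext i
  fin_cases i <;> simp [vec] <;> ring

end Pool.Agent.Lib.MP_086785_gt.CB
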