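import Pool.Agent.Lib.MP_086785_gt.CB.Stmts

/-!
Project CB: vanishing derivatives.
-/

set_option autoImplicit false

namespace Pool.Agent.Lib.MP_086785_gt.CB

open Set Filter Topology
open scoped ContDiff

namespace O4

variable {E : Type} [NormedAddCommGroup E] [NormedSpace ℝ E]

theorem coef (i : ℕ) (b : E) (h : (fun x : ℝ => x ^ i • b) =o[𝓝 0] fun x : ℝ => x ^ i) :
    b = 0 := by
  by_contra hb
  have hb' : 0 < ‖b‖ := norm_pos_iff.mpr hb
  have h1 := (Asymptotics.isLittleO_iff.mp h) (half_pos hb')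
  obtain ⟨δ, hδ, hball⟩ := Metric.eventually_nhds_iff.mp h1
  have h2 : dist (δ / 2) 0 < δ := by
    rw [Real.dist_eq, sub_zero, abs_of_pos (half_pos hδ)]
    linarith
  have h3 := hball h2
  rw [norm_smul] at h3
  have h4 : 0 < ‖(δ / 2) ^ i‖ := by
    rw [norm_pos_iff]
    positivity
  nlinarith

theorem main (F : ℝ → E) (hF : ContDiff ℝ ∞ F) (hO : F =O[𝓝 0] fun s : ℝ => s ^ 4) :
    ∀ i ≤ 3, iteratedDeriv i F 0 = 0 := by
  intro i
  induction i using Nat.strong_induction_on with
  | _ i ih =>
    intro hi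
    have h1 : (fun x ↦ F x - taylorWithinEval F i univ 0 x) =o[𝓝 0] fun x : ℝ ↦ (x - 0) ^ i :=
      taylor_isLittleO_univ (hF.of_le (by exact_mod_cast le_top))
    have h2 : ∀ x : ℝ, taylorWithinEval F i univ 0 x =
        x ^ i • (((i.factorial : ℝ)⁻¹) • iteratedDeriv i F 0) := by
      intro x
      rw [taylor_within_apply, Finset.sum_range_succ, Finset.sum_eq_zero, zero_add,
        iteratedDerivWithin_univ, sub_zero, smul_smul, mul_comm]
      intro j hj
      rw [iteratedDerivWithin_univ, ih j (Finset.mem_range.mp hj)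
        (by have := Finset.mem_range.mp hj; omega), smul_zero]
    have h3 : F =o[𝓝 0] fun x : ℝ => x ^ i :=
      hO.trans_isLittleO (Asymptotics.isLittleO_pow_pow (by omega))
    simp only [sub_zero] at h1
    have h4 := h3.sub h1
    have h5 : (fun x : ℝ => x ^ i • (((i.factorial : ℝ)⁻¹) • iteratedDeriv i F 0)) =o[𝓝 0]
        fun x : ℝ => x ^ i := by
      refine h4.congr_left fun x => ?_
      rw [h2 x]
      abel
    have h6 := coef i _ h5
    rcases smul_eq_zero.mp h6 with h7 | h7
    · exfalso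
      have : (i.factorial : ℝ) ≠ 0 := by exact_mod_cast i.factorial_ne_zero
      exact inv_ne_zero this h7
    · exact h7

end O4

/-- vanishing derivatives -/
theorem stO4 : StO4 := by
  intro E _ _ F hF hO
  exact O4.main F hF hO

end Pool.Agent.Lib.MP_086785_gt.CB
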