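import Pool.Agent.Lib.MP_086785_gt.CB.Adj

/-!
Project CB: the statements of the lemmas. Full proofs on paper: team store `cb_proofs.md`.
-/

set_option autoImplicit false

namespace Pool.Agent.Lib.MP_086785_gt.CB

open Set Filter Topology Finset
open scoped ContDiff

/-! ### Part T: topology -/

/-- there is no compact 1-manifold with exactly one boundary point -/
def StEnd : Prop :=
  ∀ (W : Type) [TopologicalSpace W] [T2Space W] [CompactSpace W] (e : NNReal → W),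
    IsOpenEmbedding e → (∀ w : W, w ≠ e 0 → ∃ c : ℝ → W, IsOpenEmbedding c ∧ w ∈ range c) → False

/-- one point is not cobordant to the empty set -/
def StCob : Prop :=
  ∀ (E : Type) [NormedAddCommGroup E] [NormedSpace ℝ E] (M : Set E) (m : E),
    ¬ Cobordant 0 M ∅ {m}

/-- regular level sets are submanifolds -/
def StLevel : Prop :=
  ∀ (E F : Type) [NormedAddCommGroup E] [NormedSpace ℝ E] [FiniteDimensional ℝ E]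
    [NormedAddCommGroup F] [NormedSpace ℝ F] [FiniteDimensional ℝ F] (n : ℕ) (G : E → F),
    ContDiff ℝ ∞ G → Module.finrank ℝ E = n + Module.finrank ℝ F →
    (∀ x, G x = 0 → Function.Surjective (fderiv ℝ G x)) → IsSubmfd n {x | G x = 0}

/-- quotients of compact submanifolds by finite groups -/
def StQuot : Prop :=
  ∀ (X E : Type) [NormedAddCommGroup X] [NormedSpace ℝ X] [FiniteDimensional ℝ X]
    [NormedAddCommGroup E] [NormedSpace ℝ E] [FiniteDimensional ℝ E] (n : ℕ) (M : Set X)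
    (p : X → E) (ι : Type) [Finite ι] (g : ι → X ≃ₜ X),
    IsCompact M → IsSubmfd n M → ContDiff ℝ ∞ p → (∀ i, g i '' M = M) →
    (∀ i, ∀ x ∈ M, p (g i x) = p x) →
    (∀ x ∈ M, ∀ x' ∈ M, p x = p x' → ∃ i, x' = g i x) →
    (∀ (ψ : (Fin n → ℝ) → X) (V : Set (Fin n → ℝ)), IsParam n M ψ V →
      ∀ z ∈ V, Function.Injective (fderiv ℝ (fun y => p (ψ y)) z)) →
    IsSubmfd n (p '' M)

/-! ### Part A: analysis on the line and jets -/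

/-- extension of germs of smooth curves -/
def StGlo : Prop :=
  ∀ (E : Type) [NormedAddCommGroup E] [NormedSpace ℝ E] (X : ℝ → E) (U : Set ℝ),
    U ∈ 𝓝 (0 : ℝ) → ContDiffOn ℝ ∞ X U → ∃ X' : ℝ → E, ContDiff ℝ ∞ X' ∧ X' =ᶠ[𝓝 0] X

/-- local inverse functions -/
def StRep : Prop :=
  ∀ σ : ℝ → ℝ, ContDiff ℝ ∞ σ → σ 0 = 0 → deriv σ 0 ≠ 0 →
    ∃ τ : ℝ → ℝ, ContDiff ℝ ∞ τ ∧ τ 0 = 0 ∧ ∀ᶠ s in 𝓝 (0 : ℝ), σ (τ s) = s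

/-- vanishing derivatives -/
def StO4 : Prop :=
  ∀ (E : Type) [NormedAddCommGroup E] [NormedSpace ℝ E] (F : ℝ → E), ContDiff ℝ ∞ F →
    (F =O[𝓝 0] fun s : ℝ => s ^ 4) → ∀ i ≤ 3, iteratedDeriv i F 0 = 0

/-- derivatives of compositions -/
def StJetComp : Prop :=
  ∀ (E F : Type) [NormedAddCommGroup E] [NormedSpace ℝ E] [NormedAddCommGroup F]
    [NormedSpace ℝ F] (g : E → F) (c : ℝ → E) (n : ℕ) (δ B : ℝ), ContDiff ℝ ∞ g →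
    ContDiff ℝ ∞ c → 1 ≤ n → n ≤ 3 → 1 ≤ B → 0 ≤ δ →
    (∀ i ≤ n, ‖iteratedFDeriv ℝ i g (c 0)‖ ≤ δ) →
    (∀ i, 1 ≤ i → i < n → ‖iteratedDeriv i c 0‖ ≤ B) →
    ‖iteratedDeriv n (fun s => g (c s)) 0‖ ≤ 6 * δ * (B ^ 3 + ‖iteratedDeriv n c 0‖)

/-- `F` is smooth and its derivatives of order at most 3 at `0` are bounded by `a` -/
def JB (F : ℝ → ℝ) (a : ℝ) : Prop := ContDiff ℝ ∞ F ∧ ∀ i ≤ 3, |iteratedDeriv i F 0| ≤ a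

/-- derivatives of products -/
def StJetMul : Prop :=
  ∀ (F G : ℝ → ℝ) (a b : ℝ), 0 ≤ a → 0 ≤ b → JB F a → JB G b → JB (fun s => F s * G s) (8 * a * b)

/-- derivatives of products, main terms -/
def StJetTop : Prop :=
  ∀ (F G : ℝ → ℝ) (n : ℕ) (a b : ℝ), ContDiff ℝ ∞ F → ContDiff ℝ ∞ G → 1 ≤ n → n ≤ 3 →
    0 ≤ a → 0 ≤ b →
    (∀ i, 1 ≤ i → i < n → |iteratedDeriv i F 0| ≤ a) →
    (∀ i, 1 ≤ i → i < n → |iteratedDeriv i G 0| ≤ b) →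
    |iteratedDeriv n (fun s => F s * G s) 0 - iteratedDeriv n F 0 * G 0
      - F 0 * iteratedDeriv n G 0| ≤ 6 * a * b

/-- derivatives of a curve in the sphere in terms of those of its square -/
def StJetOp : Prop :=
  ∀ k : ℕ, ∃ C > 0, ∀ (y : ℝ → Fin k → ℝ) (n : ℕ) (ε : ℝ), ContDiff ℝ ∞ y →
    (∀ᶠ s in 𝓝 (0 : ℝ), dot (y s) (y s) = 1) → 1 ≤ n → n ≤ 3 → 0 ≤ ε → ε ≤ 1 →
    (∀ i, 1 ≤ i → i < n → ‖iteratedDeriv i y 0‖ ≤ ε) →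
    ‖iteratedDeriv n y 0‖ ≤ C * (‖iteratedDeriv n (fun s => op (y s)) 0‖ + ε)

/-- derivatives of `phi ∘ X` -/
def StJetPhi : Prop :=
  ∃ C > 0, ∀ (x : XX) (X : ℝ → XX) (n : ℕ), x ∈ Mt → ContDiff ℝ ∞ X → X 0 = x → 1 ≤ n → n ≤ 3 →
    (∀ i, 1 ≤ i → i < n → ‖iteratedDeriv i X 0‖ ≤ 1) →
    ‖iteratedDeriv n (fun s => phi (X s)) 0‖ ≤ C * (1 + ‖iteratedDeriv n X 0‖)

/-- smallness of smooth families -/
def StSmall : Prop :=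
  ∀ (E F : Type) [NormedAddCommGroup E] [NormedSpace ℝ E] [FiniteDimensional ℝ E]
    [NormedAddCommGroup F] [NormedSpace ℝ F] (G : E × ℝ → F) (K : Set E) (j : ℕ) (δ : ℝ),
    ContDiff ℝ ∞ G → (∀ z, G (z, 0) = 0) → IsCompact K → 0 < δ →
    ∃ ε₀ > 0, ∀ ε : ℝ, 0 < ε → ε < ε₀ → ∀ z ∈ K, ∀ i ≤ j,
      ‖iteratedFDeriv ℝ i (fun x => G (x, ε)) z‖ < δ

/-- derivatives of restrictions to a slice -/
def StSlice : Prop :=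
  ∀ (E P F : Type) [NormedAddCommGroup E] [NormedSpace ℝ E] [NormedAddCommGroup P]
    [NormedSpace ℝ P] [NormedAddCommGroup F] [NormedSpace ℝ F] (g : E × P → F), ContDiff ℝ ∞ g →
    (∀ (i : ℕ) (x : E), ‖iteratedFDeriv ℝ i (fun y => g (y, 0)) x‖ ≤
      ‖iteratedFDeriv ℝ i g (x, 0)‖) ∧
    ∀ (i : ℕ) (x : E) (e : P), ‖iteratedFDeriv ℝ i (fun y => fderiv ℝ g (y, 0) (0, e)) x‖ ≤
      ‖e‖ * ‖iteratedFDeriv ℝ (i + 1) g (x, 0)‖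

/-! ### Part M: the manifolds -/

/-- the action of three signs on `XX` -/
def act (s : Fin 3 → ℝ) (x : XX) : XX :=
  (s 0 • x.1, s 1 • x.2.1, ![s 2 * x.2.2 0, s 1 * s 2 * x.2.2 1])

/-- the fibres of `phi` -/
def StFib : Prop :=
  (∀ s : Fin 3 → ℝ, (∀ i, s i = 1 ∨ s i = -1) → ∀ x ∈ Mt, act s x ∈ Mt ∧ phi (act s x) = phi x) ∧
  ∀ x ∈ Mt, ∀ x' ∈ Mt, phi x = phi x' → ∃ s : Fin 3 → ℝ, (∀ i, s i = 1 ∨ s i = -1) ∧ x' = act s x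

/-- `dphi` is the derivative of `phi` -/
def StDphi : Prop :=
  ContDiff ℝ ∞ phi ∧ ∀ x : XX, HasFDerivAt phi (LinearMap.toContinuousLinearMap (dphiL x)) x

/-- lower bounds for the eigenvalues of `s ↦ S (RR v s) v` -/
def StDpos : Prop := ∀ x ∈ Mt, dot (vv x) (vv x) = 1 ∧ 1 / 5 ≤ D1 (vv x) ∧ 1 / 5 ≤ D3 (vv x)

/-- dimension of the tangent space -/
def StDimT : Prop := ∀ x ∈ Mt, Module.finrank ℝ (TS x) = 9

/-- `phi` is an immersion on `Mt` -/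
def StImm : Prop := ∀ x ∈ Mt, ∀ η, TT x η → dphi x η = 0 → η = 0

/-- velocities of curves in `Mt` are tangent vectors -/
def StVel : Prop :=
  ∀ (x η : XX) (X : ℝ → XX), X 0 = x → (∀ᶠ t in 𝓝 (0 : ℝ), X t ∈ Mt) → HasDerivAt X η 0 →
    TT x η ∧ HasDerivAt (fun t => phi (X t)) (dphi x η) 0

/-- tangent vectors are velocities of curves in `Mt` -/
def StTan : Prop :=
  ∀ x ∈ Mt, ∀ η, TT x η → ∃ X : ℝ → XX, ContDiff ℝ ∞ X ∧ X 0 = x ∧ HasDerivAt X η 0 ∧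
    ∀ t, X t ∈ Mt

/-- lifting of curves from `MM` to `Mt` -/
def StLift : Prop :=
  ∀ x ∈ Mt, ∀ c : ℝ → EE, IsCurve MM (phi x) c → ∃ X : ℝ → XX, ContDiff ℝ ∞ X ∧ X 0 = x ∧
    ∀ᶠ t in 𝓝 (0 : ℝ), X t ∈ Mt ∧ phi (X t) = c t

/-- `Mt` is a compact submanifold -/
def StMt : Prop := IsCompact Mt ∧ IsSubmfd 9 Mt

/-- `Nt` is a compact submanifold -/
def StNt : Prop := IsCompact Nt ∧ IsSubmfd 11 Nt

/-- `MM` is a compact submanifold -/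
def StMM : Prop := IsCompact MM ∧ IsSubmfd 9 MM

/-- `NM` is a compact submanifold -/
def StNM : Prop := IsCompact NM ∧ IsSubmfd 11 NM

/-- the map `f0` -/
def StF0 : Prop := SmoothMap MM NM f0

/-- the kernels of a map on `MM` -/
def StKerM : Prop :=
  ∀ (f h : EE → FF) (x : XX), x ∈ Mt → EqOn f h MM → ContDiff ℝ ∞ h → ∀ ξ : EE,
    ξ ∈ Ker MM f (phi x) ↔ ∃ η, TT x η ∧ ξ = dphi x η ∧ fderiv ℝ h (phi x) ξ = 0

/-- the kernels of a map on `MM × ℝ²` -/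
def StKerH : Prop :=
  ∀ (f H : EE × (Fin 2 → ℝ) → FF) (x : XX), x ∈ Mt → EqOn f H (MM ×ˢ univ) → ContDiff ℝ ∞ H →
    ∀ ζ : EE × (Fin 2 → ℝ), ζ ∈ Ker (MM ×ˢ univ) f (phi x, 0) ↔
      ∃ η, TT x η ∧ ζ.1 = dphi x η ∧ fderiv ℝ H (phi x, 0) ζ = 0

/-- the dimensions of the kernels of a map on `MM × ℝ²` -/
def StKdim : Prop :=
  ∀ (f H : EE × (Fin 2 → ℝ) → FF) (x : XX) (ε : ℝ), x ∈ Mt → EqOn f H (MM ×ˢ univ) →
    ContDiff ℝ ∞ H → ε ≠ 0 →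
    kdim (MM ×ˢ univ) f (phi x, 0) = kd x (fderiv ℝ (fun p => H (p, 0)) (phi x))
      (fun j => ε⁻¹ • fderiv ℝ H (phi x, 0) (0, Pi.single j 1))

/-! ### Part F: the map `f` -/

/-- first order estimate for kernels -/
def StEst1 : Prop :=
  ∃ C > 0, ∃ δ₀ > 0, ∀ (δ : ℝ) (x η : XX) (A : EE →L[ℝ] FF), 0 ≤ δ → δ ≤ δ₀ → x ∈ Mt → TT x η →
    ‖A - f0‖ ≤ δ → A (dphi x η) = 0 →
    ‖η.1‖ ≤ C * δ * |dot (perp x.2.2) η.2.2| ∧ ‖η.2.1‖ ≤ C * δ * |dot (perp x.2.2) η.2.2|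

/-- maps close to `f0` are twisted prim -/
def StTw : Prop :=
  ∃ δ₀ > 0, ∀ f h : EE → FF, ContDiff ℝ ∞ h → (∀ z ∈ MM, ‖fderiv ℝ h z - f0‖ ≤ δ₀) →
    EqOn f h MM → TwistedPrim MM f

/-- reparametrisation of curves by the angle of the last component -/
def StArc : Prop :=
  ∀ (x : XX) (X : ℝ → XX), x ∈ Mt → ContDiff ℝ ∞ X → X 0 = x → (∀ᶠ t in 𝓝 (0 : ℝ), X t ∈ Mt) →
    dot (perp x.2.2) (deriv X 0).2.2 ≠ 0 →
    ∃ τ : ℝ → ℝ, ContDiff ℝ ∞ τ ∧ τ 0 = 0 ∧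
      ∀ᶠ s in 𝓝 (0 : ℝ), (X (τ s)).2.2 = Real.cos s • x.2.2 + Real.sin s • perp x.2.2

/-- jets of curves on which `f0 + g` is constant up to order 4 -/
def StBoot : Prop :=
  ∃ C > 0, ∃ δ₀ > 0, ∀ (δ : ℝ) (x : XX) (g : EE → FF) (X : ℝ → XX), 0 < δ → δ ≤ δ₀ → x ∈ Mt →
    ContDiff ℝ ∞ g → (∀ i ≤ 3, ‖iteratedFDeriv ℝ i g (phi x)‖ ≤ δ) → ContDiff ℝ ∞ X → X 0 = x →
    (∀ᶠ s in 𝓝 (0 : ℝ), X s ∈ Mt ∧
      (X s).2.2 = Real.cos s • x.2.2 + Real.sin s • perp x.2.2) →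
    ((fun s => f0 (phi (X s)) + g (phi (X s)) - (f0 (phi x) + g (phi x))) =O[𝓝 0]
      fun s : ℝ => s ^ 4) →
    ∀ i, 1 ≤ i → i ≤ 3 → ‖iteratedDeriv i (fun s => (X s).1) 0‖ ≤ C * δ ∧
      ‖iteratedDeriv i (fun s => (X s).2.1) 0‖ ≤ C * δ

/-- if the jets of `y` and `u` are small then `S y` is almost zero on the plane of `u` -/
def StEndJ : Prop :=
  ∃ C > 0, ∀ (δ : ℝ) (x : XX) (X : ℝ → XX), 0 ≤ δ → δ ≤ 1 → x ∈ Mt → ContDiff ℝ ∞ X → X 0 = x →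
    (∀ᶠ s in 𝓝 (0 : ℝ), X s ∈ Mt ∧
      (X s).2.2 = Real.cos s • x.2.2 + Real.sin s • perp x.2.2) →
    (∀ i, 1 ≤ i → i ≤ 3 → ‖iteratedDeriv i (fun s => (X s).1) 0‖ ≤ δ ∧
      ‖iteratedDeriv i (fun s => (X s).2.1) 0‖ ≤ δ) →
    ‖S1 x.1 (vv x) (wv x)‖ ≤ C * δ ∧ ‖S1 x.1 (wv x) (vv x)‖ ≤ C * δ ∧ ‖S x.1 (wv x)‖ ≤ C * δ

/-- the forms determine `y` -/
def StQuad : Prop :=
  ∀ (y : Fin 11 → ℝ) (u a : Fin 2 → ℝ), dot u u = 1 → dot a a = 1 → S y (vec u a) = 0 →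
    S1 y (vec u a) (vec u (perp a)) = 0 → S1 y (vec u (perp a)) (vec u a) = 0 →
    S y (vec u (perp a)) = 0 → y = 0

/-- quantitative version of `StQuad` -/
def StQuadC : Prop :=
  ∃ c > 0, ∀ x ∈ Mt, c ≤ max ‖S1 x.1 (vv x) (wv x)‖
    (max ‖S1 x.1 (wv x) (vv x)‖ ‖S x.1 (wv x)‖)

/-- the singularity of type `Σ^{1,1,1}` does not occur for maps close to `f0` -/
def StSB : Prop :=
  ∃ δ₀ > 0, ∀ f g : EE → FF, ContDiff ℝ ∞ g →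
    (∀ z ∈ MM, ∀ i ≤ 3, ‖iteratedFDeriv ℝ i g z‖ ≤ δ₀) → EqOn f (fun z => f0 z + g z) MM →
    SigBar 3 MM f = ∅

/-! ### Part G: the points of `Σ³` of the perturbed map, global part -/

/-- the vectors `sg1`, `sg2` at a point of `XX` -/
def sgj (j : Fin 2) (x : XX) : Fin 3 → ℝ :=
  if j = 0 then sg1 x.1 (vv x) x.2.1 else sg2 x.1 (vv x) x.2.1

/-- the factor due to the sums over the columns -/
def rho (j : Fin 2) (x : XX) : ℝ :=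
  (∑ c, vv x c ^ 6) * (∑ d, x.2.1 d ^ (if j = 0 then 2 else 4))

/-- the vector fields along `f0` -/
def VV (j : Fin 2) (x : EE) : FF := Vf j x x.1

/-- formula for the vector fields -/
def StVfEq : Prop :=
  ∀ (j : Fin 2) (x : XX), x ∈ Mt →
    VV j (phi x) = (rho j x • dop x.1 (RR (vv x) (sgj j x)), 0) ∧ 1 / 20 ≤ rho j x ∧ rho j x ≤ 3

/-- first order estimate for the points with large kernel -/
def StGlob : Prop :=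
  ∃ C > 0, ∃ δ₀ > 0, ∀ (δ : ℝ) (x : XX) (A : EE →L[ℝ] FF) (V : Fin 2 → FF), 0 ≤ δ → δ ≤ δ₀ →
    x ∈ Mt → ‖A - f0‖ ≤ δ → (∀ j, ‖V j - VV j (phi x)‖ ≤ δ) → 3 ≤ kd x A V →
    ‖S1 x.1 (vv x) (wv x)‖ ≤ C * δ ∧ ∀ j, ‖sgj j x‖ ≤ C * δ

/-- the special point is the only zero -/
def StZero : Prop :=
  ∀ x ∈ Mt, S1 x.1 (vv x) (wv x) = 0 → (∀ j, sgj j x = 0) → phi x = phi x0

/-- quantitative version of `StZero` -/
def StComp : Prop :=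
  ∀ U : Set EE, IsOpen U → phi x0 ∈ U → ∃ c > 0, ∀ x ∈ Mt, phi x ∉ U →
    c ≤ max ‖S1 x.1 (vv x) (wv x)‖ (max ‖sgj 0 x‖ ‖sgj 1 x‖)

/-- points with large kernel are near the special point -/
def StGlobU : Prop :=
  ∀ U : Set EE, IsOpen U → phi x0 ∈ U → ∃ δ > 0, ∀ (x : XX) (A : EE →L[ℝ] FF) (V : Fin 2 → FF),
    x ∈ Mt → ‖A - f0‖ ≤ δ → (∀ j, ‖V j - VV j (phi x)‖ ≤ δ) → 3 ≤ kd x A V → phi x ∈ U

/-! ### Part L: local part -/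

/-- the `C^i`-norm on `MM` is at most `δ` -/
def Cl (i : ℕ) (δ : ℝ) (g : EE → FF) : Prop :=
  ContDiff ℝ ∞ g ∧ ∀ z ∈ MM, ∀ j ≤ i, ‖iteratedFDeriv ℝ j g z‖ ≤ δ

/-- the values of the differential at points with value near the base point are determined by
their images under `piN` -/
def PiInj (h : EE → FF) (V : Fin 2 → EE → FF) : Prop :=
  ∀ x ∈ Mt, ∀ (η : XX) (α : Fin 2 → ℝ), TT x η → 1 / 2 < (h (phi x)).1 0 0 →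
    1 / 2 < (h (phi x)).2 1 1 →
    piN (fderiv ℝ h (phi x) (dphi x η) + ∑ j, α j • V j (phi x)) = 0 →
    fderiv ℝ h (phi x) (dphi x η) + ∑ j, α j • V j (phi x) = 0

/-- the columns of the matrix of the differential in the charts -/
noncomputable def Jc (h : EE → FF) (V : Fin 2 → EE → FF) (z : Fin 9 → ℝ) : Fin 8 ⊕ Fin 3 → FF :=
  Sum.elim (fun j => fderiv ℝ (fun y => h (psi y)) z (Pi.single j.castSucc 1))
    ![fderiv ℝ (fun y => h (psi y)) z (Pi.single (Fin.last 8) 1), V 0 (psi z), V 1 (psi z)]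

/-- matrices -/
abbrev JT : Type := (Fin 8 ⊕ Fin 3) → (Fin 8 ⊕ Fin 3) → ℝ

/-- the matrix of the differential in the charts -/
noncomputable def Jm (h : EE → FF) (V : Fin 2 → EE → FF) (z : Fin 9 → ℝ) : JT :=
  fun i j => piN (Jc h V z j) i

/-- the dimension of the kernel of a matrix -/
noncomputable def kJ (J : JT) : ℕ :=
  Module.finrank ℝ (LinearMap.ker (Matrix.mulVecLin (Matrix.of J)))

/-- stability of a nondegenerate point of corank 3 -/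
def StPLR : Prop :=
  ∀ (J0 : (Fin 9 → ℝ) → JT) (r0 : ℝ), 0 < r0 → ContDiffOn ℝ 1 J0 (Metric.ball 0 r0) →
    (∀ i j, J0 0 i j = if i = j ∧ i.isLeft then 1 else 0) →
    (∀ ζ : Fin 9 → ℝ, (∀ i j : Fin 3, fderiv ℝ J0 0 ζ (Sum.inr i) (Sum.inr j) = 0) → ζ = 0) →
    ∀ ρ₁ > 0, ∃ ρ > 0, ρ ≤ ρ₁ ∧ ρ ≤ r0 ∧ ∃ δ > 0, ∀ J : (Fin 9 → ℝ) → JT,
      ContDiffOn ℝ 1 J (Metric.ball 0 ρ) →
      (∀ z ∈ Metric.ball (0 : Fin 9 → ℝ) ρ,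
        ‖J z - J0 z‖ ≤ δ ∧ ‖fderiv ℝ J z - fderiv ℝ J0 z‖ ≤ δ) →
      (∃ z ∈ Metric.ball (0 : Fin 9 → ℝ) ρ, kJ (J z) = 3) ∧
      (∀ z ∈ Metric.ball (0 : Fin 9 → ℝ) ρ, kJ (J z) ≤ 3) ∧
      ∀ z ∈ Metric.ball (0 : Fin 9 → ℝ) ρ, ∀ z' ∈ Metric.ball (0 : Fin 9 → ℝ) ρ,
        3 ≤ kJ (J z) → 3 ≤ kJ (J z') → z = z'

/-- the chart -/
def StPsi : Prop :=
  ContDiffOn ℝ ∞ psi (Metric.ball 0 (1 / 2)) ∧ psi 0 = phi x0 ∧
  (∀ z ∈ Metric.ball (0 : Fin 9 → ℝ) (1 / 2), ∃ x ∈ Mt, phi x = psi z) ∧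
  InjOn psi (Metric.ball 0 (1 / 2)) ∧
  (∀ z ∈ Metric.ball (0 : Fin 9 → ℝ) (1 / 2), Function.Injective (fderiv ℝ psi z)) ∧
  ∀ ρ > 0, ρ ≤ 1 / 2 → ∃ U : Set EE, IsOpen U ∧ MM ∩ U = psi '' Metric.ball 0 ρ

/-- tangent vectors in the chart -/
def StPsiT : Prop :=
  ∀ z ∈ Metric.ball (0 : Fin 9 → ℝ) (1 / 2), ∀ x ∈ Mt, phi x = psi z →
    (∀ ζ, ∃ η, TT x η ∧ dphi x η = fderiv ℝ psi z ζ) ∧
    ∀ η, TT x η → ∃ ζ, fderiv ℝ psi z ζ = dphi x η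

/-- the dimension of the kernel in the chart -/
def StJker : Prop :=
  ∀ (h : EE → FF) (V : Fin 2 → EE → FF) (z : Fin 9 → ℝ) (x : XX), ContDiff ℝ ∞ h →
    z ∈ Metric.ball (0 : Fin 9 → ℝ) (1 / 2) → x ∈ Mt → phi x = psi z → PiInj h V →
    1 / 2 < (h (phi x)).1 0 0 → 1 / 2 < (h (phi x)).2 1 1 →
    kd x (fderiv ℝ h (phi x)) (fun j => V j (phi x)) = kJ (Jm h V z)

/-- the matrix of the unperturbed problem: smoothness and value -/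
def StJ0a : Prop :=
  ContDiffOn ℝ 1 (Jm f0 VV) (Metric.ball 0 (1 / 2)) ∧
  ∀ i j, Jm f0 VV 0 i j = if i = j ∧ i.isLeft then 1 else 0

/-- the matrix of the unperturbed problem: derivative -/
def StJ0b : Prop :=
  ∀ ζ : Fin 9 → ℝ, (∀ i j : Fin 3, fderiv ℝ (Jm f0 VV) 0 ζ (Sum.inr i) (Sum.inr j) = 0) → ζ = 0

/-- closeness of the matrices -/
def StJclose : Prop :=
  ∃ C > 0, ∀ (h : EE → FF) (V : Fin 2 → EE → FF) (δ : ℝ), ContDiff ℝ ∞ h →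
    (∀ j, ContDiff ℝ ∞ (V j)) → Cl 2 δ (fun x => h x - f0 x) →
    (∀ j, Cl 1 δ (fun x => V j x - VV j x)) →
    ContDiffOn ℝ 1 (Jm h V) (Metric.ball 0 (1 / 4)) ∧
    ∀ z ∈ Metric.ball (0 : Fin 9 → ℝ) (1 / 4), ‖Jm h V z - Jm f0 VV z‖ ≤ C * δ ∧
      ‖fderiv ℝ (Jm h V) z - fderiv ℝ (Jm f0 VV) z‖ ≤ C * δ

/-- the points with large kernel near the special point -/
def StLoc : Prop :=
  ∃ U : Set EE, IsOpen U ∧ phi x0 ∈ U ∧ ∃ δ > 0, ∀ (h : EE → FF) (V : Fin 2 → EE → FF),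
    ContDiff ℝ ∞ h → (∀ j, ContDiff ℝ ∞ (V j)) → Cl 2 δ (fun x => h x - f0 x) →
    (∀ j, Cl 1 δ (fun x => V j x - VV j x)) → PiInj h V →
    ∃ m ∈ MM, (∀ x ∈ Mt, phi x = m → kd x (fderiv ℝ h (phi x)) (fun j => V j (phi x)) = 3) ∧
      ∀ x ∈ Mt, phi x ∈ U → 3 ≤ kd x (fderiv ℝ h (phi x)) (fun j => V j (phi x)) → phi x = m

/-- there is exactly one point with large kernel -/
def StTwo : Prop :=
  ∃ δ > 0, ∀ (h : EE → FF) (V : Fin 2 → EE → FF),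
    ContDiff ℝ ∞ h → (∀ j, ContDiff ℝ ∞ (V j)) → Cl 2 δ (fun x => h x - f0 x) →
    (∀ j, Cl 1 δ (fun x => V j x - VV j x)) → PiInj h V →
    ∃ m ∈ MM, ∀ x ∈ Mt,
      kd x (fderiv ℝ h (phi x)) (fun j => V j (phi x)) = 3 ↔ phi x = m

/-! ### Part H: the perturbed map `HF` -/

/-- `Th` maps squares of unit vectors to such -/
def StTh : Prop :=
  ∀ (y : Fin 11 → ℝ) (K : Fin 11 → Fin 11 → ℝ), dot y y = 1 → tp K = -K →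
    ∃ y' : Fin 11 → ℝ, dot y' y' = 1 ∧ Th (op y) K = op y'

/-- the map `HF`: smoothness, restriction, range -/
def StHF : Prop :=
  ∀ (β : (Fin 2 → ℝ) → ℝ) (h : EE → FF), ContDiff ℝ ∞ β → ContDiff ℝ ∞ h →
    ContDiff ℝ ∞ (fun p : (EE × (Fin 2 → ℝ)) × ℝ => HF β h p.2 p.1) ∧
    (∀ ε : ℝ, ContDiff ℝ ∞ (HF β h ε)) ∧ (∀ (ε : ℝ) (x : EE), HF β h ε (x, 0) = h x) ∧
    ∀ ε : ℝ, MapsTo h MM NM → MapsTo (HF β h ε) (MM ×ˢ univ) NM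

/-- the map `HF`: derivative -/
def StHFd : Prop :=
  ∀ (β : (Fin 2 → ℝ) → ℝ) (h : EE → FF) (ε : ℝ), ContDiff ℝ ∞ β → ContDiff ℝ ∞ h → β 0 = 1 →
    ∀ (x : EE) (j : Fin 2),
      fderiv ℝ (HF β h ε) (x, 0) (0, Pi.single j 1) = ε • Vf j x (h x).1

/-- the map `HF`: closeness -/
def StHFn : Prop :=
  ∀ (β : (Fin 2 → ℝ) → ℝ) (h : EE → FF), ContDiff ℝ ∞ β → HasCompactSupport β →
    ContDiff ℝ ∞ h → ∀ (j : ℕ) (δ : EE × (Fin 2 → ℝ) → ℝ), Continuous δ → (∀ z, 0 < δ z) →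
    ∃ ε₀ > 0, ∀ ε : ℝ, 0 < ε → ε < ε₀ → ∀ z ∈ MM ×ˢ (univ : Set (Fin 2 → ℝ)), ∀ i ≤ j,
      ‖iteratedFDeriv ℝ i (fun z => HF β h ε z - h z.1) z‖ < δ z

/-- the vector fields depend continuously on the map -/
def StVfc : Prop :=
  ∀ δ > 0, ∃ δ' > 0, ∀ g : EE → FF, Cl 1 δ' g → ∀ j : Fin 2,
    Cl 1 δ (fun x => Vf j x (x.1 + (g x).1) - VV j x)

/-- velocities of curves in `NM` are determined by their images under `piN` -/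
def StNTan : Prop :=
  ∀ (c : ℝ → FF) (ξ : FF), (∀ᶠ t in 𝓝 (0 : ℝ), c t ∈ NM) → HasDerivAt c ξ 0 →
    1 / 2 < (c 0).1 0 0 → 1 / 2 < (c 0).2 1 1 → piN ξ = 0 → ξ = 0

/-- the condition `PiInj` for maps to `NM` -/
def StPi : Prop :=
  ∀ (H : EE × (Fin 2 → ℝ) → FF) (ε : ℝ), ContDiff ℝ ∞ H → MapsTo H (MM ×ˢ univ) NM → ε ≠ 0 →
    PiInj (fun p => H (p, 0)) (fun j p => ε⁻¹ • fderiv ℝ H (p, 0) (0, Pi.single j 1))

/-- closeness of the data of a perturbation of `HF` -/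
def StClo : Prop :=
  ∀ δ > 0, ∃ δ₀ > 0, ∃ δ₂ > 0, ∀ (β : (Fin 2 → ℝ) → ℝ) (g : EE → FF)
    (g' : EE × (Fin 2 → ℝ) → FF) (ε : ℝ), ContDiff ℝ ∞ β → β 0 = 1 → 0 < ε → ε ≤ 1 →
    Cl 2 δ₀ g → ContDiff ℝ ∞ g' →
    (∀ z ∈ MM, ∀ i ≤ 2, ‖iteratedFDeriv ℝ i g' (z, 0)‖ ≤ ε * δ₂) →
    ∀ H : EE × (Fin 2 → ℝ) → FF, (∀ z, H z = HF β (fun x => f0 x + g x) ε z + g' z) →
    ContDiff ℝ ∞ H ∧ ContDiff ℝ ∞ (fun p => H (p, 0)) ∧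
    (∀ j : Fin 2, ContDiff ℝ ∞ (fun p => ε⁻¹ • fderiv ℝ H (p, 0) (0, Pi.single j 1))) ∧
    Cl 2 δ (fun p => H (p, 0) - f0 p) ∧
    ∀ j : Fin 2, Cl 1 δ (fun p => ε⁻¹ • fderiv ℝ H (p, 0) (0, Pi.single j 1) - VV j p)

/-- the two parts together: the choice of the constants -/
def StMain : Prop := ∀ G : Genericity, ¬ Q1 G

end Pool.Agent.Lib.MP_086785_gt.CB
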