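import Pool.Agent.Lib.MP_086785_gt.CB.Stmts

/-! Project CB: `Th` maps squares of unit vectors to squares of unit vectors. -/

set_option autoImplicit false

namespace Pool.Agent.Lib.MP_086785_gt.CB

open Set Filter Topology Finset
open scoped ContDiff

theorem stTh : StTh := by
  intro y K hy hK
  -- the vector `K y`
  set k : Fin 11 → ℝ := fun a => ∑ b, K a b * y b with hk
  have hskew : ∀ a b, K b a = - K a b := fun a b => by
    have := congrFun (congrFun hK a) b
    simpa [tp] using this
  have hyk : ∑ a, y a * k a = 0 := by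
    have h1 : ∑ a, y a * k a = ∑ a, ∑ b, y a * K a b * y b := by
      simp only [hk, Finset.mul_sum]
      exact Finset.sum_congr rfl fun a _ => Finset.sum_congr rfl fun b _ => by ring
    have h2 : ∑ a, ∑ b, y a * K a b * y b = - ∑ a, ∑ b, y a * K a b * y b := by
      conv_lhs => rw [Finset.sum_comm]
      rw [← Finset.sum_neg_distrib]
      refine Finset.sum_congr rfl fun a _ => ?_
      rw [← Finset.sum_neg_distrib]
      refine Finset.sum_congr rfl fun b _ => ?_
      rw [hskew a b]
      ring
    rw [h1]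
    linarith
  have hy' : ∑ a, y a * y a = 1 := hy
  have h1 : ∀ a b, mm K (op y) a b = k a * y b := fun a b => by
    simp only [mm, op, hk, Finset.sum_mul]
    exact Finset.sum_congr rfl fun c _ => by ring
  have h2 : ∀ a b, mm (op y) (tp K) a b = y a * k b := fun a b => by
    simp only [mm, op, tp, hk, Finset.mul_sum]
    exact Finset.sum_congr rfl fun c _ => by ring
  have h3 : ∀ a b, mm (mm K (op y)) (tp K) a b = k a * k b := fun a b => by
    simp only [mm, tp]
    have : ∀ c, (∑ d, K a d * op y d c) = k a * y c := fun c => h1 a c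
    simp only [this]
    rw [show k b = ∑ c, K b c * y c from rfl, Finset.mul_sum]
    exact Finset.sum_congr rfl fun c _ => by ring
  have h4 : ∑ a, ∑ b, (mm K (op y) a b) ^ 2 = ∑ a, k a ^ 2 := by
    simp only [h1]
    refine Finset.sum_congr rfl fun a _ => ?_
    have : ∀ b, (k a * y b) ^ 2 = k a ^ 2 * (y b * y b) := fun b => by ring
    simp only [this]
    rw [← Finset.mul_sum, hy', mul_one]
  have hpos : 0 < 1 + ∑ a, k a ^ 2 :=
    add_pos_of_pos_of_nonneg one_pos (Finset.sum_nonneg fun a _ => sq_nonneg _)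
  set s : ℝ := Real.sqrt (1 + ∑ a, k a ^ 2) with hs
  have hs2 : s * s = 1 + ∑ a, k a ^ 2 := Real.mul_self_sqrt hpos.le
  have hs0 : s ≠ 0 := (Real.sqrt_pos.2 hpos).ne'
  refine ⟨fun a => s⁻¹ * (y a + k a), ?_, ?_⟩
  · have : dot (fun a => s⁻¹ * (y a + k a)) (fun a => s⁻¹ * (y a + k a)) =
        (s * s)⁻¹ * ((∑ a, y a * y a) + 2 * (∑ a, y a * k a) + ∑ a, k a ^ 2) := by
      rw [Finset.mul_sum, ← Finset.sum_add_distrib, ← Finset.sum_add_distrib, Finset.mul_sum]
      refine Finset.sum_congr rfl fun a _ => ?_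
      rw [mul_inv]
      ring
    rw [this, hy', hyk, hs2, mul_zero, add_zero, inv_mul_cancel₀ hpos.ne']
  · funext a b
    rw [Th, h4]
    simp only [Pi.smul_apply, Pi.add_apply, h1, h2, h3, smul_eq_mul, ← hs2, op, mul_inv]
    ring

end Pool.Agent.Lib.MP_086785_gt.CB
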